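import Pool.Agent.Helper67.Pe

set_option autoImplicit false

/-!
The Alexandrov-Fenchel inequality for permanents, by the Bochner method.
-/

namespace Pool.Agent.Helper67

open Finset

section Spectral

variable {ι : Type*} [Fintype ι] [DecidableEq ι]

lemma spectral_aux (N : Matrix ι ι ℝ) (hN : N.IsHermitian) :
    ∃ (lam : ι → ℝ) (u : ι → ι → ℝ), (∀ i, N.mulVec (u i) = lam i • u i) ∧
      (∀ ξ η : ι → ℝ, ∑ i, (ξ ⬝ᵥ u i) * (u i ⬝ᵥ η) = ξ ⬝ᵥ η) ∧ (∀ i, u i ⬝ᵥ u i = 1) := by
  refine ⟨hN.eigenvalues, fun i => (hN.eigenvectorBasis i).ofLp, fun i => ?_, fun ξ η => ?_,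
    fun i => ?_⟩
  · exact hN.mulVec_eigenvectorBasis i
  · have h := hN.eigenvectorBasis.sum_inner_mul_inner (WithLp.toLp 2 ξ) (WithLp.toLp 2 η)
    simp only [EuclideanSpace.inner_eq_star_dotProduct, star_trivial] at h
    rw [dotProduct_comm ξ η, ← h]
    refine Finset.sum_congr rfl fun i _ => ?_
    rw [dotProduct_comm ξ, dotProduct_comm _ η]
  · have h := hN.eigenvectorBasis.orthonormal.1 i
    have h2 : inner ℝ (hN.eigenvectorBasis i) (hN.eigenvectorBasis i) = (1 : ℝ) := by
      rw [real_inner_self_eq_norm_sq, h]; norm_num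
    simpa only [EuclideanSpace.inner_eq_star_dotProduct, star_trivial] using h2

lemma bochner (N : Matrix ι ι ℝ) (hN : N.IsHermitian) (ζ : ι → ℝ)
    (H1 : ∀ ξ, ξ ⬝ᵥ N.mulVec ξ ≤ N.mulVec ξ ⬝ᵥ N.mulVec ξ)
    (H2 : ∀ ξ, ξ ⬝ᵥ N.mulVec ξ ≤ ξ ⬝ᵥ ξ)
    (H3 : ∀ ξ, ξ ⬝ᵥ N.mulVec ξ = ξ ⬝ᵥ ξ → ∃ c : ℝ, ξ = c • ζ) :
    ∀ ξ, ξ ⬝ᵥ ζ = 0 → ξ ⬝ᵥ N.mulVec ξ ≤ 0 := by
  obtain ⟨lam, u, h1, h2, h3⟩ := spectral_aux N hN
  intro ξ hξ
  rw [← h2]
  refine Finset.sum_nonpos fun i _ => ?_
  have hsym : u i ⬝ᵥ N.mulVec ξ = lam i * (ξ ⬝ᵥ u i) := by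
    rw [Matrix.dotProduct_mulVec, ← Matrix.mulVec_transpose]
    have : N.transpose = N := by
      have := hN.eq
      rwa [Matrix.conjTranspose_eq_transpose_of_trivial] at this
    rw [this, h1, smul_dotProduct, smul_eq_mul, dotProduct_comm]
  rw [hsym]
  have hq : u i ⬝ᵥ N.mulVec (u i) = lam i := by
    rw [h1, dotProduct_smul, h3, smul_eq_mul, mul_one]
  have hqq : N.mulVec (u i) ⬝ᵥ N.mulVec (u i) = lam i * lam i := by
    rw [h1, dotProduct_smul, smul_dotProduct, h3]; simp
  have e1 := H1 (u i)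
  have e2 := H2 (u i)
  rw [hq, hqq] at e1
  rw [hq, h3] at e2
  by_cases hl : lam i ≤ 0
  · have : (ξ ⬝ᵥ u i) * (lam i * (ξ ⬝ᵥ u i)) = lam i * (ξ ⬝ᵥ u i)^2 := by ring
    rw [this]
    exact mul_nonpos_of_nonpos_of_nonneg hl (sq_nonneg _)
  · push Not at hl
    have hl1 : 1 ≤ lam i := by
      by_contra hcon
      push Not at hcon
      nlinarith
    have hl2 : lam i = 1 := le_antisymm e2 hl1
    obtain ⟨c, hcz⟩ := H3 (u i) (by rw [hq, h3, hl2])
    have : ξ ⬝ᵥ u i = 0 := by
      rw [hcz, dotProduct_smul, hξ, smul_zero]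
    rw [this]; simp

end Spectral

section AF

variable {β : Type*} [DecidableEq β]

lemma Pe_rot3 (x y z : β → ℝ) (L : List (β → ℝ)) (T : Finset β) :
    Pe (x :: y :: z :: L) T = Pe (z :: x :: y :: L) T := by
  apply Pe_perm
  have h1 : (x :: y :: z :: L).Perm (x :: z :: y :: L) := (List.Perm.swap z y L).cons x
  have h2 : (x :: z :: y :: L).Perm (z :: x :: y :: L) := List.Perm.swap z x _
  exact h1.trans h2

lemma AF_step (z : β → ℝ) (L : List (β → ℝ)) (T : Finset β) (hc : L.length + 3 = T.card)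
    (hz : ∀ j ∈ T, 0 < z j) (hL : ∀ r ∈ L, ∀ j ∈ T, 0 < r j)
    (IH : ∀ k ∈ T, ∀ x : β → ℝ, Pe (x :: x :: L) (T.erase k) * Pe (z :: z :: L) (T.erase k)
      ≤ (Pe (x :: z :: L) (T.erase k)) ^ 2) :
    ∀ x : β → ℝ, Pe (x :: z :: z :: L) T = 0 → Pe (x :: x :: z :: L) T ≤ 0 := by
  classical
  -- notation
  set c : β → ℝ := fun k => Pe (z :: z :: L) (T.erase k) with hcdef
  set bt : β → β → ℝ := fun k l => Pe (z :: L) ((T.erase k).erase l) with hbt
  have hcardE : ∀ k ∈ T, (T.erase k).card = L.length + 2 := by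
    intro k hk; rw [Finset.card_erase_of_mem hk]; omega
  have hcpos : ∀ k ∈ T, 0 < c k := by
    intro k hk
    refine Pe_pos _ _ (by rw [hcardE k hk]; simp) ?_
    intro r hr j hj
    have hj' := Finset.mem_of_mem_erase hj
    simp only [List.mem_cons] at hr
    rcases hr with rfl | rfl | hr
    · exact hz j hj'
    · exact hz j hj'
    · exact hL r hr j hj'
  have hbtpos : ∀ k ∈ T, ∀ l ∈ T, k ≠ l → 0 < bt k l := by
    intro k hk l hl hkl
    refine Pe_pos _ _ ?_ ?_
    · rw [Finset.card_erase_of_mem (Finset.mem_erase.mpr ⟨hkl.symm, hl⟩), hcardE k hk]; simp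
    · intro r hr j hj
      have hj' := Finset.mem_of_mem_erase (Finset.mem_of_mem_erase hj)
      simp only [List.mem_cons] at hr
      rcases hr with rfl | hr
      · exact hz j hj'
      · exact hL r hr j hj'
  have hbtsymm : ∀ k l, bt k l = bt l k := by
    intro k l; simp only [hbt]; rw [Finset.erase_right_comm]
  have hcexp : ∀ k, c k = ∑ l ∈ T.erase k, z l * bt k l := fun k => rfl
  set p : (β → ℝ) → β → ℝ := fun x k => Pe (x :: z :: L) (T.erase k) with hp
  have hpexp : ∀ x k, p x k = ∑ l ∈ T.erase k, x l * bt k l := fun x k => rfl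
  -- the weights
  set w : β → ℝ := fun k => c k / z k with hw
  have hwpos : ∀ k ∈ T, 0 < w k := fun k hk => div_pos (hcpos k hk) (hz k hk)
  set s : β → ℝ := fun k => Real.sqrt (w k) with hs
  have hspos : ∀ k ∈ T, 0 < s k := fun k hk => Real.sqrt_pos.mpr (hwpos k hk)
  have hss : ∀ k ∈ T, s k * s k = w k := fun k hk => Real.mul_self_sqrt (hwpos k hk).le
  -- the quadratic form
  have hB1 : ∀ x : β → ℝ, Pe (x :: x :: z :: L) T = ∑ k ∈ T, x k * p x k := fun x => rfl
  have hB2 : ∀ x : β → ℝ, Pe (x :: x :: z :: L) T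
      = ∑ k ∈ T, z k * Pe (x :: x :: L) (T.erase k) := by
    intro x; rw [Pe_rot3]; rfl
  have hBz : ∀ x : β → ℝ, Pe (x :: z :: z :: L) T = ∑ k ∈ T, x k * c k := fun x => rfl
  -- key inequality
  have key1 : ∀ x : β → ℝ, Pe (x :: x :: z :: L) T ≤ ∑ k ∈ T, (p x k) ^ 2 / w k := by
    intro x
    rw [hB2]
    refine Finset.sum_le_sum fun k hk => ?_
    have h1 := IH k hk x
    have h2 := hcpos k hk
    have h3 := hz k hk
    have : (p x k) ^ 2 / w k = z k * ((p x k) ^ 2 / c k) := by
      simp only [hw]; field_simp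
    rw [this]
    refine mul_le_mul_of_nonneg_left ?_ h3.le
    rw [le_div_iff₀ h2]
    exact h1
  -- Dirichlet form
  have hsymsum : ∀ f : β → β → ℝ, ∑ k ∈ T, ∑ l ∈ T.erase k, f k l
      = ∑ k ∈ T, ∑ l ∈ T.erase k, f l k := by
    intro f
    rw [Finset.sum_comm' (s' := fun y => T.erase y) (t' := T)]
    intro a b
    simp only [Finset.mem_erase]
    tauto
  have key2 : ∀ x : β → ℝ, 2 * (∑ k ∈ T, w k * x k ^ 2 - Pe (x :: x :: z :: L) T)
      = ∑ k ∈ T, ∑ l ∈ T.erase k, bt k l * z k * z l * (x k / z k - x l / z l) ^ 2 := by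
    intro x
    have e1 : ∑ k ∈ T, w k * x k ^ 2 = ∑ k ∈ T, ∑ l ∈ T.erase k, bt k l * (x k ^ 2 * z l / z k) := by
      refine Finset.sum_congr rfl fun k hk => ?_
      simp only [hw]
      rw [hcexp, Finset.sum_div, Finset.sum_mul]
      refine Finset.sum_congr rfl fun l hl => ?_
      ring
    have e1' : ∑ k ∈ T, w k * x k ^ 2 = ∑ k ∈ T, ∑ l ∈ T.erase k, bt k l * (x l ^ 2 * z k / z l) := by
      rw [e1, hsymsum]
      refine Finset.sum_congr rfl fun k hk => Finset.sum_congr rfl fun l hl => ?_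
      rw [hbtsymm l k]
    have e2 : Pe (x :: x :: z :: L) T = ∑ k ∈ T, ∑ l ∈ T.erase k, bt k l * (x k * x l) := by
      rw [hB1]
      refine Finset.sum_congr rfl fun k hk => ?_
      rw [hpexp, Finset.mul_sum]
      refine Finset.sum_congr rfl fun l hl => ?_
      ring
    have : 2 * (∑ k ∈ T, w k * x k ^ 2 - Pe (x :: x :: z :: L) T)
        = ∑ k ∈ T, w k * x k ^ 2 + ∑ k ∈ T, w k * x k ^ 2 - 2 * Pe (x :: x :: z :: L) T := by ring
    rw [this]
    nth_rewrite 1 [e1]
    rw [e1', e2, Finset.mul_sum, ← Finset.sum_add_distrib, ← Finset.sum_sub_distrib]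
    refine Finset.sum_congr rfl fun k hk => ?_
    rw [Finset.mul_sum, ← Finset.sum_add_distrib, ← Finset.sum_sub_distrib]
    refine Finset.sum_congr rfl fun l hl => ?_
    have h1 := (hz k hk).ne'
    have h2 := (hz l (Finset.mem_of_mem_erase hl)).ne'
    field_simp
    ring
  have key2' : ∀ x : β → ℝ, Pe (x :: x :: z :: L) T ≤ ∑ k ∈ T, w k * x k ^ 2 := by
    intro x
    have h := key2 x
    have h0 : 0 ≤ ∑ k ∈ T, ∑ l ∈ T.erase k, bt k l * z k * z l * (x k / z k - x l / z l) ^ 2 := by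
      refine Finset.sum_nonneg fun k hk => Finset.sum_nonneg fun l hl => ?_
      have hl' := Finset.mem_erase.mp hl
      have := hbtpos k hk l hl'.2 hl'.1.symm
      have h1 := hz k hk
      have h2 := hz l hl'.2
      positivity
    linarith
  have key3 : ∀ x : β → ℝ, Pe (x :: x :: z :: L) T = ∑ k ∈ T, w k * x k ^ 2 →
      ∀ k ∈ T, ∀ l ∈ T, x k / z k = x l / z l := by
    intro x hx k hk l hl
    by_cases hkl : k = l
    · rw [hkl]
    have h := key2 x
    rw [hx, sub_self, mul_zero] at h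
    have hnn : ∀ k ∈ T, ∀ l ∈ T.erase k,
        0 ≤ bt k l * z k * z l * (x k / z k - x l / z l) ^ 2 := by
      intro k hk l hl
      have hl' := Finset.mem_erase.mp hl
      have := hbtpos k hk l hl'.2 hl'.1.symm
      have h1 := hz k hk
      have h2 := hz l hl'.2
      positivity
    have h1 := (Finset.sum_eq_zero_iff_of_nonneg
      (fun k hk => Finset.sum_nonneg fun l hl => hnn k hk l hl)).mp h.symm k hk
    have hl2 : l ∈ T.erase k := Finset.mem_erase.mpr ⟨Ne.symm hkl, hl⟩
    have h2 := (Finset.sum_eq_zero_iff_of_nonneg (fun l hl => hnn k hk l hl)).mp h1 l hl2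
    have h3 : 0 < bt k l * z k * z l :=
      mul_pos (mul_pos (hbtpos k hk l hl hkl) (hz k hk)) (hz l hl)
    have h4 : (x k / z k - x l / z l) ^ 2 = 0 := by
      rcases mul_eq_zero.mp h2 with h | h
      · exact absurd h h3.ne'
      · exact h
    have := pow_eq_zero_iff (two_ne_zero) |>.mp h4
    linarith
  -- the symmetric matrix
  let N : Matrix T T ℝ := fun k l => if k = l then 0 else bt k l / (s k * s l)
  have hNherm : N.IsHermitian := by
    ext k l
    simp only [Matrix.conjTranspose_apply, star_trivial, N]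
    by_cases h : k = l
    · subst h; simp
    · rw [if_neg h, if_neg (Ne.symm h), hbtsymm, mul_comm (s (k : β))]
  let ext : (T → ℝ) → β → ℝ := fun ξ b => if h : b ∈ T then ξ ⟨b, h⟩ / s b else 0
  have hext : ∀ (ξ : T → ℝ) (k : T), ext ξ k = ξ k / s k := by
    intro ξ k
    simp only [ext]
    rw [dif_pos k.2]
  have hN1 : ∀ (ξ : T → ℝ) (k : T), N.mulVec ξ k = p (ext ξ) k / s k := by
    intro ξ k
    rw [hpexp, Finset.sum_div]
    simp only [Matrix.mulVec, dotProduct, N]
    have : ∀ f : β → ℝ, ∑ l ∈ T.erase (k : β), f l = ∑ l : T, if k = l then 0 else f l := by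
      intro f
      have h1 : ∑ l : T, (if k = l then 0 else f l) = ∑ l : T, (if (k : β) = (l : β) then 0 else f l) := by
        refine Finset.sum_congr rfl fun l _ => ?_
        by_cases h : k = l
        · simp [h]
        · rw [if_neg h, if_neg (fun h' => h (Subtype.ext h'))]
      rw [h1, Finset.sum_coe_sort T (fun l => if (k : β) = l then 0 else f l),
        ← Finset.add_sum_erase T _ k.2, if_pos rfl, zero_add]
      refine Finset.sum_congr rfl fun l hl => ?_
      rw [if_neg (Finset.ne_of_mem_erase hl).symm]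
    rw [this]
    refine Finset.sum_congr rfl fun l _ => ?_
    by_cases h : k = l
    · simp [h]
    · rw [if_neg h, if_neg h, hext]
      have h1 := (hspos k k.2).ne'
      have h2 := (hspos l l.2).ne'
      field_simp
  have hq : ∀ ξ : T → ℝ, ξ ⬝ᵥ N.mulVec ξ = Pe (ext ξ :: ext ξ :: z :: L) T := by
    intro ξ
    rw [hB1, ← Finset.sum_coe_sort T]
    simp only [dotProduct]
    refine Finset.sum_congr rfl fun k _ => ?_
    rw [hN1, hext]
    ring
  have hnorm : ∀ ξ : T → ℝ, ξ ⬝ᵥ ξ = ∑ k ∈ T, w k * (ext ξ k) ^ 2 := by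
    intro ξ
    rw [← Finset.sum_coe_sort T]
    simp only [dotProduct]
    refine Finset.sum_congr rfl fun k _ => ?_
    rw [hext, ← hss k k.2]
    have h1 := (hspos k k.2).ne'
    field_simp
  have hnorm2 : ∀ ξ : T → ℝ, N.mulVec ξ ⬝ᵥ N.mulVec ξ = ∑ k ∈ T, (p (ext ξ) k) ^ 2 / w k := by
    intro ξ
    rw [← Finset.sum_coe_sort T]
    simp only [dotProduct]
    refine Finset.sum_congr rfl fun k _ => ?_
    rw [hN1, ← hss k k.2]
    have h1 := (hspos k k.2).ne'
    field_simp
  have hbo := bochner N hNherm (fun k : T => s k * z k)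
    (fun ξ => by rw [hq, hnorm2]; exact key1 _)
    (fun ξ => by rw [hq, hnorm]; exact key2' _)
    (fun ξ h => by
      rw [hq, hnorm] at h
      have h3 := key3 _ h
      have hTne : T.Nonempty := Finset.card_pos.mp (by omega)
      obtain ⟨k0, hk0⟩ := hTne
      refine ⟨ext ξ k0 / z k0, ?_⟩
      funext k
      have h4 := h3 k k.2 k0 hk0
      have h5 : ext ξ k = ext ξ k0 / z k0 * z k := by
        have := (hz k k.2).ne'
        field_simp at h4 ⊢
        exact h4
      rw [hext] at h5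
      have h7 := (hspos k k.2).ne'
      simp only [Pi.smul_apply, smul_eq_mul]
      rw [div_eq_iff h7] at h5
      rw [h5]; ring)
  intro x hx
  let ξ : T → ℝ := fun k => s k * x k
  have hxi : ∀ k ∈ T, ext ξ k = x k := by
    intro k hk
    have := hext ξ ⟨k, hk⟩
    simp only [ξ] at this ⊢
    rw [this]
    have h7 := (hspos k hk).ne'
    field_simp
  have e1 : Pe (ext ξ :: ext ξ :: z :: L) T = Pe (x :: x :: z :: L) T := by
    rw [Pe_congr_head _ x _ _ hxi, Pe_swap, Pe_congr_head _ x _ _ hxi]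
  have e2 : ξ ⬝ᵥ (fun k : T => s k * z k) = 0 := by
    rw [← hx, hBz, ← Finset.sum_coe_sort T]
    simp only [dotProduct, ξ]
    refine Finset.sum_congr rfl fun k _ => ?_
    have h7 := hss k k.2
    have h8 := (hz k k.2).ne'
    have h9 : c k = w k * z k := by simp only [hw]; field_simp
    rw [h9, ← h7]; ring
  have := hbo ξ e2
  rw [hq, e1] at this
  exact this

/-- Alexandrov-Fenchel for positive vectors. -/
theorem AF_pos (L : List (β → ℝ)) : ∀ (T : Finset β), L.length + 2 = T.card →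
    (∀ r ∈ L, ∀ j ∈ T, 0 < r j) → ∀ x y : β → ℝ, (∀ j ∈ T, 0 ≤ y j) →
    Pe (x :: x :: L) T * Pe (y :: y :: L) T ≤ (Pe (x :: y :: L) T) ^ 2 := by
  induction L with
  | nil =>
    intro T hT _ x y hy
    obtain ⟨p, q, hpq, rfl⟩ := Finset.card_eq_two.mp (by rw [← hT]; rfl : T.card = 2)
    have hexp : ∀ x y : β → ℝ, Pe (x :: y :: []) {p, q} = x p * y q + x q * y p := by
      intro x y
      rw [Pe_cons, Finset.sum_pair hpq]
      have h1 : ({p, q} : Finset β).erase p = {q} := by
        ext a; simp only [Finset.mem_erase, Finset.mem_insert, Finset.mem_singleton]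
        constructor
        · rintro ⟨h1, h2 | h2⟩
          · exact absurd h2 h1
          · exact h2
        · rintro rfl; exact ⟨hpq.symm, Or.inr rfl⟩
      have h2 : ({p, q} : Finset β).erase q = {p} := by
        ext a; simp only [Finset.mem_erase, Finset.mem_insert, Finset.mem_singleton]
        constructor
        · rintro ⟨h1, h2 | h2⟩
          · exact h2
          · exact absurd h2 h1
        · rintro rfl; exact ⟨hpq, Or.inl rfl⟩
      rw [h1, h2, Pe_cons, Pe_cons]
      simp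
    rw [hexp, hexp, hexp]
    nlinarith [sq_nonneg (x p * y q - x q * y p)]
  | cons z L ih =>
    intro T hT hpos x y hy
    have hz : ∀ j ∈ T, 0 < z j := hpos z (by simp)
    have hL : ∀ r ∈ L, ∀ j ∈ T, 0 < r j := fun r hr => hpos r (by simp [hr])
    have hcard : L.length + 3 = T.card := by rw [← hT]; simp
    have hstep := AF_step z L T hcard hz hL (fun k hk x => by
      refine ih (T.erase k) ?_ ?_ x z ?_
      · rw [Finset.card_erase_of_mem hk]; omega
      · intro r hr j hj; exact hL r hr j (Finset.mem_of_mem_erase hj)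
      · intro j hj; exact (hz j (Finset.mem_of_mem_erase hj)).le)
    -- positivity of the pairing with z
    have hcpos : ∀ k ∈ T, 0 < Pe (z :: z :: L) (T.erase k) := by
      intro k hk
      refine Pe_pos _ _ (by rw [Finset.card_erase_of_mem hk]; simp; omega) ?_
      intro r hr j hj
      have hj' := Finset.mem_of_mem_erase hj
      simp only [List.mem_cons] at hr
      rcases hr with rfl | rfl | hr
      · exact hz j hj'
      · exact hz j hj'
      · exact hL r hr j hj'
    have hyy : 0 ≤ Pe (y :: y :: z :: L) T := by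
      refine Pe_nonneg _ _ ?_
      intro r hr j hj
      simp only [List.mem_cons] at hr
      rcases hr with rfl | rfl | rfl | hr
      · exact hy j hj
      · exact hy j hj
      · exact (hz j hj).le
      · exact (hL r hr j hj).le
    by_cases hy0 : ∀ j ∈ T, y j = 0
    · have : Pe (y :: y :: z :: L) T = 0 := by
        rw [Pe_cons]
        exact Finset.sum_eq_zero fun j hj => by rw [hy0 j hj, zero_mul]
      rw [this, mul_zero]
      positivity
    · push Not at hy0
      obtain ⟨j0, hj0, hyj0⟩ := hy0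
      have hyz : 0 < Pe (y :: z :: z :: L) T := by
        rw [Pe_cons]
        refine Finset.sum_pos' (fun j hj => mul_nonneg (hy j hj) (hcpos j hj).le) ⟨j0, hj0, ?_⟩
        exact mul_pos (lt_of_le_of_ne (hy j0 hj0) (Ne.symm hyj0)) (hcpos j0 hj0)
      set t : ℝ := Pe (x :: z :: z :: L) T / Pe (y :: z :: z :: L) T with ht
      have h0 : Pe ((x - t • y) :: z :: z :: L) T = 0 := by
        rw [Pe_sub_head, Pe_smul_head, ht]
        field_simp
        ring
      have h1 := hstep _ h0
      have h2 : Pe ((x - t • y) :: (x - t • y) :: z :: L) T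
          = Pe (x :: x :: z :: L) T - 2 * t * Pe (x :: y :: z :: L) T
            + t ^ 2 * Pe (y :: y :: z :: L) T := by
        rw [Pe_sub_head, Pe_sub_snd, Pe_smul_head, Pe_sub_snd, Pe_smul_snd, Pe_smul_snd,
          Pe_swap y x]
        ring
      rw [h2] at h1
      nlinarith [sq_nonneg (t * Pe (y :: y :: z :: L) T - Pe (x :: y :: z :: L) T),
        mul_nonneg hyy (neg_nonneg.mpr h1)]

end AF

end Pool.Agent.Helper67
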