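import Pool.Agent.Helper67.AF

set_option autoImplicit false

namespace Pool.Agent.Helper67

open Finset Filter Topology

variable {β : Type*} [DecidableEq β]

lemma Pe_continuous_shift (L : List (β → ℝ)) (T : Finset β) :
    Continuous fun ε : ℝ => Pe (L.map (fun r => fun j => r j + ε)) T := by
  induction L generalizing T with
  | nil => simp only [List.map_nil]; exact continuous_const
  | cons r L ih =>
    simp only [List.map_cons, Pe_cons]
    refine continuous_finsetSum _ fun j _ => Continuous.mul (by fun_prop) (ih _)

/-- Alexandrov-Fenchel for nonnegative vectors. -/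
theorem AF_nonneg (L : List (β → ℝ)) (T : Finset β) (hc : L.length + 2 = T.card)
    (hL : ∀ r ∈ L, ∀ j ∈ T, 0 ≤ r j) (x y : β → ℝ) (hy : ∀ j ∈ T, 0 ≤ y j) :
    Pe (x :: x :: L) T * Pe (y :: y :: L) T ≤ (Pe (x :: y :: L) T) ^ 2 := by
  have hcont : ∀ a b : β → ℝ, Continuous fun ε : ℝ =>
      Pe (a :: b :: L.map (fun r => fun j => r j + ε)) T := by
    intro a b
    simp only [Pe_cons]
    refine continuous_finsetSum _ fun j _ => Continuous.mul continuous_const ?_
    refine continuous_finsetSum _ fun j' _ => Continuous.mul continuous_const ?_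
    exact Pe_continuous_shift L _
  have hzero : ∀ a b : β → ℝ, Pe (a :: b :: L.map (fun r => fun j => r j + (0 : ℝ))) T
      = Pe (a :: b :: L) T := by
    intro a b; simp
  have hlim : Tendsto (fun ε : ℝ =>
      (Pe (x :: y :: L.map (fun r => fun j => r j + ε)) T) ^ 2
        - Pe (x :: x :: L.map (fun r => fun j => r j + ε)) T
          * Pe (y :: y :: L.map (fun r => fun j => r j + ε)) T) (𝓝[>] 0)
      (𝓝 ((Pe (x :: y :: L) T) ^ 2 - Pe (x :: x :: L) T * Pe (y :: y :: L) T)) := by
    have hc' : Continuous (fun ε : ℝ =>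
      (Pe (x :: y :: L.map (fun r => fun j => r j + ε)) T) ^ 2
        - Pe (x :: x :: L.map (fun r => fun j => r j + ε)) T
          * Pe (y :: y :: L.map (fun r => fun j => r j + ε)) T) :=
      ((hcont x y).pow 2).sub ((hcont x x).mul (hcont y y))
    have := (hc'.tendsto 0).mono_left (nhdsWithin_le_nhds (s := Set.Ioi 0))
    simpa only [hzero] using this
  have hge := ge_of_tendsto hlim (b := 0) (by
    filter_upwards [self_mem_nhdsWithin] with ε hε
    have hε' : (0 : ℝ) < ε := hε
    have := AF_pos (L.map (fun r => fun j => r j + ε)) T (by simpa using hc) (by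
      intro r hr j hj
      obtain ⟨r', hr', rfl⟩ := List.mem_map.mp hr
      have := hL r' hr' j hj
      simp only
      linarith) x y hy
    linarith)
  linarith

end Pool.Agent.Helper67
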