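import Mathlib

set_option autoImplicit false

/-!
Analytic estimates.
-/

namespace Pool.Agent.Helper67

open Finset

lemma pade_deriv (z : ℝ) (hz : 0 < z) :
    HasDerivAt (fun y : ℝ => (y - 1) * (y + 5) / (4 * y + 2) - Real.log y)
      (4 * (z - 1) ^ 3 / ((4 * z + 2) ^ 2 * z)) z := by
  have h1 : HasDerivAt (fun y : ℝ => (y - 1) * (y + 5)) (1 * (z + 5) + (z - 1) * 1) z :=
    ((hasDerivAt_id z).sub_const 1).mul ((hasDerivAt_id z).add_const 5)
  have h2 : HasDerivAt (fun y : ℝ => 4 * y + 2) (4 * 1) z :=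
    ((hasDerivAt_id z).const_mul 4).add_const 2
  have hne : 4 * z + 2 ≠ 0 := by positivity
  have h3 := (h1.div h2 hne).sub (Real.hasDerivAt_log hz.ne')
  refine h3.congr_deriv ?_
  field_simp
  ring

lemma pade (y : ℝ) (hy : 0 < y) : Real.log y ≤ (y - 1) * (y + 5) / (4 * y + 2) := by
  set f : ℝ → ℝ := fun y : ℝ => (y - 1) * (y + 5) / (4 * y + 2) - Real.log y with hf
  have hf1 : f 1 = 0 := by simp [hf]
  suffices h : f 1 ≤ f y by
    rw [hf1] at h
    simp only [hf] at h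
    linarith
  rcases le_total 1 y with h | h
  · have hm : MonotoneOn f (Set.Ici 1) := by
      apply monotoneOn_of_deriv_nonneg (convex_Ici 1)
      · intro z hz
        exact (pade_deriv z (lt_of_lt_of_le one_pos hz)).continuousAt.continuousWithinAt
      · intro z hz
        rw [interior_Ici] at hz
        have hz' : 0 < z := lt_trans one_pos hz
        exact (pade_deriv z hz').differentiableAt.differentiableWithinAt
      · intro z hz
        rw [interior_Ici] at hz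
        have hz' : 0 < z := lt_trans one_pos hz
        rw [(pade_deriv z hz').deriv]
        have : 0 ≤ z - 1 := by
          have : 1 < z := hz
          linarith
        positivity
    exact hm (Set.mem_Ici.mpr le_rfl) (Set.mem_Ici.mpr h) h
  · have hm : AntitoneOn f (Set.Ioc 0 1) := by
      apply antitoneOn_of_deriv_nonpos (convex_Ioc 0 1)
      · intro z hz
        exact (pade_deriv z hz.1).continuousAt.continuousWithinAt
      · intro z hz
        rw [interior_Ioc] at hz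
        exact (pade_deriv z hz.1).differentiableAt.differentiableWithinAt
      · intro z hz
        rw [interior_Ioc] at hz
        rw [(pade_deriv z hz.1).deriv]
        have h1 : z - 1 ≤ 0 := by linarith [hz.2]
        have h2 : (z - 1) ^ 3 ≤ 0 := by
          have : (z - 1) ^ 3 = (z - 1) * (z - 1) ^ 2 := by ring
          rw [this]
          exact mul_nonpos_of_nonpos_of_nonneg h1 (sq_nonneg _)
        have h3 : 0 < (4 * z + 2) ^ 2 * z := by have := hz.1; positivity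
        exact div_nonpos_of_nonpos_of_nonneg (by linarith) h3.le
    exact hm ⟨hy, h⟩ ⟨one_pos, le_rfl⟩ h

/-- Entropy estimate. -/
lemma pinsker {n : ℕ} (y : Fin n → ℝ) (hy : ∀ i, 0 < y i) (hsum : ∑ i, y i = n) :
    2 * (∑ i, max (y i - 1) 0) ^ 2 ≤ -((n : ℝ) * Real.log (∏ i, y i)) := by
  rw [Real.log_prod (fun i _ => (hy i).ne')]
  have h1 : ∑ i, Real.log (y i) ≤ ∑ i, ((y i - 1) - 3 * ((y i - 1) ^ 2 / (4 * y i + 2))) := by
    refine Finset.sum_le_sum fun i _ => (pade (y i) (hy i)).trans (le_of_eq ?_)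
    have hne : 4 * y i + 2 ≠ 0 := by have := hy i; positivity
    have e : (y i - 1) * (y i + 5) = (y i - 1) * (4 * y i + 2) - 3 * (y i - 1) ^ 2 := by ring
    rw [e, sub_div, mul_div_assoc, div_self hne, mul_one, mul_div_assoc]
  have h2 : ∑ i, ((y i - 1) - 3 * ((y i - 1) ^ 2 / (4 * y i + 2)))
      = -(3 * ∑ i, (y i - 1) ^ 2 / (4 * y i + 2)) := by
    rw [Finset.sum_sub_distrib, Finset.sum_sub_distrib, hsum, ← Finset.mul_sum]
    simp
  have h3 : (∑ i, |y i - 1|) ^ 2 ≤ (∑ i, (y i - 1) ^ 2 / (4 * y i + 2)) * ∑ i, (4 * y i + 2) := by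
    apply Finset.sum_sq_le_sum_mul_sum_of_sq_le_mul
    · intro i _
      have := hy i
      positivity
    · intro i _
      have := hy i
      positivity
    · intro i _
      have hne : 4 * y i + 2 ≠ 0 := by have := hy i; positivity
      rw [sq_abs, div_mul_cancel₀ _ hne]
  have h4 : ∑ i, (4 * y i + 2) = 6 * n := by
    rw [Finset.sum_add_distrib, ← Finset.mul_sum, hsum]
    simp
    ring
  have h5 : ∑ i, |y i - 1| = 2 * ∑ i, max (y i - 1) 0 := by
    have e1 : ∀ i, |y i - 1| = 2 * max (y i - 1) 0 - (y i - 1) := by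
      intro i
      rcases le_total (y i - 1) 0 with h | h
      · rw [abs_of_nonpos h, max_eq_right h]; ring
      · rw [abs_of_nonneg h, max_eq_left h]; ring
    simp only [e1]
    rw [Finset.sum_sub_distrib, ← Finset.mul_sum, Finset.sum_sub_distrib, hsum]
    simp
  rw [h4, h5] at h3
  set D := ∑ i, (y i - 1) ^ 2 / (4 * y i + 2)
  set X := ∑ i, max (y i - 1) 0
  have hn : (0 : ℝ) ≤ n := Nat.cast_nonneg n
  have h6 : (n : ℝ) * ∑ i, Real.log (y i) ≤ n * (-(3 * D)) :=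
    mul_le_mul_of_nonneg_left (h1.trans (le_of_eq h2)) hn
  nlinarith

/-- Weighted mean inequality in product form. -/
lemma amgm {n : ℕ} (y : Fin n → ℝ) (hy : ∀ i, 0 ≤ y i) (Z : ℝ) (hZ : 0 ≤ Z) (hn : 0 < n)
    (hsum : ∑ i, (y i - 1) ≤ Z) : ∏ i, y i ≤ (1 + Z / n) ^ n := by
  have hn' : (0 : ℝ) < n := by exact_mod_cast hn
  set K : ℝ := 1 + Z / n with hK
  have hKpos : 0 < K := by rw [hK]; positivity
  have h1 : ∏ i, y i = K ^ n * ∏ i, (y i / K) := by
    rw [Finset.prod_div_distrib, Finset.prod_const, Finset.card_univ, Fintype.card_fin]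
    field_simp
  have h2 : ∏ i, (y i / K) ≤ ∏ i, Real.exp (y i / K - 1) := by
    refine Finset.prod_le_prod (fun i _ => div_nonneg (hy i) hKpos.le) fun i _ => ?_
    have := Real.add_one_le_exp (y i / K - 1)
    linarith
  have h3 : ∏ i, Real.exp (y i / K - 1) ≤ 1 := by
    rw [← Real.exp_sum, Real.exp_le_one_iff]
    rw [Finset.sum_sub_distrib, ← Finset.sum_div]
    rw [Finset.sum_sub_distrib] at hsum
    simp only [Finset.sum_const, Finset.card_univ, Fintype.card_fin, nsmul_eq_mul, mul_one]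
      at hsum ⊢
    have h4 : (∑ i, y i) / K ≤ n := by
      rw [div_le_iff₀ hKpos, hK]
      have : (n : ℝ) * (1 + Z / n) = n + Z := by field_simp
      rw [this]; linarith
    linarith
  rw [h1]
  have : K ^ n * ∏ i, (y i / K) ≤ K ^ n * 1 :=
    mul_le_mul_of_nonneg_left (h2.trans h3) (by positivity)
  linarith

/-- the constant `n!/n^n` -/
noncomputable def gam (n : ℕ) : ℝ := (n.factorial : ℝ) / (n : ℝ) ^ n

lemma gam_step (n : ℕ) (hn : 2 ≤ n) (K : ℝ) (h : gam n * (n : ℝ) ^ 2 ≤ K) :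
    gam (n + 1) * ((n + 1 : ℕ) : ℝ) ^ 2 ≤ K := by
  refine le_trans ?_ h
  unfold gam
  obtain ⟨m, rfl⟩ := Nat.exists_eq_add_of_le hn
  have hm : (0 : ℝ) ≤ m := Nat.cast_nonneg m
  rw [Nat.factorial_succ]
  push_cast
  set f : ℝ := ((2 + m).factorial : ℝ) with hf
  have hfpos : 0 < f := by rw [hf]; exact_mod_cast Nat.factorial_pos _
  have e1 : ((2 : ℝ) + m + 1) ^ (2 + m + 1) = (2 + m + 1) ^ 3 * (2 + m + 1) ^ m := by
    rw [← pow_add]; congr 1; omega
  have e2 : ((2 : ℝ) + m) ^ (2 + m) = (2 + m) ^ 2 * (2 + m) ^ m := by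
    rw [← pow_add]
  rw [e1, e2]
  have h3 : ((2 : ℝ) + m) ^ m ≤ (2 + m + 1) ^ m := by
    apply pow_le_pow_left₀ <;> linarith
  have hp1 : (0 : ℝ) < (2 + m) ^ m := by positivity
  have hp2 : (0 : ℝ) < (2 + m + 1) ^ m := by positivity
  have l1 : (2 + m + 1) * f / ((2 + m + 1) ^ 3 * (2 + m + 1) ^ m) * ((2 : ℝ) + m + 1) ^ 2
      = f / (2 + m + 1) ^ m := by
    field_simp
  have l2 : f / ((2 + m) ^ 2 * (2 + m) ^ m) * ((2 : ℝ) + m) ^ 2 = f / (2 + m) ^ m := by
    field_simp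
  rw [l1, l2]
  exact div_le_div_of_nonneg_left hfpos.le hp1 h3

lemma gam_sq_le (n : ℕ) (hn : 2 ≤ n) : gam n * (n : ℝ) ^ 2 ≤ 2 := by
  induction n, hn using Nat.le_induction with
  | base => norm_num [gam, Nat.factorial]
  | succ n hn ih => exact gam_step n hn 2 ih

lemma gam_sq_le' (n : ℕ) (hn : 5 ≤ n) : gam n * (n : ℝ) ^ 2 ≤ 24 / 25 := by
  induction n, hn using Nat.le_induction with
  | base => norm_num [gam, Nat.factorial]
  | succ n hn ih => exact gam_step n (by omega) _ ih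

lemma gam_pos (n : ℕ) (hn : 0 < n) : 0 < gam n := by
  unfold gam
  have : (0 : ℝ) < n := by exact_mod_cast hn
  have : (0 : ℝ) < n.factorial := by exact_mod_cast Nat.factorial_pos n
  positivity

/-- Bounds on `Z`. -/
lemma Z_bound_three (Z w : ℝ) (hw : 1 - gam 3 ≤ w)
    (h : Z ^ 2 ≤ -((3 : ℝ) * Real.log w)) : Z ≤ 1 := by
  have hg : gam 3 = 2 / 9 := by norm_num [gam, Nat.factorial]
  rw [hg] at hw
  have hwpos : 0 < w := by linarith
  have h1 := Real.log_le_sub_one_of_pos (inv_pos.mpr hwpos)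
  rw [Real.log_inv] at h1
  have h2 : w⁻¹ ≤ 9 / 7 := by
    rw [inv_le_comm₀ hwpos (by norm_num)]
    norm_num; linarith
  nlinarith

lemma kappa_four (Z w : ℝ) (hZ : 0 ≤ Z) (hw : 1 - gam 4 ≤ w)
    (h : Z ^ 2 ≤ -((4 : ℝ) * Real.log w)) :
    Z ≤ 1 ∧ (1 + Z / 4) ^ 4 < 2 * (1 - gam 4) := by
  have hg : gam 4 = 3 / 32 := by norm_num [gam, Nat.factorial]
  rw [hg] at hw ⊢
  have hwpos : 0 < w := by linarith
  have h1 : -Real.log w ≤ Real.log (32 / 29) := by
    rw [← Real.log_inv]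
    apply Real.log_le_log (inv_pos.mpr hwpos)
    rw [inv_le_comm₀ hwpos (by norm_num)]
    norm_num; linarith
  have h2 := pade (32 / 29) (by norm_num)
  have h3 : Z ^ 2 ≤ 4 * ((32 / 29 - 1) * (32 / 29 + 5) / (4 * (32 / 29) + 2)) := by linarith
  norm_num at h3
  have h4 : Z ≤ 0.6276 := by
    by_contra hcon
    push Not at hcon
    nlinarith
  refine ⟨by linarith, ?_⟩
  have h5 : (1 + Z / 4) ^ 2 ≤ (1.1569 : ℝ) ^ 2 := by
    apply pow_le_pow_left₀ <;> linarith
  have h6 : (1 + Z / 4) ^ 4 = ((1 + Z / 4) ^ 2) ^ 2 := by ring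
  rw [h6]
  have h7 : ((1 + Z / 4) ^ 2) ^ 2 ≤ ((1.1569 : ℝ) ^ 2) ^ 2 := by
    apply pow_le_pow_left₀ (by positivity) h5
  refine lt_of_le_of_lt h7 ?_
  norm_num

lemma kappa_five (n : ℕ) (hn : 5 ≤ n) (Z w : ℝ) (hZ : 0 ≤ Z) (hw : 1 - gam n ≤ w)
    (h : Z ^ 2 ≤ -((n : ℝ) * Real.log w)) :
    Z ≤ 1 ∧ (1 + Z / n) ^ n < 2 * (1 - gam n) := by
  have hn' : (5 : ℝ) ≤ n := by exact_mod_cast hn
  have hg := gam_sq_le' n hn
  have hgpos := gam_pos n (by omega)
  have hg1 : gam n * n ≤ 24 / 125 := by nlinarith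
  have hg2 : gam n ≤ 24 / 625 := by nlinarith
  have hwpos : 0 < w := by linarith
  have h1 := Real.log_le_sub_one_of_pos (inv_pos.mpr hwpos)
  rw [Real.log_inv] at h1
  have h2 : w⁻¹ - 1 ≤ gam n * (625 / 601) := by
    have e1 : w⁻¹ - 1 = (1 - w) * w⁻¹ := by field_simp
    have e2 : w⁻¹ ≤ 625 / 601 := by
      rw [inv_le_comm₀ hwpos (by norm_num)]
      norm_num; linarith
    rw [e1]
    have e3 : 0 < w⁻¹ := inv_pos.mpr hwpos
    have e4 : (1 - w) * w⁻¹ ≤ gam n * w⁻¹ := mul_le_mul_of_nonneg_right (by linarith) e3.le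
    exact e4.trans (mul_le_mul_of_nonneg_left e2 hgpos.le)
  have h3 : Z ^ 2 ≤ n * (gam n * (625 / 601)) := by
    have : -((n : ℝ) * Real.log w) = n * (-Real.log w) := by ring
    rw [this] at h
    refine h.trans (mul_le_mul_of_nonneg_left (h1.trans h2) (by linarith))
  have h4 : Z ^ 2 ≤ 1 / 5 := by nlinarith
  have h5 : Z ≤ 0.45 := by
    by_contra hcon
    push Not at hcon
    nlinarith
  refine ⟨by linarith, ?_⟩
  have h6 : (1 + Z / n) ^ n ≤ Real.exp Z := by
    have e1 : 1 + Z / n ≤ Real.exp (Z / n) := by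
      have := Real.add_one_le_exp (Z / n); linarith
    have e2 : (1 + Z / n) ^ n ≤ Real.exp (Z / n) ^ n :=
      pow_le_pow_left₀ (by positivity) e1 n
    have e3 : Real.exp (Z / n) ^ n = Real.exp Z := by
      rw [← Real.exp_nat_mul]; congr 1; field_simp
    rwa [e3] at e2
  have h7 : Real.exp Z ≤ 20 / 11 := by
    have e1 := Real.add_one_le_exp (-Z)
    rw [Real.exp_neg] at e1
    have e2 : (11 / 20 : ℝ) ≤ (Real.exp Z)⁻¹ := by linarith
    have e3 := Real.exp_pos Z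
    rw [le_inv_comm₀ (by norm_num) e3] at e2
    norm_num at e2
    linarith
  have h8 : (20 / 11 : ℝ) < 2 * (1 - gam n) := by linarith
  linarith

lemma cubic_gt (x : ℝ) (hx : 0.62 < x) (hx2 : x ≤ 2) (h : 3 / 4 * x ^ 2 - x ^ 3 / 4 ≤ 2 / 9) :
    False := by
  have k : 0 ≤ (x - 0.62) * (x * (2.38 - x) + 1.4756) := by
    apply mul_nonneg (by linarith)
    have : 0 ≤ x * (2.38 - x) := mul_nonneg (by linarith) (by linarith)
    linarith
  have k2 : 3 / 4 * x ^ 2 - x ^ 3 / 4 - (3 / 4 * 0.62 ^ 2 - 0.62 ^ 3 / 4)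
      = (x - 0.62) * (x * (2.38 - x) + 1.4756) / 4 := by ring
  norm_num at k2
  norm_num at k
  linarith

/-- The three by three inequality. -/
lemma three_num (p q u v : ℝ) (hp : 0 ≤ p) (hv : 0 ≤ v) (hpq : p ≤ 2 * q) (hvu : v ≤ 2 * u)
    (hp2 : p ≤ 2) (hv2 : v ≤ 2)
    (hc : ((p - q) ^ 2 + p * q - p * q * (p - q)) + ((v - u) ^ 2 + u * v - u * v * (v - u)) ≤ 2 / 9)
    (hpos : 0 < p + q + u + v) :
    2 * p ^ 2 + p * q - 2 * q ^ 2 + 2 * v ^ 2 + u * v - 2 * u ^ 2 + 2 * p * v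
      < p + q + u + v := by
  have e1 : (p - q) ^ 2 + p * q - p * q * (p - q)
      = (1 + p) * (q - p / 2) ^ 2 + (3 / 4 * p ^ 2 - p ^ 3 / 4) := by ring
  have e2 : (v - u) ^ 2 + u * v - u * v * (v - u)
      = (1 + v) * (u - v / 2) ^ 2 + (3 / 4 * v ^ 2 - v ^ 3 / 4) := by ring
  rw [e1, e2] at hc
  have h1 : 0 ≤ (1 + p) * (q - p / 2) ^ 2 := by positivity
  have h2 : 0 ≤ (1 + v) * (u - v / 2) ^ 2 := by positivity
  have hc' : (3 / 4 * p ^ 2 - p ^ 3 / 4) + (3 / 4 * v ^ 2 - v ^ 3 / 4) ≤ 2 / 9 := by linarith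
  have hpp : 0 ≤ 3 / 4 * p ^ 2 - p ^ 3 / 4 := by nlinarith [sq_nonneg p]
  have hvv : 0 ≤ 3 / 4 * v ^ 2 - v ^ 3 / 4 := by nlinarith [sq_nonneg v]
  have hp3 : p ≤ 0.62 := by
    by_contra hcon
    push Not at hcon
    have : 3 / 4 * p ^ 2 - p ^ 3 / 4 ≤ 2 / 9 := by linarith
    exact cubic_gt p hcon hp2 this
  have hv3 : v ≤ 0.62 := by
    by_contra hcon
    push Not at hcon
    have : 3 / 4 * v ^ 2 - v ^ 3 / 4 ≤ 2 / 9 := by linarith
    exact cubic_gt v hcon hv2 this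
  have hw : p ^ 2 + v ^ 2 ≤ 0.3736 := by
    have a1 : p ^ 3 ≤ 0.62 * p ^ 2 := by nlinarith [sq_nonneg p]
    have a2 : v ^ 3 ≤ 0.62 * v ^ 2 := by nlinarith [sq_nonneg v]
    nlinarith
  -- reduction to q = p/2, u = v/2
  have r1 : p * q - 2 * q ^ 2 - q ≤ -(p / 2) := by
    nlinarith [mul_nonneg (show (0:ℝ) ≤ 2 * q - p by linarith) (show (0:ℝ) ≤ q by linarith)]
  have r2 : u * v - 2 * u ^ 2 - u ≤ -(v / 2) := by
    nlinarith [mul_nonneg (show (0:ℝ) ≤ 2 * u - v by linarith) (show (0:ℝ) ≤ u by linarith)]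
  by_cases hpv : p + v = 0
  · have hp0 : p = 0 := by linarith
    have hv0 : v = 0 := by linarith
    subst hp0; subst hv0
    nlinarith [sq_nonneg q, sq_nonneg u]
  have hpv' : 0 < p + v := lt_of_le_of_ne (by linarith) (Ne.symm hpv)
  have key : 2 * (p ^ 2 + p * v + v ^ 2) < 3 / 2 * (p + v) := by
    by_cases ht : p + v ≤ 0.75
    · have hprod := mul_nonneg hp hv
      rcases hprod.lt_or_eq with h3 | h3
      · nlinarith
      · rcases ht.lt_or_eq with h4 | h4
        · nlinarith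
        · nlinarith
    · push Not at ht
      nlinarith [sq_nonneg (p - v)]
  linarith

end Pool.Agent.Helper67
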