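import Pool.Agent.Helper67.KKT

set_option autoImplicit false

/-!
The combinatorial upper bound for sums of minors over a corner block.
-/

namespace Pool.Agent.Helper67

open Finset Matrix

section Lists

variable {β : Type*} [DecidableEq β]

/-- Sum over the position of a hole in column `j`. -/
noncomputable def Hs (j : β) : List (β → ℝ) → Finset β → ℝ
  | [], _ => 0
  | (r :: L), T => (if j ∈ T then Pe L (T.erase j) else 0) + ∑ j' ∈ T, r j' * Hs j L (T.erase j')

lemma Hs_eq (j : β) (L : List (β → ℝ)) (T : Finset β) :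
    Hs j L T = ∑ k ∈ Finset.range L.length, Pe (L.set k (Pi.single j 1)) T := by
  induction L generalizing T with
  | nil => simp [Hs]
  | cons r L ih =>
    rw [List.length_cons, Finset.sum_range_succ']
    simp only [List.set_cons_zero, List.set_cons_succ, Pe_single_head, Hs]
    rw [add_comm]
    congr 1
    simp only [Pe_cons, ih, Finset.mul_sum]
    exact Finset.sum_comm

/-- Sum over injective maps from `T` to the vectors of the list. -/
noncomputable def Vf : List (β → ℝ) → Finset β → ℝ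
  | [], T => if T = ∅ then 1 else 0
  | (r :: L), T => Vf L T + ∑ j ∈ T, r j * Vf L (T.erase j)

lemma Vf_nonneg (L : List (β → ℝ)) (T : Finset β) (h : ∀ r ∈ L, ∀ j, 0 ≤ r j) :
    0 ≤ Vf L T := by
  induction L generalizing T with
  | nil => simp only [Vf]; split_ifs <;> norm_num
  | cons r L ih =>
    have h1 : ∀ r ∈ L, ∀ j, 0 ≤ r j := fun r' hr' => h r' (by simp [hr'])
    simp only [Vf]
    exact add_nonneg (ih T h1) (Finset.sum_nonneg fun j _ => mul_nonneg (h r (by simp) j) (ih _ h1))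

lemma Pe_le_Vf (L : List (β → ℝ)) (T : Finset β) (h : ∀ r ∈ L, ∀ j, 0 ≤ r j) :
    Pe L T ≤ Vf L T := by
  induction L generalizing T with
  | nil => exact le_refl _
  | cons r L ih =>
    have h1 : ∀ r ∈ L, ∀ j, 0 ≤ r j := fun r' hr' => h r' (by simp [hr'])
    simp only [Vf, Pe_cons]
    have : ∑ j ∈ T, r j * Pe L (T.erase j) ≤ ∑ j ∈ T, r j * Vf L (T.erase j) :=
      Finset.sum_le_sum fun j _ => mul_le_mul_of_nonneg_left (ih _ h1) (h r (by simp) j)
    linarith [Vf_nonneg L T h1]

/-- column sums of a list of vectors -/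
noncomputable def csum (L : List (β → ℝ)) (j : β) : ℝ := (L.map (fun r => r j)).sum

lemma csum_nonneg (L : List (β → ℝ)) (h : ∀ r ∈ L, ∀ j, 0 ≤ r j) (j : β) : 0 ≤ csum L j := by
  unfold csum
  refine List.sum_nonneg ?_
  intro x hx
  obtain ⟨r, hr, rfl⟩ := List.mem_map.mp hx
  exact h r hr j

lemma prod_add_ge (b r : β → ℝ) (hb : ∀ j, 0 ≤ b j) (hr : ∀ j, 0 ≤ r j) (T : Finset β) :
    ∏ j ∈ T, b j + ∑ j ∈ T, r j * ∏ j' ∈ T.erase j, b j' ≤ ∏ j ∈ T, (r j + b j) := by
  induction T using Finset.induction_on with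
  | empty => simp
  | insert a S ha ih =>
    rw [Finset.prod_insert ha, Finset.prod_insert ha, Finset.sum_insert ha,
      Finset.erase_insert ha]
    have h1 : ∑ j ∈ S, r j * ∏ j' ∈ (insert a S).erase j, b j'
        = b a * ∑ j ∈ S, r j * ∏ j' ∈ S.erase j, b j' := by
      rw [Finset.mul_sum]
      refine Finset.sum_congr rfl fun j hj => ?_
      have hja : j ≠ a := fun h => ha (h ▸ hj)
      rw [Finset.erase_insert_of_ne hja.symm, Finset.prod_insert
        (fun h => ha (Finset.mem_of_mem_erase h))]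
      ring
    rw [h1]
    have h2 : 0 ≤ ∑ j ∈ S, r j * ∏ j' ∈ S.erase j, b j' :=
      Finset.sum_nonneg fun j _ => mul_nonneg (hr j) (Finset.prod_nonneg fun j' _ => hb j')
    have h3 := mul_le_mul_of_nonneg_left ih (add_nonneg (hr a) (hb a))
    nlinarith [mul_nonneg (hr a) h2]

lemma Vf_le_prod (L : List (β → ℝ)) (T : Finset β) (h : ∀ r ∈ L, ∀ j, 0 ≤ r j) :
    Vf L T ≤ ∏ j ∈ T, csum L j := by
  induction L generalizing T with
  | nil =>
    simp only [Vf]
    split_ifs with hT
    · subst hT; simp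
    · exact Finset.prod_nonneg fun j _ => by simp [csum]
  | cons r L ih =>
    have h1 : ∀ r ∈ L, ∀ j, 0 ≤ r j := fun r' hr' => h r' (by simp [hr'])
    have hr : ∀ j, 0 ≤ r j := h r (by simp)
    simp only [Vf]
    have h2 : ∑ j ∈ T, r j * Vf L (T.erase j) ≤ ∑ j ∈ T, r j * ∏ j' ∈ T.erase j, csum L j' :=
      Finset.sum_le_sum fun j _ => mul_le_mul_of_nonneg_left (ih _ h1) (hr j)
    have h3 := prod_add_ge (csum L) r (csum_nonneg L h1) hr T
    have h4 : ∀ j, csum (r :: L) j = r j + csum L j := fun j => by simp [csum]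
    simp only [h4]
    linarith [ih T h1]

lemma Hs_le (j : β) (L : List (β → ℝ)) (T : Finset β) (h : ∀ r ∈ L, ∀ j, 0 ≤ r j) :
    Hs j L T ≤ if j ∈ T then Vf L (T.erase j) else 0 := by
  induction L generalizing T with
  | nil =>
    simp only [Hs, Vf]
    split_ifs <;> norm_num
  | cons r L ih =>
    have h1 : ∀ r ∈ L, ∀ j, 0 ≤ r j := fun r' hr' => h r' (by simp [hr'])
    have hr : ∀ j, 0 ≤ r j := h r (by simp)
    simp only [Hs, Vf]
    by_cases hj : j ∈ T
    · rw [if_pos hj, if_pos hj]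
      have e1 := Pe_le_Vf L (T.erase j) h1
      have e2 : ∑ j' ∈ T, r j' * Hs j L (T.erase j')
          ≤ ∑ j' ∈ T.erase j, r j' * Vf L ((T.erase j).erase j') := by
        rw [← Finset.add_sum_erase T _ hj]
        have e3 : r j * Hs j L (T.erase j) ≤ 0 := by
          have := ih (T.erase j) h1
          rw [if_neg (Finset.notMem_erase j T)] at this
          exact mul_nonpos_of_nonneg_of_nonpos (hr j) this
        have e4 : ∑ j' ∈ T.erase j, r j' * Hs j L (T.erase j')
            ≤ ∑ j' ∈ T.erase j, r j' * Vf L ((T.erase j).erase j') := by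
          refine Finset.sum_le_sum fun j' hj' => mul_le_mul_of_nonneg_left ?_ (hr j')
          have := ih (T.erase j') h1
          rw [if_pos (Finset.mem_erase.mpr ⟨(Finset.ne_of_mem_erase hj').symm, hj⟩)] at this
          rw [Finset.erase_right_comm]
          exact this
        linarith
      linarith
    · rw [if_neg hj, if_neg hj, zero_add]
      refine Finset.sum_nonpos fun j' _ => ?_
      have := ih (T.erase j') h1
      rw [if_neg (fun h => hj (Finset.mem_of_mem_erase h))] at this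
      exact mul_nonpos_of_nonneg_of_nonpos (hr j') this

lemma elem_le_one (b : β → ℝ) (hb : ∀ j, 0 ≤ b j) (S : Finset β) (hS : S.Nonempty)
    (hsum : ∑ j ∈ S, b j ≤ 1) : ∑ j ∈ S, ∏ j' ∈ S.erase j, b j' ≤ 1 := by
  induction hS using Finset.Nonempty.cons_induction with
  | singleton a => simp
  | cons a S ha hS ih =>
    rw [Finset.sum_cons] at hsum
    rw [Finset.sum_cons, Finset.erase_cons]
    have h0 : 0 ≤ ∑ j ∈ S, b j := Finset.sum_nonneg fun j _ => hb j
    have hSsum : ∑ j ∈ S, b j ≤ 1 := by linarith [hb a]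
    have h1 : ∑ j ∈ S, ∏ j' ∈ (Finset.cons a S ha).erase j, b j'
        = b a * ∑ j ∈ S, ∏ j' ∈ S.erase j, b j' := by
      rw [Finset.mul_sum]
      refine Finset.sum_congr rfl fun j hj => ?_
      have hja : j ≠ a := fun h => ha (h ▸ hj)
      rw [Finset.cons_eq_insert, Finset.erase_insert_of_ne hja.symm, Finset.prod_insert
        (fun h => ha (Finset.mem_of_mem_erase h))]
    rw [h1]
    have h2 := ih hSsum
    have h3 : ∏ j ∈ S, b j ≤ ∑ j ∈ S, b j := by
      obtain ⟨j0, hj0⟩ := hS
      have h4 : b j0 ≤ ∑ j ∈ S, b j := Finset.single_le_sum (fun j _ => hb j) hj0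
      refine le_trans ?_ h4
      rw [← Finset.mul_prod_erase S b hj0]
      have h5 : ∏ j ∈ S.erase j0, b j ≤ 1 := by
        refine Finset.prod_le_one (fun j _ => hb j) fun j hj => ?_
        exact le_trans (Finset.single_le_sum (fun j _ => hb j) (Finset.mem_of_mem_erase hj)) hSsum
      nlinarith [hb j0]
    nlinarith [hb a, mul_le_mul_of_nonneg_left h2 (hb a)]

lemma prod_ge_one (cp : β → ℝ) (hcp : ∀ l, 1 ≤ cp l) (S : Finset β) : 1 ≤ ∏ l ∈ S, cp l := by
  induction S using Finset.induction_on with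
  | empty => simp
  | insert a S ha ih =>
    rw [Finset.prod_insert ha]
    nlinarith [hcp a]

lemma prod_mono_subset (cp : β → ℝ) (hcp : ∀ l, 1 ≤ cp l) {S T : Finset β} (hST : S ⊆ T) :
    ∏ l ∈ S, cp l ≤ ∏ l ∈ T, cp l := by
  rw [← Finset.prod_sdiff hST]
  have h1 := prod_ge_one cp hcp (T \ S)
  have h2 : 0 ≤ ∏ l ∈ S, cp l := Finset.prod_nonneg fun l _ => by linarith [hcp l]
  nlinarith

variable [Fintype β]

/-- total of a vector -/
noncomputable def rho (r : β → ℝ) : ℝ := ∑ j, r j

/-- The recursive bound. -/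
noncomputable def CLb (cp : β → ℝ) (D : Finset β) : List (β → ℝ) → ℝ
  | [] => 0
  | (r :: L) => (L.map rho).prod * (∑ l ∈ D, r l * ∏ l' ∈ D.erase l, cp l') + rho r * CLb cp D L

lemma rho_nonneg (r : β → ℝ) (h : ∀ j, 0 ≤ r j) : 0 ≤ rho r := Finset.sum_nonneg fun j _ => h j

lemma prod_rho_nonneg (L : List (β → ℝ)) (h : ∀ r ∈ L, ∀ j, 0 ≤ r j) : 0 ≤ (L.map rho).prod := by
  induction L with
  | nil => simp
  | cons r L ih =>
    rw [List.map_cons, List.prod_cons]
    exact mul_nonneg (rho_nonneg r (h r (by simp))) (ih fun r' hr' => h r' (by simp [hr']))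

lemma CLb_nonneg (cp : β → ℝ) (hcp : ∀ l, 1 ≤ cp l) (D : Finset β) (L : List (β → ℝ))
    (h : ∀ r ∈ L, ∀ j, 0 ≤ r j) : 0 ≤ CLb cp D L := by
  induction L with
  | nil => exact le_refl _
  | cons r L ih =>
    have h1 : ∀ r ∈ L, ∀ j, 0 ≤ r j := fun r' hr' => h r' (by simp [hr'])
    have hr : ∀ j, 0 ≤ r j := h r (by simp)
    simp only [CLb]
    refine add_nonneg (mul_nonneg (prod_rho_nonneg L h1) (Finset.sum_nonneg fun l _ =>
      mul_nonneg (hr l) (Finset.prod_nonneg fun l' _ => by linarith [hcp l'])))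
      (mul_nonneg (rho_nonneg r hr) (ih h1))

variable (J : Finset β) (w : Finset β → ℝ) (cp : β → ℝ)

/-- First claim: enough room in `J`. -/
lemma CL0 (hcp : ∀ l, 1 ≤ cp l)
    (hw : ∀ T : Finset β, (T ∩ J).Nonempty → w T ≤ ∏ l ∈ T \ J, cp l)
    (L : List (β → ℝ)) (h : ∀ r ∈ L, ∀ j, 0 ≤ r j) (T : Finset β)
    (hT : L.length + 1 ≤ (T ∩ J).card) :
    Wt w L T ≤ (L.map rho).prod * ∏ l ∈ T \ J, cp l := by
  induction L generalizing T with
  | nil =>
    simp only [Wt_nil, List.map_nil, List.prod_nil, one_mul]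
    refine hw T (Finset.card_pos.mp ?_)
    simp only [List.length_nil] at hT
    omega
  | cons r L ih =>
    have h1 : ∀ r ∈ L, ∀ j, 0 ≤ r j := fun r' hr' => h r' (by simp [hr'])
    have hr : ∀ j, 0 ≤ r j := h r (by simp)
    have hPnn : 0 ≤ (L.map rho).prod * ∏ l ∈ T \ J, cp l :=
      mul_nonneg (prod_rho_nonneg L h1) (Finset.prod_nonneg fun l _ => by linarith [hcp l])
    rw [Wt_cons, List.map_cons, List.prod_cons]
    simp only [List.length_cons] at hT
    have hterm : ∀ j ∈ T, Wt w L (T.erase j) ≤ (L.map rho).prod * ∏ l ∈ T \ J, cp l := by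
      intro j hj
      have hc : L.length + 1 ≤ ((T.erase j) ∩ J).card := by
        rw [Finset.erase_inter]
        have := Finset.pred_card_le_card_erase (s := T ∩ J) (a := j)
        omega
      refine (ih h1 (T.erase j) hc).trans ?_
      refine mul_le_mul_of_nonneg_left ?_ (prod_rho_nonneg L h1)
      exact prod_mono_subset cp hcp
        (Finset.sdiff_subset_sdiff (Finset.erase_subset _ _) (Finset.Subset.refl _))
    calc ∑ j ∈ T, r j * Wt w L (T.erase j)
        ≤ ∑ j ∈ T, r j * ((L.map rho).prod * ∏ l ∈ T \ J, cp l) :=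
          Finset.sum_le_sum fun j hj => mul_le_mul_of_nonneg_left (hterm j hj) (hr j)
      _ = (∑ j ∈ T, r j) * ((L.map rho).prod * ∏ l ∈ T \ J, cp l) := by rw [Finset.sum_mul]
      _ ≤ rho r * ((L.map rho).prod * ∏ l ∈ T \ J, cp l) := by
          refine mul_le_mul_of_nonneg_right ?_ hPnn
          exact Finset.sum_le_sum_of_subset_of_nonneg (Finset.subset_univ T) fun j _ _ => hr j
      _ = _ := by ring

/-- Second claim: tight room in `J`. -/
lemma CL1 (hcp : ∀ l, 1 ≤ cp l)
    (hw : ∀ T : Finset β, (T ∩ J).Nonempty → w T ≤ ∏ l ∈ T \ J, cp l)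
    (hw0 : ∀ T : Finset β, T ∩ J = ∅ → w T ≤ 0)
    (L : List (β → ℝ)) (h : ∀ r ∈ L, ∀ j, 0 ≤ r j) (T : Finset β)
    (hT : (T ∩ J).card = L.length) :
    Wt w L T ≤ CLb cp (T \ J) L := by
  induction L generalizing T with
  | nil =>
    simp only [Wt_nil, CLb]
    exact hw0 T (Finset.card_eq_zero.mp hT)
  | cons r L ih =>
    have h1 : ∀ r ∈ L, ∀ j, 0 ≤ r j := fun r' hr' => h r' (by simp [hr'])
    have hr : ∀ j, 0 ≤ r j := h r (by simp)
    simp only [List.length_cons] at hT
    rw [Wt_cons]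
    have hsplit : ∑ j ∈ T, r j * Wt w L (T.erase j)
        = ∑ j ∈ T ∩ J, r j * Wt w L (T.erase j) + ∑ j ∈ T \ J, r j * Wt w L (T.erase j) := by
      rw [← Finset.sum_union]
      · congr 1
        ext a; simp only [Finset.mem_union, Finset.mem_inter, Finset.mem_sdiff]; tauto
      · rw [Finset.disjoint_left]
        intro a ha hb
        exact (Finset.mem_sdiff.mp hb).2 (Finset.mem_inter.mp ha).2
    rw [hsplit]
    have hA : ∑ j ∈ T ∩ J, r j * Wt w L (T.erase j) ≤ rho r * CLb cp (T \ J) L := by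
      have : ∀ j ∈ T ∩ J, Wt w L (T.erase j) ≤ CLb cp (T \ J) L := by
        intro j hj
        have hj' := Finset.mem_inter.mp hj
        have e1 : (T.erase j) \ J = T \ J := by
          ext a; simp only [Finset.mem_sdiff, Finset.mem_erase]
          constructor
          · rintro ⟨⟨_, h2⟩, h3⟩; exact ⟨h2, h3⟩
          · rintro ⟨h2, h3⟩
            exact ⟨⟨fun h => h3 (h ▸ hj'.2), h2⟩, h3⟩
        have e2 : ((T.erase j) ∩ J).card = L.length := by
          rw [Finset.erase_inter, Finset.card_erase_of_mem hj, hT]; rfl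
        have := ih h1 (T.erase j) e2
        rwa [e1] at this
      calc ∑ j ∈ T ∩ J, r j * Wt w L (T.erase j)
          ≤ ∑ j ∈ T ∩ J, r j * CLb cp (T \ J) L :=
            Finset.sum_le_sum fun j hj => mul_le_mul_of_nonneg_left (this j hj) (hr j)
        _ = (∑ j ∈ T ∩ J, r j) * CLb cp (T \ J) L := by rw [Finset.sum_mul]
        _ ≤ rho r * CLb cp (T \ J) L := by
            refine mul_le_mul_of_nonneg_right ?_ (CLb_nonneg cp hcp _ L h1)
            exact Finset.sum_le_sum_of_subset_of_nonneg (Finset.subset_univ _) fun j _ _ => hr j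
    have hB : ∑ j ∈ T \ J, r j * Wt w L (T.erase j)
        ≤ (L.map rho).prod * (∑ l ∈ T \ J, r l * ∏ l' ∈ (T \ J).erase l, cp l') := by
      rw [Finset.mul_sum]
      refine Finset.sum_le_sum fun l hl => ?_
      have hl' := Finset.mem_sdiff.mp hl
      have e1 : (T.erase l) \ J = (T \ J).erase l := by
        ext a; simp only [Finset.mem_sdiff, Finset.mem_erase]; tauto
      have e2 : (T.erase l) ∩ J = T ∩ J := by
        ext a; simp only [Finset.mem_inter, Finset.mem_erase]
        constructor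
        · rintro ⟨⟨_, h2⟩, h3⟩; exact ⟨h2, h3⟩
        · rintro ⟨h2, h3⟩
          exact ⟨⟨fun h => hl'.2 (h ▸ h3), h2⟩, h3⟩
      have := CL0 J w cp hcp hw L h1 (T.erase l) (by rw [e2, hT])
      rw [e1] at this
      calc r l * Wt w L (T.erase l) ≤ r l * ((L.map rho).prod * ∏ l' ∈ (T \ J).erase l, cp l') :=
            mul_le_mul_of_nonneg_left this (hr l)
        _ = _ := by ring
    simp only [CLb]
    linarith

end Lists

end Pool.Agent.Helper67
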