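import Pool.Agent.Helper67.Block

set_option autoImplicit false

/-!
The block bound for sums of minors.
-/

namespace Pool.Agent.Helper67

open Finset Matrix

section Lists

variable {β : Type*} [DecidableEq β] [Fintype β]

/-- The weight attached to the lower list. -/
noncomputable def wJ (J : Finset β) (L2 : List (β → ℝ)) (T : Finset β) : ℝ :=
  ∑ j ∈ J, Hs j L2 T

lemma wJ_le (J : Finset β) (L2 : List (β → ℝ)) (cp : β → ℝ) (h : ∀ r ∈ L2, ∀ j, 0 ≤ r j)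
    (hcp : ∀ l, l ∉ J → csum L2 l ≤ cp l) (hJ : ∑ j ∈ J, csum L2 j ≤ 1)
    (T : Finset β) (hT : (T ∩ J).Nonempty) : wJ J L2 T ≤ ∏ l ∈ T \ J, cp l := by
  unfold wJ
  have h0 : ∀ j, 0 ≤ csum L2 j := csum_nonneg L2 h
  have h1 : ∑ j ∈ J, Hs j L2 T ≤ ∑ j ∈ J, if j ∈ T then Vf L2 (T.erase j) else 0 :=
    Finset.sum_le_sum fun j _ => Hs_le j L2 T h
  refine h1.trans ?_
  rw [← Finset.sum_filter]
  have e1 : J.filter (fun j => j ∈ T) = T ∩ J := by
    ext a; simp only [Finset.mem_filter, Finset.mem_inter]; tauto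
  rw [e1]
  have h2 : ∑ j ∈ T ∩ J, Vf L2 (T.erase j)
      ≤ ∑ j ∈ T ∩ J, (∏ l ∈ (T ∩ J).erase j, csum L2 l) * ∏ l ∈ T \ J, csum L2 l := by
    refine Finset.sum_le_sum fun j hj => ?_
    refine (Vf_le_prod L2 _ h).trans (le_of_eq ?_)
    rw [← Finset.prod_union]
    · congr 1
      ext a
      have hj' := Finset.mem_inter.mp hj
      simp only [Finset.mem_erase, Finset.mem_union, Finset.mem_inter, Finset.mem_sdiff]
      constructor
      · rintro ⟨h3, h4⟩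
        by_cases h5 : a ∈ J
        · exact Or.inl ⟨h3, h4, h5⟩
        · exact Or.inr ⟨h4, h5⟩
      · rintro (⟨h3, h4, h5⟩ | ⟨h3, h4⟩)
        · exact ⟨h3, h4⟩
        · exact ⟨fun h => h4 (h ▸ hj'.2), h3⟩
    · rw [Finset.disjoint_left]
      intro a ha hb
      exact (Finset.mem_sdiff.mp hb).2 (Finset.mem_inter.mp (Finset.mem_of_mem_erase ha)).2
  refine h2.trans ?_
  rw [← Finset.sum_mul]
  have h3 : ∑ j ∈ T ∩ J, ∏ l ∈ (T ∩ J).erase j, csum L2 l ≤ 1 := by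
    refine elem_le_one (csum L2) h0 _ hT (le_trans ?_ hJ)
    exact Finset.sum_le_sum_of_subset_of_nonneg Finset.inter_subset_right fun j _ _ => h0 j
  have h4 : ∏ l ∈ T \ J, csum L2 l ≤ ∏ l ∈ T \ J, cp l :=
    Finset.prod_le_prod (fun l _ => h0 l) fun l hl => hcp l (Finset.mem_sdiff.mp hl).2
  have h5 : 0 ≤ ∏ l ∈ T \ J, csum L2 l := Finset.prod_nonneg fun l _ => h0 l
  nlinarith

lemma wJ_le_zero (J : Finset β) (L2 : List (β → ℝ)) (h : ∀ r ∈ L2, ∀ j, 0 ≤ r j)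
    (T : Finset β) (hT : T ∩ J = ∅) : wJ J L2 T ≤ 0 := by
  unfold wJ
  refine Finset.sum_nonpos fun j hj => (Hs_le j L2 T h).trans ?_
  rw [if_neg]
  intro h1
  have : j ∈ T ∩ J := Finset.mem_inter.mpr ⟨h1, hj⟩
  rw [hT] at this
  simp at this

lemma CLb_bound (cp : β → ℝ) (hcp : ∀ l, 1 ≤ cp l) (D : Finset β) (Q : ℝ)
    (hQ : ∀ l ∈ D, ∏ l' ∈ D.erase l, cp l' ≤ Q) (L : List (β → ℝ))
    (h : ∀ r ∈ L, ∀ j, 0 ≤ r j) (Pc a : ℝ) (ha : 0 ≤ a)
    (hPc : ∀ i < L.length, a * ((L.eraseIdx i).map rho).prod ≤ Pc) :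
    a * CLb cp D L ≤ Pc * Q * (L.map (fun r => ∑ l ∈ D, r l)).sum := by
  induction L generalizing a with
  | nil => simp [CLb]
  | cons r L ih =>
    have h1 : ∀ r ∈ L, ∀ j, 0 ≤ r j := fun r' hr' => h r' (by simp [hr'])
    have hr : ∀ j, 0 ≤ r j := h r (by simp)
    simp only [CLb, List.map_cons, List.sum_cons]
    have e1 := ih h1 (a * rho r) (mul_nonneg ha (rho_nonneg r hr)) (by
      intro i hi
      have := hPc (i + 1) (by simp; omega)
      rw [List.eraseIdx_cons_succ, List.map_cons, List.prod_cons] at this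
      linarith [mul_assoc a (rho r) ((L.eraseIdx i).map rho).prod])
    have e2 : a * (L.map rho).prod ≤ Pc := by
      have := hPc 0 (by simp)
      simpa using this
    have e3 : ∑ l ∈ D, r l * ∏ l' ∈ D.erase l, cp l' ≤ Q * ∑ l ∈ D, r l := by
      rw [Finset.mul_sum]
      refine Finset.sum_le_sum fun l hl => ?_
      have := mul_le_mul_of_nonneg_left (hQ l hl) (hr l)
      linarith
    have e4 : 0 ≤ a * (L.map rho).prod := mul_nonneg ha (prod_rho_nonneg L h1)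
    have e5 : 0 ≤ ∑ l ∈ D, r l * ∏ l' ∈ D.erase l, cp l' := Finset.sum_nonneg fun l _ =>
      mul_nonneg (hr l) (Finset.prod_nonneg fun l' _ => by linarith [hcp l'])
    have e6 : a * (L.map rho).prod * (∑ l ∈ D, r l * ∏ l' ∈ D.erase l, cp l')
        ≤ Pc * (Q * ∑ l ∈ D, r l) := by
      refine mul_le_mul e2 e3 e5 (le_trans e4 e2)
    nlinarith

/-- The list form of the block bound. -/
lemma list_block (J : Finset β) (cp : β → ℝ) (hcp : ∀ l, 1 ≤ cp l)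
    (L1 L2 : List (β → ℝ)) (h1 : ∀ r ∈ L1, ∀ j, 0 ≤ r j) (h2 : ∀ r ∈ L2, ∀ j, 0 ≤ r j)
    (hlen : L1.length = J.card)
    (hcs : ∀ l, l ∉ J → csum L2 l ≤ cp l) (hJ : ∑ j ∈ J, csum L2 j ≤ 1)
    (Q : ℝ) (hQ : ∀ l ∈ Finset.univ \ J, ∏ l' ∈ (Finset.univ \ J).erase l, cp l' ≤ Q)
    (Pc : ℝ) (hPc : ∀ i < L1.length, ((L1.eraseIdx i).map rho).prod ≤ Pc) :
    ∑ j ∈ J, ∑ k ∈ Finset.range L2.length, Pe (L1 ++ L2.set k (Pi.single j 1)) Finset.univ
      ≤ Pc * Q * (L1.map (fun r => ∑ l ∈ Finset.univ \ J, r l)).sum := by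
  have e1 : ∑ j ∈ J, ∑ k ∈ Finset.range L2.length,
      Pe (L1 ++ L2.set k (Pi.single j 1)) Finset.univ = Wt (wJ J L2) L1 Finset.univ := by
    have : wJ J L2 = fun T => ∑ j ∈ J, (fun j T => ∑ k ∈ Finset.range L2.length,
        (fun k T => Pe (L2.set k (Pi.single j 1)) T) k T) j T := by
      funext T
      unfold wJ
      exact Finset.sum_congr rfl fun j _ => Hs_eq j L2 T
    rw [this, Wt_sum_weight]
    refine Finset.sum_congr rfl fun j _ => ?_
    rw [Wt_sum_weight]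
    refine Finset.sum_congr rfl fun k _ => ?_
    rw [Pe_append]
  rw [e1]
  have e2 := CL1 J (wJ J L2) cp hcp (wJ_le J L2 cp h2 hcs hJ) (wJ_le_zero J L2 h2) L1 h1
    Finset.univ (by rw [Finset.univ_inter, hlen])
  refine e2.trans ?_
  have e3 := CLb_bound cp hcp (Finset.univ \ J) Q hQ L1 h1 Pc 1 zero_le_one (by
    intro i hi; rw [one_mul]; exact hPc i hi)
  rwa [one_mul] at e3

end Lists

end Pool.Agent.Helper67
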