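import Pool.Agent.Helper67.Block2

set_option autoImplicit false

/-!
The block bound for matrices.
-/

namespace Pool.Agent.Helper67

open Finset Matrix

/-- indices below `s` -/
def lo (n s : ℕ) : Finset (Fin n) := Finset.univ.filter (fun i => i.val < s)

/-- indices at least `s` -/
def hi (n s : ℕ) : Finset (Fin n) := Finset.univ.filter (fun i => s ≤ i.val)

lemma mem_lo {n s : ℕ} {i : Fin n} : i ∈ lo n s ↔ i.val < s := by simp [lo]

lemma mem_hi {n s : ℕ} {i : Fin n} : i ∈ hi n s ↔ s ≤ i.val := by simp [hi]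

lemma hi_eq (n s : ℕ) : Finset.univ \ lo n s = hi n s := by
  ext i; simp [lo, hi]

lemma sum_lo_add (s t : ℕ) (f : Fin (s + t) → ℝ) :
    ∑ i ∈ lo (s + t) s, f i = ∑ i : Fin s, f (Fin.castAdd t i) := by
  unfold lo
  rw [Finset.sum_filter, Fin.sum_univ_add]
  have h1 : ∀ i : Fin s, (if (Fin.castAdd t i).val < s then f (Fin.castAdd t i) else 0)
      = f (Fin.castAdd t i) := fun i => if_pos (by simp)
  have h2 : ∀ i : Fin t, (if (Fin.natAdd s i).val < s then f (Fin.natAdd s i) else 0)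
      = 0 := fun i => if_neg (by simp)
  simp only [h1, h2, Finset.sum_const_zero, add_zero]

lemma sum_hi_add (s t : ℕ) (f : Fin (s + t) → ℝ) :
    ∑ i ∈ hi (s + t) s, f i = ∑ i : Fin t, f (Fin.natAdd s i) := by
  unfold hi
  rw [Finset.sum_filter, Fin.sum_univ_add]
  have h1 : ∀ i : Fin s, (if s ≤ (Fin.castAdd t i).val then f (Fin.castAdd t i) else 0)
      = 0 := fun i => if_neg (by simp)
  have h2 : ∀ i : Fin t, (if s ≤ (Fin.natAdd s i).val then f (Fin.natAdd s i) else 0)
      = f (Fin.natAdd s i) := fun i => if_pos (by simp)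
  simp only [h1, h2, Finset.sum_const_zero, zero_add]

lemma prod_lo_add (s t : ℕ) (f : Fin (s + t) → ℝ) :
    ∏ i ∈ lo (s + t) s, f i = ∏ i : Fin s, f (Fin.castAdd t i) := by
  unfold lo
  rw [Finset.prod_filter, Fin.prod_univ_add]
  have h1 : ∀ i : Fin s, (if (Fin.castAdd t i).val < s then f (Fin.castAdd t i) else 1)
      = f (Fin.castAdd t i) := fun i => if_pos (by simp)
  have h2 : ∀ i : Fin t, (if (Fin.natAdd s i).val < s then f (Fin.natAdd s i) else 1)
      = 1 := fun i => if_neg (by simp)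
  simp only [h1, h2, Finset.prod_const_one, mul_one]

lemma card_lo (s t : ℕ) : (lo (s + t) s).card = s := by
  have h := sum_lo_add s t (fun _ => 1)
  simp only [Finset.sum_const, nsmul_eq_mul, mul_one, Finset.card_univ, Fintype.card_fin] at h
  exact_mod_cast h

lemma mn_eq_Pe {n : ℕ} (A : Matrix (Fin n) (Fin n) ℝ) (k j : Fin n) :
    mn A k j = Pe ((List.ofFn (fun i => A i)).set k.val (Pi.single j 1)) Finset.univ := by
  have h1 : mn A k j = (A.updateRow k (Pi.single j 1)).permanent := by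
    rw [permanent_updateRow_eq, Finset.sum_eq_single j]
    · simp
    · intro b _ hb
      simp [Pi.single_eq_of_ne hb]
    · intro h; exact absurd (Finset.mem_univ _) h
  rw [h1, permanent_eq_Pe]
  congr 1
  apply List.ext_getElem
  · simp
  · intro i h2 h3
    rw [List.getElem_ofFn, List.getElem_set]
    by_cases hik : k.val = i
    · rw [if_pos hik]
      have : (⟨i, by simpa using h2⟩ : Fin n) = k := Fin.ext hik.symm
      rw [this, Matrix.updateRow_self]
    · rw [if_neg hik, Matrix.updateRow_ne, List.getElem_ofFn]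
      intro h
      exact hik (by rw [← h])

/-- The block bound. -/
theorem block_bound {n : ℕ} (A : Matrix (Fin n) (Fin n) ℝ) (hA : ∀ i j, 0 ≤ A i j)
    (hr : ∀ i, 0 < ∑ j, A i j) (s : ℕ) (hs : s ≤ n)
    (hm2 : ∑ i ∈ hi n s, ∑ j ∈ lo n s, A i j ≤ 1)
    (Q : ℝ) (hQ : ∀ l ∈ hi n s, ∏ l' ∈ (hi n s).erase l, max 1 (∑ i, A i l') ≤ Q)
    (Pc : ℝ) (hPc : ∀ i ∈ lo n s, ∏ i' ∈ (lo n s).erase i, (∑ j, A i' j) ≤ Pc) :
    ∑ k ∈ hi n s, ∑ j ∈ lo n s, mn A k j ≤ Pc * Q * ∑ i ∈ lo n s, ∑ l ∈ hi n s, A i l := by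
  obtain ⟨t, rfl⟩ := Nat.exists_eq_add_of_le hs
  set L1 : List (Fin (s + t) → ℝ) := List.ofFn (fun i : Fin s => A (Fin.castAdd t i)) with hL1
  set L2 : List (Fin (s + t) → ℝ) := List.ofFn (fun i : Fin t => A (Fin.natAdd s i)) with hL2
  have hlen1 : L1.length = s := by simp [hL1]
  have hlen2 : L2.length = t := by simp [hL2]
  have hsplit : List.ofFn (fun i => A i) = L1 ++ L2 := by
    rw [hL1, hL2]
    rw [List.ofFn_add]
    rfl
  have hn1 : ∀ r ∈ L1, ∀ j, 0 ≤ r j := by
    intro r hr j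
    rw [hL1, List.mem_ofFn] at hr
    obtain ⟨i, rfl⟩ := hr
    exact hA _ _
  have hn2 : ∀ r ∈ L2, ∀ j, 0 ≤ r j := by
    intro r hr j
    rw [hL2, List.mem_ofFn] at hr
    obtain ⟨i, rfl⟩ := hr
    exact hA _ _
  have hcs : ∀ l, csum L2 l = ∑ i ∈ hi (s + t) s, A i l := by
    intro l
    rw [sum_hi_add]
    unfold csum
    rw [hL2, List.map_ofFn, List.sum_ofFn]
    rfl
  have key := list_block (lo (s + t) s) (fun l => max 1 (∑ i, A i l)) (fun l => le_max_left _ _)
    L1 L2 hn1 hn2 (by rw [hlen1, card_lo]) (by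
      intro l _
      rw [hcs]
      refine le_trans ?_ (le_max_right _ _)
      exact Finset.sum_le_sum_of_subset_of_nonneg (Finset.subset_univ _) fun i _ _ => hA i l)
    (by
      simp only [hcs]
      rw [Finset.sum_comm]
      exact hm2) Q (by rw [hi_eq]; exact hQ) Pc (by
      intro i hi'
      rw [hlen1] at hi'
      have hmem : Fin.castAdd t (⟨i, hi'⟩ : Fin s) ∈ lo (s + t) s := by
        rw [mem_lo]; exact hi'
      refine le_trans (le_of_eq ?_) (hPc _ hmem)
      have hpos : 0 < ∑ j, A (Fin.castAdd t (⟨i, hi'⟩ : Fin s)) j := hr _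
      have e1 : (∑ j, A (Fin.castAdd t (⟨i, hi'⟩ : Fin s)) j) * ((L1.eraseIdx i).map rho).prod
          = (L1.map rho).prod := by
        have hlt : i < (L1.map rho).length := by rw [List.length_map, hlen1]; exact hi'
        have := List.CommMonoid.mul_prod_eraseIdx (l := L1.map rho) hlt
        rw [List.eraseIdx_map] at this
        rw [← this]
        congr 1
        simp [hL1, rho]
      have e2 : (L1.map rho).prod = ∏ i' ∈ lo (s + t) s, (∑ j, A i' j) := by
        rw [prod_lo_add, hL1, List.map_ofFn, List.prod_ofFn]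
        rfl
      rw [e2, ← Finset.mul_prod_erase _ _ hmem] at e1
      exact mul_left_cancel₀ hpos.ne' e1)
  rw [hi_eq] at key
  have e1 : (L1.map (fun r => ∑ l ∈ hi (s + t) s, r l)).sum
      = ∑ i ∈ lo (s + t) s, ∑ l ∈ hi (s + t) s, A i l := by
    rw [sum_lo_add, hL1, List.map_ofFn, List.sum_ofFn]
    rfl
  rw [e1] at key
  refine le_trans (le_of_eq ?_) key
  rw [Finset.sum_comm]
  refine Finset.sum_congr rfl fun j _ => ?_
  rw [sum_hi_add, hlen2, ← Fin.sum_univ_eq_sum_range
    (fun k => Pe (L1 ++ L2.set k (Pi.single j 1)) Finset.univ)]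
  refine Finset.sum_congr rfl fun k _ => ?_
  rw [mn_eq_Pe, hsplit, List.set_append_right]
  · simp [hlen1]
  · simp [hlen1]

end Pool.Agent.Helper67
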