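import Mathlib

set_option autoImplicit false

/-!
Combinatorics of words under moves `sts -> tst`: gates and medians.
-/

namespace Pool.Agent.Helper67.Braid

variable {S : Type*}

/-- One move at the head or inside. -/
inductive Step (m : S → S → Prop) : List S → List S → Prop
  | head {s t : S} (h : m s t) (x : List S) : Step m (s :: t :: s :: x) (t :: s :: t :: x)
  | cons (a : S) {x y : List S} (h : Step m x y) : Step m (a :: x) (a :: y)

variable {m : S → S → Prop}

lemma Step.symm (hs : ∀ s t, m s t → m t s) {x y : List S} (h : Step m x y) : Step m y x := by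
  induction h with
  | head h x => exact Step.head (hs _ _ h) x
  | cons a _ ih => exact Step.cons a ih

lemma Step.irrefl (hi : ∀ s, ¬ m s s) {x y : List S} (h : Step m x y) : x ≠ y := by
  induction h with
  | head h x =>
    intro he
    have := (List.cons.inj he).1
    subst this
    exact hi _ h
  | cons a _ ih =>
    intro he
    exact ih (List.cons.inj he).2

lemma Step.length_eq {x y : List S} (h : Step m x y) : x.length = y.length := by
  induction h with
  | head h x => simp
  | cons a _ ih => simp [ih]

/-- Symmetric irreflexive relations. -/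
structure Nice (m : S → S → Prop) : Prop where
  symm : ∀ s t, m s t → m t s
  irr : ∀ s, ¬ m s s

/-- The graph on all words. -/
def WG (hm : Nice m) : SimpleGraph (List S) where
  Adj x y := Step m x y
  symm := ⟨fun _ _ h => Step.symm hm.symm h⟩
  loopless := ⟨fun _ h => Step.irrefl hm.irr h rfl⟩

variable (hm : Nice m)

lemma adj_iff {x y : List S} : (WG hm).Adj x y ↔ Step m x y := Iff.rfl

/-- Words none of whose equivalents contains `stst`. -/
def Good (w : List S) : Prop :=
  ∀ v, (WG hm).Reachable w v → ∀ l s t r, v = l ++ s :: t :: s :: t :: r → ¬ m s t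

/-- Prepending a letter, as a graph homomorphism. -/
def consHom (a : S) : (WG hm) →g (WG hm) where
  toFun x := a :: x
  map_rel' h := Step.cons a h

lemma walk_cons (a : S) {x y : List S} (p : (WG hm).Walk x y) :
    ∃ q : (WG hm).Walk (a :: x) (a :: y), q.length = p.length :=
  ⟨p.map (consHom hm a), SimpleGraph.Walk.length_map _ _⟩

lemma reach_cons (a : S) {x y : List S} (h : (WG hm).Reachable x y) :
    (WG hm).Reachable (a :: x) (a :: y) := h.map (consHom hm a)

lemma dist_cons_le (a : S) {x y : List S} (h : (WG hm).Reachable x y) :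
    (WG hm).dist (a :: x) (a :: y) ≤ (WG hm).dist x y := by
  obtain ⟨p, hp⟩ := h.exists_walk_length_eq_dist
  have := SimpleGraph.dist_le (p.map (consHom hm a))
  rw [SimpleGraph.Walk.length_map, hp] at this
  exact this

lemma Good.tail {a : S} {x : List S} (h : Good hm (a :: x)) : Good hm x := by
  intro v hv l s t r he
  exact h (a :: v) (reach_cons hm a hv) (a :: l) s t r (by rw [he]; rfl)

lemma Good.of_reach {x y : List S} (h : Good hm x) (hr : (WG hm).Reachable x y) : Good hm y :=
  fun v hv => h v (hr.trans hv)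

lemma reach_length {x y : List S} (h : (WG hm).Reachable x y) : x.length = y.length := by
  obtain ⟨p⟩ := h
  induction p with
  | nil => rfl
  | cons h _ ih => exact (Step.length_eq h).trans ih

/-- `Gt c z k y`: the word `z` has gate `c :: y` for the letter `c`, at distance `k`. -/
inductive Gt (m : S → S → Prop) : S → List S → ℕ → List S → Prop
  | base (c : S) (y : List S) : Gt m c (c :: y) 0 y
  | step {c d : S} {z : List S} {k : ℕ} {y : List S} (h : m c d) (hz : Gt m d z k y) :
      Gt m c (d :: c :: z) (k + 1) (d :: c :: y)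

lemma gt_self {c : S} {y y' : List S} {k : ℕ} (hm : Nice m) (h : Gt m c (c :: y) k y') :
    k = 0 ∧ y' = y := by
  generalize hw : c :: y = w at h
  cases h with
  | base c y => exact ⟨rfl, ((List.cons.inj hw).2).symm⟩
  | step h hz =>
    have := (List.cons.inj hw).1
    subst this
    exact absurd h (hm.irr _)

lemma gt_other {c a : S} {z y : List S} {k : ℕ} (h : Gt m c (a :: z) k y) (hne : a ≠ c) :
    ∃ k' z' y', z = c :: z' ∧ y = a :: c :: y' ∧ k = k' + 1 ∧ m c a ∧ Gt m a z' k' y' := by
  generalize hw : a :: z = w at h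
  cases h with
  | base c y => exact absurd (List.cons.inj hw).1 hne
  | @step c d z1 k1 y1 h hz =>
    obtain ⟨h1, h2⟩ := List.cons.inj hw
    subst h1
    exact ⟨k1, z1, y1, h2, rfl, rfl, h, hz⟩

/-- The key lemma. -/
lemma gt_step {c : S} {z z' y : List S} {k : ℕ} (hgt : Gt m c z k y) (hg : Good hm z)
    (hs : Step m z z') :
    (∃ y', Step m y y' ∧ Gt m c z' k y') ∨ Gt m c z' (k + 1) y ∨
      (∃ k', k = k' + 1 ∧ Gt m c z' k' y) := by
  induction hgt generalizing z' with
  | base c y =>
    generalize hw : c :: y = w at hs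
    cases hs with
    | @head s t h x =>
      obtain ⟨h1, h2⟩ := List.cons.inj hw
      subst h1; subst h2
      right; left
      exact Gt.step h (Gt.base t x)
    | @cons a x y' h =>
      obtain ⟨h1, h2⟩ := List.cons.inj hw
      subst h1; subst h2
      left
      exact ⟨y', h, Gt.base _ _⟩
  | @step c d z k y h hz ih =>
    generalize hw : d :: c :: z = w at hs
    cases hs with
    | @head s t h' x =>
      obtain ⟨h1, h2⟩ := List.cons.inj hw
      obtain ⟨h3, h4⟩ := List.cons.inj h2
      subst h1; subst h3; subst h4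
      obtain ⟨e1, e2⟩ := gt_self hm hz
      subst e1; subst e2
      right; right
      exact ⟨0, rfl, Gt.base _ _⟩
    | @cons a x x' h' =>
      obtain ⟨h1, h2⟩ := List.cons.inj hw
      subst h1; subst h2
      generalize hw2 : c :: z = w2 at h'
      cases h' with
      | @head s t h'' x =>
        obtain ⟨h3, h4⟩ := List.cons.inj hw2
        subst h3; subst h4
        exfalso
        by_cases htd : t = d
        · subst htd
          exact hg _ (SimpleGraph.Reachable.refl _) [] t c x rfl (hm.symm _ _ h'')
        · obtain ⟨k', z', y', e1, _⟩ := gt_other hz htd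
          have := (List.cons.inj e1).1
          subst this
          exact hm.irr _ h
      | @cons a' x2 x2' h'' =>
        obtain ⟨h3, h4⟩ := List.cons.inj hw2
        subst h3; subst h4
        rcases ih (hg.tail.tail) h'' with ⟨y', hy, hgt'⟩ | hgt' | ⟨k', hk, hgt'⟩
        · left
          exact ⟨d :: c :: y', Step.cons _ (Step.cons _ hy), Gt.step h hgt'⟩
        · right; left
          exact Gt.step h hgt'
        · right; right
          exact ⟨k' + 1, by rw [hk], Gt.step h hgt'⟩

/-- The gate can be reached in `k` steps. -/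
lemma gt_path {c : S} {z y : List S} {k : ℕ} (h : Gt m c z k y) :
    ∃ p : (WG hm).Walk z (c :: y), p.length = k := by
  induction h with
  | base c y => exact ⟨SimpleGraph.Walk.nil, rfl⟩
  | @step c d z k y h hz ih =>
    obtain ⟨p, hp⟩ := ih
    obtain ⟨q0, hq0⟩ := walk_cons hm c p
    obtain ⟨q, hq⟩ := walk_cons hm d q0
    have hadj : (WG hm).Adj (d :: c :: d :: y) (c :: d :: c :: y) := Step.head (hm.symm _ _ h) y
    refine ⟨q.concat hadj, ?_⟩
    rw [SimpleGraph.Walk.length_concat, hq, hq0, hp]

lemma gt_exists_walk {c : S} {z v : List S} (p : (WG hm).Walk z v) (hg : Good hm z) {k : ℕ}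
    {y : List S} (h : Gt m c z k y) : ∃ k' y', Gt m c v k' y' := by
  induction p generalizing k y with
  | nil => exact ⟨k, y, h⟩
  | @cons a b e hab q ih =>
    have hg' : Good hm b := hg.of_reach hm (SimpleGraph.Adj.reachable hab)
    rcases gt_step hm h hg hab with ⟨y', _, h'⟩ | h' | ⟨k', _, h'⟩
    · exact ih hg' h'
    · exact ih hg' h'
    · exact ih hg' h'

lemma gt_exists {c : S} {z v : List S} (hr : (WG hm).Reachable (c :: z) v)
    (hg : Good hm (c :: z)) : ∃ k' y', Gt m c v k' y' := by
  obtain ⟨p⟩ := hr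
  exact gt_exists_walk hm p hg (Gt.base c z)

lemma gate_walk {c : S} {z w : List S} (p : (WG hm).Walk z w) (hg : Good hm z) {k : ℕ}
    {y y' : List S} (h : Gt m c z k y) (hw : w = c :: y') :
    (WG hm).Reachable y y' ∧ k + (WG hm).dist y y' ≤ p.length := by
  induction p generalizing k y with
  | nil =>
    subst hw
    obtain ⟨h1, h2⟩ := gt_self hm h
    subst h1; subst h2
    exact ⟨SimpleGraph.Reachable.refl _, by simp⟩
  | @cons a b e hab q ih =>
    have hg' : Good hm b := hg.of_reach hm (SimpleGraph.Adj.reachable hab)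
    rw [SimpleGraph.Walk.length_cons]
    rcases gt_step hm h hg hab with ⟨y1, hy, h'⟩ | h' | ⟨k', hk, h'⟩
    · obtain ⟨r1, r2⟩ := ih hg' h' hw
      have hadj : (WG hm).Adj y y1 := hy
      refine ⟨hadj.reachable.trans r1, ?_⟩
      have h1 := hadj.reachable.dist_triangle_left y'
      have h2 : (WG hm).dist y y1 = 1 := SimpleGraph.dist_eq_one_iff_adj.mpr hadj
      omega
    · obtain ⟨r1, r2⟩ := ih hg' h' hw
      exact ⟨r1, by omega⟩
    · obtain ⟨r1, r2⟩ := ih hg' h' hw
      exact ⟨r1, by omega⟩

/-- Gate formula. -/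
lemma gate_dist {c : S} {z : List S} (hg : Good hm z) {k : ℕ} {y y' : List S}
    (h : Gt m c z k y) (hr : (WG hm).Reachable z (c :: y')) :
    (WG hm).Reachable y y' ∧ (WG hm).dist z (c :: y') = k + (WG hm).dist y y' := by
  obtain ⟨p, hp⟩ := hr.exists_walk_length_eq_dist
  obtain ⟨r1, r2⟩ := gate_walk hm p hg h rfl
  refine ⟨r1, le_antisymm ?_ (by omega)⟩
  obtain ⟨q, hq⟩ := gt_path hm h
  obtain ⟨q2, hq2⟩ := r1.exists_walk_length_eq_dist
  obtain ⟨q3, hq3⟩ := walk_cons hm c q2
  have := SimpleGraph.dist_le (q.append q3)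
  rw [SimpleGraph.Walk.length_append, hq, hq3, hq2] at this
  exact this

lemma dist_cons {c : S} {x y : List S} (hg : Good hm (c :: x))
    (hr : (WG hm).Reachable (c :: x) (c :: y)) :
    (WG hm).Reachable x y ∧ (WG hm).dist (c :: x) (c :: y) = (WG hm).dist x y := by
  have := gate_dist hm hg (Gt.base c x) hr
  rwa [zero_add] at this

/-- Median of three words. -/
def Med (u v w x : List S) : Prop :=
  (WG hm).Reachable u x ∧ (WG hm).dist u x + (WG hm).dist x v = (WG hm).dist u v ∧
    (WG hm).dist v x + (WG hm).dist x w = (WG hm).dist v w ∧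
    (WG hm).dist u x + (WG hm).dist x w = (WG hm).dist u w

lemma med_core (c : S) (u v w : List S) (hg : Good hm (c :: u))
    (hv : (WG hm).Reachable (c :: u) (c :: v)) (hw : (WG hm).Reachable (c :: u) w)
    (ih : ∀ w', (WG hm).Reachable u v → (WG hm).Reachable u w' → ∃! x, Med hm u v w' x) :
    ∃! x, Med hm (c :: u) (c :: v) w x := by
  have hgv := hg.of_reach hm hv
  have hgw := hg.of_reach hm hw
  obtain ⟨k, y, hgt⟩ := gt_exists hm hw hg
  obtain ⟨huv, duv⟩ := dist_cons hm hg hv
  obtain ⟨hyu, dwu⟩ := gate_dist hm hgw hgt hw.symm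
  obtain ⟨hyv, dwv⟩ := gate_dist hm hgw hgt (hw.symm.trans hv)
  obtain ⟨x, hx, hxu⟩ := ih y huv hyu.symm
  obtain ⟨rux, e1, e2, e3⟩ := hx
  have rcx : (WG hm).Reachable (c :: u) (c :: x) := reach_cons hm c rux
  obtain ⟨_, dux⟩ := dist_cons hm hg rcx
  obtain ⟨_, dvx⟩ := dist_cons hm hgv (hv.symm.trans rcx)
  obtain ⟨_, dwx⟩ := gate_dist hm hgw hgt (hw.symm.trans rcx)
  refine ⟨c :: x, ⟨rcx, ?_, ?_, ?_⟩, ?_⟩
  · rw [SimpleGraph.dist_comm (u := c :: x), dux, dvx, duv, SimpleGraph.dist_comm (u := v)]
    exact e1
  · rw [SimpleGraph.dist_comm (u := c :: x), SimpleGraph.dist_comm (u := c :: v) (v := w), dvx,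
      dwx, dwv, SimpleGraph.dist_comm (u := y) (v := x), SimpleGraph.dist_comm (u := y) (v := v)]
    omega
  · rw [SimpleGraph.dist_comm (u := c :: x), SimpleGraph.dist_comm (u := c :: u) (v := w), dux,
      dwx, dwu, SimpleGraph.dist_comm (u := y) (v := x), SimpleGraph.dist_comm (u := y) (v := u)]
    omega
  · rintro x1 ⟨r1, f1, f2, f3⟩
    have hgx := hg.of_reach hm r1
    obtain ⟨k1, y1, hgt1⟩ := gt_exists hm r1 hg
    obtain ⟨h1, d1⟩ := gate_dist hm hgx hgt1 r1.symm
    obtain ⟨h2, d2⟩ := gate_dist hm hgx hgt1 (r1.symm.trans hv)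
    have htri := h1.symm.dist_triangle_left v
    rw [SimpleGraph.dist_comm (u := u) (v := y1)] at htri
    rw [SimpleGraph.dist_comm (u := c :: u) (v := x1), d1, d2, duv] at f1
    have hk1 : k1 = 0 := by omega
    subst hk1
    have hx1 : x1 = c :: y1 := by
      obtain ⟨q, hq⟩ := gt_path hm hgt1
      exact SimpleGraph.Walk.eq_of_length_eq_zero hq
    subst hx1
    obtain ⟨_, d3⟩ := gate_dist hm hgw hgt (hw.symm.trans r1)
    have : Med hm u v y y1 := by
      refine ⟨h1.symm, ?_, ?_, ?_⟩
      · rw [SimpleGraph.dist_comm (u := u) (v := y1)]; omega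
      · rw [SimpleGraph.dist_comm (u := c :: v) (v := c :: y1), d2,
          SimpleGraph.dist_comm (u := c :: y1) (v := w), d3,
          SimpleGraph.dist_comm (u := c :: v) (v := w), dwv] at f2
        rw [SimpleGraph.dist_comm (u := v) (v := y1), SimpleGraph.dist_comm (u := y1) (v := y),
          SimpleGraph.dist_comm (u := v) (v := y)]
        omega
      · rw [SimpleGraph.dist_comm (u := c :: u) (v := c :: y1), d1,
          SimpleGraph.dist_comm (u := c :: y1) (v := w), d3,
          SimpleGraph.dist_comm (u := c :: u) (v := w), dwu] at f3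
        rw [SimpleGraph.dist_comm (u := u) (v := y1), SimpleGraph.dist_comm (u := y1) (v := y),
          SimpleGraph.dist_comm (u := u) (v := y)]
        omega
    rw [hxu y1 this]

lemma med_perm1 {u v w x : List S} (h : Med hm u v w x) : Med hm u w v x := by
  obtain ⟨r, e1, e2, e3⟩ := h
  refine ⟨r, e3, ?_, e1⟩
  rw [SimpleGraph.dist_comm (u := w) (v := x), SimpleGraph.dist_comm (u := x) (v := v),
    SimpleGraph.dist_comm (u := w) (v := v)]
  omega

lemma med_perm2 {u v w x : List S} (hv : (WG hm).Reachable u v) (h : Med hm u v w x) :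
    Med hm v w u x := by
  obtain ⟨r, e1, e2, e3⟩ := h
  refine ⟨hv.symm.trans r, e2, ?_, ?_⟩
  · rw [SimpleGraph.dist_comm (u := w) (v := x), SimpleGraph.dist_comm (u := x) (v := u),
      SimpleGraph.dist_comm (u := w) (v := u)]
    omega
  · rw [SimpleGraph.dist_comm (u := v) (v := x), SimpleGraph.dist_comm (u := x) (v := u),
      SimpleGraph.dist_comm (u := v) (v := u)]
    omega

/-- Unique medians in every class of good words. -/
theorem med_exists_unique (n : ℕ) : ∀ u v w : List S, u.length = n → Good hm u →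
    (WG hm).Reachable u v → (WG hm).Reachable u w → ∃! x, Med hm u v w x := by
  induction n with
  | zero =>
    intro u v w hu hg hv hw
    have lv := reach_length hm hv
    have lw := reach_length hm hw
    have eu : u = [] := List.length_eq_zero_iff.mp hu
    have ev : v = [] := List.length_eq_zero_iff.mp (by omega)
    have ew : w = [] := List.length_eq_zero_iff.mp (by omega)
    subst eu; subst ev; subst ew
    refine ⟨[], ⟨SimpleGraph.Reachable.refl _, by simp, by simp, by simp⟩, ?_⟩
    rintro x ⟨r, _⟩
    exact List.length_eq_zero_iff.mp (by rw [← reach_length hm r]; rfl)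
  | succ n ih =>
    intro u v w hu hg hv hw
    have lv := reach_length hm hv
    have lw := reach_length hm hw
    obtain ⟨a, u', rfl⟩ := List.exists_cons_of_length_eq_add_one hu
    obtain ⟨b, v', rfl⟩ := List.exists_cons_of_length_eq_add_one (show v.length = n + 1 by omega)
    obtain ⟨c, w', rfl⟩ := List.exists_cons_of_length_eq_add_one (show w.length = n + 1 by omega)
    have hgv := hg.of_reach hm hv
    have hgw := hg.of_reach hm hw
    have lu' : u'.length = n := by simpa using hu
    have lv' : v'.length = n := by simpa using (show (b :: v').length = n + 1 by omega)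
    by_cases hab : a = b
    · subst hab
      exact med_core hm a u' v' (c :: w') hg hv hw fun x h1 h2 =>
        ih u' v' x lu' (hg.tail) h1 h2
    by_cases hac : a = c
    · subst hac
      obtain ⟨x, hx, hux⟩ := med_core hm a u' w' (b :: v') hg hw hv fun x h1 h2 =>
        ih u' w' x lu' (hg.tail) h1 h2
      exact ⟨x, med_perm1 hm hx, fun y hy => hux y (med_perm1 hm hy)⟩
    by_cases hbc : b = c
    · subst hbc
      obtain ⟨x, hx, hux⟩ := med_core hm b v' w' (a :: u') hgv (hv.symm.trans hw) hv.symm
        fun x h1 h2 => ih v' w' x lv' (hgv.tail) h1 h2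
      refine ⟨x, ?_, fun y hy => hux y (med_perm2 hm hv hy)⟩
      exact med_perm2 hm hw.symm (med_perm2 hm (hv.symm.trans hw) hx)
    · exfalso
      obtain ⟨k1, y1, g1⟩ := gt_exists hm hw hg
      obtain ⟨k2, y2, g2⟩ := gt_exists hm (hv.symm.trans hw) hgv
      obtain ⟨_, z1, _, e1, _⟩ := gt_other g1 (Ne.symm hac)
      obtain ⟨_, z2, _, e2, _⟩ := gt_other g2 (Ne.symm hbc)
      rw [e1] at e2
      exact hab (List.cons.inj e2).1

end Pool.Agent.Helper67.Braid
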