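import Mathlib

set_option autoImplicit false

namespace Pool.Agent.Helper67.BraidGraph

/-- The Coxeter matrix is simply-laced. -/
def IsSimplyLaced {S : Type*} (M : CoxeterMatrix S) : Prop :=
  ∀ s t : S, s ≠ t → M s t = 2 ∨ M s t = 3

/-- A braid move replaces a consecutive factor `s t s` by `t s t`, where `m(s,t) = 3`. -/
inductive BraidMove {S : Type*} (M : CoxeterMatrix S) : List S → List S → Prop
  | mk (l r : List S) (s t : S) (h : M s t = 3) :
      BraidMove M (l ++ [s, t, s] ++ r) (l ++ [t, s, t] ++ r)

/-- The braid class of a word: all words obtained from it by finite sequences of braid moves. -/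
def braidClass {S : Type*} (M : CoxeterMatrix S) (α : List S) : Set (List S) :=
  {β | Relation.ReflTransGen (BraidMove M) α β}

/-- The braid graph: vertices are the members of the braid class, two of them being adjacent
exactly when they differ by a single braid move. -/
def braidGraph {S : Type*} (M : CoxeterMatrix S) (α : List S) :
    SimpleGraph (braidClass M α) :=
  SimpleGraph.fromRel (fun β γ => BraidMove M β.1 γ.1)

/-- The vertex `x` lies on a shortest path between `a` and `b`. -/
def OnShortestPath {V : Type*} (G : SimpleGraph V) (a b x : V) : Prop :=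
  ∃ p : G.Walk a b, p.length = G.dist a b ∧ x ∈ p.support

/-- Median graphs. -/
def IsMedianGraph {V : Type*} (G : SimpleGraph V) : Prop :=
  G.Connected ∧ ∀ u v w : V,
    ∃! x : V, OnShortestPath G u v x ∧ OnShortestPath G v w x ∧ OnShortestPath G u w x

end Pool.Agent.Helper67.BraidGraph
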