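import Pool.Agent.Helper67.BraidDefs
import Pool.Agent.Helper67.BraidCore

set_option autoImplicit false

namespace Pool.Agent.Helper67.BraidGraph

open Pool.Agent.Helper67.Braid

variable {S : Type*}

/-- bonds of order three -/
def bond (M : CoxeterMatrix S) (s t : S) : Prop := M s t = 3

lemma bond_nice (M : CoxeterMatrix S) : Nice (bond M) where
  symm s t h := by
    unfold bond at *
    rw [M.symmetric t s]; exact h
  irr s h := by
    unfold bond at h
    rw [M.diagonal s] at h
    omega

lemma step_iff (M : CoxeterMatrix S) (x y : List S) : Step (bond M) x y ↔ BraidMove M x y := by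
  constructor
  · intro h
    induction h with
    | @head s t h x => exact BraidMove.mk [] x s t h
    | cons a _ ih =>
      cases ih with
      | mk l r s t h => exact BraidMove.mk (a :: l) r s t h
  · intro h
    cases h with
    | mk l r s t h =>
      induction l with
      | nil => exact Step.head (m := bond M) (s := s) (t := t) h r
      | cons a l ih => exact Step.cons a ih

lemma reach_iff (M : CoxeterMatrix S) (x y : List S) :
    (WG (bond_nice M)).Reachable x y ↔ Relation.ReflTransGen (BraidMove M) x y := by
  rw [SimpleGraph.reachable_iff_reflTransGen]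
  constructor
  · intro h
    exact Relation.ReflTransGen.mono (fun a b hab => (step_iff M a b).mp hab) _ _ h
  · intro h
    exact Relation.ReflTransGen.mono (fun a b hab => (step_iff M a b).mpr hab) _ _ h

lemma bg_adj (M : CoxeterMatrix S) (α : List S) (β γ : braidClass M α) :
    (braidGraph M α).Adj β γ ↔ (WG (bond_nice M)).Adj β.1 γ.1 := by
  unfold braidGraph
  rw [SimpleGraph.fromRel_adj, adj_iff, ← step_iff, ← step_iff]
  constructor
  · rintro ⟨_, h | h⟩
    · exact h
    · exact h.symm (bond_nice M).symm
  · intro h
    exact ⟨fun he => h.irrefl (bond_nice M).irr (congrArg Subtype.val he), Or.inl h⟩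

section Reduced

variable {W : Type*} [Group W] {M : CoxeterMatrix S} (cs : CoxeterSystem M W)

lemma prod_braid (s t : S) (h : M s t = 3) :
    cs.simple s * (cs.simple t * cs.simple s) = cs.simple t * (cs.simple s * cs.simple t) := by
  have h1 := cs.simple_mul_simple_pow s t
  rw [h] at h1
  have h2 : cs.simple s * cs.simple t * (cs.simple s * cs.simple t) *
      (cs.simple s * cs.simple t) = 1 := by
    rw [← h1]; simp [pow_succ]
  have h3 : cs.simple s * (cs.simple t * cs.simple s) =
      (cs.simple t * (cs.simple s * cs.simple t))⁻¹ := by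
    rw [eq_inv_iff_mul_eq_one]
    rw [← h2]; group
  rw [h3]
  simp [mul_assoc]

lemma wordProd_step {x y : List S} (h : BraidMove M x y) : cs.wordProd x = cs.wordProd y := by
  cases h with
  | mk l r s t h =>
    simp only [cs.wordProd_append, cs.wordProd_cons, cs.wordProd_nil, mul_one]
    rw [prod_braid cs s t h]

lemma reduced_of_reach {x y : List S} (h : (WG (bond_nice M)).Reachable x y)
    (hx : cs.IsReduced x) : cs.IsReduced y := by
  have hl := reach_length _ h
  have hp : cs.wordProd x = cs.wordProd y := by
    rw [reach_iff] at h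
    induction h with
    | refl => rfl
    | tail _ h2 ih =>
      have h3 := wordProd_step cs h2
      have h4 : Step (bond M) _ _ := (step_iff M _ _).mpr h2
      rw [← h3]
      apply ih
      rw [hl]; exact (h4.length_eq).symm
  unfold CoxeterSystem.IsReduced at *
  rw [← hp, ← hl]; exact hx

lemma not_reduced_four (s t : S) (h : M s t = 3) : ¬ cs.IsReduced [s, t, s, t] := by
  intro hr
  unfold CoxeterSystem.IsReduced at hr
  have h1 : cs.wordProd [s, t, s, t] = cs.wordProd [t, s] := by
    simp only [cs.wordProd_cons, cs.wordProd_nil, mul_one]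
    have := prod_braid cs s t h
    calc cs.simple s * (cs.simple t * (cs.simple s * cs.simple t))
        = (cs.simple s * (cs.simple t * cs.simple s)) * cs.simple t := by simp [mul_assoc]
      _ = (cs.simple t * (cs.simple s * cs.simple t)) * cs.simple t := by rw [this]
      _ = _ := by simp [mul_assoc]
  have h2 := cs.length_wordProd_le [t, s]
  rw [← h1, hr] at h2
  simp at h2

lemma good_of_reduced {α : List S} (hα : cs.IsReduced α) : Good (bond_nice M) α := by
  intro v hv l s t r he hm
  have hr := reduced_of_reach cs hv hα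
  rw [he] at hr
  have h1 : cs.IsReduced (s :: t :: s :: t :: r) := by
    have := hr.drop l.length
    simpa using this
  have h2 := h1.take 4
  simp only [List.take_succ_cons, List.take_zero] at h2
  exact not_reduced_four cs s t hm h2

end Reduced

section Transfer

variable (M : CoxeterMatrix S) (α : List S)

lemma walk_down {β γ : braidClass M α} (p : (braidGraph M α).Walk β γ) :
    ∃ q : (WG (bond_nice M)).Walk β.1 γ.1, q.length = p.length := by
  induction p with
  | nil => exact ⟨SimpleGraph.Walk.nil, rfl⟩
  | cons h _ ih =>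
    obtain ⟨q, hq⟩ := ih
    exact ⟨SimpleGraph.Walk.cons ((bg_adj M α _ _).mp h) q, by simp [hq]⟩

lemma walk_up {x y : List S} (p : (WG (bond_nice M)).Walk x y) (hx : x ∈ braidClass M α)
    (hy : y ∈ braidClass M α) :
    ∃ q : (braidGraph M α).Walk ⟨x, hx⟩ ⟨y, hy⟩, q.length = p.length := by
  induction p with
  | nil => exact ⟨SimpleGraph.Walk.nil, rfl⟩
  | @cons a b c h q ih =>
    have hb : b ∈ braidClass M α := by
      have h1 : (WG (bond_nice M)).Reachable α a := (reach_iff M α a).mpr hx
      exact (reach_iff M α b).mp (h1.trans (SimpleGraph.Adj.reachable h))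
    obtain ⟨q', hq'⟩ := ih hb hy
    have hadj : (braidGraph M α).Adj ⟨a, hx⟩ ⟨b, hb⟩ := (bg_adj M α _ _).mpr h
    exact ⟨SimpleGraph.Walk.cons hadj q', by simp [hq']⟩

lemma reach_class (β γ : braidClass M α) : (WG (bond_nice M)).Reachable β.1 γ.1 :=
  ((reach_iff M α β.1).mpr β.2).symm.trans ((reach_iff M α γ.1).mpr γ.2)

lemma bg_connected : (braidGraph M α).Connected := by
  have : Nonempty (braidClass M α) := ⟨⟨α, Relation.ReflTransGen.refl⟩⟩
  refine SimpleGraph.Connected.mk fun β γ => ?_
  obtain ⟨p⟩ := reach_class M α β γ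
  obtain ⟨q, _⟩ := walk_up M α p β.2 γ.2
  exact ⟨q⟩

lemma bg_dist (β γ : braidClass M α) :
    (braidGraph M α).dist β γ = (WG (bond_nice M)).dist β.1 γ.1 := by
  apply le_antisymm
  · obtain ⟨p, hp⟩ := (reach_class M α β γ).exists_walk_length_eq_dist
    obtain ⟨q, hq⟩ := walk_up M α p β.2 γ.2
    rw [← hp, ← hq]
    exact SimpleGraph.dist_le q
  · obtain ⟨p, hp⟩ := (bg_connected M α).exists_walk_length_eq_dist β γ
    obtain ⟨q, hq⟩ := walk_down M α p
    rw [← hp, ← hq]
    exact SimpleGraph.dist_le q

end Transfer

lemma onShortest_iff {V : Type*} {G : SimpleGraph V} (hG : G.Connected) (a b x : V) :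
    OnShortestPath G a b x ↔ G.dist a x + G.dist x b = G.dist a b := by
  classical
  constructor
  · rintro ⟨p, hp, hx⟩
    have h1 := SimpleGraph.dist_le (p.takeUntil x hx)
    have h2 := SimpleGraph.dist_le (p.dropUntil x hx)
    have h3 : (p.takeUntil x hx).length + (p.dropUntil x hx).length = p.length := by
      have := congrArg SimpleGraph.Walk.length (p.take_spec hx)
      rwa [SimpleGraph.Walk.length_append] at this
    have h4 := hG.dist_triangle (u := a) (v := x) (w := b)
    omega
  · intro h
    obtain ⟨p, hp⟩ := hG.exists_walk_length_eq_dist a x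
    obtain ⟨q, hq⟩ := hG.exists_walk_length_eq_dist x b
    refine ⟨p.append q, by rw [SimpleGraph.Walk.length_append]; omega, ?_⟩
    rw [SimpleGraph.Walk.mem_support_append_iff]
    exact Or.inl p.end_mem_support

/-- Braid graphs of reduced words are median. -/
theorem braidGraph_median {W : Type*} [Group W] (M : CoxeterMatrix S) (cs : CoxeterSystem M W)
    (α : List S) (hα : cs.IsReduced α) : IsMedianGraph (braidGraph M α) := by
  have hconn := bg_connected M α
  refine ⟨hconn, fun u v w => ?_⟩
  have hgα := good_of_reduced cs hα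
  have hg : Good (bond_nice M) u.1 := hgα.of_reach _ ((reach_iff M α u.1).mpr u.2)
  obtain ⟨x, hx, hux⟩ := med_exists_unique (bond_nice M) u.1.length u.1 v.1 w.1 rfl hg
    (reach_class M α u v) (reach_class M α u w)
  have hxc : x ∈ braidClass M α :=
    (reach_iff M α x).mp (((reach_iff M α u.1).mpr u.2).trans hx.1)
  refine ⟨⟨x, hxc⟩, ?_, ?_⟩
  · simp only [onShortest_iff hconn, bg_dist]
    exact ⟨hx.2.1, hx.2.2.1, hx.2.2.2⟩
  · rintro ⟨y, hy⟩ h
    simp only [onShortest_iff hconn, bg_dist] at h
    have hr : (WG (bond_nice M)).Reachable u.1 y := reach_class M α u ⟨y, hy⟩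
    exact Subtype.ext (hux y ⟨hr, h.1, h.2.1, h.2.2⟩)

end Pool.Agent.Helper67.BraidGraph
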