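import Pool.Agent.Helper67.Final

set_option autoImplicit false

/-!
Conclusion for all sizes.
-/

namespace Pool.Agent.Helper67

open Finset Matrix

variable {n : ℕ}

lemma phi_submatrix (A : Matrix (Fin n) (Fin n) ℝ) (σ τ : Equiv.Perm (Fin n)) :
    phi (A.submatrix σ τ) = phi A := by
  unfold phi
  have h1 : (A.submatrix σ τ).permanent = A.permanent := by
    have : A.submatrix σ τ = (A.submatrix σ id).submatrix id τ := by
      rw [Matrix.submatrix_submatrix]; rfl
    rw [this, Matrix.permanent_permute_rows, Matrix.permanent_permute_cols]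
  have h2 : ∏ i, ∑ j, (A.submatrix σ τ) i j = ∏ i, ∑ j, A i j := by
    simp only [Matrix.submatrix_apply]
    rw [← Equiv.prod_comp σ (fun i => ∑ j, A i j)]
    exact Finset.prod_congr rfl fun i _ => Equiv.sum_comp τ (fun j => A (σ i) j)
  have h3 : ∏ j, ∑ i, (A.submatrix σ τ) i j = ∏ j, ∑ i, A i j := by
    simp only [Matrix.submatrix_apply]
    rw [← Equiv.prod_comp τ (fun j => ∑ i, A i j)]
    exact Finset.prod_congr rfl fun j _ => Equiv.sum_comp σ (fun i => A i (τ j))
  rw [h1, h2, h3]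

lemma IsMaxi.submatrix {A : Matrix (Fin n) (Fin n) ℝ} (h : IsMaxi A)
    (σ τ : Equiv.Perm (Fin n)) : IsMaxi (A.submatrix σ τ) := by
  refine h.of_eq (fun i j => h.nonneg _ _) ?_ (by rw [phi_submatrix])
  rw [← h.total]
  simp only [Matrix.submatrix_apply]
  rw [← Equiv.sum_comp σ (fun i => ∑ j, A i j)]
  exact Finset.sum_congr rfl fun i _ => Equiv.sum_comp τ (fun j => A (σ i) j)

lemma rs_submatrix (A : Matrix (Fin n) (Fin n) ℝ) (σ τ : Equiv.Perm (Fin n)) (i : Fin n) :
    rs (A.submatrix σ τ) i = rs A (σ i) := by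
  unfold rs
  simp only [Matrix.submatrix_apply]
  exact Equiv.sum_comp τ (fun j => A (σ i) j)

lemma cs_submatrix (A : Matrix (Fin n) (Fin n) ℝ) (σ τ : Equiv.Perm (Fin n)) (j : Fin n) :
    cs (A.submatrix σ τ) j = cs A (τ j) := by
  unfold cs
  simp only [Matrix.submatrix_apply]
  exact Equiv.sum_comp σ (fun i => A i (τ j))

lemma flat_ge_three (hn : 3 ≤ n) {A : Matrix (Fin n) (Fin n) ℝ} (h : IsMaxi A) :
    ∀ i j, A i j = 1 / n := by
  set σ : Equiv.Perm (Fin n) := Tuple.sort (fun i => -rs A i) with hσ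
  set τ : Equiv.Perm (Fin n) := Tuple.sort (cs A) with hτ
  set B := A.submatrix σ τ with hB
  have hBm : IsMaxi B := h.submatrix σ τ
  have hr : Antitone (rs B) := by
    intro i j hij
    have := Tuple.monotone_sort (fun i => -rs A i) hij
    simp only [Function.comp] at this
    rw [hB, rs_submatrix, rs_submatrix]
    linarith
  have hc : Monotone (cs B) := by
    intro i j hij
    have := Tuple.monotone_sort (cs A) hij
    simp only [Function.comp] at this
    rw [hB, cs_submatrix, cs_submatrix]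
    exact this
  have hsrt := srt_of_maxi (by omega) hBm hr hc
  have f := fct_of_maxi (by omega) hBm
  have hds : IsDS B := by
    rcases Nat.eq_or_lt_of_le hn with h3 | h4
    · subst h3
      exact three_case hsrt f
    · exact big_case h4 hsrt f
  have hflat := ds_flat (by omega) hBm hds
  intro i j
  have := hflat (σ.symm i) (τ.symm j)
  rw [hB, Matrix.submatrix_apply, Equiv.apply_symm_apply, Equiv.apply_symm_apply] at this
  exact this

lemma flat_two {A : Matrix (Fin 2) (Fin 2) ℝ} (h : IsMaxi A) :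
    ∀ i j, A i j = 1 / ((2 : ℕ) : ℝ) := by
  have h1 := h.max (JJ 2) JJ_nonneg (JJ_total (by norm_num))
  rw [phi_JJ (by norm_num)] at h1
  have hg : gam 2 = 1 / 2 := by norm_num [gam, Nat.factorial]
  rw [hg] at h1
  have htot := h.total
  have hperm : A.permanent = A 0 0 * A 1 1 + A 0 1 * A 1 0 := by
    rw [permanent_eq_Pe]
    have : (Finset.univ : Finset (Fin 2)) = {0, 1} := by decide
    have e0 : ({0, 1} : Finset (Fin 2)).erase 0 = {1} := by decide
    have e1 : ({0, 1} : Finset (Fin 2)).erase 1 = {0} := by decide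
    have e2 : ({1} : Finset (Fin 2)).erase 1 = ∅ := by decide
    have e3 : ({0} : Finset (Fin 2)).erase 0 = ∅ := by decide
    rw [this]
    simp [List.ofFn_succ, Pe_cons, e0, e1, e2, e3]
  unfold phi at h1
  rw [hperm] at h1
  simp only [Fin.prod_univ_two, Fin.sum_univ_two] at h1 htot
  push_cast at htot ⊢
  set a := A 0 0
  set b := A 0 1
  set c := A 1 0
  set d := A 1 1
  have key : (a - 1 / 2) ^ 2 + (b - 1 / 2) ^ 2 + (c - 1 / 2) ^ 2 + (d - 1 / 2) ^ 2 ≤ 0 := by
    have hd : d = 2 - a - b - c := by linarith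
    rw [hd] at h1 ⊢
    nlinarith
  have ha : (a - 1 / 2) ^ 2 = 0 := by nlinarith [sq_nonneg (a - 1 / 2), sq_nonneg (b - 1 / 2), sq_nonneg (c - 1 / 2), sq_nonneg (d - 1 / 2)]
  have hb : (b - 1 / 2) ^ 2 = 0 := by nlinarith [sq_nonneg (a - 1 / 2), sq_nonneg (b - 1 / 2), sq_nonneg (c - 1 / 2), sq_nonneg (d - 1 / 2)]
  have hc : (c - 1 / 2) ^ 2 = 0 := by nlinarith [sq_nonneg (a - 1 / 2), sq_nonneg (b - 1 / 2), sq_nonneg (c - 1 / 2), sq_nonneg (d - 1 / 2)]
  have hd : (d - 1 / 2) ^ 2 = 0 := by nlinarith [sq_nonneg (a - 1 / 2), sq_nonneg (b - 1 / 2), sq_nonneg (c - 1 / 2), sq_nonneg (d - 1 / 2)]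
  have ha' : a = 1 / 2 := by have := pow_eq_zero_iff (two_ne_zero) |>.mp ha; linarith
  have hb' : b = 1 / 2 := by have := pow_eq_zero_iff (two_ne_zero) |>.mp hb; linarith
  have hc' : c = 1 / 2 := by have := pow_eq_zero_iff (two_ne_zero) |>.mp hc; linarith
  have hd' : d = 1 / 2 := by have := pow_eq_zero_iff (two_ne_zero) |>.mp hd; linarith
  intro i j
  fin_cases i <;> fin_cases j
  · exact ha'
  · exact hb'
  · exact hc'
  · exact hd'

lemma flat_one {A : Matrix (Fin 1) (Fin 1) ℝ} (h : IsMaxi A) :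
    ∀ i j, A i j = 1 / ((1 : ℕ) : ℝ) := by
  intro i j
  have := h.total
  simp only [Fin.sum_univ_one] at this
  fin_cases i; fin_cases j
  simpa using this

theorem maxi_flat (hn : 0 < n) {A : Matrix (Fin n) (Fin n) ℝ} (h : IsMaxi A) :
    A = JJ n := by
  ext i j
  simp only [JJ, Matrix.of_apply]
  rcases Nat.lt_or_ge n 3 with h3 | h3
  · have h12 : n = 1 ∨ n = 2 := by omega
    rcases h12 with h1 | h2
    · subst h1
      exact flat_one h i j
    · subst h2
      exact flat_two h i j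
  · exact flat_ge_three h3 h i j

theorem dittert (n : ℕ) (hn : 0 < n) (A : Matrix (Fin n) (Fin n) ℝ) (hA : ∀ i j, 0 ≤ A i j)
    (hs : (∑ i, ∑ j, A i j) = (n : ℝ)) (hne : A ≠ JJ n) : phi A < phi (JJ n) := by
  obtain ⟨M, hM⟩ := exists_maxi n
  have hMJ := maxi_flat hn hM
  rw [hMJ] at hM
  refine lt_of_le_of_ne (hM.max A hA hs) fun heq => hne ?_
  exact maxi_flat hn (hM.of_eq hA hs heq.ge)

end Pool.Agent.Helper67
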