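import Mathlib
set_option autoImplicit false
open Finset

namespace Pool.Agent.Helper67.Covering

/-- A finite set of vectors of `(ZMod 3)^q` is covering if the difference of any two distinct
members takes every value of `ZMod 3`. -/
def Covering {q : ℕ} (F : Finset (Fin q → ZMod 3)) : Prop :=
  ∀ v ∈ F, ∀ w ∈ F, v ≠ w → ∀ a : ZMod 3, ∃ k, v k - w k = a

/-- `R(3,q)`: the largest size of a covering family in `(ZMod 3)^q`. -/
noncomputable def R (q : ℕ) : ℕ :=
  sSup {n | ∃ F : Finset (Fin q → ZMod 3), Covering F ∧ F.card = n}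

/-- `A q r`: the sum of the binomial coefficients `q.choose j` over `j` congruent to `r`
modulo `6`. -/
def A (q r : ℕ) : ℕ := ∑ j ∈ range (q + 1), if j % 6 = r % 6 then q.choose j else 0

noncomputable def psi : AddChar (ZMod 3) ℂ := ZMod.stdAddChar

theorem psi_sum (b : ZMod 3) : ∑ x, psi (x * b) = if b = 0 then (3 : ℂ) else 0 := by
  have h := AddChar.sum_mulShift (ψ := psi) b (ZMod.isPrimitive_stdAddChar 3)
  rw [h]
  simp [ZMod.card]

noncomputable def u {q : ℕ} (T : Finset (Fin q)) (d : Fin q → ZMod 3) : ℂ :=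
  (∏ k ∈ T, psi (d k)) * ∏ k ∈ Tᶜ, psi (-d k)

theorem u_mul_conj {q : ℕ} (T : Finset (Fin q)) (v w : Fin q → ZMod 3) :
    u T v * (starRingEnd ℂ) (u T w) = u T (v - w) := by
  unfold u
  rw [map_mul, map_prod, map_prod]
  have e1 : ∏ k ∈ T, psi ((v - w) k) = (∏ k ∈ T, psi (v k)) * ∏ k ∈ T, (starRingEnd ℂ) (psi (w k)) := by
    rw [← Finset.prod_mul_distrib]
    refine Finset.prod_congr rfl (fun k _ => ?_)
    rw [Pi.sub_apply, sub_eq_add_neg, AddChar.map_add_eq_mul, AddChar.map_neg_eq_conj]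
  have e2 : ∏ k ∈ Tᶜ, psi (-(v - w) k) =
      (∏ k ∈ Tᶜ, psi (-v k)) * ∏ k ∈ Tᶜ, (starRingEnd ℂ) (psi (-w k)) := by
    rw [← Finset.prod_mul_distrib]
    refine Finset.prod_congr rfl (fun k _ => ?_)
    rw [← AddChar.map_neg_eq_conj, ← AddChar.map_add_eq_mul, Pi.sub_apply]
    congr 1
    ring
  rw [e1, e2]
  ring

theorem add_self_eq (m : ZMod 3) : m + m = -m := by
  revert m; decide

theorem kernel {q : ℕ} (d : Fin q → ZMod 3) (hd : ∀ a, ∃ k, d k = a) (m : ZMod 3) :
    ∑ T : Finset (Fin q), (-psi m) ^ T.card * u T d = 0 := by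
  have h1 : ∀ T : Finset (Fin q), (-psi m) ^ T.card * u T d =
      (∏ k ∈ T, (-psi m * psi (d k))) * ∏ k ∈ Tᶜ, psi (-d k) := by
    intro T
    unfold u
    rw [Finset.prod_mul_distrib, Finset.prod_const]
    ring
  rw [Finset.sum_congr rfl (fun T _ => h1 T)]
  rw [← Fintype.prod_add (fun k => -psi m * psi (d k)) (fun k => psi (-d k))]
  obtain ⟨k, hk⟩ := hd m
  apply Finset.prod_eq_zero (Finset.mem_univ k)
  rw [hk]
  have h2 : psi m * psi m = psi (-m) := by
    rw [← AddChar.map_add_eq_mul, add_self_eq]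
  rw [neg_mul, h2]
  ring

/-- the sign of a subset -/
def s (q r : ℕ) (T : Finset (Fin q)) : ℝ :=
  if T.card % 6 = r % 6 then 1 else if T.card % 6 = (r + 3) % 6 then -1 else 0

theorem s_eq (q r : ℕ) (T : Finset (Fin q)) :
    ((s q r T : ℝ) : ℂ) = (-1) ^ (T.card + r) * ((1 / 3) * ∑ m, psi (m * ((T.card : ZMod 3) - r))) := by
  rw [psi_sum]
  have hiff : ((T.card : ZMod 3) - r = 0) ↔ T.card % 3 = r % 3 := by
    rw [sub_eq_zero, ZMod.natCast_eq_natCast_iff]
    rfl
  unfold s
  by_cases h1 : T.card % 6 = r % 6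
  · have h2 : T.card % 3 = r % 3 := by omega
    have h3 : Even (T.card + r) := by rw [Nat.even_iff]; omega
    rw [if_pos h1, if_pos (hiff.2 h2), h3.neg_one_pow]
    norm_num
  · rw [if_neg h1]
    by_cases h4 : T.card % 6 = (r + 3) % 6
    · have h2 : T.card % 3 = r % 3 := by omega
      have h3 : Odd (T.card + r) := by rw [Nat.odd_iff]; omega
      rw [if_pos h4, if_pos (hiff.2 h2), h3.neg_one_pow]
      norm_num
    · have h2 : ¬ T.card % 3 = r % 3 := by omega
      rw [if_neg h4, if_neg (fun h => h2 (hiff.1 h))]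
      norm_num

theorem K_covering {q : ℕ} (r : ℕ) (d : Fin q → ZMod 3) (hd : ∀ a, ∃ k, d k = a) :
    ∑ T : Finset (Fin q), ((s q r T : ℝ) : ℂ) * u T d = 0 := by
  have h1 : ∀ T : Finset (Fin q), ((s q r T : ℝ) : ℂ) * u T d =
      ∑ m : ZMod 3, ((-1) ^ r * (1 / 3) * psi (-(m * r))) * ((-psi m) ^ T.card * u T d) := by
    intro T
    rw [s_eq, Finset.mul_sum, Finset.mul_sum, Finset.sum_mul]
    refine Finset.sum_congr rfl (fun m _ => ?_)
    have h2 : psi (m * ((T.card : ZMod 3) - r)) = psi m ^ T.card * psi (-(m * r)) := by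
      rw [← AddChar.map_nsmul_eq_pow, ← AddChar.map_add_eq_mul]
      congr 1
      rw [nsmul_eq_mul]
      ring
    rw [h2, neg_pow (psi m), pow_add]
    ring
  rw [Finset.sum_congr rfl (fun T _ => h1 T), Finset.sum_comm]
  apply Finset.sum_eq_zero
  intro m _
  rw [← Finset.mul_sum, kernel d hd m, mul_zero]

theorem card_filter (q r : ℕ) :
    (univ.filter (fun T : Finset (Fin q) => T.card % 6 = r % 6)).card = A q r := by
  unfold A
  rw [Finset.card_filter]
  have h1 : ∀ T : Finset (Fin q), T ∈ (univ : Finset (Finset (Fin q))) → T.card ∈ range (q + 1) := by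
    intro T _
    rw [Finset.mem_range]
    have := Finset.card_le_univ T
    rw [Fintype.card_fin] at this
    omega
  rw [← Finset.sum_fiberwise_of_maps_to h1]
  refine Finset.sum_congr rfl (fun j _ => ?_)
  have h2 : ∀ T ∈ (univ : Finset (Finset (Fin q))).filter (fun T => T.card = j),
      (if T.card % 6 = r % 6 then 1 else 0) = if j % 6 = r % 6 then 1 else 0 := by
    intro T hT
    rw [Finset.mem_filter] at hT
    rw [hT.2]
  rw [Finset.sum_congr rfl h2, Finset.sum_const]
  have h3 : ((univ : Finset (Finset (Fin q))).filter (fun T => T.card = j)).card = q.choose j := by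
    have : (univ : Finset (Finset (Fin q))).filter (fun T => T.card = j) =
        Finset.powersetCard j (univ : Finset (Fin q)) := by
      ext T
      simp [Finset.mem_powersetCard]
    rw [this, Finset.card_powersetCard, Finset.card_univ, Fintype.card_fin]
  rw [h3]
  split_ifs <;> simp

theorem sum_s (q r : ℕ) : ∑ T : Finset (Fin q), s q r T = (A q r : ℝ) - A q (r + 3) := by
  rw [← card_filter, ← card_filter, Finset.card_filter, Finset.card_filter]
  push_cast
  rw [← Finset.sum_sub_distrib]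
  refine Finset.sum_congr rfl (fun T _ => ?_)
  unfold s
  by_cases h1 : T.card % 6 = r % 6
  · have h2 : ¬ T.card % 6 = (r + 3) % 6 := by omega
    rw [if_pos h1, if_pos h1, if_neg h2]; norm_num
  · by_cases h2 : T.card % 6 = (r + 3) % 6
    · rw [if_neg h1, if_pos h2, if_neg h1, if_pos h2]; norm_num
    · rw [if_neg h1, if_neg h2, if_neg h1, if_neg h2]; norm_num

theorem u_zero {q : ℕ} (T : Finset (Fin q)) : u T (0 : Fin q → ZMod 3) = 1 := by
  unfold u
  simp

/-- the inertia bound -/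
theorem upper {q r : ℕ} (h : A q (r + 3) < A q r) (F : Finset (Fin q → ZMod 3))
    (hF : Covering F) : F.card ≤ A q r := by
  by_contra hcon
  push Not at hcon
  -- linear map c ↦ (f_T)
  let Tr := {T : Finset (Fin q) // T.card % 6 = r % 6}
  let L : (F → ℂ) →ₗ[ℂ] (Tr → ℂ) :=
    { toFun := fun c T => ∑ v : F, c v * u T.1 v.1
      map_add' := by
        intro c c'
        ext T
        simp [add_mul, Finset.sum_add_distrib]
      map_smul' := by
        intro a c
        ext T
        simp [Finset.mul_sum, mul_assoc] }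
  have hcard : Fintype.card Tr = A q r := by
    rw [← card_filter, Fintype.card_subtype]
  have hker : LinearMap.ker L ≠ ⊥ := by
    apply LinearMap.ker_ne_bot_of_finrank_lt
    rw [Module.finrank_fintype_fun_eq_card, Module.finrank_fintype_fun_eq_card, hcard,
      Fintype.card_coe]
    exact hcon
  obtain ⟨c, hcL, hc0⟩ := (Submodule.ne_bot_iff _).1 hker
  have hL : ∀ T : Finset (Fin q), T.card % 6 = r % 6 → ∑ v : F, c v * u T v.1 = 0 := by
    intro T hT
    have := congrFun (LinearMap.mem_ker.1 hcL) (⟨T, hT⟩ : Tr)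
    exact this
  -- quadratic form
  have hq : ∑ T : Finset (Fin q), (s q r T) * ‖∑ v : F, c v * u T v.1‖ ^ 2 =
      ((A q r : ℝ) - A q (r + 3)) * ∑ v : F, ‖c v‖ ^ 2 := by
    have hC : ((∑ T : Finset (Fin q), (s q r T) * ‖∑ v : F, c v * u T v.1‖ ^ 2 : ℝ) : ℂ) =
        ((((A q r : ℝ) - A q (r + 3)) * ∑ v : F, ‖c v‖ ^ 2 : ℝ) : ℂ) := by
      have e1 : ((∑ T : Finset (Fin q), (s q r T) * ‖∑ v : F, c v * u T v.1‖ ^ 2 : ℝ) : ℂ) =
          ∑ v : F, ∑ w : F, (c v * (starRingEnd ℂ) (c w)) *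
            ∑ T : Finset (Fin q), ((s q r T : ℝ) : ℂ) * u T (v.1 - w.1) := by
        rw [Complex.ofReal_sum]
        have e2 : ∀ T : Finset (Fin q), (((s q r T) * ‖∑ v : F, c v * u T v.1‖ ^ 2 : ℝ) : ℂ) =
            ∑ v : F, ∑ w : F, (c v * (starRingEnd ℂ) (c w)) *
              (((s q r T : ℝ) : ℂ) * u T (v.1 - w.1)) := by
          intro T
          rw [Complex.ofReal_mul, Complex.ofReal_pow, ← Complex.mul_conj', map_sum,
            Finset.sum_mul_sum, Finset.mul_sum]
          refine Finset.sum_congr rfl (fun v _ => ?_)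
          rw [Finset.mul_sum]
          refine Finset.sum_congr rfl (fun w _ => ?_)
          rw [map_mul, ← u_mul_conj]
          ring
        rw [Finset.sum_congr rfl (fun T _ => e2 T), Finset.sum_comm]
        refine Finset.sum_congr rfl (fun v _ => ?_)
        rw [Finset.sum_comm]
        refine Finset.sum_congr rfl (fun w _ => ?_)
        rw [Finset.mul_sum]
      rw [e1]
      have e3 : ∀ v w : F, v ≠ w →
          ∑ T : Finset (Fin q), ((s q r T : ℝ) : ℂ) * u T (v.1 - w.1) = 0 := by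
        intro v w hvw
        apply K_covering
        intro a
        have hne : v.1 ≠ w.1 := fun h => hvw (Subtype.ext h)
        exact hF v.1 v.2 w.1 w.2 hne a
      have e4 : ∀ v : F, ∑ T : Finset (Fin q), ((s q r T : ℝ) : ℂ) * u T (v.1 - v.1) =
          (((A q r : ℝ) - A q (r + 3) : ℝ) : ℂ) := by
        intro v
        rw [sub_self, ← sum_s, Complex.ofReal_sum]
        refine Finset.sum_congr rfl (fun T _ => ?_)
        rw [u_zero, mul_one]
      have e5 : ∀ v : F, ∑ w : F, (c v * (starRingEnd ℂ) (c w)) *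
            ∑ T : Finset (Fin q), ((s q r T : ℝ) : ℂ) * u T (v.1 - w.1) =
          (c v * (starRingEnd ℂ) (c v)) * (((A q r : ℝ) - A q (r + 3) : ℝ) : ℂ) := by
        intro v
        rw [Finset.sum_eq_single v, e4]
        · intro w _ hwv
          rw [e3 v w (Ne.symm hwv), mul_zero]
        · intro hv; exact absurd (Finset.mem_univ v) hv
      rw [Finset.sum_congr rfl (fun v _ => e5 v), ← Finset.sum_mul, Complex.ofReal_mul, mul_comm,
        Complex.ofReal_sum]
      congr 1
      refine Finset.sum_congr rfl (fun v _ => ?_)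
      rw [Complex.mul_conj']
      push_cast
      rfl
    exact_mod_cast hC
  have hle : ∑ T : Finset (Fin q), (s q r T) * ‖∑ v : F, c v * u T v.1‖ ^ 2 ≤ 0 := by
    apply Finset.sum_nonpos
    intro T _
    unfold s
    by_cases h1 : T.card % 6 = r % 6
    · rw [hL T h1]; simp
    · rw [if_neg h1]
      by_cases h2 : T.card % 6 = (r + 3) % 6
      · rw [if_pos h2]
        nlinarith [sq_nonneg ‖∑ v : F, c v * u T v.1‖]
      · rw [if_neg h2]; simp
  rw [hq] at hle
  have hpos : (0 : ℝ) < (A q r : ℝ) - A q (r + 3) := by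
    have : (A q (r + 3) : ℝ) < A q r := by exact_mod_cast h
    linarith
  have hsum : ∑ v : F, ‖c v‖ ^ 2 ≤ 0 := by
    by_contra h0
    push Not at h0
    have := mul_pos hpos h0
    linarith
  apply hc0
  have hz := (Finset.sum_eq_zero_iff_of_nonneg (fun v _ => sq_nonneg ‖c v‖)).1
    (le_antisymm hsum (Finset.sum_nonneg (fun v _ => sq_nonneg ‖c v‖)))
  ext v
  have := hz v (Finset.mem_univ v)
  simpa using this

/-! ### the function `R` -/

theorem card_le {q : ℕ} (F : Finset (Fin q → ZMod 3)) : F.card ≤ 3 ^ q := by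
  have h := Finset.card_le_univ F
  simpa [ZMod.card] using h

theorem le_R {q : ℕ} (F : Finset (Fin q → ZMod 3)) (hF : Covering F) : F.card ≤ R q := by
  apply le_csSup
  · refine ⟨3 ^ q, ?_⟩
    rintro n ⟨F', _, rfl⟩
    exact card_le F'
  · exact ⟨F, hF, rfl⟩

theorem R_le {q N : ℕ} (h : ∀ F : Finset (Fin q → ZMod 3), Covering F → F.card ≤ N) :
    R q ≤ N := by
  apply csSup_le
  · refine ⟨0, ∅, ?_, rfl⟩
    intro v hv
    exact absurd hv (Finset.notMem_empty v)
  · rintro n ⟨F, hF, rfl⟩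
    exact h F hF

theorem R_le_A {q r : ℕ} (h : A q (r + 3) < A q r) : R q ≤ A q r :=
  R_le (fun F hF => upper h F hF)

/-! ### the lower bound -/

def ind {q : ℕ} (T : Finset (Fin q)) : Fin q → ZMod 3 := fun i => if i ∈ T then 1 else 0

theorem ind_inj {q : ℕ} : Function.Injective (ind (q := q)) := by
  intro T T' h
  ext i
  have := congrFun h i
  unfold ind at this
  by_cases h1 : i ∈ T <;> by_cases h2 : i ∈ T' <;> simp [h1, h2] at this ⊢

theorem lower {q k : ℕ} (h : 2 * k ≠ q) : q.choose k ≤ R q := by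
  have hcard : ((Finset.powersetCard k (univ : Finset (Fin q))).image ind).card = q.choose k := by
    rw [Finset.card_image_of_injective _ ind_inj, Finset.card_powersetCard, Finset.card_univ,
      Fintype.card_fin]
  rw [← hcard]
  apply le_R
  intro v hv w hw hvw a
  rw [Finset.mem_image] at hv hw
  obtain ⟨T, hT, rfl⟩ := hv
  obtain ⟨T', hT', rfl⟩ := hw
  rw [Finset.mem_powersetCard] at hT hT'
  have hne : T ≠ T' := fun h => hvw (by rw [h])
  have h1 : ∃ i, i ∈ T ∧ i ∉ T' := by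
    by_contra hcon
    push Not at hcon
    exact hne (Finset.eq_of_subset_of_card_le hcon (by rw [hT.2, hT'.2]))
  have h2 : ∃ i, i ∈ T' ∧ i ∉ T := by
    by_contra hcon
    push Not at hcon
    exact hne (Finset.eq_of_subset_of_card_le hcon (by rw [hT.2, hT'.2])).symm
  have h3 : ∃ i, (i ∈ T ↔ i ∈ T') := by
    by_contra hcon
    push Not at hcon
    have : T' = Tᶜ := by
      ext i
      rw [Finset.mem_compl]
      have := hcon i
      tauto
    have hc := Finset.card_compl T
    rw [← this, hT.2, hT'.2, Fintype.card_fin] at hc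
    have hle : k ≤ q := by
      have := Finset.card_le_univ T
      rw [hT.2, Fintype.card_fin] at this
      exact this
    omega
  have ha : a = 0 ∨ a = 1 ∨ a = 2 := by revert a; decide
  rcases ha with rfl | rfl | rfl
  · obtain ⟨i, hi⟩ := h3
    refine ⟨i, ?_⟩
    unfold ind
    by_cases h5 : i ∈ T
    · rw [if_pos h5, if_pos (hi.1 h5)]; rfl
    · rw [if_neg h5, if_neg (fun h => h5 (hi.2 h))]; rfl
  · obtain ⟨i, hi, hi'⟩ := h1
    refine ⟨i, ?_⟩
    unfold ind
    rw [if_pos hi, if_neg hi']; rfl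
  · obtain ⟨i, hi, hi'⟩ := h2
    refine ⟨i, ?_⟩
    unfold ind
    rw [if_neg hi', if_pos hi]; rfl

/-! ### recursions -/

theorem A_period (q r : ℕ) : A q (r + 6) = A q r := by
  unfold A
  have : (r + 6) % 6 = r % 6 := by omega
  rw [this]

theorem A_pascal (q r : ℕ) : A (q + 1) (r + 1) = A q (r + 1) + A q r := by
  unfold A
  rw [Finset.sum_range_succ']
  have h1 : ∀ j ∈ range (q + 1), (if (j + 1) % 6 = (r + 1) % 6 then (q + 1).choose (j + 1) else 0) =
      (if j % 6 = r % 6 then q.choose j else 0) +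
      (if (j + 1) % 6 = (r + 1) % 6 then q.choose (j + 1) else 0) := by
    intro j _
    by_cases h : j % 6 = r % 6
    · have h' : (j + 1) % 6 = (r + 1) % 6 := by omega
      rw [if_pos h, if_pos h', if_pos h', Nat.choose_succ_succ]
    · have h' : ¬ (j + 1) % 6 = (r + 1) % 6 := by omega
      rw [if_neg h, if_neg h', if_neg h']
  rw [Finset.sum_congr rfl h1, Finset.sum_add_distrib]
  have h2 : ∑ j ∈ range (q + 1), (if j % 6 = (r + 1) % 6 then q.choose j else 0) =
      ∑ j ∈ range (q + 1), (if (j + 1) % 6 = (r + 1) % 6 then q.choose (j + 1) else 0) +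
        (if 0 % 6 = (r + 1) % 6 then (q + 1).choose 0 else 0) := by
    have h3 := Finset.sum_range_succ'
      (fun j => if j % 6 = (r + 1) % 6 then q.choose j else 0) (q + 1)
    have h4 := Finset.sum_range_succ
      (fun j => if j % 6 = (r + 1) % 6 then q.choose j else 0) (q + 1)
    simp only [Nat.choose_succ_self, ite_self, add_zero, Nat.choose_zero_right] at h3 h4 ⊢
    rw [← h3, h4]
  rw [h2]
  ring

noncomputable def B (q r : ℕ) : ℝ := (A q r : ℝ) - A q (r + 3)

theorem B_step (q r : ℕ) : B (q + 1) (r + 1) = B q (r + 1) + B q r := by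
  unfold B
  have h1 := A_pascal q r
  have h2 := A_pascal q (r + 3)
  rw [show r + 1 + 3 = r + 3 + 1 from rfl, h1, h2]
  push_cast
  ring

theorem B_anti (q r : ℕ) : B q (r + 3) = - B q r := by
  unfold B
  rw [show r + 3 + 3 = r + 6 from rfl, A_period]
  ring

theorem B_zero_step (q : ℕ) : B (q + 1) 0 = B q 0 - B q 2 := by
  have h1 : B (q + 1) 0 = - B (q + 1) 3 := by rw [B_anti, neg_neg]
  have h2 := B_step q 2
  have h3 : B q 3 = - B q 0 := B_anti q 0
  rw [h1, h2, show 2 + 1 = 3 from rfl, h3]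
  ring

theorem B_inv (q : ℕ) : B (q + 1) 0 - B (q + 1) 1 + B (q + 1) 2 = 0 := by
  rw [B_zero_step, B_step q 0, B_step q 1]
  ring

theorem B_one : B 1 0 = 1 ∧ B 1 1 = 1 ∧ B 1 2 = 0 := by
  unfold B
  have h0 : A 1 0 = 1 := by decide
  have h1 : A 1 1 = 1 := by decide
  have h2 : A 1 2 = 0 := by decide
  have h3 : A 1 3 = 0 := by decide
  have h4 : A 1 4 = 0 := by decide
  have h5 : A 1 5 = 0 := by decide
  simp [h0, h1, h2, h3, h4, h5]

theorem B_sq (q : ℕ) : B (q + 1) 0 ^ 2 + B (q + 1) 1 ^ 2 + B (q + 1) 2 ^ 2 = 2 * 3 ^ q := by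
  induction q with
  | zero =>
    obtain ⟨h0, h1, h2⟩ := B_one
    rw [zero_add, h0, h1, h2]
    norm_num
  | succ q ih =>
    rw [B_zero_step, B_step (q + 1) 0, B_step (q + 1) 1]
    have h := B_inv q
    have h1 : B (q + 1) 1 = B (q + 1) 0 + B (q + 1) 2 := by linarith
    rw [zero_add, show 1 + 1 = 2 from rfl]
    rw [h1] at ih ⊢
    have h3 : (3 : ℝ) ^ (q + 1) = 3 ^ q * 3 := pow_succ 3 q
    rw [h3]
    nlinarith [ih]

noncomputable def C (q r : ℕ) : ℝ := (A q r : ℝ) + A q (r + 3)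

theorem C_step (q r : ℕ) : C (q + 1) (r + 1) = C q (r + 1) + C q r := by
  unfold C
  have h1 := A_pascal q r
  have h2 := A_pascal q (r + 3)
  rw [show r + 1 + 3 = r + 3 + 1 from rfl, h1, h2]
  push_cast
  ring

theorem C_period (q r : ℕ) : C q (r + 3) = C q r := by
  unfold C
  rw [show r + 3 + 3 = r + 6 from rfl, A_period]
  ring

theorem C_bound (q : ℕ) : C q 0 + C q 1 + C q 2 = 2 ^ q ∧
    ∀ r, |C q r - 2 ^ q / 3| ≤ 2 / 3 := by
  have hred : ∀ q, (|C q 0 - 2 ^ q / 3| ≤ 2 / 3 ∧ |C q 1 - 2 ^ q / 3| ≤ 2 / 3 ∧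
      |C q 2 - 2 ^ q / 3| ≤ 2 / 3) → ∀ r, |C q r - 2 ^ q / 3| ≤ 2 / 3 := by
    intro q h r
    induction r using Nat.strong_induction_on with
    | _ r ih =>
      match r, ih with
      | 0, _ => exact h.1
      | 1, _ => exact h.2.1
      | 2, _ => exact h.2.2
      | (r + 3), ih =>
        rw [C_period]
        exact ih r (by omega)
  have hmain : C q 0 + C q 1 + C q 2 = 2 ^ q ∧ (|C q 0 - 2 ^ q / 3| ≤ 2 / 3 ∧
      |C q 1 - 2 ^ q / 3| ≤ 2 / 3 ∧ |C q 2 - 2 ^ q / 3| ≤ 2 / 3) := by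
    induction q with
    | zero =>
      have h0 : A 0 0 = 1 := by decide
      have h1 : A 0 1 = 0 := by decide
      have h2 : A 0 2 = 0 := by decide
      have h3 : A 0 3 = 0 := by decide
      have h4 : A 0 4 = 0 := by decide
      have h5 : A 0 5 = 0 := by decide
      unfold C
      simp only [h0, h1, h2, h3, h4, h5]
      norm_num [abs_le]
    | succ q ih =>
      obtain ⟨hs, h0, h1, h2⟩ := ih
      have e0 : C (q + 1) 0 = C q 0 + C q 2 := by
        have h3 : C (q + 1) 0 = C (q + 1) 3 := (C_period (q + 1) 0).symm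
        have h4 : C q 3 = C q 0 := C_period q 0
        rw [h3, C_step q 2, show 2 + 1 = 3 from rfl, h4]
      have e1 : C (q + 1) 1 = C q 1 + C q 0 := C_step q 0
      have e2 : C (q + 1) 2 = C q 2 + C q 1 := C_step q 1
      rw [abs_le] at h0 h1 h2
      refine ⟨?_, ?_, ?_, ?_⟩
      · rw [e0, e1, e2, pow_succ]; linarith
      · rw [e0, pow_succ, abs_le]; constructor <;> linarith
      · rw [e1, pow_succ, abs_le]; constructor <;> linarith
      · rw [e2, pow_succ, abs_le]; constructor <;> linarith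
  exact ⟨hmain.1, hred q hmain.2⟩

theorem R_asymp (q : ℕ) : (R (q + 1) : ℝ) ≤ 2 ^ (q + 1) / 6 + Real.sqrt (3 ^ (q + 1)) := by
  -- a residue with positive B
  have key : ∃ r, 0 < B (q + 1) r ∧ B (q + 1) r ^ 2 ≤ 2 * 3 ^ q := by
    have hsq := B_sq q
    have h3 : (0 : ℝ) < 2 * 3 ^ q := by positivity
    have hex : ∃ i, B (q + 1) i ≠ 0 ∧ B (q + 1) i ^ 2 ≤ 2 * 3 ^ q := by
      by_contra hcon
      push Not at hcon
      have e0 : B (q + 1) 0 = 0 := by
        by_contra h
        have := hcon 0 h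
        nlinarith [sq_nonneg (B (q + 1) 1), sq_nonneg (B (q + 1) 2)]
      have e1 : B (q + 1) 1 = 0 := by
        by_contra h
        have := hcon 1 h
        nlinarith [sq_nonneg (B (q + 1) 0), sq_nonneg (B (q + 1) 2)]
      have e2 : B (q + 1) 2 = 0 := by
        by_contra h
        have := hcon 2 h
        nlinarith [sq_nonneg (B (q + 1) 0), sq_nonneg (B (q + 1) 1)]
      rw [e0, e1, e2] at hsq
      linarith
    obtain ⟨i, hi, hi2⟩ := hex
    rcases lt_or_gt_of_ne hi with h | h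
    · refine ⟨i + 3, ?_, ?_⟩
      · rw [B_anti]; linarith
      · rw [B_anti, neg_sq]; exact hi2
    · exact ⟨i, h, hi2⟩
  obtain ⟨r, hr, hr2⟩ := key
  have hlt : A (q + 1) (r + 3) < A (q + 1) r := by
    unfold B at hr
    have : (A (q + 1) (r + 3) : ℝ) < A (q + 1) r := by linarith
    exact_mod_cast this
  have h1 : (R (q + 1) : ℝ) ≤ A (q + 1) r := by exact_mod_cast R_le_A hlt
  have h2 : (A (q + 1) r : ℝ) = (C (q + 1) r + B (q + 1) r) / 2 := by
    unfold C B; ring
  have h3 := abs_le.1 ((C_bound (q + 1)).2 r)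
  have h4 : (1 : ℝ) ≤ 3 ^ q := one_le_pow₀ (by norm_num)
  have h5 : B (q + 1) r / 2 + 1 / 3 ≤ Real.sqrt (3 ^ (q + 1)) := by
    apply Real.le_sqrt_of_sq_le
    have h7 : (3 : ℝ) ^ (q + 1) = 3 ^ q * 3 := pow_succ 3 q
    rw [h7]
    have h6 : B (q + 1) r ≤ 1 + 3 ^ q := by
      nlinarith [sq_nonneg (B (q + 1) r - 1)]
    nlinarith
  rw [h2] at h1
  linarith

theorem R_limsup (ε : ℝ) (hε : 0 < ε) : ∃ q₀, ∀ q ≥ q₀, (R q : ℝ) ≤ (1 / 6 + ε) * 2 ^ q := by
  have hr : (0 : ℝ) ≤ 3 / 4 := by norm_num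
  obtain ⟨n, hn⟩ := exists_pow_lt_of_lt_one (show (0 : ℝ) < ε ^ 2 by positivity)
    (show (3 / 4 : ℝ) < 1 by norm_num)
  refine ⟨n + 1, fun q hq => ?_⟩
  obtain ⟨p, rfl⟩ : ∃ p, q = p + 1 := ⟨q - 1, by omega⟩
  have h1 := R_asymp p
  have h2 : Real.sqrt (3 ^ (p + 1)) ≤ ε * 2 ^ (p + 1) := by
    rw [Real.sqrt_le_left (by positivity)]
    have h3 : ((3 : ℝ) / 4) ^ (p + 1) ≤ ε ^ 2 :=
      le_trans (pow_le_pow_of_le_one hr (by norm_num) (by omega)) hn.le
    rw [div_pow, div_le_iff₀ (by positivity)] at h3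
    have h4 : (4 : ℝ) ^ (p + 1) = (2 ^ (p + 1)) ^ 2 := by
      rw [← pow_mul, mul_comm, pow_mul]; norm_num
    rw [h4] at h3
    calc (3 : ℝ) ^ (p + 1) ≤ ε ^ 2 * (2 ^ (p + 1)) ^ 2 := h3
      _ = (ε * 2 ^ (p + 1)) ^ 2 := by ring
  linarith

theorem exact_small (q : ℕ) (h1 : 1 ≤ q) (h9 : q ≤ 9) : R q = q.choose ((q + 1) / 2 - 1) := by
  apply le_antisymm
  · have hA : A q ((q + 1) / 2 - 1 + 3) < A q ((q + 1) / 2 - 1) ∧
        A q ((q + 1) / 2 - 1) = q.choose ((q + 1) / 2 - 1) := by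
      interval_cases q <;> decide
    rw [← hA.2]
    exact R_le_A hA.1
  · apply lower
    omega

theorem ten : 210 ≤ R 10 ∧ R 10 ≤ 211 := by
  constructor
  · have h := lower (q := 10) (k := 4) (by norm_num)
    have h2 : Nat.choose 10 4 = 210 := by decide
    rwa [h2] at h
  · have h1 : A 10 (4 + 3) < A 10 4 := by decide
    have h2 : A 10 4 = 211 := by decide
    have := R_le_A h1
    rwa [h2] at this

end Pool.Agent.Helper67.Covering
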