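import Pool.Agent.Helper67.Exists

set_option autoImplicit false

/-!
Doubly stochastic maximisers are flat (the Egorychev argument).
-/

namespace Pool.Agent.Helper67

open Finset Matrix

variable {n : ℕ}

lemma finRange_perm_toList (n : ℕ) :
    (List.finRange n).Perm (Finset.univ : Finset (Fin n)).toList := by
  rw [List.perm_ext_iff_of_nodup (List.nodup_finRange n) (Finset.nodup_toList _)]
  intro a
  simp

lemma univ_toList_perm (i j : Fin n) (hij : i ≠ j) :
    (Finset.univ : Finset (Fin n)).toList.Perm
      (i :: j :: ((Finset.univ.erase i).erase j).toList) := by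
  rw [List.perm_ext_iff_of_nodup (Finset.nodup_toList _)]
  · intro a
    simp only [Finset.mem_toList, Finset.mem_univ, List.mem_cons, Finset.mem_erase, true_iff]
    tauto
  · simp only [List.nodup_cons, List.mem_cons, Finset.mem_toList, Finset.mem_erase,
      Finset.nodup_toList]
    tauto

/-- The other columns. -/
noncomputable def restCols (A : Matrix (Fin n) (Fin n) ℝ) (i j : Fin n) : List (Fin n → ℝ) :=
  ((Finset.univ.erase i).erase j).toList.map (fun l a => A a l)

lemma permanent_two_cols (A : Matrix (Fin n) (Fin n) ℝ) (i j : Fin n) (hij : i ≠ j)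
    (u v : Fin n → ℝ) :
    ((A.updateCol i u).updateCol j v).permanent = Pe (u :: v :: restCols A i j) Finset.univ := by
  rw [permanent_eq_Pe_col, List.ofFn_eq_map]
  have h1 : ((List.finRange n).map
      (fun j' => fun a => ((A.updateCol i u).updateCol j v) a j')).Perm
      ((i :: j :: ((Finset.univ.erase i).erase j).toList).map
      (fun j' => fun a => ((A.updateCol i u).updateCol j v) a j')) :=
    ((finRange_perm_toList n).trans (univ_toList_perm i j hij)).map _
  rw [Pe_perm h1]
  simp only [List.map_cons]
  have e1 : (fun a => ((A.updateCol i u).updateCol j v) a i) = u := by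
    funext a
    rw [Matrix.updateCol_ne hij, Matrix.updateCol_self]
  have e2 : (fun a => ((A.updateCol i u).updateCol j v) a j) = v := by
    funext a
    rw [Matrix.updateCol_self]
  have e3 : ((Finset.univ.erase i).erase j).toList.map
      (fun j' => fun a => ((A.updateCol i u).updateCol j v) a j') = restCols A i j := by
    unfold restCols
    refine List.map_congr_left fun l hl => ?_
    have hl' := Finset.mem_toList.mp hl
    simp only [Finset.mem_erase] at hl'
    funext a
    rw [Matrix.updateCol_ne hl'.1, Matrix.updateCol_ne hl'.2.1]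
  rw [e1, e2, e3]

lemma restCols_nonneg (A : Matrix (Fin n) (Fin n) ℝ) (hA : ∀ i j, 0 ≤ A i j) (i j : Fin n) :
    ∀ r ∈ restCols A i j, ∀ k ∈ (Finset.univ : Finset (Fin n)), 0 ≤ r k := by
  intro r hr k _
  obtain ⟨l, _, rfl⟩ := List.mem_map.mp hr
  exact hA k l

lemma restCols_length (A : Matrix (Fin n) (Fin n) ℝ) (i j : Fin n) (hij : i ≠ j) :
    (restCols A i j).length + 2 = (Finset.univ : Finset (Fin n)).card := by
  unfold restCols
  rw [List.length_map, Finset.length_toList, Finset.card_erase_of_mem, Finset.card_erase_of_mem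
    (Finset.mem_univ i), Finset.card_univ, Fintype.card_fin]
  · have h1 : 2 ≤ n := by
      have h := Finset.card_le_card (Finset.subset_univ ({i, j} : Finset (Fin n)))
      rw [Finset.card_pair hij, Finset.card_univ, Fintype.card_fin] at h
      exact h
    omega
  · exact Finset.mem_erase.mpr ⟨hij.symm, Finset.mem_univ _⟩

lemma updateCol_self_eq (A : Matrix (Fin n) (Fin n) ℝ) (j : Fin n) :
    A.updateCol j (fun a => A a j) = A := by
  ext a b
  by_cases hb : b = j
  · subst hb; simp
  · rw [Matrix.updateCol_ne hb]

lemma perm_eq_two (A : Matrix (Fin n) (Fin n) ℝ) (i j : Fin n) (hij : i ≠ j) :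
    A.permanent = Pe ((fun a => A a i) :: (fun a => A a j) :: restCols A i j) Finset.univ := by
  rw [← permanent_two_cols A i j hij, updateCol_self_eq, updateCol_self_eq]

lemma perm_dup (A : Matrix (Fin n) (Fin n) ℝ) (i j : Fin n) (hij : i ≠ j) :
    Pe ((fun a => A a i) :: (fun a => A a i) :: restCols A i j) Finset.univ
      = ∑ k, A k i * mn A k j := by
  rw [← permanent_two_cols A i j hij, updateCol_self_eq, permanent_updateCol_eq]

lemma perm_dup' (A : Matrix (Fin n) (Fin n) ℝ) (i j : Fin n) (hij : i ≠ j) :
    Pe ((fun a => A a j) :: (fun a => A a j) :: restCols A i j) Finset.univ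
      = ∑ k, A k j * mn A k i := by
  rw [← permanent_two_cols A i j hij, ← permanent_updateCol_eq]
  congr 1
  ext a b
  by_cases hb : b = j
  · subst hb
    rw [Matrix.updateCol_self, Matrix.updateCol_ne hij.symm]
  · rw [Matrix.updateCol_ne hb]

/-- Alexandrov-Fenchel for two columns of a nonnegative matrix. -/
lemma AF_matrix (A : Matrix (Fin n) (Fin n) ℝ) (hA : ∀ i j, 0 ≤ A i j) (i j : Fin n)
    (hij : i ≠ j) :
    (∑ k, A k i * mn A k j) * (∑ k, A k j * mn A k i) ≤ A.permanent ^ 2 := by
  have h := AF_nonneg (restCols A i j) Finset.univ (restCols_length A i j hij)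
    (restCols_nonneg A hA i j) (fun a => A a i) (fun a => A a j) (fun k _ => hA k j)
  rw [perm_dup A i j hij, perm_dup' A i j hij, ← perm_eq_two A i j hij] at h
  exact h

/-- doubly stochastic, real version -/
def IsDS (A : Matrix (Fin n) (Fin n) ℝ) : Prop :=
  (∀ i, ∑ j, A i j = 1) ∧ (∀ j, ∑ i, A i j = 1)

lemma permanent_pos_of_ds (A : Matrix (Fin n) (Fin n) ℝ) (hA : ∀ i j, 0 ≤ A i j) (hds : IsDS A) :
    0 < A.permanent := by
  have hmem : A ∈ doublyStochastic ℝ (Fin n) := by
    rw [mem_doublyStochastic_iff_sum]
    exact ⟨hA, hds.1, hds.2⟩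
  obtain ⟨w, hw0, hw1, hw2⟩ := exists_eq_sum_perm_of_mem_doublyStochastic hmem
  have hex : ∃ σ, 0 < w σ := by
    by_contra hcon
    push Not at hcon
    have : ∑ σ, w σ ≤ 0 := Finset.sum_nonpos fun σ _ => hcon σ
    rw [hw1] at this
    linarith
  obtain ⟨σ, hσ⟩ := hex
  have hent : ∀ i, 0 < A i (σ i) := by
    intro i
    rw [← hw2, Matrix.sum_apply]
    refine Finset.sum_pos' (fun τ _ => ?_) ⟨σ, Finset.mem_univ _, ?_⟩
    · simp only [Matrix.smul_apply, smul_eq_mul]
      refine mul_nonneg (hw0 τ) ?_
      simp only [Equiv.Perm.permMatrix, PEquiv.toMatrix_apply]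
      split_ifs <;> norm_num
    · simp only [Matrix.smul_apply, smul_eq_mul]
      refine mul_pos hσ ?_
      simp [Equiv.Perm.permMatrix, PEquiv.toMatrix_apply]
  rw [← Matrix.permanent_transpose, Matrix.permanent]
  refine Finset.sum_pos' (fun τ _ => Finset.prod_nonneg fun i _ => hA _ _)
    ⟨σ, Finset.mem_univ _, Finset.prod_pos fun i _ => ?_⟩
  exact hent i

lemma phi_ds (A : Matrix (Fin n) (Fin n) ℝ) (hds : IsDS A) : phi A = 2 - A.permanent := by
  unfold phi
  simp only [hds.1, hds.2, Finset.prod_const_one]
  ring

lemma dphi_ds (A : Matrix (Fin n) (Fin n) ℝ) (hds : IsDS A) (k j : Fin n) :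
    dphi A k j = 2 - mn A k j := by
  unfold dphi
  simp only [hds.1, hds.2, Finset.prod_const_one]
  ring

/-- All minors of a doubly stochastic maximiser agree with its permanent. -/
lemma mn_eq_of_ds {A : Matrix (Fin n) (Fin n) ℝ} (h : IsMaxi A) (hds : IsDS A) (k j : Fin n) :
    mn A k j = A.permanent := by
  have hn : 0 < n := Fin.pos k
  have hphi : 0 ≤ phi A := by linarith [h.one_le]
  have hge : ∀ k j, A.permanent ≤ mn A k j := by
    intro k j
    have := h.dphi_le hn hphi k j
    rw [dphi_ds A hds, phi_ds A hds] at this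
    linarith
  have heq : ∀ k j, 0 < A k j → mn A k j = A.permanent := by
    intro k j hkj
    have := h.dphi_eq hn hphi k j hkj
    rw [dphi_ds A hds, phi_ds A hds] at this
    linarith
  have hP := permanent_pos_of_ds A h.nonneg hds
  have hM : ∀ i j, A.permanent ≤ ∑ k, A k i * mn A k j := by
    intro i j
    calc A.permanent = ∑ k, A k i * A.permanent := by
          rw [← Finset.sum_mul, hds.2, one_mul]
      _ ≤ _ := Finset.sum_le_sum fun k _ => mul_le_mul_of_nonneg_left (hge k j) (h.nonneg k i)
  by_cases hex : ∃ i, i ≠ j ∧ 0 < A k i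
  · obtain ⟨i, hij, hki⟩ := hex
    have hAF := AF_matrix A h.nonneg i j hij
    have h1 := hM i j
    have h2 := hM j i
    have h3 : ∑ k, A k i * mn A k j = A.permanent := by
      refine le_antisymm ?_ h1
      by_contra hcon
      push Not at hcon
      have : A.permanent ^ 2 < (∑ k, A k i * mn A k j) * (∑ k, A k j * mn A k i) := by
        rw [sq]
        exact mul_lt_mul hcon h2 hP (by linarith)
      linarith
    -- termwise equality
    have h4 : ∑ k, A k i * (mn A k j - A.permanent) = 0 := by
      simp only [mul_sub, Finset.sum_sub_distrib]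
      rw [h3, ← Finset.sum_mul, hds.2, one_mul, sub_self]
    have h5 := (Finset.sum_eq_zero_iff_of_nonneg (fun k _ =>
      mul_nonneg (h.nonneg k i) (sub_nonneg.mpr (hge k j)))).mp h4 k (Finset.mem_univ k)
    rcases mul_eq_zero.mp h5 with h6 | h6
    · exact absurd h6 hki.ne'
    · linarith
  · push Not at hex
    apply heq
    have h1 : ∑ i, A k i = A k j := by
      refine Finset.sum_eq_single j (fun i _ hi => ?_) (fun h => absurd (Finset.mem_univ _) h)
      exact le_antisymm (hex i hi) (h.nonneg k i)
    rw [hds.1] at h1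
    rw [← h1]; exact one_pos

lemma Pe_replicate {β : Type*} [DecidableEq β] (b : β → ℝ) (m : ℕ) (T : Finset β)
    (hT : T.card = m) : Pe (List.replicate m b) T = (m.factorial : ℝ) * ∏ j ∈ T, b j := by
  induction m generalizing T with
  | zero =>
    have : T = ∅ := Finset.card_eq_zero.mp hT
    subst this
    simp
  | succ m ih =>
    rw [List.replicate_succ, Pe_cons]
    have : ∀ j ∈ T, b j * Pe (List.replicate m b) (T.erase j)
        = (m.factorial : ℝ) * ∏ j ∈ T, b j := by
      intro j hj
      rw [ih (T.erase j) (by rw [Finset.card_erase_of_mem hj, hT]; rfl),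
        ← Finset.mul_prod_erase T b hj]
      ring
    rw [Finset.sum_congr rfl this, Finset.sum_const, hT, nsmul_eq_mul, Nat.factorial_succ]
    push_cast
    ring

/-- averaging two columns -/
noncomputable def avg (A : Matrix (Fin n) (Fin n) ℝ) (i l : Fin n) : Matrix (Fin n) (Fin n) ℝ :=
  (A.updateCol i (fun a => (A a i + A a l) / 2)).updateCol l (fun a => (A a i + A a l) / 2)

lemma avg_apply (A : Matrix (Fin n) (Fin n) ℝ) (i l : Fin n) (a b : Fin n) :
    avg A i l a b = if b = i ∨ b = l then (A a i + A a l) / 2 else A a b := by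
  unfold avg
  by_cases hl : b = l
  · subst hl; simp
  · rw [Matrix.updateCol_ne hl]
    by_cases hi : b = i
    · subst hi; simp
    · rw [Matrix.updateCol_ne hi]; simp [hi, hl]

lemma sum_pair_split (i l : Fin n) (hil : i ≠ l) (f : Fin n → ℝ) :
    ∑ b, f b = f i + f l + ∑ b ∈ (Finset.univ.erase i).erase l, f b := by
  rw [← Finset.add_sum_erase Finset.univ f (Finset.mem_univ i),
    ← Finset.add_sum_erase (Finset.univ.erase i) f (Finset.mem_erase.mpr ⟨hil.symm, Finset.mem_univ l⟩)]
  ring

lemma avg_maxi {A : Matrix (Fin n) (Fin n) ℝ} (h : IsMaxi A) (hds : IsDS A) (i l : Fin n)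
    (hil : i ≠ l) : IsMaxi (avg A i l) ∧ IsDS (avg A i l) := by
  have hds' : IsDS (avg A i l) := by
    constructor
    · intro a
      rw [← hds.1 a, sum_pair_split i l hil, sum_pair_split i l hil (fun b => A a b)]
      simp only [avg_apply, true_or, or_true, if_true]
      have : ∑ b ∈ (Finset.univ.erase i).erase l, (if b = i ∨ b = l then (A a i + A a l) / 2 else A a b)
          = ∑ b ∈ (Finset.univ.erase i).erase l, A a b := by
        refine Finset.sum_congr rfl fun b hb => ?_
        simp only [Finset.mem_erase] at hb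
        rw [if_neg]; tauto
      rw [this]; ring
    · intro b
      simp only [avg_apply]
      split_ifs with hb
      · rw [← Finset.sum_div, Finset.sum_add_distrib, hds.2, hds.2]; norm_num
      · exact hds.2 b
  have hnn : ∀ a b, 0 ≤ avg A i l a b := by
    intro a b
    rw [avg_apply]
    split_ifs
    · have h1 := h.nonneg a i
      have h2 := h.nonneg a l
      linarith
    · exact h.nonneg a b
  have htot : (∑ a, ∑ b, avg A i l a b) = (n : ℝ) := by
    simp only [hds'.1]; simp
  refine ⟨h.of_eq hnn htot ?_, hds'⟩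
  rw [phi_ds A hds, phi_ds _ hds']
  have hP : (avg A i l).permanent = A.permanent := by
    unfold avg
    rw [permanent_two_cols A i l hil]
    have hm : (fun a => (A a i + A a l) / 2) = (1/2 : ℝ) • ((fun a => A a i) + (fun a => A a l)) := by
      funext a
      simp only [Pi.smul_apply, Pi.add_apply, smul_eq_mul]; ring
    rw [hm, Pe_smul_head, Pe_smul_snd, Pe_add_head, Pe_add_snd, Pe_add_snd,
      perm_dup A i l hil, perm_dup' A i l hil,
      Pe_swap (fun a => A a l) (fun a => A a i), ← perm_eq_two A i l hil]
    simp only [mn_eq_of_ds h hds]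
    rw [← Finset.sum_mul, ← Finset.sum_mul, hds.2, hds.2]
    ring
  rw [hP]

/-- Doubly stochastic maximisers are constant. -/
theorem ds_flat {A : Matrix (Fin n) (Fin n) ℝ} (hn : 2 ≤ n) (h : IsMaxi A) (hds : IsDS A) :
    ∀ a j, A a j = 1 / n := by
  intro a0 j0
  -- the compact set of ds maximisers with the same column j0
  let S : Set (Fin n → Fin n → ℝ) := {B | B ∈ Kset n ∧ phi (Matrix.of B) = phi A ∧
    ((∀ i, ∑ j, B i j = 1) ∧ (∀ j, ∑ i, B i j = 1)) ∧ ∀ a, B a j0 = A a j0}
  have hScl : IsCompact S := by
    have hcl : IsClosed {B : Fin n → Fin n → ℝ | phi (Matrix.of B) = phi A ∧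
      ((∀ i, ∑ j, B i j = 1) ∧ (∀ j, ∑ i, B i j = 1)) ∧ ∀ a, B a j0 = A a j0} := by
      refine IsClosed.inter (isClosed_eq phi_continuous continuous_const) (IsClosed.inter
        (IsClosed.inter ?_ ?_) ?_)
      · have h1 : IsClosed (⋂ i, {B : Fin n → Fin n → ℝ | ∑ j, B i j = 1}) :=
          isClosed_iInter fun i => isClosed_eq (continuous_finsetSum _ fun j _ =>
          continuous_apply_apply i j) continuous_const
        rw [← Set.ofPred_forall] at h1
        exact h1
      · have h1 : IsClosed (⋂ j, {B : Fin n → Fin n → ℝ | ∑ i, B i j = 1}) :=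
          isClosed_iInter fun j => isClosed_eq (continuous_finsetSum _ fun i _ =>
          continuous_apply_apply i j) continuous_const
        rw [← Set.ofPred_forall] at h1
        exact h1
      · have h1 : IsClosed (⋂ a, {B : Fin n → Fin n → ℝ | B a j0 = A a j0}) :=
          isClosed_iInter fun a => isClosed_eq (continuous_apply_apply a j0)
          continuous_const
        rw [← Set.ofPred_forall] at h1
        exact h1
    exact (Kset_compact n).inter_right hcl
  have hSne : S.Nonempty := ⟨A, ⟨h.nonneg, h.total⟩, rfl, hds, fun _ => rfl⟩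
  obtain ⟨B, hB, hmin⟩ := hScl.exists_isMinOn hSne
    (f := fun B : Fin n → Fin n → ℝ => ∑ a, ∑ b, B a b ^ 2)
    (by
      refine Continuous.continuousOn ?_
      exact continuous_finsetSum _ fun a _ => continuous_finsetSum _ fun b _ =>
        (continuous_apply_apply a b).pow 2)
  obtain ⟨hBK, hBphi, hBds, hBcol⟩ := hB
  have hBmax : IsMaxi (Matrix.of B) := h.of_eq hBK.1 hBK.2 (le_of_eq hBphi.symm)
  have hBds' : IsDS (Matrix.of B) := hBds
  -- all other columns agree
  have hcols : ∀ i l, i ≠ j0 → l ≠ j0 → ∀ a, B a i = B a l := by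
    intro i l hi hl
    by_cases hil : i = l
    · subst hil; intro a; rfl
    by_contra hcon
    push Not at hcon
    obtain ⟨a1, ha1⟩ := hcon
    obtain ⟨hm, hd⟩ := avg_maxi hBmax hBds' i l hil
    have hmem : (avg (Matrix.of B) i l : Fin n → Fin n → ℝ) ∈ S := by
      refine ⟨⟨hm.nonneg, hm.total⟩, ?_, hd, ?_⟩
      · have h1 : phi (avg (Matrix.of B) i l) ≤ phi A := h.max _ hm.nonneg hm.total
        have h2 : phi A ≤ phi (avg (Matrix.of B) i l) := hm.max A h.nonneg h.total
        exact le_antisymm h1 h2
      · intro a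
        rw [← hBcol a]
        show avg (Matrix.of B) i l a j0 = B a j0
        rw [avg_apply, if_neg]
        · rfl
        · rintro (h | h)
          · exact hi h.symm
          · exact hl h.symm
    have hle := hmin hmem
    simp only [Set.mem_ofPred_eq] at hle
    have hlt : ∑ a, ∑ b, avg (Matrix.of B) i l a b ^ 2 < ∑ a, ∑ b, B a b ^ 2 := by
      have hrow : ∀ a, ∑ b, avg (Matrix.of B) i l a b ^ 2
          = ∑ b, B a b ^ 2 - (B a i - B a l) ^ 2 / 2 := by
        intro a
        rw [sum_pair_split i l hil, sum_pair_split i l hil (fun b => B a b ^ 2)]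
        simp only [avg_apply, true_or, or_true, if_true, Matrix.of_apply]
        have : ∑ b ∈ (Finset.univ.erase i).erase l,
            (if b = i ∨ b = l then (B a i + B a l) / 2 else B a b) ^ 2
            = ∑ b ∈ (Finset.univ.erase i).erase l, B a b ^ 2 := by
          refine Finset.sum_congr rfl fun b hb => ?_
          simp only [Finset.mem_erase] at hb
          rw [if_neg]; tauto
        rw [this]; ring
      refine Finset.sum_lt_sum (fun a _ => ?_) ⟨a1, Finset.mem_univ _, ?_⟩
      · rw [hrow]; nlinarith [sq_nonneg (B a i - B a l)]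
      · rw [hrow]
        have : 0 < (B a1 i - B a1 l) ^ 2 := by
          apply sq_pos_of_ne_zero
          exact sub_ne_zero.mpr ha1
        linarith
    exact absurd hle (not_le.mpr hlt)
  -- pick another column
  obtain ⟨l0, hl0⟩ : ∃ l0 : Fin n, l0 ≠ j0 := by
    have : Nontrivial (Fin n) := Fin.nontrivial_iff_two_le.mpr hn
    exact exists_ne j0
  set b : Fin n → ℝ := fun a => B a l0 with hb
  have hcolb : ∀ l, l ≠ j0 → ∀ a, B a l = b a := fun l hl a => hcols l l0 hl hl0 a
  have hrowsum : ∀ a, B a j0 + (n - 1 : ℝ) * b a = 1 := by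
    intro a
    have hc1 : ((n - 1 : ℕ) : ℝ) = (n : ℝ) - 1 := by rw [Nat.cast_sub (by omega)]; simp
    have h1 := hBds.1 a
    rw [← Finset.add_sum_erase Finset.univ _ (Finset.mem_univ j0),
      Finset.sum_congr rfl (fun l hl => hcolb l (Finset.ne_of_mem_erase hl) a),
      Finset.sum_const, Finset.card_erase_of_mem (Finset.mem_univ _), Finset.card_univ,
      Fintype.card_fin, nsmul_eq_mul, hc1] at h1
    exact h1
  -- minors along column j0
  have hminor : ∀ k, b k * mn (Matrix.of B) k j0 = ((n - 1).factorial : ℝ) * ∏ a, b a := by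
    intro k
    have h1 : mn (Matrix.of B) k j0 = Pe (List.replicate (n - 1) b) (Finset.univ.erase k) := by
      have h2 : mn (Matrix.of B) k j0 = ((Matrix.of B).updateCol j0 (Pi.single k 1)).permanent := by
        rw [permanent_updateCol_eq, Finset.sum_eq_single k]
        · simp
        · intro c _ hc; simp [Pi.single_eq_of_ne hc]
        · intro h; exact absurd (Finset.mem_univ _) h
      rw [h2]
      have h3 : (Matrix.of B).updateCol j0 (Pi.single k 1)
          = ((Matrix.of B).updateCol j0 (Pi.single k 1)).updateCol l0 b := by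
        ext a c
        by_cases hc : c = l0
        · subst hc
          rw [Matrix.updateCol_self, Matrix.updateCol_ne hl0]; rfl
        · rw [Matrix.updateCol_ne (M := (Matrix.of B).updateCol j0 (Pi.single k 1)) hc]
      rw [h3, permanent_two_cols _ _ _ hl0.symm, Pe_single_head, if_pos (Finset.mem_univ k)]
      congr 1
      have h4 : restCols (Matrix.of B) j0 l0 = List.replicate (n - 2) b := by
        unfold restCols
        rw [List.eq_replicate_iff]
        constructor
        · rw [List.length_map, Finset.length_toList, Finset.card_erase_of_mem,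
            Finset.card_erase_of_mem (Finset.mem_univ _), Finset.card_univ, Fintype.card_fin]
          · omega
          · exact Finset.mem_erase.mpr ⟨hl0, Finset.mem_univ _⟩
        · intro r hr
          obtain ⟨l, hl, rfl⟩ := List.mem_map.mp hr
          have hl' := Finset.mem_toList.mp hl
          simp only [Finset.mem_erase] at hl'
          funext a
          exact hcolb l hl'.2.1 a
      rw [h4]
      have : n - 1 = (n - 2) + 1 := by omega
      rw [this, List.replicate_succ]
    rw [h1, Pe_replicate b (n - 1) _ (by rw [Finset.card_erase_of_mem (Finset.mem_univ _),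
      Finset.card_univ, Fintype.card_fin]), ← Finset.mul_prod_erase Finset.univ b (Finset.mem_univ k)]
    ring
  have hPpos := permanent_pos_of_ds (Matrix.of B) hBK.1 hBds'
  have hbconst : ∀ k k', b k = b k' := by
    intro k k'
    have e1 := hminor k
    have e2 := hminor k'
    rw [mn_eq_of_ds hBmax hBds'] at e1 e2
    have : b k * (Matrix.of B).permanent = b k' * (Matrix.of B).permanent := by rw [e1, e2]
    exact mul_right_cancel₀ hPpos.ne' this
  have hBconst : ∀ a, B a j0 = B a0 j0 := by
    intro a
    have e1 := hrowsum a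
    have e2 := hrowsum a0
    rw [hbconst a a0] at e1
    linarith
  have hsum := hBds.2 j0
  rw [Finset.sum_congr rfl (fun a _ => hBconst a), Finset.sum_const, Finset.card_univ,
    Fintype.card_fin, nsmul_eq_mul] at hsum
  rw [← hBcol a0]
  have hn' : (n : ℝ) ≠ 0 := by
    have : 0 < n := by omega
    exact_mod_cast this.ne'
  field_simp
  linarith

end Pool.Agent.Helper67
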