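import Pool.Agent.Helper67.Block3
import Pool.Agent.Helper67.DS

set_option autoImplicit false

/-!
Energy identities for critical matrices.
-/

namespace Pool.Agent.Helper67

open Finset Matrix

variable {n : ℕ}

/-- row sums -/
noncomputable def rs (A : Matrix (Fin n) (Fin n) ℝ) (i : Fin n) : ℝ := ∑ j, A i j

/-- column sums -/
noncomputable def cs (A : Matrix (Fin n) (Fin n) ℝ) (j : Fin n) : ℝ := ∑ i, A i j

/-- row product -/
noncomputable def RR (A : Matrix (Fin n) (Fin n) ℝ) : ℝ := ∏ i, rs A i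

/-- column product -/
noncomputable def CC (A : Matrix (Fin n) (Fin n) ℝ) : ℝ := ∏ j, cs A j

/-- row potential -/
noncomputable def FF (A : Matrix (Fin n) (Fin n) ℝ) (k : Fin n) : ℝ := RR A - RR A / rs A k

/-- column potential -/
noncomputable def GG (A : Matrix (Fin n) (Fin n) ℝ) (j : Fin n) : ℝ := CC A / cs A j - CC A

/-- First order conditions. -/
structure Crit (A : Matrix (Fin n) (Fin n) ℝ) : Prop where
  nonneg : ∀ i j, 0 ≤ A i j
  total : (∑ i, ∑ j, A i j) = (n : ℝ)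
  rpos : ∀ i, 0 < rs A i
  cpos : ∀ j, 0 < cs A j
  ge : ∀ k j, A.permanent - FF A k + GG A j ≤ mn A k j
  eq : ∀ k j, 0 < A k j → mn A k j = A.permanent - FF A k + GG A j

namespace Crit

variable {A : Matrix (Fin n) (Fin n) ℝ}

lemma entry (h : Crit A) (k j : Fin n) :
    A k j * (FF A k - GG A j) = A k j * (A.permanent - mn A k j) := by
  rcases (h.nonneg k j).lt_or_eq with h1 | h1
  · rw [h.eq k j h1]; ring
  · rw [← h1]; ring

lemma row (h : Crit A) (k : Fin n) :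
    ∑ j, A k j * (FF A k - GG A j) = A.permanent * (rs A k - 1) := by
  simp only [h.entry, mul_sub, Finset.sum_sub_distrib, sum_row_mn, ← Finset.sum_mul]
  unfold rs; ring

lemma col (h : Crit A) (j : Fin n) :
    ∑ k, A k j * (FF A k - GG A j) = A.permanent * (cs A j - 1) := by
  simp only [h.entry, mul_sub, Finset.sum_sub_distrib, sum_col_mn, ← Finset.sum_mul]
  unfold cs; ring

end Crit

lemma cut_identity (f : Fin n → Fin n → ℝ) (I J : Finset (Fin n)) :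
    ∑ k ∈ I, ∑ j, f k j - ∑ j ∈ J, ∑ k, f k j
      = ∑ k ∈ I, ∑ j ∈ Jᶜ, f k j - ∑ k ∈ Iᶜ, ∑ j ∈ J, f k j := by
  have h1 : ∀ k, ∑ j, f k j = ∑ j ∈ J, f k j + ∑ j ∈ Jᶜ, f k j := fun k =>
    (Finset.sum_add_sum_compl J _).symm
  have h2 : ∀ j, ∑ k, f k j = ∑ k ∈ I, f k j + ∑ k ∈ Iᶜ, f k j := fun j =>
    (Finset.sum_add_sum_compl I _).symm
  simp only [h1, h2, Finset.sum_add_distrib]
  rw [Finset.sum_comm (s := J) (t := I), Finset.sum_comm (s := J) (t := Iᶜ)]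
  ring

/-- the defect of a pair of sets -/
noncomputable def lamIJ (A : Matrix (Fin n) (Fin n) ℝ) (I J : Finset (Fin n)) : ℝ :=
  ∑ k ∈ I, (rs A k - 1) + ∑ j ∈ J, (1 - cs A j)

lemma mass (A : Matrix (Fin n) (Fin n) ℝ) (I J : Finset (Fin n)) :
    ∑ k ∈ I, ∑ j ∈ Jᶜ, A k j - ∑ k ∈ Iᶜ, ∑ j ∈ J, A k j
      = (I.card : ℝ) - J.card + lamIJ A I J := by
  rw [← cut_identity (fun k j => A k j)]
  unfold lamIJ rs cs
  simp only [Finset.sum_sub_distrib, Finset.sum_const, nsmul_eq_mul, mul_one]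
  ring

lemma Crit.energy {A : Matrix (Fin n) (Fin n) ℝ} (h : Crit A) (I J : Finset (Fin n)) :
    ∑ k ∈ I, ∑ j ∈ Jᶜ, A k j * (FF A k - GG A j)
      - ∑ k ∈ Iᶜ, ∑ j ∈ J, A k j * (FF A k - GG A j) = A.permanent * lamIJ A I J := by
  rw [← cut_identity (fun k j => A k j * (FF A k - GG A j))]
  simp only [h.row, h.col]
  rw [← Finset.mul_sum, ← Finset.mul_sum]
  unfold lamIJ
  simp only [Finset.sum_sub_distrib]
  ring

lemma Crit.energy_le {A : Matrix (Fin n) (Fin n) ℝ} (h : Crit A) (I J : Finset (Fin n))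
    (a b : ℝ) (ha : ∀ k ∈ I, ∀ j ∈ Jᶜ, a ≤ FF A k - GG A j)
    (hb : ∀ k ∈ Iᶜ, ∀ j ∈ J, b ≤ GG A j - FF A k) :
    a * ∑ k ∈ I, ∑ j ∈ Jᶜ, A k j + b * ∑ k ∈ Iᶜ, ∑ j ∈ J, A k j
      ≤ A.permanent * lamIJ A I J := by
  rw [← h.energy I J, Finset.mul_sum, Finset.mul_sum]
  have h1 : ∑ k ∈ I, a * ∑ j ∈ Jᶜ, A k j ≤ ∑ k ∈ I, ∑ j ∈ Jᶜ, A k j * (FF A k - GG A j) := by
    refine Finset.sum_le_sum fun k hk => ?_
    rw [Finset.mul_sum]
    refine Finset.sum_le_sum fun j hj => ?_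
    have := mul_le_mul_of_nonneg_left (ha k hk j hj) (h.nonneg k j)
    linarith
  have h2 : ∑ k ∈ Iᶜ, b * ∑ j ∈ J, A k j
      ≤ -∑ k ∈ Iᶜ, ∑ j ∈ J, A k j * (FF A k - GG A j) := by
    rw [← Finset.sum_neg_distrib]
    refine Finset.sum_le_sum fun k hk => ?_
    rw [Finset.mul_sum, ← Finset.sum_neg_distrib]
    refine Finset.sum_le_sum fun j hj => ?_
    have := mul_le_mul_of_nonneg_left (hb k hk j hj) (h.nonneg k j)
    linarith
  linarith

/-- Sorted critical matrices. -/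
structure Srt (A : Matrix (Fin n) (Fin n) ℝ) : Prop extends Crit A where
  ranti : Antitone (rs A)
  cmono : Monotone (cs A)
  Rpos : 0 < RR A
  Cpos : 0 < CC A

namespace Srt

variable {A : Matrix (Fin n) (Fin n) ℝ}

lemma Fanti (h : Srt A) : Antitone (FF A) := by
  intro i j hij
  unfold FF
  have := div_le_div_of_nonneg_left h.Rpos.le (h.rpos j) (h.ranti hij)
  linarith

lemma Ganti (h : Srt A) : Antitone (GG A) := by
  intro i j hij
  unfold GG
  have := div_le_div_of_nonneg_left h.Cpos.le (h.cpos i) (h.cmono hij)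
  linarith

end Srt

lemma lo_compl (s : ℕ) : (lo n s)ᶜ = hi n s := by
  ext i; simp [lo, hi]

lemma card_lo' {s : ℕ} (hs : s ≤ n) : (lo n s).card = s := by
  obtain ⟨t, rfl⟩ := Nat.exists_eq_add_of_le hs
  exact card_lo s t

/-- the defect at a cut -/
noncomputable def lam (A : Matrix (Fin n) (Fin n) ℝ) (s : ℕ) : ℝ := lamIJ A (lo n s) (lo n s)

/-- mass above the cut -/
noncomputable def mU (A : Matrix (Fin n) (Fin n) ℝ) (s : ℕ) : ℝ := ∑ k ∈ lo n s, ∑ j ∈ hi n s, A k j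

/-- mass below the cut -/
noncomputable def mL (A : Matrix (Fin n) (Fin n) ℝ) (s : ℕ) : ℝ := ∑ k ∈ hi n s, ∑ j ∈ lo n s, A k j

lemma mU_sub_mL (A : Matrix (Fin n) (Fin n) ℝ) (s : ℕ) : mU A s - mL A s = lam A s := by
  have := mass A (lo n s) (lo n s)
  rw [lo_compl] at this
  unfold mU mL lam
  linarith

lemma lo_zero : lo n 0 = ∅ := by
  ext i; simp [lo]

lemma lo_self : lo n n = Finset.univ := by
  ext i; simp [lo]

lemma lo_succ {s : ℕ} (hs : s < n) : lo n (s + 1) = insert ⟨s, hs⟩ (lo n s) := by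
  ext i
  simp only [mem_lo, Finset.mem_insert, Fin.ext_iff]
  omega

lemma lam_zero (A : Matrix (Fin n) (Fin n) ℝ) : lam A 0 = 0 := by
  simp [lam, lamIJ, lo_zero]

lemma lam_self (A : Matrix (Fin n) (Fin n) ℝ) (h : (∑ i, ∑ j, A i j) = (n : ℝ)) :
    lam A n = 0 := by
  unfold lam lamIJ rs cs
  rw [lo_self]
  simp only [Finset.sum_sub_distrib, Finset.sum_const, nsmul_eq_mul, mul_one]
  rw [Finset.sum_comm (s := Finset.univ) (t := Finset.univ) (f := fun i j => A j i)]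
  ring

lemma lam_succ (A : Matrix (Fin n) (Fin n) ℝ) {s : ℕ} (hs : s < n) :
    lam A (s + 1) = lam A s + (rs A ⟨s, hs⟩ - cs A ⟨s, hs⟩) := by
  have hnot : (⟨s, hs⟩ : Fin n) ∉ lo n s := by rw [mem_lo]; simp
  unfold lam lamIJ
  rw [lo_succ hs, Finset.sum_insert hnot, Finset.sum_insert hnot]
  ring

end Pool.Agent.Helper67
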