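import Pool.Agent.Helper67.KKT

set_option autoImplicit false

/-!
Existence of maximisers, and elementary facts about them.
-/

namespace Pool.Agent.Helper67

open Finset Matrix

variable {n : ℕ}

/-- The simplex of the Dittert problem. -/
def Kset (n : ℕ) : Set (Fin n → Fin n → ℝ) :=
  {A | (∀ i j, 0 ≤ A i j) ∧ (∑ i, ∑ j, A i j) = (n : ℝ)}

lemma Kset_entry_le {A : Fin n → Fin n → ℝ} (hA : A ∈ Kset n) (i j : Fin n) : A i j ≤ n := by
  rw [← hA.2]
  have h1 : A i j ≤ ∑ j, A i j := Finset.single_le_sum (fun b _ => hA.1 i b) (Finset.mem_univ j)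
  have h2 : ∑ j, A i j ≤ ∑ i, ∑ j, A i j :=
    Finset.single_le_sum (f := fun i => ∑ j, A i j)
      (fun a _ => Finset.sum_nonneg fun b _ => hA.1 a b) (Finset.mem_univ i)
  linarith

lemma Kset_compact (n : ℕ) : IsCompact (Kset n) := by
  have h1 : IsCompact (Set.pi Set.univ
      (fun _ : Fin n => Set.pi Set.univ (fun _ : Fin n => Set.Icc (0 : ℝ) n))) :=
    isCompact_univ_pi fun _ => isCompact_univ_pi fun _ => isCompact_Icc
  have h2 : IsClosed {A : Fin n → Fin n → ℝ | (∑ i, ∑ j, A i j) = (n : ℝ)} := by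
    apply isClosed_eq _ continuous_const
    exact continuous_finsetSum _ fun i _ => continuous_finsetSum _ fun j _ =>
      continuous_apply_apply i j
  have h3 := h1.inter_right h2
  convert h3 using 1
  ext A
  simp only [Kset, Set.mem_ofPred_eq, Set.mem_inter_iff, Set.mem_pi, Set.mem_univ, forall_true_left,
    Set.mem_Icc]
  constructor
  · intro h
    exact ⟨fun i j => ⟨h.1 i j, Kset_entry_le h i j⟩, h.2⟩
  · intro h
    exact ⟨fun i j => (h.1 i j).1, h.2⟩

lemma phi_continuous : Continuous (fun A : Fin n → Fin n → ℝ => phi (Matrix.of A)) := by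
  unfold phi Matrix.permanent
  simp only [Matrix.of_apply]
  refine Continuous.sub (Continuous.add ?_ ?_) ?_
  · exact continuous_finsetProd _ fun i _ => continuous_finsetSum _ fun j _ =>
      continuous_apply_apply i j
  · exact continuous_finsetProd _ fun i _ => continuous_finsetSum _ fun j _ =>
      continuous_apply_apply j i
  · exact continuous_finsetSum _ fun σ _ => continuous_finsetProd _ fun i _ =>
      continuous_apply_apply (σ i) i

lemma one_total : (∑ i, ∑ j, (1 : Matrix (Fin n) (Fin n) ℝ) i j) = (n : ℝ) := by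
  simp [Matrix.one_apply]

lemma phi_one : phi (1 : Matrix (Fin n) (Fin n) ℝ) = 1 := by
  unfold phi
  rw [Matrix.permanent_one]
  simp [Matrix.one_apply]

lemma exists_maxi (n : ℕ) : ∃ A : Matrix (Fin n) (Fin n) ℝ, IsMaxi A := by
  have hne : (Kset n).Nonempty := by
    refine ⟨(1 : Matrix (Fin n) (Fin n) ℝ), ?_, one_total⟩
    intro i j
    rw [Matrix.one_apply]; split_ifs <;> norm_num
  obtain ⟨A, hA, hmax⟩ := (Kset_compact n).exists_isMaxOn hne phi_continuous.continuousOn
  refine ⟨Matrix.of A, hA.1, hA.2, fun B hB1 hB2 => ?_⟩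
  exact hmax (⟨hB1, hB2⟩ : (B : Fin n → Fin n → ℝ) ∈ Kset n)

lemma IsMaxi.one_le {A : Matrix (Fin n) (Fin n) ℝ} (h : IsMaxi A) : 1 ≤ phi A := by
  rw [← phi_one (n := n)]
  refine h.max 1 ?_ one_total
  intro i j
  rw [Matrix.one_apply]; split_ifs <;> norm_num

lemma IsMaxi.of_eq {A B : Matrix (Fin n) (Fin n) ℝ} (h : IsMaxi A) (h1 : ∀ i j, 0 ≤ B i j)
    (h2 : (∑ i, ∑ j, B i j) = (n : ℝ)) (h3 : phi A ≤ phi B) : IsMaxi B :=
  ⟨h1, h2, fun D hD1 hD2 => (h.max D hD1 hD2).trans h3⟩

lemma IsMaxi.transpose {A : Matrix (Fin n) (Fin n) ℝ} (h : IsMaxi A) : IsMaxi A.transpose := by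
  refine h.of_eq (fun i j => h.nonneg j i) ?_ (by rw [phi_transpose])
  rw [← h.total, Finset.sum_comm]
  rfl

end Pool.Agent.Helper67
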