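import Pool.Agent.Helper67.FacTrE
set_option autoImplicit false
set_option linter.unusedSectionVars false
open scoped ComplexOrder InnerProductSpace

namespace Pool.Agent.Helper67.FacTrLib

variable {H : Type} [NormedAddCommGroup H] [InnerProductSpace ℂ H] [CompleteSpace H]
  {S : Set (H →L[ℂ] H)} {τ : (H →L[ℂ] H) →ₗ[ℂ] ℂ}

/-- `n` matrix-unit columns over the minimal projection `r` -/
def Units (S : Set (H →L[ℂ] H)) (r : H →L[ℂ] H) (n : ℕ) : Prop :=
  ∃ v : Fin n → (H →L[ℂ] H), (∀ i, v i ∈ Set.centralizer S) ∧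
    ∀ i j, star (v i) * v j = if i = j then r else 0

theorem unit_mul {r v : H →L[ℂ] H} (hr : IsStarProjection r) (h : star v * v = r) : v * r = v :=
  pi_mul hr h

theorem sum_P {n : ℕ} {v : Fin n → (H →L[ℂ] H)} (hv : ∀ i, v i ∈ Set.centralizer S) :
    ∑ i, v i ∈ Set.centralizer S := by
  rw [mem_P]
  intro s hs x
  simp only [sum_apply, map_sum]
  refine Finset.sum_congr rfl (fun i _ => mem_P.1 (hv i) s hs x)

theorem Units.props (h : FacTr S τ) {r : H →L[ℂ] H} (hr : IsStarProjection r) {n : ℕ}
    {v : Fin n → (H →L[ℂ] H)} (hv : ∀ i, v i ∈ Set.centralizer S)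
    (hvv : ∀ i j, star (v i) * v j = if i = j then r else 0) :
    (∑ i, v i * star (v i)) ∈ Set.centralizer S ∧
    star (∑ i, v i * star (v i)) = ∑ i, v i * star (v i) ∧
    (∀ i, star (v i) * (∑ j, v j * star (v j)) = star (v i)) ∧
    (∑ i, v i * star (v i)) * (∑ i, v i * star (v i)) = ∑ i, v i * star (v i) ∧
    τ (∑ i, v i * star (v i)) = n * τ r := by
  have h1 : ∀ i, r * star (v i) = star (v i) := by
    intro i
    have := unit_mul hr (by simpa using hvv i i : star (v i) * v i = r)
    have h2 := congrArg star this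
    rwa [star_mul, hr.isSelfAdjoint.star_eq] at h2
  have h3 : ∀ i, star (v i) * (∑ j, v j * star (v j)) = star (v i) := by
    intro i
    rw [Finset.mul_sum]
    rw [Finset.sum_eq_single i]
    · rw [← mul_assoc, hvv, if_pos rfl, h1]
    · intro j _ hj
      rw [← mul_assoc, hvv, if_neg (Ne.symm hj), zero_mul]
    · intro hi; exact absurd (Finset.mem_univ i) hi
  refine ⟨sum_P (fun i => mul_P (hv i) (star_P h.starS (hv i))), ?_, h3, ?_, ?_⟩
  · rw [star_sum]
    refine Finset.sum_congr rfl (fun i _ => ?_)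
    rw [star_mul, star_star]
  · conv_lhs => rw [Finset.sum_mul]
    refine Finset.sum_congr rfl (fun i _ => ?_)
    rw [mul_assoc, h3]
  · rw [map_sum]
    have : ∀ i, τ (v i * star (v i)) = τ r := by
      intro i
      rw [h.comm _ (hv i) _ (star_P h.starS (hv i)), hvv, if_pos rfl]
    simp [this]

theorem Units.bound (h : FacTr S τ) {r : H →L[ℂ] H} (hr : IsStarProjection r) {n : ℕ}
    (hn : Units S r n) : (n : ℝ) * (τ r).re ≤ 1 := by
  obtain ⟨v, hv, hvv⟩ := hn
  obtain ⟨hgP, hgs, hvg, hgg, hτ⟩ := Units.props h hr hv hvv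
  set g := ∑ i, v i * star (v i)
  have h1 := h.nonneg (1 - g) (sub_P one_P hgP)
  have h2 : star (1 - g) * (1 - g) = 1 - g := by
    rw [star_sub, star_one, hgs, mul_sub, sub_mul, sub_mul, hgg]; simp
  rw [h2, map_sub, h.one, hτ] at h1
  have h3 := (Complex.le_def.1 h1).1
  simp at h3
  exact h3

theorem FacTr.finite (h : FacTr S τ) {r : H →L[ℂ] H} (hrP : r ∈ Set.centralizer S)
    (hr : IsStarProjection r) (hr0 : r ≠ 0)
    (hmin : ∀ b ∈ Set.centralizer S, ∀ c ∈ Set.centralizer S, star b = b → star c = c →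
        r * b = b → r * c = c → b * c = 0 → b = 0 ∨ c = 0) :
    FiniteDimensional ℂ (Submodule.span ℂ (Set.centralizer S)) := by
  have hS := h.starS
  have hrr := hr.isIdempotentElem.eq
  have hrs := hr.isSelfAdjoint.star_eq
  have hτr : τ r ≠ 0 := by
    intro h0
    exact hr0 (h.faith r hrP (by rw [hrs, hrr, h0]))
  have hτim : (τ r).im = 0 := h.im_zero hrP hrs
  have hτpos : 0 < (τ r).re := by
    have h1 := h.nonneg r hrP
    rw [hrs, hrr] at h1
    have h2 := (Complex.le_def.1 h1).1
    rw [Complex.zero_re] at h2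
    rcases h2.lt_or_eq with h3 | h3
    · exact h3
    · exact absurd (Complex.ext h3.symm hτim) hτr
  obtain ⟨n, hn, hn1⟩ : ∃ n, Units S r n ∧ ¬ Units S r (n + 1) := by
    by_contra hcon
    push Not at hcon
    have hall : ∀ n, Units S r n := by
      intro n
      induction n with
      | zero => exact ⟨fun i => 0, fun i => i.elim0, fun i => i.elim0⟩
      | succ n ih => exact hcon n ih
    obtain ⟨m, hm⟩ := exists_nat_gt (1 / (τ r).re)
    have h1 := Units.bound h hr (hall m)
    rw [div_lt_iff₀ hτpos] at hm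
    linarith
  obtain ⟨v, hv, hvv⟩ := hn
  obtain ⟨hgP, hgs, hvg, hgg, hτ⟩ := Units.props h hr hv hvv
  set g := ∑ i, v i * star (v i) with hgdef
  have hvr : ∀ i, v i * r = v i := fun i =>
    unit_mul hr (by simpa using hvv i i : star (v i) * v i = r)
  have hrv : ∀ i, r * star (v i) = star (v i) := by
    intro i
    have h2 := congrArg star (hvr i)
    rwa [star_mul, hrs] at h2
  have hg1 : g = 1 := by
    by_contra hg1
    have hb0 : (1 - g) ≠ 0 := fun h0 => hg1 (sub_eq_zero.1 h0).symm
    obtain ⟨x, hx, hy0⟩ := link hS h.factor hb0 hr0 hrP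
    have hbP : (1 - g) ∈ Set.centralizer S := sub_P one_P hgP
    have hyP : (1 - g) * x * r ∈ Set.centralizer S := mul_P (mul_P hbP hx) hrP
    set y := (1 - g) * x * r with hydef
    have hyr : y * r = y := by rw [hydef, mul_assoc, hrr]
    have hry : r * star y = star y := by
      have h2 := congrArg star hyr
      rwa [star_mul, hrs] at h2
    have hc1 := h.corner hrP hr hr0 hmin (mul_P (star_P hS hyP) hyP)
      (by rw [← mul_assoc, hry]) (by rw [mul_assoc, hyr])
    have hτy : τ (star y * y) ≠ 0 := fun h0 => hy0 (h.faith y hyP h0)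
    have hτy0 := h.nonneg y hyP
    -- the scalar is a positive real
    obtain ⟨t, ht0, ht⟩ : ∃ t : ℝ, 0 < t ∧ τ (star y * y) / τ r = (t : ℂ) := by
      refine ⟨(τ (star y * y)).re / (τ r).re, ?_, ?_⟩
      · apply div_pos _ hτpos
        have h2 := (Complex.le_def.1 hτy0)
        rw [Complex.zero_re, Complex.zero_im] at h2
        rcases h2.1.lt_or_eq with h3 | h3
        · exact h3
        · exact absurd (Complex.ext h3.symm h2.2.symm) hτy
      · have h2 := (Complex.le_def.1 hτy0).2
        rw [Complex.zero_im] at h2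
        have e1 : τ (star y * y) = ((τ (star y * y)).re : ℂ) := Complex.ext rfl (by simpa using h2.symm)
        have e2 : τ r = ((τ r).re : ℂ) := Complex.ext rfl (by simpa using hτim)
        rw [Complex.ofReal_div, ← e1, ← e2]
    rw [ht] at hc1
    -- normalise
    set w : H →L[ℂ] H := ((Real.sqrt t : ℝ) : ℂ)⁻¹ • y with hw
    have hst : ((Real.sqrt t : ℝ) : ℂ) ≠ 0 := by
      have := Real.sqrt_pos.2 ht0
      exact_mod_cast this.ne'
    have hww : star w * w = r := by
      rw [hw, star_smul, smul_mul_smul_comm, hc1, smul_smul]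
      have e1 : star (((Real.sqrt t : ℝ) : ℂ)⁻¹) = ((Real.sqrt t : ℝ) : ℂ)⁻¹ := by
        rw [star_inv₀]; congr 1; exact Complex.conj_ofReal _
      have e2 : ((Real.sqrt t : ℝ) : ℂ) * ((Real.sqrt t : ℝ) : ℂ) = (t : ℂ) := by
        rw [← Complex.ofReal_mul, Real.mul_self_sqrt ht0.le]
      rw [e1]
      have e3 : ((Real.sqrt t : ℝ) : ℂ)⁻¹ * ((Real.sqrt t : ℝ) : ℂ)⁻¹ * (t : ℂ) = 1 := by
        rw [← e2]; field_simp
      rw [e3, one_smul]
    have hvw : ∀ i, star (v i) * w = 0 := by
      intro i
      have : star (v i) * y = 0 := by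
        rw [hydef, ← mul_assoc, ← mul_assoc, mul_sub, mul_one, hvg, sub_self, zero_mul, zero_mul]
      rw [hw, mul_smul_comm, this, smul_zero]
    have hwv : ∀ i, star w * v i = 0 := by
      intro i
      have := congrArg star (hvw i)
      rwa [star_mul, star_star, star_zero] at this
    apply hn1
    refine ⟨Fin.cons w v, ?_, ?_⟩
    · intro i
      refine Fin.cases ?_ (fun j => ?_) i
      · simpa using smul_P _ hyP
      · simpa using hv j
    · intro i j
      refine Fin.cases ?_ (fun i' => ?_) i
      · refine Fin.cases ?_ (fun j' => ?_) j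
        · simpa using hww
        · have h0 : (0 : Fin (n + 1)) ≠ Fin.succ j' := (Fin.succ_ne_zero j').symm
          rw [if_neg h0]
          simpa using hwv j'
      · refine Fin.cases ?_ (fun j' => ?_) j
        · rw [if_neg (Fin.succ_ne_zero i')]
          simpa using hvw i'
        · have := hvv i' j'
          simp only [Fin.cons_succ, Fin.succ_inj]
          exact this
  -- now everything is a combination of the matrix units
  have hsub : Submodule.span ℂ (Set.centralizer S) ≤
      Submodule.span ℂ (Set.range (fun ij : Fin n × Fin n => v ij.1 * star (v ij.2))) := by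
    rw [Submodule.span_le]
    intro x hx
    have hexp : x = ∑ i, ∑ j, (τ (star (v i) * x * v j) / τ r) • (v i * star (v j)) := by
      have h1 : x = g * x * g := by rw [hg1]; simp
      conv_lhs => rw [h1, hgdef, Finset.sum_mul, Finset.sum_mul]
      refine Finset.sum_congr rfl (fun i _ => ?_)
      rw [Finset.mul_sum]
      refine Finset.sum_congr rfl (fun j _ => ?_)
      have hc1 := h.corner hrP hr hr0 hmin
        (mul_P (mul_P (star_P hS (hv i)) hx) (hv j))
        (by rw [← mul_assoc, ← mul_assoc, hrv]) (by rw [mul_assoc, hvr])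
      calc v i * star (v i) * x * (v j * star (v j))
          = v i * (star (v i) * x * v j) * star (v j) := by noncomm_ring
        _ = v i * ((τ (star (v i) * x * v j) / τ r) • r) * star (v j) := by rw [← hc1]
        _ = (τ (star (v i) * x * v j) / τ r) • (v i * star (v j)) := by
            rw [mul_smul_comm, smul_mul_assoc, hvr]
    rw [hexp]
    refine Submodule.sum_mem _ (fun i _ => Submodule.sum_mem _ (fun j _ => ?_))
    exact Submodule.smul_mem _ _ (Submodule.subset_span ⟨(i, j), rfl⟩)
  have : FiniteDimensional ℂ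
      (Submodule.span ℂ (Set.range (fun ij : Fin n × Fin n => v ij.1 * star (v ij.2)))) :=
    FiniteDimensional.span_of_finite ℂ (Set.finite_range _)
  exact Submodule.finiteDimensional_of_le hsub

/-- halving -/
theorem FacTr.half (h : FacTr S τ)
    (hinf : ¬ FiniteDimensional ℂ (Submodule.span ℂ (Set.centralizer S))) :
    ∃ e ∈ Set.centralizer S, IsStarProjection e ∧ τ e = 1 / 2 := by
  rcases h.dichotomy with h1 | ⟨r, hrP, hr, hr0, hmin⟩
  · exact h1
  · exact absurd (h.finite hrP hr hr0 hmin) hinf

end Pool.Agent.Helper67.FacTrLib
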