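import Mathlib
set_option autoImplicit false
set_option linter.unusedSectionVars false
open scoped ComplexOrder InnerProductSpace

namespace Pool.Agent.Helper67.FacTrLib

variable {H : Type} [NormedAddCommGroup H] [InnerProductSpace ℂ H] [CompleteSpace H]
  {S : Set (H →L[ℂ] H)}

theorem mem_P {a : H →L[ℂ] H} : a ∈ Set.centralizer S ↔ ∀ s ∈ S, ∀ x, s (a x) = a (s x) := by
  rw [Set.mem_centralizer_iff]
  constructor
  · intro h s hs x
    have := congrArg (fun T : H →L[ℂ] H => T x) (h s hs)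
    simpa using this
  · intro h s hs
    ext x
    simpa using h s hs x

theorem mul_P {a b : H →L[ℂ] H} (ha : a ∈ Set.centralizer S) (hb : b ∈ Set.centralizer S) :
    a * b ∈ Set.centralizer S := Set.mul_mem_centralizer ha hb

theorem one_P : (1 : H →L[ℂ] H) ∈ Set.centralizer S := Set.one_mem_centralizer

theorem add_P {a b : H →L[ℂ] H} (ha : a ∈ Set.centralizer S) (hb : b ∈ Set.centralizer S) :
    a + b ∈ Set.centralizer S := Set.add_mem_centralizer ha hb

theorem neg_P {a : H →L[ℂ] H} (ha : a ∈ Set.centralizer S) :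
    -a ∈ Set.centralizer S := Set.neg_mem_centralizer ha

theorem sub_P {a b : H →L[ℂ] H} (ha : a ∈ Set.centralizer S) (hb : b ∈ Set.centralizer S) :
    a - b ∈ Set.centralizer S := by
  rw [sub_eq_add_neg]; exact add_P ha (neg_P hb)

theorem zero_P : (0 : H →L[ℂ] H) ∈ Set.centralizer S := Set.zero_mem_centralizer

theorem smul_P {a : H →L[ℂ] H} (c : ℂ) (ha : a ∈ Set.centralizer S) :
    c • a ∈ Set.centralizer S := by
  rw [mem_P] at ha ⊢
  intro s hs x
  simp [ha s hs x]

theorem star_P (hS : ∀ s ∈ S, star s ∈ S) {a : H →L[ℂ] H} (ha : a ∈ Set.centralizer S) :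
    star a ∈ Set.centralizer S := by
  rw [Set.mem_centralizer_iff] at ha ⊢
  intro s hs
  have := congrArg star (ha (star s) (hS s hs))
  simpa using this.symm

theorem commute_of_mem {a : H →L[ℂ] H} (ha : a ∈ Set.centralizer S) {s : H →L[ℂ] H}
    (hs : s ∈ S) : Commute a s := (Set.mem_centralizer_iff.1 ha s hs).symm

theorem abs_P (hS : ∀ s ∈ S, star s ∈ S) {a : H →L[ℂ] H} (ha : a ∈ Set.centralizer S) :
    CFC.abs a ∈ Set.centralizer S := by
  rw [Set.mem_centralizer_iff]
  intro s hs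
  exact ((commute_of_mem ha hs).cfcAbs_left (commute_of_mem ha (hS s hs))).symm

theorem sqrt_P {a : H →L[ℂ] H} (ha : a ∈ Set.centralizer S) :
    CFC.sqrt a ∈ Set.centralizer S := by
  rw [Set.mem_centralizer_iff]
  intro s hs
  exact (Commute.cfcₙ_nnreal (commute_of_mem ha hs) _).symm

/-- projection onto a closed invariant subspace -/
theorem proj_P (hS : ∀ s ∈ S, star s ∈ S) (K : Submodule ℂ H) [K.HasOrthogonalProjection]
    (hK : ∀ s ∈ S, ∀ x ∈ K, s x ∈ K) : K.starProjection ∈ Set.centralizer S := by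
  rw [mem_P]
  intro s hs x
  refine (Submodule.eq_starProjection_of_mem_orthogonal (K := K)
    (hK s hs _ (Submodule.starProjection_apply_mem K x)) ?_).symm
  rw [← map_sub]
  rw [Submodule.mem_orthogonal]
  intro u hu
  have h1 : ⟪(star s) u, x - K.starProjection x⟫_ℂ = ⟪u, s (x - K.starProjection x)⟫_ℂ := by
    rw [ContinuousLinearMap.star_eq_adjoint, ContinuousLinearMap.adjoint_inner_left]
  rw [← h1]
  have h2 := Submodule.sub_starProjection_mem_orthogonal (K := K) x
  rw [Submodule.mem_orthogonal] at h2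
  exact h2 _ (hK _ (hS s hs) _ hu)

theorem norm_abs_apply (y : H →L[ℂ] H) (z : H) : ‖CFC.abs y z‖ = ‖y z‖ := by
  have e1 : ⟪CFC.abs y z, CFC.abs y z⟫_ℂ = ⟪y z, y z⟫_ℂ := by
    have hsa : star (CFC.abs y) = CFC.abs y := (CFC.abs_nonneg y).isSelfAdjoint
    calc ⟪CFC.abs y z, CFC.abs y z⟫_ℂ = ⟪(star (CFC.abs y)) (CFC.abs y z), z⟫_ℂ := by
          rw [ContinuousLinearMap.star_eq_adjoint, ContinuousLinearMap.adjoint_inner_left]
      _ = ⟪(CFC.abs y * CFC.abs y) z, z⟫_ℂ := by rw [hsa]; rfl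
      _ = ⟪(star y * y) z, z⟫_ℂ := by rw [CFC.abs_mul_abs]
      _ = ⟪(star y) (y z), z⟫_ℂ := rfl
      _ = ⟪y z, y z⟫_ℂ := by
          rw [ContinuousLinearMap.star_eq_adjoint, ContinuousLinearMap.adjoint_inner_left]
  have h2 : ‖CFC.abs y z‖ ^ 2 = ‖y z‖ ^ 2 := by
    rw [@norm_sq_eq_re_inner ℂ, @norm_sq_eq_re_inner ℂ, e1]
  exact (sq_eq_sq₀ (norm_nonneg _) (norm_nonneg _)).1 h2

/-- In a factor, two nonzero elements can be linked. -/
theorem link (hS : ∀ s ∈ S, star s ∈ S)
    (hfac : ∀ z ∈ Set.centralizer S, (∀ x ∈ Set.centralizer S, z * x = x * z) →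
      ∃ c : ℂ, z = c • (1 : H →L[ℂ] H))
    {b c : H →L[ℂ] H} (hb : b ≠ 0) (hc : c ≠ 0) (hcP : c ∈ Set.centralizer S) :
    ∃ x ∈ Set.centralizer S, b * x * c ≠ 0 := by
  by_contra hcon
  push Not at hcon
  set K : Submodule ℂ H :=
    (Submodule.span ℂ {w : H | ∃ x ∈ Set.centralizer S, ∃ z, w = x (c z)}).topologicalClosure
    with hK
  have hKc : IsClosed (K : Set H) := Submodule.isClosed_topologicalClosure _
  haveI : CompleteSpace K := hKc.completeSpace_coe
  -- general invariance
  have hinv : ∀ t : H →L[ℂ] H, (∀ x ∈ Set.centralizer S, ∀ z, ∃ x' ∈ Set.centralizer S, ∃ z',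
      t (x (c z)) = x' (c z')) → ∀ w ∈ K, t w ∈ K := by
    intro t ht
    have h1 : Submodule.span ℂ {w : H | ∃ x ∈ Set.centralizer S, ∃ z, w = x (c z)} ≤
        K.comap (t : H →ₗ[ℂ] H) := by
      rw [Submodule.span_le]
      rintro w ⟨x, hx, z, rfl⟩
      obtain ⟨x', hx', z', h'⟩ := ht x hx z
      have : t (x (c z)) ∈ K := by
        rw [h']
        exact Submodule.le_topologicalClosure _ (Submodule.subset_span ⟨x', hx', z', rfl⟩)
      exact this
    have h2 : IsClosed ((K.comap (t : H →ₗ[ℂ] H) : Submodule ℂ H) : Set H) :=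
      hKc.preimage t.continuous
    have h3 := Submodule.topologicalClosure_minimal _ h1 h2
    intro w hw
    exact h3 hw
  have hKS : ∀ s ∈ S, ∀ w ∈ K, s w ∈ K := by
    intro s hs
    apply hinv
    intro x hx z
    refine ⟨x, hx, s z, ?_⟩
    rw [mem_P.1 hx s hs, mem_P.1 hcP s hs]
  have hKP : ∀ s ∈ Set.centralizer S, ∀ w ∈ K, s w ∈ K := by
    intro s hs
    apply hinv
    intro x hx z
    exact ⟨s * x, mul_P hs hx, z, rfl⟩
  have hpP := proj_P hS K hKS
  have hpc : K.starProjection ∈ Set.centralizer (Set.centralizer S) :=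
    proj_P (fun s hs => star_P hS hs) K hKP
  obtain ⟨l, hl⟩ := hfac _ hpP (fun x hx => (Set.mem_centralizer_iff.1 hpc x hx).symm)
  -- K contains a nonzero vector
  obtain ⟨z, hz⟩ : ∃ z, c z ≠ 0 := by
    by_contra h
    push Not at h
    exact hc (ContinuousLinearMap.ext h)
  have hczK : c z ∈ K :=
    Submodule.le_topologicalClosure _ (Submodule.subset_span ⟨1, one_P, z, rfl⟩)
  have h1 : K.starProjection (c z) = c z := (Submodule.starProjection_eq_self_iff).2 hczK
  have hl1 : l = 1 := by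
    rw [hl] at h1
    have : (l - 1) • c z = 0 := by
      rw [sub_smul, one_smul, sub_eq_zero]; simpa using h1
    rcases smul_eq_zero.1 this with h | h
    · exact sub_eq_zero.1 h
    · exact absurd h hz
  rw [hl1, one_smul] at hl
  apply hb
  -- b vanishes on K
  have hbK : K ≤ LinearMap.ker (b : H →ₗ[ℂ] H) := by
    apply Submodule.topologicalClosure_minimal
    · rw [Submodule.span_le]
      rintro w ⟨x, hx, z, rfl⟩
      have := hcon x hx
      have h3 := congrArg (fun T : H →L[ℂ] H => T z) this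
      simpa using h3
    · exact b.isClosed_ker
  ext w
  have hwK : w ∈ K := by
    rw [← Submodule.starProjection_eq_self_iff, hl]; rfl
  simpa using hbK hwK

end Pool.Agent.Helper67.FacTrLib
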