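import Pool.Agent.Helper67.FacTrA
set_option autoImplicit false
set_option linter.unusedSectionVars false
open scoped ComplexOrder InnerProductSpace

namespace Pool.Agent.Helper67.FacTrLib

variable {H : Type} [NormedAddCommGroup H] [InnerProductSpace ℂ H] [CompleteSpace H]
  {S : Set (H →L[ℂ] H)} {R : H × H → H × H → Prop}

/-- admissible graphs of partial isometries -/
def Good (S : Set (H →L[ℂ] H)) (R : H × H → H × H → Prop) (G : Submodule ℂ (H × H)) : Prop :=
  (∀ s ∈ S, ∀ g ∈ G, (s g.1, s g.2) ∈ G) ∧ (∀ g ∈ G, ‖g.1‖ = ‖g.2‖) ∧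
    ∀ g ∈ G, ∀ g' ∈ G, R g g'

theorem Good.closure (hR : IsClosed {p : (H × H) × (H × H) | R p.1 p.2})
    {G : Submodule ℂ (H × H)} (h : Good S R G) : Good S R G.topologicalClosure := by
  obtain ⟨h1, h2, h3⟩ := h
  refine ⟨?_, ?_, ?_⟩
  · intro s hs g hg
    have hcont : Continuous (fun g : H × H => (s g.1, s g.2)) := by fun_prop
    have hg' : g ∈ _root_.closure (G : Set (H × H)) := hg
    exact map_mem_closure (f := fun g : H × H => (s g.1, s g.2)) hcont hg'
      (fun g hg => h1 s hs g hg)
  · intro g hg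
    have hg' : g ∈ _root_.closure (G : Set (H × H)) := hg
    have hcl : IsClosed {g : H × H | ‖g.1‖ = ‖g.2‖} := isClosed_eq (by fun_prop) (by fun_prop)
    exact (hcl.closure_subset_iff.2 (fun g hg => h2 g hg)) hg'
  · intro g hg g' hg'
    have hg1 : (g, g') ∈ _root_.closure ((G : Set (H × H)) ×ˢ (G : Set (H × H))) := by
      rw [closure_prod_eq]; exact ⟨hg, hg'⟩
    exact (hR.closure_subset_iff.2 (fun p hp => h3 p.1 hp.1 p.2 hp.2)) hg1

theorem exists_maximal (hR : IsClosed {p : (H × H) × (H × H) | R p.1 p.2}) (h0 : R 0 0) :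
    ∃ G : Submodule ℂ (H × H), Good S R G ∧ IsClosed (G : Set (H × H)) ∧
      ∀ G', Good S R G' → G ≤ G' → G' ≤ G := by
  obtain ⟨G, hG⟩ := zorn_le₀ {G : Submodule ℂ (H × H) | Good S R G} (by
    intro c hc hchain
    rcases c.eq_empty_or_nonempty with rfl | hne
    · refine ⟨⊥, ⟨?_, ?_, ?_⟩, by simp⟩
      · intro s hs g hg
        rw [Submodule.mem_bot] at hg
        subst hg; simp
      · intro g hg
        rw [Submodule.mem_bot] at hg
        subst hg; simp
      · intro g hg g' hg'
        rw [Submodule.mem_bot] at hg hg'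
        subst hg; subst hg'; exact h0
    · have hdir : DirectedOn (· ≤ ·) c := hchain.directedOn
      refine ⟨sSup c, ⟨?_, ?_, ?_⟩, fun z hz => le_sSup hz⟩
      · intro s hs g hg
        rw [Submodule.mem_sSup_of_directed hne hdir] at hg ⊢
        obtain ⟨y, hy, hgy⟩ := hg
        exact ⟨y, hy, (hc hy).1 s hs g hgy⟩
      · intro g hg
        rw [Submodule.mem_sSup_of_directed hne hdir] at hg
        obtain ⟨y, hy, hgy⟩ := hg
        exact (hc hy).2.1 g hgy
      · intro g hg g' hg'
        rw [Submodule.mem_sSup_of_directed hne hdir] at hg hg'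
        obtain ⟨y, hy, hgy⟩ := hg
        obtain ⟨y', hy', hgy'⟩ := hg'
        obtain ⟨z, hz, h1, h2⟩ := hdir y hy y' hy'
        exact (hc hz).2.2 g (h1 hgy) g' (h2 hgy'))
  have hmax : ∀ G', Good S R G' → G ≤ G' → G' ≤ G := fun G' h1 h2 => hG.2 h1 h2
  refine ⟨G, hG.1, ?_, hmax⟩
  have h1 := hmax _ (Good.closure hR hG.1) (Submodule.le_topologicalClosure G)
  have h2 : G.topologicalClosure = G := le_antisymm h1 (Submodule.le_topologicalClosure G)
  rw [← h2]
  exact Submodule.isClosed_topologicalClosure G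

/-- the partial isometry of a closed admissible graph -/
theorem exists_pi (hS : ∀ s ∈ S, star s ∈ S) {G : Submodule ℂ (H × H)} (hG : Good S R G)
    (hc : IsClosed (G : Set (H × H))) :
    ∃ V ∈ Set.centralizer S, (∀ g ∈ G, V g.1 = g.2) ∧ (∀ g ∈ G, (star V * V) g.1 = g.1) ∧
      IsStarProjection (star V * V) ∧ (∀ x, ((star V * V) x, V x) ∈ G) := by
  have : CompleteSpace G := hc.completeSpace_coe
  let f1 : G →ₗᵢ[ℂ] H :=
    { toLinearMap := (LinearMap.fst ℂ H H).comp G.subtype
      norm_map' := by
        intro g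
        have h := hG.2.1 g.1 g.2
        change ‖(g : H × H).1‖ = ‖g‖
        rw [Submodule.coe_norm, Prod.norm_def, ← h, max_self] }
  let M : Submodule ℂ H := LinearMap.range f1.toLinearMap
  let E : G ≃ₗᵢ[ℂ] M := f1.equivRange
  have : CompleteSpace M := by
    have h1 : IsComplete (Set.range f1) :=
      (completeSpace_iff_isComplete_range f1.isometry.isUniformInducing).1 inferInstance
    have h2 : (M : Set H) = Set.range f1 := by ext x; rfl
    have h3 : IsComplete (M : Set H) := by rw [h2]; exact h1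
    exact h3.completeSpace_coe
  let W : M →ₗᵢ[ℂ] H :=
    { toLinearMap := ((LinearMap.snd ℂ H H).comp G.subtype).comp
        (E.symm.toLinearEquiv : M →ₗ[ℂ] G)
      norm_map' := by
        intro x
        have h := hG.2.1 (E.symm x : G).1 (E.symm x).2
        change ‖((E.symm x : G) : H × H).2‖ = ‖x‖
        rw [← h]
        have h2 : E (E.symm x) = x := E.apply_symm_apply x
        have h3 : ((E (E.symm x) : M) : H) = ((E.symm x : G) : H × H).1 := rfl
        rw [← h3, h2]; rfl }
  let V : H →L[ℂ] H := W.toContinuousLinearMap ∘L M.orthogonalProjectionOnto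
  have hVx : ∀ x, V x = W (M.orthogonalProjectionOnto x) := fun x => rfl
  have hmemM : ∀ g (hg : g ∈ G), g.1 ∈ M := fun g hg => ⟨⟨g, hg⟩, rfl⟩
  have hW : ∀ g (hg : g ∈ G), W ⟨g.1, hmemM g hg⟩ = g.2 := by
    intro g hg
    have h1 : E ⟨g, hg⟩ = ⟨g.1, hmemM g hg⟩ := rfl
    have h2 : E.symm ⟨g.1, hmemM g hg⟩ = ⟨g, hg⟩ := by rw [← h1, E.symm_apply_apply]
    change ((E.symm ⟨g.1, hmemM g hg⟩ : G) : H × H).2 = g.2
    rw [h2]
  have hV1 : ∀ g ∈ G, V g.1 = g.2 := by
    intro g hg
    rw [hVx]
    have : M.orthogonalProjectionOnto g.1 = ⟨g.1, hmemM g hg⟩ :=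
      Submodule.orthogonalProjectionOnto_mem_subspace_eq_self (⟨g.1, hmemM g hg⟩ : M)
    rw [this, hW g hg]
  have hVstar : star V * V = M.starProjection := by
    ext x
    apply ext_inner_left ℂ
    intro y
    have e1 : ⟪y, (star V * V) x⟫_ℂ = ⟪V y, V x⟫_ℂ := by
      change ⟪y, (star V) (V x)⟫_ℂ = _
      rw [ContinuousLinearMap.star_eq_adjoint, ContinuousLinearMap.adjoint_inner_right]
    rw [e1, hVx, hVx, W.inner_map_map, Submodule.coe_inner]
    change ⟪M.starProjection y, M.starProjection x⟫_ℂ = _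
    rw [Submodule.inner_starProjection_left_eq_right]
    congr 1
    exact Submodule.starProjection_eq_self_iff.2 (Submodule.starProjection_apply_mem M x)
  have hgr : ∀ x, ((star V * V) x, V x) ∈ G := by
    intro x
    rw [hVstar]
    have h1 : M.starProjection x ∈ M := Submodule.starProjection_apply_mem M x
    obtain ⟨g, hg⟩ := h1
    have hg1 : ((g : H × H)).1 = M.starProjection x := hg
    have h2 : V x = (g : H × H).2 := by
      rw [← hV1 g.1 g.2, hg1, hVx, hVx]
      congr 1
      apply Subtype.ext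
      change M.starProjection x = M.starProjection (M.starProjection x)
      exact (Submodule.starProjection_eq_self_iff.2 (Submodule.starProjection_apply_mem M x)).symm
    rw [← hg1, h2]
    exact g.2
  refine ⟨V, ?_, hV1, ?_, ?_, hgr⟩
  · rw [mem_P]
    intro s hs x
    have hx : x = M.starProjection x + (x - M.starProjection x) := by abel
    have hker : ∀ w ∈ Mᗮ, V w = 0 := by
      intro w hw
      rw [hVx, Submodule.orthogonalProjectionOnto_apply_of_mem_orthogonal hw]
      simp
    have hMS : ∀ s ∈ S, ∀ x ∈ M, s x ∈ M := by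
      rintro s hs x ⟨g, rfl⟩
      exact hmemM _ (hG.1 s hs g.1 g.2)
    have hMo : s (x - M.starProjection x) ∈ Mᗮ := by
      rw [Submodule.mem_orthogonal]
      intro u hu
      have h1 : ⟪(star s) u, x - M.starProjection x⟫_ℂ =
          ⟪u, s (x - M.starProjection x)⟫_ℂ := by
        rw [ContinuousLinearMap.star_eq_adjoint, ContinuousLinearMap.adjoint_inner_left]
      rw [← h1]
      have h2 := Submodule.sub_starProjection_mem_orthogonal (K := M) x
      rw [Submodule.mem_orthogonal] at h2
      exact h2 _ (hMS _ (hS s hs) _ hu)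
    have hg := hgr x
    rw [hVstar] at hg
    have h3 := hV1 _ (hG.1 s hs _ hg)
    simp only at h3
    have h4 : V (s x) = V (s (M.starProjection x)) := by
      have : s x = s (M.starProjection x) + s (x - M.starProjection x) := by
        rw [← map_add]; congr 1
      rw [this, map_add, hker _ hMo, add_zero]
    rw [h4, h3]
  · intro g hg
    rw [hVstar]
    exact Submodule.starProjection_eq_self_iff.2 (hmemM g hg)
  · rw [hVstar]
    exact isStarProjection_starProjection

end Pool.Agent.Helper67.FacTrLib
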