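import Pool.Agent.Helper67.FacTrB
set_option autoImplicit false
set_option linter.unusedSectionVars false
open scoped ComplexOrder InnerProductSpace

namespace Pool.Agent.Helper67.FacTrLib

variable {H : Type} [NormedAddCommGroup H] [InnerProductSpace ℂ H] [CompleteSpace H]
  {S : Set (H →L[ℂ] H)} {R : H × H → H × H → Prop}

theorem inner_sa {c : H →L[ℂ] H} (hc : star c = c) (x y : H) : ⟪x, c y⟫_ℂ = ⟪c x, y⟫_ℂ := by
  have : ⟪x, (star c) y⟫_ℂ = ⟪c x, y⟫_ℂ := by
    rw [ContinuousLinearMap.star_eq_adjoint, ContinuousLinearMap.adjoint_inner_right]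
  rwa [hc] at this

theorem abs_star_eq (y : H →L[ℂ] H) : star (CFC.abs y) = CFC.abs y :=
  (CFC.abs_nonneg y).isSelfAdjoint

theorem abs_kill {y b : H →L[ℂ] H} (hb : star b = b) (h : y * b = 0) : b * CFC.abs y = 0 := by
  have h1 : CFC.abs y * b = 0 := by
    ext z
    have h2 : ‖CFC.abs y (b z)‖ = 0 := by
      rw [norm_abs_apply]
      have : (y * b) z = 0 := by rw [h]; rfl
      have h3 : y (b z) = 0 := this
      rw [h3, norm_zero]
    simpa using h2
  have h2 := congrArg star h1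
  rwa [star_mul, abs_star_eq, hb, star_zero] at h2

theorem abs_absorb {y c : H →L[ℂ] H} (hc : star c = c) (h : y * c = y) :
    c * CFC.abs y = CFC.abs y := by
  have h1 : star (1 - c) = 1 - c := by rw [star_sub, star_one, hc]
  have h2 : y * (1 - c) = 0 := by rw [mul_sub, mul_one, h, sub_self]
  have h3 := abs_kill h1 h2
  rw [sub_mul, one_mul, sub_eq_zero] at h3
  exact h3.symm

/-- extension of a graph by the polar part of `y` -/
noncomputable def extG (G : Submodule ℂ (H × H)) (y : H →L[ℂ] H) : Submodule ℂ (H × H) :=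
  G ⊔ LinearMap.range (((CFC.abs y : H →L[ℂ] H) : H →ₗ[ℂ] H).prod (y : H →ₗ[ℂ] H))

theorem mem_extG {G : Submodule ℂ (H × H)} {y : H →L[ℂ] H} {g : H × H} :
    g ∈ extG G y ↔ ∃ g0 ∈ G, ∃ z, g = (g0.1 + CFC.abs y z, g0.2 + y z) := by
  unfold extG
  rw [Submodule.mem_sup]
  constructor
  · rintro ⟨g0, hg0, w, ⟨z, rfl⟩, rfl⟩
    exact ⟨g0, hg0, z, rfl⟩
  · rintro ⟨g0, hg0, z, rfl⟩
    exact ⟨g0, hg0, (CFC.abs y z, y z), ⟨z, rfl⟩, rfl⟩

theorem norm_add_eq {a b a' b' : H} (h : ⟪a, b⟫_ℂ = 0) (h' : ⟪a', b'⟫_ℂ = 0) (e1 : ‖a‖ = ‖a'‖)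
    (e2 : ‖b‖ = ‖b'‖) : ‖a + b‖ = ‖a' + b'‖ := by
  have h1 := norm_add_sq_eq_norm_sq_add_norm_sq_of_inner_eq_zero (𝕜 := ℂ) a b h
  have h2 := norm_add_sq_eq_norm_sq_add_norm_sq_of_inner_eq_zero (𝕜 := ℂ) a' b' h'
  have h3 : ‖a + b‖ * ‖a + b‖ = ‖a' + b'‖ * ‖a' + b'‖ := by rw [h1, h2, e1, e2]
  exact (mul_self_inj (norm_nonneg _) (norm_nonneg _)).1 h3

/-- maximality kills every admissible extension -/
theorem extend_zero (hS : ∀ s ∈ S, star s ∈ S) {G : Submodule ℂ (H × H)} (hG : Good S R G)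
    (hmax : ∀ G', Good S R G' → G ≤ G' → G' ≤ G) {y : H →L[ℂ] H} (hy : y ∈ Set.centralizer S)
    (h1 : ∀ g ∈ G, ∀ z, ⟪g.1, CFC.abs y z⟫_ℂ = 0) (h2 : ∀ g ∈ G, ∀ z, ⟪g.2, y z⟫_ℂ = 0)
    (h3 : ∀ g ∈ G, ∀ z, ∀ g' ∈ G, ∀ z', R (g.1 + CFC.abs y z, g.2 + y z)
      (g'.1 + CFC.abs y z', g'.2 + y z')) : y = 0 := by
  have hgood : Good S R (extG G y) := by
    refine ⟨?_, ?_, ?_⟩
    · intro s hs g hg
      rw [mem_extG] at hg ⊢
      obtain ⟨g0, hg0, z, rfl⟩ := hg
      refine ⟨(s g0.1, s g0.2), hG.1 s hs g0 hg0, s z, ?_⟩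
      simp only [map_add]
      rw [mem_P.1 (abs_P hS hy) s hs, mem_P.1 hy s hs]
    · intro g hg
      rw [mem_extG] at hg
      obtain ⟨g0, hg0, z, rfl⟩ := hg
      exact norm_add_eq (h1 g0 hg0 z) (h2 g0 hg0 z) (hG.2.1 g0 hg0) (norm_abs_apply y z)
    · intro g hg g' hg'
      rw [mem_extG] at hg hg'
      obtain ⟨g0, hg0, z, rfl⟩ := hg
      obtain ⟨g1, hg1, z', rfl⟩ := hg'
      exact h3 g0 hg0 z g1 hg1 z'
  have hle := hmax _ hgood (by unfold extG; exact le_sup_left)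
  ext z
  have hz : (CFC.abs y z, y z) ∈ G := by
    apply hle
    rw [mem_extG]
    exact ⟨0, G.zero_mem, z, by simp⟩
  have := h2 _ hz z
  simpa using this

theorem star_mul_self_eq_zero {a : H →L[ℂ] H} (h : star a * a = 0) : a = 0 :=
  CStarRing.star_mul_self_eq_zero_iff a |>.1 h

theorem pi_mul {V p : H →L[ℂ] H} (hp : IsStarProjection p) (h : star V * V = p) : V * p = V := by
  have h1 : star (V - V * p) * (V - V * p) = 0 := by
    have h2 : star (V - V * p) = star V - p * star V := by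
      rw [star_sub, star_mul, hp.isSelfAdjoint.star_eq]
    rw [h2]
    have e1 : (star V - p * star V) * (V - V * p) =
        star V * V - (star V * V) * p - p * (star V * V) + p * (star V * V) * p := by noncomm_ring
    rw [e1, h]
    have := hp.isIdempotentElem.eq
    rw [this, this]; simp
  have := star_mul_self_eq_zero h1
  rw [sub_eq_zero] at this
  exact this.symm

/-- data extracted from a maximal graph -/
theorem graph_data (hS : ∀ s ∈ S, star s ∈ S) {G : Submodule ℂ (H × H)} (hG : Good S R G)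
    (hc : IsClosed (G : Set (H × H))) :
    ∃ V ∈ Set.centralizer S, ∃ p ∈ Set.centralizer S, ∃ q ∈ Set.centralizer S,
      star V * V = p ∧ V * star V = q ∧ IsStarProjection p ∧ IsStarProjection q ∧ 
      V * p = V ∧ q * V = V ∧ (∀ g ∈ G, p g.1 = g.1) ∧ (∀ g ∈ G, q g.2 = g.2) ∧
      (∀ g ∈ G, V g.1 = g.2) ∧ (∀ x, (p x, V x) ∈ G) := by
  obtain ⟨V, hV, h1, h2, h3, h4⟩ := exists_pi hS hG hc
  have hVp : V * (star V * V) = V := pi_mul h3 rfl
  have hqV : (V * star V) * V = V := by rw [mul_assoc, hVp]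
  refine ⟨V, hV, star V * V, mul_P (star_P hS hV) hV, V * star V, mul_P hV (star_P hS hV),
    rfl, rfl, h3, ?_, hVp, hqV, h2, ?_, h1, h4⟩
  · refine ⟨?_, ?_⟩
    · change (V * star V) * (V * star V) = V * star V
      rw [← mul_assoc, hqV]
    · change star (V * star V) = V * star V
      rw [star_mul, star_star]
  · intro g hg
    have h5 : (V * star V * V) g.1 = V g.1 := by rw [hqV]
    have h6 : (V * star V) (V g.1) = V g.1 := h5
    rwa [h1 g hg] at h6

end Pool.Agent.Helper67.FacTrLib
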