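import Pool.Agent.Helper67.FacTrC
set_option autoImplicit false
set_option linter.unusedSectionVars false
open scoped ComplexOrder InnerProductSpace

namespace Pool.Agent.Helper67.FacTrLib

/-- hypotheses: `P = centralizer S` is a factor with a faithful tracial state `τ` -/
structure FacTr {H : Type} [NormedAddCommGroup H] [InnerProductSpace ℂ H] [CompleteSpace H]
    (S : Set (H →L[ℂ] H)) (τ : (H →L[ℂ] H) →ₗ[ℂ] ℂ) : Prop where
  starS : ∀ s ∈ S, star s ∈ S
  factor : ∀ z ∈ Set.centralizer S, (∀ x ∈ Set.centralizer S, z * x = x * z) →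
    ∃ c : ℂ, z = c • (1 : H →L[ℂ] H)
  one : τ 1 = 1
  comm : ∀ x ∈ Set.centralizer S, ∀ y ∈ Set.centralizer S, τ (x * y) = τ (y * x)
  nonneg : ∀ x ∈ Set.centralizer S, 0 ≤ τ (star x * x)
  faith : ∀ x ∈ Set.centralizer S, τ (star x * x) = 0 → x = 0

variable {H : Type} [NormedAddCommGroup H] [InnerProductSpace ℂ H] [CompleteSpace H]
  {S : Set (H →L[ℂ] H)} {τ : (H →L[ℂ] H) →ₗ[ℂ] ℂ}

/-- comparison of projections in `P = S'` -/
theorem FacTr.sub (h : FacTr S τ) (e f : H →L[ℂ] H) (he : e ∈ Set.centralizer S)
    (hf : f ∈ Set.centralizer S) (hep : IsStarProjection e) (hfp : IsStarProjection f)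
    (hle : (τ e).re ≤ (τ f).re) :
    ∃ v ∈ Set.centralizer S, star v * v = e ∧ f * v = v := by
  have hS := h.starS
  have hee := hep.isIdempotentElem.eq
  have hff := hfp.isIdempotentElem.eq
  have hes := hep.isSelfAdjoint.star_eq
  have hfs := hfp.isSelfAdjoint.star_eq
  obtain ⟨G, hG, hc, hmax⟩ := exists_maximal (S := S)
    (R := fun g g' : H × H => e g.1 = g.1 ∧ f g.2 = g.2)
    ((isClosed_eq (by fun_prop) (by fun_prop)).inter (isClosed_eq (by fun_prop) (by fun_prop)))
    (by simp)
  obtain ⟨V, hV, p, hpP, q, hqP, hVV, hVV', hp, hq, hVp, hqV, hg1, hg2, hgV, hpG⟩ :=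
    graph_data hS hG hc
  have hpp := hp.isIdempotentElem.eq
  have hqq := hq.isIdempotentElem.eq
  have hps := hp.isSelfAdjoint.star_eq
  have hqs := hq.isSelfAdjoint.star_eq
  have hep' : e * p = p := by
    ext x
    exact (hG.2.2 _ (hpG x) _ (hpG x)).1
  have hfV : f * V = V := by
    ext x
    exact (hG.2.2 _ (hpG x) _ (hpG x)).2
  have hpe' : p * e = p := by
    have := congrArg star hep'
    rwa [star_mul, hes, hps] at this
  have hfq : f * q = q := by rw [← hVV', ← mul_assoc, hfV]
  have hqf : q * f = q := by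
    have := congrArg star hfq
    rwa [star_mul, hfs, hqs] at this
  have key : e - p = 0 ∨ f - q = 0 := by
    by_contra hcon
    push Not at hcon
    obtain ⟨hc0, hb0⟩ := hcon
    have hcP : e - p ∈ Set.centralizer S := sub_P he hpP
    have hbP : f - q ∈ Set.centralizer S := sub_P hf hqP
    obtain ⟨x, hx, hy0⟩ := link hS h.factor hb0 hc0 hcP
    have hyP : (f - q) * x * (e - p) ∈ Set.centralizer S := mul_P (mul_P hbP hx) hcP
    set c := e - p with hcdef
    set b := f - q with hbdef
    have hcc : c * c = c := by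
      rw [hcdef, sub_mul, mul_sub, mul_sub, hee, hep', hpe', hpp]; simp
    have hbb : b * b = b := by
      rw [hbdef, sub_mul, mul_sub, mul_sub, hff, hfq, hqf, hqq]; simp
    have hcs : star c = c := by rw [hcdef, star_sub, hes, hps]
    have hbs : star b = b := by rw [hbdef, star_sub, hfs, hqs]
    have hec : e * c = c := by rw [hcdef, mul_sub, hee, hep']
    have hfb : f * b = b := by rw [hbdef, mul_sub, hff, hfq]
    set y := b * x * c with hydef
    have hyc : y * c = y := by rw [hydef, mul_assoc, hcc]
    have hby : b * y = y := by rw [hydef, ← mul_assoc, ← mul_assoc, hbb]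
    have hcabs := abs_absorb hcs hyc
    have hcabs' : ∀ z, c (CFC.abs y z) = CFC.abs y z := fun z => by
      have := congrArg (fun T : H →L[ℂ] H => T z) hcabs
      exact this
    have hby' : ∀ z, b (y z) = y z := fun z => by
      have := congrArg (fun T : H →L[ℂ] H => T z) hby
      exact this
    have hcg : ∀ g ∈ G, c g.1 = 0 := by
      intro g hg
      have h1 := (hG.2.2 g hg g hg).1
      have h2 := hg1 g hg
      rw [hcdef, sub_apply, h1, h2, sub_self]
    have hbg : ∀ g ∈ G, b g.2 = 0 := by
      intro g hg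
      have h1 := (hG.2.2 g hg g hg).2
      have h2 := hg2 g hg
      rw [hbdef, sub_apply, h1, h2, sub_self]
    apply hy0
    apply extend_zero hS hG hmax hyP
    · intro g hg z
      rw [← hcabs' z, inner_sa hcs, hcg g hg, inner_zero_left]
    · intro g hg z
      rw [← hby' z, inner_sa hbs, hbg g hg, inner_zero_left]
    · intro g hg z g' hg' z'
      refine ⟨?_, ?_⟩
      · simp only [map_add]
        rw [(hG.2.2 g hg g hg).1]
        congr 1
        rw [← hcabs' z]
        have := congrArg (fun T : H →L[ℂ] H => T (CFC.abs y z)) hec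
        exact this
      · simp only [map_add]
        rw [(hG.2.2 g hg g hg).2]
        congr 1
        rw [← hby' z]
        have := congrArg (fun T : H →L[ℂ] H => T (y z)) hfb
        exact this
  have hend : e = p → ∃ v ∈ Set.centralizer S, star v * v = e ∧ f * v = v :=
    fun h1 => ⟨V, hV, by rw [hVV, h1], hfV⟩
  rcases key with h1 | h1
  · exact hend (sub_eq_zero.1 h1)
  · apply hend
    have hfq' : f = q := sub_eq_zero.1 h1
    have hτ : τ p = τ f := by
      rw [← hVV, hfq', ← hVV']
      exact h.comm _ (star_P hS hV) _ hV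
    have hcc : star (e - p) * (e - p) = e - p := by
      rw [star_sub, hes, hps, sub_mul, mul_sub, mul_sub, hee, hep', hpe', hpp]; simp
    have hcP : e - p ∈ Set.centralizer S := sub_P he hpP
    have h0 := h.nonneg _ hcP
    rw [hcc, map_sub, hτ] at h0
    have h2 : τ e - τ f = 0 := by
      rw [Complex.le_def] at h0
      obtain ⟨h3, h4⟩ := h0
      apply Complex.ext
      · simp only [Complex.sub_re, Complex.zero_re] at h3 ⊢
        linarith
      · simp only [Complex.zero_im] at h4 ⊢
        exact h4.symm
    have h5 := h.faith _ hcP (by rw [hcc, map_sub, hτ, h2])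
    exact sub_eq_zero.1 h5

end Pool.Agent.Helper67.FacTrLib
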