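import Pool.Agent.Helper67.FacTrD
set_option autoImplicit false
set_option linter.unusedSectionVars false
open scoped ComplexOrder InnerProductSpace

namespace Pool.Agent.Helper67.FacTrLib

variable {H : Type} [NormedAddCommGroup H] [InnerProductSpace ℂ H] [CompleteSpace H]
  {S : Set (H →L[ℂ] H)} {τ : (H →L[ℂ] H) →ₗ[ℂ] ℂ}

/-- A positive element of `P` of trace zero vanishes. -/
theorem FacTr.abs_zero (h : FacTr S τ) {a : H →L[ℂ] H} (ha : a ∈ Set.centralizer S)
    (h0 : τ (CFC.abs a) = 0) : a = 0 := by
  have h1 : CFC.abs a ∈ Set.centralizer S := abs_P h.starS ha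
  have h2 : CFC.sqrt (CFC.abs a) ∈ Set.centralizer S := sqrt_P h1
  have h3 : CFC.sqrt (CFC.abs a) * CFC.sqrt (CFC.abs a) = CFC.abs a :=
    CFC.sqrt_mul_sqrt_self _ (CFC.abs_nonneg a)
  have h4 : star (CFC.sqrt (CFC.abs a)) = CFC.sqrt (CFC.abs a) :=
    (CFC.sqrt_nonneg _).isSelfAdjoint
  have h5 := h.faith _ h2 (by rw [h4, h3, h0])
  rw [h5, zero_mul] at h3
  exact CFC.abs_eq_zero_iff.1 h3.symm

/-- the trace of a selfadjoint element is real -/
theorem FacTr.im_zero (h : FacTr S τ) {a : H →L[ℂ] H} (ha : a ∈ Set.centralizer S)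
    (hs : star a = a) : (τ a).im = 0 := by
  have h1 := h.nonneg (a + 1) (add_P ha one_P)
  have h2 := h.nonneg (a - 1) (sub_P ha one_P)
  have h3 : (4 : ℂ) • a = star (a + 1) * (a + 1) - star (a - 1) * (a - 1) := by
    rw [star_add, star_sub, hs, star_one]
    have : (a + 1) * (a + 1) - (a - 1) * (a - 1) = a + a + a + a := by noncomm_ring
    rw [this]
    have h4 : (4 : ℂ) • a = (4 : ℕ) • a := by
      rw [← Nat.cast_smul_eq_nsmul ℂ]; norm_num
    rw [h4]
    abel
  have h4 := congrArg τ h3
  rw [map_smul, map_sub, smul_eq_mul] at h4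
  have h5 := congrArg Complex.im h4
  rw [Complex.sub_im, ← (Complex.le_def.1 h1).2, ← (Complex.le_def.1 h2).2] at h5
  simp at h5
  exact h5

/-- dichotomy for a maximal halving graph -/
theorem FacTr.dichotomy (h : FacTr S τ) :
    (∃ e ∈ Set.centralizer S, IsStarProjection e ∧ τ e = 1 / 2) ∨
    ∃ r ∈ Set.centralizer S, IsStarProjection r ∧ r ≠ 0 ∧
      ∀ b ∈ Set.centralizer S, ∀ c ∈ Set.centralizer S, star b = b → star c = c →
        r * b = b → r * c = c → b * c = 0 → b = 0 ∨ c = 0 := by
  have hS := h.starS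
  obtain ⟨G, hG, hc, hmax⟩ := exists_maximal (S := S)
    (R := fun g g' : H × H => ⟪g.1, g'.2⟫_ℂ = 0)
    (isClosed_eq (by fun_prop) (by fun_prop)) (by simp)
  obtain ⟨V, hV, p, hpP, q, hqP, hVV, hVV', hp, hq, hVp, hqV, hg1, hg2, hgV, hpG⟩ :=
    graph_data hS hG hc
  have hpp := hp.isIdempotentElem.eq
  have hqq := hq.isIdempotentElem.eq
  have hps := hp.isSelfAdjoint.star_eq
  have hqs := hq.isSelfAdjoint.star_eq
  have hpV : p * V = 0 := by
    ext w
    apply ext_inner_left ℂ
    intro x
    have h1 : ⟪p x, V w⟫_ℂ = 0 := hG.2.2 _ (hpG x) _ (hpG w)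
    rw [← inner_sa hps] at h1
    simpa using h1
  have hpq : p * q = 0 := by rw [← hVV', ← mul_assoc, hpV, zero_mul]
  have hqp : q * p = 0 := by
    have := congrArg star hpq
    rwa [star_mul, hps, hqs, star_zero] at this
  have hτ : τ p = τ q := by
    rw [← hVV, ← hVV']
    exact h.comm _ (star_P hS hV) _ hV
  set r := 1 - p - q with hrdef
  have hrP : r ∈ Set.centralizer S := sub_P (sub_P one_P hpP) hqP
  have hrs : star r = r := by rw [hrdef, star_sub, star_sub, star_one, hps, hqs]
  have hrr : r * r = r := by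
    have : r * r = 1 - p - q - (p - p * p - p * q) - (q - q * p - q * q) := by
      rw [hrdef]; noncomm_ring
    rw [this, hpp, hpq, hqp, hqq, hrdef]; simp
  by_cases hr0 : r = 0
  · left
    refine ⟨p, hpP, hp, ?_⟩
    have h1 : τ r = 1 - τ p - τ p := by rw [hrdef, map_sub, map_sub, h.one, ← hτ]
    rw [hr0, map_zero] at h1
    linear_combination (1 / 2 : ℂ) * h1
  · right
    refine ⟨r, hrP, ⟨hrr, hrs⟩, hr0, ?_⟩
    intro b hb c hcP hbs hcs hrb hrc hbc
    by_contra hcon
    push Not at hcon
    obtain ⟨hb0, hc0⟩ := hcon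
    obtain ⟨x, hx, hy0⟩ := link hS h.factor hb0 hc0 hcP
    have hyP : b * x * c ∈ Set.centralizer S := mul_P (mul_P hb hx) hcP
    set y := b * x * c with hydef
    have hcr : c * r = c := by
      have := congrArg star hrc
      rwa [star_mul, hrs, hcs] at this
    have hcb : c * b = 0 := by
      have := congrArg star hbc
      rwa [star_mul, hbs, hcs, star_zero] at this
    have hyr : y * r = y := by rw [hydef, mul_assoc, hcr]
    have hry : r * y = y := by rw [hydef, ← mul_assoc, ← mul_assoc, hrb]
    have hyb : y * b = 0 := by rw [hydef, mul_assoc, hcb, mul_zero]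
    have hrabs := abs_absorb hrs hyr
    have hbabs := abs_kill hbs hyb
    have hrabs' : ∀ z, r (CFC.abs y z) = CFC.abs y z := fun z => by
      have := congrArg (fun T : H →L[ℂ] H => T z) hrabs
      exact this
    have hbabs' : ∀ z, b (CFC.abs y z) = 0 := fun z => by
      have := congrArg (fun T : H →L[ℂ] H => T z) hbabs
      simpa using this
    have hry' : ∀ z, r (y z) = y z := fun z => by
      have := congrArg (fun T : H →L[ℂ] H => T z) hry
      exact this
    have hrg1 : ∀ g ∈ G, r g.1 = 0 := by
      intro g hg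
      have h1 := hg1 g hg
      have h2 : q g.1 = 0 := by
        rw [← h1]
        have := congrArg (fun T : H →L[ℂ] H => T g.1) hqp
        simpa using this
      rw [hrdef, sub_apply, sub_apply, h1, h2]
      simp
    have hrg2 : ∀ g ∈ G, r g.2 = 0 := by
      intro g hg
      have h1 := hg2 g hg
      have h2 : p g.2 = 0 := by
        rw [← hgV g hg]
        have := congrArg (fun T : H →L[ℂ] H => T g.1) hpV
        simpa using this
      rw [hrdef, sub_apply, sub_apply, h1, h2]
      simp
    apply hy0
    have e1 : ∀ g ∈ G, ∀ z, ⟪g.1, y z⟫_ℂ = 0 := by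
      intro g hg z
      rw [← hry' z, inner_sa hrs, hrg1 g hg, inner_zero_left]
    have e2 : ∀ g ∈ G, ∀ z, ⟪CFC.abs y z, g.2⟫_ℂ = 0 := by
      intro g hg z
      rw [← hrabs' z, ← inner_sa hrs, hrg2 g hg, inner_zero_right]
    have e3 : ∀ z z', ⟪CFC.abs y z, y z'⟫_ℂ = 0 := by
      intro z z'
      have : y z' = b ((x * c) z') := by rw [hydef, mul_assoc]; rfl
      rw [this, inner_sa hbs, hbabs' z, inner_zero_left]
    apply extend_zero hS hG hmax hyP
    · intro g hg z
      rw [← hrabs' z, inner_sa hrs, hrg1 g hg, inner_zero_left]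
    · intro g hg z
      rw [← hry' z, inner_sa hrs, hrg2 g hg, inner_zero_left]
    · intro g hg z g' hg' z'
      simp only [inner_add_left, inner_add_right]
      rw [e1 g hg, e2 g' hg', e3, hG.2.2 g hg g' hg']
      simp

/-- the corner at a minimal projection is scalar (selfadjoint case) -/
theorem FacTr.corner_sa (h : FacTr S τ) {r : H →L[ℂ] H} (hrP : r ∈ Set.centralizer S)
    (hr : IsStarProjection r) (hr0 : r ≠ 0)
    (hmin : ∀ b ∈ Set.centralizer S, ∀ c ∈ Set.centralizer S, star b = b → star c = c →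
        r * b = b → r * c = c → b * c = 0 → b = 0 ∨ c = 0)
    {a : H →L[ℂ] H} (ha : a ∈ Set.centralizer S) (has : star a = a) (hra : r * a = a) :
    a = (τ a / τ r) • r := by
  have hrr := hr.isIdempotentElem.eq
  have hrs := hr.isSelfAdjoint.star_eq
  have hτr : τ r ≠ 0 := by
    intro h0
    exact hr0 (h.faith r hrP (by rw [hrs, hrr, h0]))
  set A := a - (τ a / τ r) • r with hA
  have hAP : A ∈ Set.centralizer S := sub_P ha (smul_P _ hrP)
  have hτA : τ A = 0 := by
    rw [hA, map_sub, map_smul, smul_eq_mul, div_mul_cancel₀ _ hτr, sub_self]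
  have hreal : star (τ a / τ r) = τ a / τ r := by
    have e1 : star (τ a) = τ a := by
      apply Complex.conj_eq_iff_im.2 (h.im_zero ha has)
    have e2 : star (τ r) = τ r := by
      apply Complex.conj_eq_iff_im.2 (h.im_zero hrP hrs)
    rw [star_div₀, e1, e2]
  have hAs : star A = A := by rw [hA, star_sub, star_smul, has, hrs, hreal]
  have hrA : r * A = A := by rw [hA, mul_sub, hra, mul_smul_comm, hrr]
  have hAr : A * r = A := by
    have := congrArg star hrA
    rwa [star_mul, hrs, hAs] at this
  have hA0 : A = 0 := by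
    apply h.abs_zero hAP
    have habs := abs_P h.starS hAP
    have hrabs := abs_absorb hrs hAr
    have hcomm : Commute (CFC.abs A) A := CFC.commute_abs_self A (IsSelfAdjoint.isStarNormal hAs)
    have hsq : CFC.abs A * CFC.abs A = A * A := by rw [CFC.abs_mul_abs, hAs]
    rcases hmin (CFC.abs A + A) (add_P habs hAP) (CFC.abs A - A) (sub_P habs hAP)
      (by rw [star_add, abs_star_eq, hAs]) (by rw [star_sub, abs_star_eq, hAs])
      (by rw [mul_add, hrabs, hrA]) (by rw [mul_sub, hrabs, hrA])
      (by
        have : (CFC.abs A + A) * (CFC.abs A - A) =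
          CFC.abs A * CFC.abs A - CFC.abs A * A + A * CFC.abs A - A * A := by noncomm_ring
        rw [this, hsq, hcomm.eq]; simp) with h1 | h1
    · have := congrArg τ h1
      rw [map_add, hτA, add_zero, map_zero] at this
      exact this
    · have := congrArg τ h1
      rw [map_sub, hτA, sub_zero, map_zero] at this
      exact this
  exact sub_eq_zero.1 hA0

/-- the corner at a minimal projection is scalar -/
theorem FacTr.corner (h : FacTr S τ) {r : H →L[ℂ] H} (hrP : r ∈ Set.centralizer S)
    (hr : IsStarProjection r) (hr0 : r ≠ 0)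
    (hmin : ∀ b ∈ Set.centralizer S, ∀ c ∈ Set.centralizer S, star b = b → star c = c →
        r * b = b → r * c = c → b * c = 0 → b = 0 ∨ c = 0)
    {a : H →L[ℂ] H} (ha : a ∈ Set.centralizer S) (hra : r * a = a) (har : a * r = a) :
    a = (τ a / τ r) • r := by
  have hrs := hr.isSelfAdjoint.star_eq
  have hsP := star_P h.starS ha
  have hrsa : r * star a = star a := by
    have := congrArg star har
    rwa [star_mul, hrs] at this
  have h1 : a + star a = (τ (a + star a) / τ r) • r := by
    apply h.corner_sa hrP hr hr0 hmin (add_P ha hsP)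
    · rw [star_add, star_star, add_comm]
    · rw [mul_add, hra, hrsa]
  have h2 : Complex.I • (a - star a) = (τ (Complex.I • (a - star a)) / τ r) • r := by
    apply h.corner_sa hrP hr hr0 hmin (smul_P _ (sub_P ha hsP))
    · rw [star_smul, star_sub, star_star]
      have : star Complex.I = -Complex.I := Complex.conj_I
      rw [this, neg_smul, ← smul_neg, neg_sub]
    · rw [mul_smul_comm, mul_sub, hra, hrsa]
  have h3 : a = (1 / 2 : ℂ) • ((a + star a) - Complex.I • (Complex.I • (a - star a))) := by
    rw [smul_smul, Complex.I_mul_I]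
    module
  have h4 : τ a = (1 / 2 : ℂ) * (τ (a + star a) - Complex.I * τ (Complex.I • (a - star a))) := by
    have := congrArg τ h3
    rw [map_smul, map_sub, map_smul] at this
    simpa [smul_eq_mul] using this
  rw [h4]
  conv_lhs => rw [h3, h1, h2]
  module

end Pool.Agent.Helper67.FacTrLib
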