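import Pool.Agent.Helper67.Main

set_option autoImplicit false

/-!
Conclusion of the Dittert argument.
-/

namespace Pool.Agent.Helper67

open Finset Matrix

variable {n : ℕ}

lemma FF_diff {A : Matrix (Fin n) (Fin n) ℝ} (h : Crit A) (i j : Fin n) :
    FF A i - FF A j = RR A * (rs A i - rs A j) / (rs A i * rs A j) := by
  unfold FF
  have h1 := (h.rpos i).ne'
  have h2 := (h.rpos j).ne'
  field_simp
  ring

lemma GG_diff {A : Matrix (Fin n) (Fin n) ℝ} (h : Crit A) (i j : Fin n) :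
    GG A i - GG A j = CC A * (cs A j - cs A i) / (cs A i * cs A j) := by
  unfold GG
  have h1 := (h.cpos i).ne'
  have h2 := (h.cpos j).ne'
  field_simp
  ring

lemma Srt.hyp {A : Matrix (Fin n) (Fin n) ℝ} (h : Srt A) (hn : 2 ≤ n) (f : Fct A)
    (hZ1 : ZZ A ≤ 1) (t : ℕ) (ht : t + 1 < n) (hl : 0 < lam A (t + 1)) :
    ((t : ℝ) + 1) * (n - (t + 1)) *
      (FF A ⟨t, by omega⟩ - FF A ⟨t + 1, ht⟩ + (GG A ⟨t, by omega⟩ - GG A ⟨t + 1, ht⟩))
      ≤ Srt.TT A t ht * lam A (t + 1) := by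
  refine h.star t ht f.P0 ?_ ?_ hl
  · have h1 := gam_sq_le n hn
    have h2 : A.permanent * (n : ℝ) ^ 2 ≤ gam n * (n : ℝ) ^ 2 :=
      mul_le_mul_of_nonneg_right f.Ple (by positivity)
    linarith
  · exact (lamIJ_le A h.total _ _).trans hZ1

/-- Large case. -/
lemma big_case (hn : 4 ≤ n) {A : Matrix (Fin n) (Fin n) ℝ} (h : Srt A) (f : Fct A) : IsDS A := by
  by_contra hnds
  have hlam := h.lam_pos hnds
  have hZsq := h.ZZ_sq
  have hn0 : 0 < n := by omega
  have hkap : ZZ A ≤ 1 ∧ (1 + ZZ A / n) ^ n < 2 * (1 - gam n) := by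
    rcases Nat.eq_or_lt_of_le hn with h4 | h5
    · subst h4
      have := kappa_four (ZZ A) _ (ZZ_nonneg A) f.RCge (by exact_mod_cast hZsq)
      exact_mod_cast this
    · exact kappa_five n h5 (ZZ A) _ (ZZ_nonneg A) f.RCge hZsq
  obtain ⟨hZ1, hK⟩ := hkap
  set K := (1 + ZZ A / n) ^ n with hKdef
  have hKpos : 0 < K := by
    have := ZZ_nonneg A
    rw [hKdef]; positivity
  -- choose the best cut
  set ρ : ℕ → ℝ := fun t => lam A (t + 1) / (((t : ℝ) + 1) * (n - (t + 1))) with hρ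
  obtain ⟨t, htmem, htmax⟩ := Finset.exists_max_image (Finset.range (n - 1)) ρ
    ⟨0, Finset.mem_range.mpr (by omega)⟩
  have ht : t + 1 < n := by have := Finset.mem_range.mp htmem; omega
  set μ := ρ t with hμ
  have hW : ∀ s : ℕ, s + 1 < n → 0 < ((s : ℝ) + 1) * (n - (s + 1)) := by
    intro s hs
    have : (s : ℝ) + 1 + 1 ≤ n := by exact_mod_cast hs
    have h0 : (0 : ℝ) ≤ s := Nat.cast_nonneg s
    apply mul_pos <;> linarith
  have hle : ∀ s : ℕ, s + 1 < n → lam A (s + 1) ≤ μ * (((s : ℝ) + 1) * (n - (s + 1))) := by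
    intro s hs
    have h1 := htmax s (Finset.mem_range.mpr (by omega))
    rw [hρ] at h1
    simp only at h1
    rw [div_le_iff₀ (hW s hs)] at h1
    exact h1
  have heq : lam A (t + 1) = μ * (((t : ℝ) + 1) * (n - (t + 1))) := by
    rw [hμ, hρ]
    simp only
    rw [div_mul_cancel₀ _ (hW t ht).ne']
  have hl1 : lam A t ≤ μ * ((t : ℝ) * (n - t)) := by
    rcases Nat.eq_zero_or_pos t with h0 | h0
    · rw [h0, lam_zero]; simp
    · obtain ⟨s, rfl⟩ := Nat.exists_eq_succ_of_ne_zero h0.ne'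
      have := hle s (by omega)
      push_cast at this ⊢
      exact this
  have hl2 : lam A (t + 2) ≤ μ * (((t : ℝ) + 2) * (n - (t + 2))) := by
    rcases Nat.eq_or_lt_of_le (show t + 2 ≤ n by omega) with h0 | h0
    · rw [h0, lam_self A h.total]
      have : (n : ℝ) = t + 2 := by rw [← h0]; push_cast; ring
      rw [this]; simp
    · have := hle (t + 1) h0
      push_cast at this
      have e : (t : ℝ) + 1 + 1 = t + 2 := by ring
      rw [e] at this
      exact this
  have hpos := hlam (t + 1) (by omega) ht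
  have hs1 := lam_succ A (show t < n by omega)
  have hs2 := lam_succ A ht
  set i0 : Fin n := ⟨t, by omega⟩ with hi0
  set i1 : Fin n := ⟨t + 1, ht⟩ with hi1
  set δ := rs A i0 - rs A i1 with hδ
  set ε := cs A i1 - cs A i0 with hε
  have hδ0 : 0 ≤ δ := by
    have := h.ranti (show i0 ≤ i1 by rw [Fin.le_def, hi0, hi1]; simp)
    linarith
  have hε0 : 0 ≤ ε := by
    have := h.cmono (show i0 ≤ i1 by rw [Fin.le_def, hi0, hi1]; simp)
    linarith
  have hde : δ + ε = 2 * lam A (t + 1) - lam A t - lam A (t + 2) := by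
    have : lam A (t + 1 + 1) = lam A (t + 2) := rfl
    rw [← this, hs2, hs1, hδ, hε]
    ring
  have hde2 : 2 * μ ≤ δ + ε := by
    rw [hde, heq]
    nlinarith
  have hWt := hW t ht
  set W := ((t : ℝ) + 1) * (n - (t + 1)) with hWdef
  have hμpos : 0 < μ := by
    by_contra hcon
    push Not at hcon
    have : μ * W ≤ 0 := mul_nonpos_of_nonpos_of_nonneg hcon hWt.le
    linarith
  have hstar := h.hyp (by omega) f hZ1 t ht hpos
  rw [FF_diff h.toCrit, GG_diff h.toCrit] at hstar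
  have hrow := h.TT_row t ht
  have hcol := h.TT_col t ht
  rw [← hKdef] at hrow hcol
  have hT := Srt.one_le_TT A t ht
  set T := Srt.TT A t ht
  have hr0 := h.rpos i0
  have hr1 := h.rpos i1
  have hc0 := h.cpos i0
  have hc1 := h.cpos i1
  -- lower bounds
  have hRR : K < 2 * RR A := by linarith [f.Rge]
  have hCC : K < 2 * CC A := by linarith [f.Cge]
  have g1 : T * δ / 2 ≤ RR A * δ / (rs A i0 * rs A i1) := by
    rw [le_div_iff₀ (mul_pos hr0 hr1)]
    have e1 : T * δ / 2 * (rs A i0 * rs A i1) = (T * (rs A i0 * rs A i1)) * (δ / 2) := by ring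
    rw [e1]
    have e2 : (T * (rs A i0 * rs A i1)) * (δ / 2) ≤ K * (δ / 2) :=
      mul_le_mul_of_nonneg_right hrow (by linarith)
    nlinarith
  have g2 : T * ε / 2 ≤ CC A * ε / (cs A i0 * cs A i1) := by
    rw [le_div_iff₀ (mul_pos hc0 hc1)]
    have e1 : T * ε / 2 * (cs A i0 * cs A i1) = (T * (cs A i0 * cs A i1)) * (ε / 2) := by ring
    rw [e1]
    have e2 : (T * (cs A i0 * cs A i1)) * (ε / 2) ≤ K * (ε / 2) :=
      mul_le_mul_of_nonneg_right hcol (by linarith)
    nlinarith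
  have g1' : 0 < δ → T * δ / 2 < RR A * δ / (rs A i0 * rs A i1) := by
    intro hd
    rw [lt_div_iff₀ (mul_pos hr0 hr1)]
    have e1 : T * δ / 2 * (rs A i0 * rs A i1) = (T * (rs A i0 * rs A i1)) * (δ / 2) := by ring
    rw [e1]
    have e2 : (T * (rs A i0 * rs A i1)) * (δ / 2) ≤ K * (δ / 2) :=
      mul_le_mul_of_nonneg_right hrow (by linarith)
    nlinarith
  have g2' : 0 < ε → T * ε / 2 < CC A * ε / (cs A i0 * cs A i1) := by
    intro hd
    rw [lt_div_iff₀ (mul_pos hc0 hc1)]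
    have e1 : T * ε / 2 * (cs A i0 * cs A i1) = (T * (cs A i0 * cs A i1)) * (ε / 2) := by ring
    rw [e1]
    have e2 : (T * (cs A i0 * cs A i1)) * (ε / 2) ≤ K * (ε / 2) :=
      mul_le_mul_of_nonneg_right hcol (by linarith)
    nlinarith
  have g3 : T * (δ + ε) / 2 <
      RR A * δ / (rs A i0 * rs A i1) + CC A * ε / (cs A i0 * cs A i1) := by
    have hpos2 : 0 < δ + ε := by linarith
    rcases hδ0.lt_or_eq with hd | hd
    · have := g1' hd
      linarith
    · have : 0 < ε := by linarith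
      have := g2' this
      linarith
  have g4 : W * (T * (δ + ε) / 2) < T * lam A (t + 1) :=
    lt_of_lt_of_le (mul_lt_mul_of_pos_left g3 hWt) hstar
  have g5 : T * lam A (t + 1) ≤ W * (T * (δ + ε) / 2) := by
    rw [heq]
    have : T * (μ * W) = W * (T * (2 * μ) / 2) := by ring
    rw [this]
    refine mul_le_mul_of_nonneg_left ?_ hWt.le
    have := mul_le_mul_of_nonneg_left hde2 (show (0:ℝ) ≤ T by linarith)
    linarith
  linarith

/-- Case three. -/
lemma three_case {A : Matrix (Fin 3) (Fin 3) ℝ} (h : Srt A) (f : Fct A) : IsDS A := by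
  by_contra hnds
  have hlam := h.lam_pos hnds
  have hZ1 : ZZ A ≤ 1 := Z_bound_three (ZZ A) _ f.RCge (by exact_mod_cast h.ZZ_sq)
  have l1 := hlam 1 (by norm_num) (by norm_num)
  have l2 := hlam 2 (by norm_num) (by norm_num)
  have s1 := h.hyp (by norm_num) f hZ1 0 (by norm_num) l1
  have s2 := h.hyp (by norm_num) f hZ1 1 (by norm_num) l2
  have t1 : Srt.TT A 0 (by norm_num) = max 1 (cs A 2) := by
    unfold Srt.TT
    have e1 : (lo 3 (0 + 1)).erase ⟨0, by omega⟩ = ∅ := by decide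
    have e2 : (hi 3 (0 + 1)).erase ⟨0 + 1, by omega⟩ = {2} := by decide
    rw [e1, e2]; simp
  have t2 : Srt.TT A 1 (by norm_num) = max 1 (rs A 0) := by
    unfold Srt.TT
    have e1 : (lo 3 (1 + 1)).erase ⟨1, by omega⟩ = {0} := by decide
    have e2 : (hi 3 (1 + 1)).erase ⟨1 + 1, by omega⟩ = ∅ := by decide
    rw [e1, e2]; simp
  rw [t1] at s1
  rw [t2] at s2
  have hR : RR A = rs A 0 * rs A 1 * rs A 2 := by unfold RR; rw [Fin.prod_univ_three]
  have hC : CC A = cs A 0 * cs A 1 * cs A 2 := by unfold CC; rw [Fin.prod_univ_three]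
  have hrsum := sum_rs A h.total
  have hcsum := sum_cs A h.total
  rw [Fin.sum_univ_three] at hrsum hcsum
  have r0 := h.rpos 0
  have r1 := h.rpos 1
  have r2 := h.rpos 2
  have c0 := h.cpos 0
  have c1 := h.cpos 1
  have c2 := h.cpos 2
  have r01 := h.ranti (show (0 : Fin 3) ≤ 1 by decide)
  have r12 := h.ranti (show (1 : Fin 3) ≤ 2 by decide)
  have c01 := h.cmono (show (0 : Fin 3) ≤ 1 by decide)
  have c12 := h.cmono (show (1 : Fin 3) ≤ 2 by decide)
  have la1 := lam_succ A (show 0 < 3 by norm_num)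
  have la2 := lam_succ A (show 1 < 3 by norm_num)
  rw [lam_zero] at la1
  have hF0 : FF A 0 = RR A - rs A 1 * rs A 2 := by
    unfold FF; rw [hR]; field_simp
  have hF2 : FF A 2 = RR A - rs A 0 * rs A 1 := by
    unfold FF; rw [hR]; field_simp
  have hG0 : GG A 0 = cs A 1 * cs A 2 - CC A := by
    unfold GG; rw [hC]; field_simp
  have hG2 : GG A 2 = cs A 0 * cs A 1 - CC A := by
    unfold GG; rw [hC]; field_simp
  have hg3 : gam 3 = 2 / 9 := by norm_num [gam, Nat.factorial]
  have hRC := f.RCP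
  have hP0 := f.P0
  rw [hg3, hR, hC] at hRC
  push_cast at hrsum hcsum
  have x0 : (⟨0, by omega⟩ : Fin 3) = 0 := rfl
  have x1 : (⟨0 + 1, by omega⟩ : Fin 3) = 1 := rfl
  have x2 : (⟨1 + 1, by omega⟩ : Fin 3) = 2 := rfl
  have x3 : (⟨1, by omega⟩ : Fin 3) = 1 := rfl
  rw [x0] at la1
  rw [x3] at la2
  simp only [x0, x1, x2, Nat.cast_zero, Nat.cast_one, Nat.cast_ofNat, zero_add] at s1 s2
  have la1' : lam A 1 = rs A 0 - cs A 0 := by
    have : lam A (0 + 1) = lam A 1 := rfl
    rw [← this, la1]; ring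
  have la2' : lam A 2 = lam A 1 + (rs A 1 - cs A 1) := la2
  have y1 : (1 : ℝ) + 1 = 2 := by norm_num
  rw [max_eq_right (by linarith)] at s1 s2
  set p := rs A 0 - 1 with hp
  set q := 1 - rs A 2 with hq
  set u := 1 - cs A 0 with hu
  set v := cs A 2 - 1 with hv
  have er0 : rs A 0 = 1 + p := by rw [hp]; ring
  have er2 : rs A 2 = 1 - q := by rw [hq]; ring
  have er1 : rs A 1 = 1 + q - p := by rw [hp, hq]; linarith
  have ec0 : cs A 0 = 1 - u := by rw [hu]; ring
  have ec2 : cs A 2 = 1 + v := by rw [hv]; ring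
  have ec1 : cs A 1 = 1 + u - v := by rw [hu, hv]; linarith
  rw [la1'] at s1 l1
  rw [la2', la1'] at s2 l2
  rw [er0, er1, er2, ec0, ec1, ec2] at hRC
  rw [hG0, hG2] at *
  rw [hF0, hF2] at *
  have key := three_num p q u v (by linarith) (by linarith) (by linarith) (by linarith)
    (by linarith) (by linarith) (by nlinarith) (by linarith)
  simp only [er0, er1, er2, ec0, ec1, ec2] at s1 s2
  linarith

end Pool.Agent.Helper67
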