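import Pool.Agent.Helper67.AF2

set_option autoImplicit false

/-!
First order conditions for maximisers of the Dittert functional.
-/

namespace Pool.Agent.Helper67

open Finset Matrix

section Minor

variable {n : ℕ}

/-- The permanental minor of `A` at row `k`, column `j`. -/
noncomputable def mn (A : Matrix (Fin n) (Fin n) ℝ) (k j : Fin n) : ℝ :=
  ∑ σ : Equiv.Perm (Fin n), if σ j = k then ∏ i ∈ Finset.univ.erase j, A (σ i) i else 0

lemma permanent_updateCol_eq (A : Matrix (Fin n) (Fin n) ℝ) (j : Fin n) (u : Fin n → ℝ) :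
    (A.updateCol j u).permanent = ∑ k, u k * mn A k j := by
  simp only [mn, Finset.mul_sum]
  rw [Finset.sum_comm]
  simp only [Matrix.permanent]
  refine Finset.sum_congr rfl fun σ _ => ?_
  rw [← Finset.mul_prod_erase _ _ (Finset.mem_univ j), Matrix.updateCol_self,
    Finset.sum_eq_single (σ j)]
  · rw [if_pos rfl]
    congr 1
    refine Finset.prod_congr rfl fun i hi => ?_
    rw [Matrix.updateCol_ne (Finset.ne_of_mem_erase hi)]
  · intro b _ hb
    rw [if_neg (Ne.symm hb), mul_zero]
  · intro h; exact absurd (Finset.mem_univ _) h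

lemma mn_transpose (A : Matrix (Fin n) (Fin n) ℝ) (k j : Fin n) : mn A.transpose j k = mn A k j := by
  unfold mn
  rw [← Equiv.sum_comp (Equiv.inv (Equiv.Perm (Fin n)))]
  refine Finset.sum_congr rfl fun σ _ => ?_
  simp only [Equiv.inv_apply, Matrix.transpose_apply]
  by_cases h : σ j = k
  · rw [if_pos h, if_pos (by rw [← h]; simp)]
    refine Finset.prod_bij (fun i _ => σ⁻¹ i) ?_ ?_ ?_ ?_
    · intro i hi
      refine Finset.mem_erase.mpr ⟨?_, Finset.mem_univ _⟩
      intro h2
      apply Finset.ne_of_mem_erase hi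
      rw [← h, ← h2]; simp
    · intro a _ b _ hab
      exact σ⁻¹.injective hab
    · intro b hb
      refine ⟨σ b, Finset.mem_erase.mpr ⟨?_, Finset.mem_univ _⟩, by simp⟩
      intro h2
      apply Finset.ne_of_mem_erase hb
      rw [← h] at h2
      exact σ.injective h2
    · intro i _
      simp
  · rw [if_neg h, if_neg]
    intro h2
    apply h
    rw [← h2]; simp

lemma permanent_updateRow_eq (A : Matrix (Fin n) (Fin n) ℝ) (k : Fin n) (u : Fin n → ℝ) :
    (A.updateRow k u).permanent = ∑ j, u j * mn A k j := by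
  rw [← Matrix.permanent_transpose, ← Matrix.updateCol_transpose, permanent_updateCol_eq]
  simp only [mn_transpose]

lemma sum_row_mn (A : Matrix (Fin n) (Fin n) ℝ) (k : Fin n) :
    ∑ j, A k j * mn A k j = A.permanent := by
  rw [← permanent_updateRow_eq, Matrix.updateRow_eq_self]

lemma sum_col_mn (A : Matrix (Fin n) (Fin n) ℝ) (j : Fin n) :
    ∑ k, A k j * mn A k j = A.permanent := by
  have h := permanent_updateCol_eq A j (fun k => A k j)
  rw [← h]
  congr 1
  ext a b
  by_cases hb : b = j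
  · subst hb; simp
  · rw [Matrix.updateCol_ne hb]

lemma mn_nonneg (A : Matrix (Fin n) (Fin n) ℝ) (hA : ∀ i j, 0 ≤ A i j) (k j : Fin n) :
    0 ≤ mn A k j := by
  unfold mn
  refine Finset.sum_nonneg fun σ _ => ?_
  split_ifs
  · exact Finset.prod_nonneg fun i _ => hA _ _
  · exact le_refl _

lemma permanent_nonneg (A : Matrix (Fin n) (Fin n) ℝ) (hA : ∀ i j, 0 ≤ A i j) :
    0 ≤ A.permanent := by
  unfold Matrix.permanent
  exact Finset.sum_nonneg fun σ _ => Finset.prod_nonneg fun i _ => hA _ _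

end Minor

section Phi

variable {n : ℕ}

/-- Dittert's functional. -/
noncomputable def phi (A : Matrix (Fin n) (Fin n) ℝ) : ℝ :=
  (∏ i, ∑ j, A i j) + (∏ j, ∑ i, A i j) - A.permanent

/-- Maximisers of the Dittert functional on the simplex. -/
structure IsMaxi (A : Matrix (Fin n) (Fin n) ℝ) : Prop where
  nonneg : ∀ i j, 0 ≤ A i j
  total : (∑ i, ∑ j, A i j) = (n : ℝ)
  max : ∀ B : Matrix (Fin n) (Fin n) ℝ, (∀ i j, 0 ≤ B i j) → (∑ i, ∑ j, B i j) = (n : ℝ) →
    phi B ≤ phi A

lemma phi_smul (c : ℝ) (A : Matrix (Fin n) (Fin n) ℝ) : phi (c • A) = c ^ n * phi A := by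
  unfold phi
  rw [Matrix.permanent_smul]
  simp only [Matrix.smul_apply, smul_eq_mul, ← Finset.mul_sum, Finset.prod_mul_distrib,
    Finset.prod_const, Finset.card_univ, Fintype.card_fin]
  ring

lemma phi_transpose (A : Matrix (Fin n) (Fin n) ℝ) : phi A.transpose = phi A := by
  unfold phi
  rw [Matrix.permanent_transpose]
  simp only [Matrix.transpose_apply]
  ring

/-- Adding `t` to a single entry. -/
noncomputable def addE (A : Matrix (Fin n) (Fin n) ℝ) (k j : Fin n) (t : ℝ) :
    Matrix (Fin n) (Fin n) ℝ := A.updateRow k (A k + t • Pi.single j 1)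

lemma addE_apply (A : Matrix (Fin n) (Fin n) ℝ) (k j : Fin n) (t : ℝ) (a b : Fin n) :
    addE A k j t a b = A a b + if a = k ∧ b = j then t else 0 := by
  unfold addE
  by_cases ha : a = k
  · subst ha
    rw [Matrix.updateRow_self]
    by_cases hb : b = j
    · subst hb; simp
    · simp [hb]
  · rw [Matrix.updateRow_ne ha]
    simp [ha]

lemma addE_permanent (A : Matrix (Fin n) (Fin n) ℝ) (k j : Fin n) (t : ℝ) :
    (addE A k j t).permanent = A.permanent + t * mn A k j := by
  unfold addE
  rw [permanent_updateRow_eq]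
  simp only [Pi.add_apply, Pi.smul_apply, smul_eq_mul, add_mul, Finset.sum_add_distrib]
  rw [sum_row_mn]
  congr 1
  rw [Finset.sum_eq_single j]
  · simp
  · intro b _ hb
    simp [Pi.single_eq_of_ne hb]
  · intro h; exact absurd (Finset.mem_univ _) h

lemma addE_rowsum (A : Matrix (Fin n) (Fin n) ℝ) (k j : Fin n) (t : ℝ) (i : Fin n) :
    ∑ j', addE A k j t i j' = (∑ j', A i j') + if i = k then t else 0 := by
  simp only [addE_apply, Finset.sum_add_distrib]
  congr 1
  by_cases h : i = k
  · simp [h]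
  · simp [h]

lemma addE_colsum (A : Matrix (Fin n) (Fin n) ℝ) (k j : Fin n) (t : ℝ) (j' : Fin n) :
    ∑ i, addE A k j t i j' = (∑ i, A i j') + if j' = j then t else 0 := by
  simp only [addE_apply, Finset.sum_add_distrib]
  congr 1
  by_cases h : j' = j
  · simp [h]
  · simp [h]

lemma prod_add_single (r : Fin n → ℝ) (k : Fin n) (t : ℝ) :
    ∏ i, (r i + if i = k then t else 0) = ∏ i, r i + t * ∏ i ∈ Finset.univ.erase k, r i := by
  rw [← Finset.mul_prod_erase _ _ (Finset.mem_univ k),
    ← Finset.mul_prod_erase Finset.univ r (Finset.mem_univ k)]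
  rw [if_pos rfl, add_mul]
  have : ∏ i ∈ Finset.univ.erase k, (r i + if i = k then t else 0)
      = ∏ i ∈ Finset.univ.erase k, r i := by
    refine Finset.prod_congr rfl fun i hi => ?_
    rw [if_neg (Finset.ne_of_mem_erase hi), add_zero]
  rw [this]

/-- First order variation of `phi` in one entry. -/
noncomputable def dphi (A : Matrix (Fin n) (Fin n) ℝ) (k j : Fin n) : ℝ :=
  (∏ i ∈ Finset.univ.erase k, ∑ j', A i j') + (∏ j' ∈ Finset.univ.erase j, ∑ i, A i j') - mn A k j

lemma addE_phi (A : Matrix (Fin n) (Fin n) ℝ) (k j : Fin n) (t : ℝ) :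
    phi (addE A k j t) = phi A + t * dphi A k j := by
  unfold phi dphi
  rw [addE_permanent]
  simp only [addE_rowsum, addE_colsum]
  rw [prod_add_single (fun i => ∑ j', A i j'), prod_add_single (fun j' => ∑ i, A i j')]
  ring

lemma addE_total (A : Matrix (Fin n) (Fin n) ℝ) (k j : Fin n) (t : ℝ) :
    ∑ i, ∑ j', addE A k j t i j' = (∑ i, ∑ j', A i j') + t := by
  simp only [addE_rowsum, Finset.sum_add_distrib]
  congr 1
  simp

lemma lim_aux (a b δ : ℝ) (ha : 0 ≤ a) (hδ : 0 < δ)
    (h : ∀ t : ℝ, 0 < t → t < δ → b - a ≤ a * t) : b ≤ a := by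
  by_contra hcon
  push Not at hcon
  set t := min (δ / 2) ((b - a) / (2 * (a + 1))) with ht
  have h1 : 0 < (b - a) / (2 * (a + 1)) := by
    apply div_pos <;> linarith
  have h2 : 0 < t := lt_min (by linarith) h1
  have h3 : t < δ := lt_of_le_of_lt (min_le_left _ _) (by linarith)
  have h4 := h t h2 h3
  have h5 : a * t ≤ a * ((b - a) / (2 * (a + 1))) :=
    mul_le_mul_of_nonneg_left (min_le_right _ _) ha
  have h6 : a * ((b - a) / (2 * (a + 1))) < b - a := by
    rw [mul_div_assoc', div_lt_iff₀ (by linarith)]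
    nlinarith
  linarith

/-- Key comparison for one-entry perturbations. -/
lemma IsMaxi.perturb {A : Matrix (Fin n) (Fin n) ℝ} (h : IsMaxi A) (hn : 0 < n) (k j : Fin n)
    (t : ℝ) (ht : 0 ≤ A k j + t) (ht1 : |t| ≤ 1) (htn : -(n : ℝ) < t) :
    t * (dphi A k j - phi A) ≤ phi A * t ^ 2 ∨ phi A < 0 := by
  by_cases hphi : phi A < 0
  · exact Or.inr hphi
  left
  push Not at hphi
  have hn' : (0 : ℝ) < n := by exact_mod_cast hn
  set B := addE A k j t with hB
  have hBnn : ∀ a b, 0 ≤ B a b := by
    intro a b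
    rw [hB, addE_apply]
    split_ifs with hab
    · rw [hab.1, hab.2]; exact ht
    · rw [add_zero]; exact h.nonneg a b
  have hBt : ∑ i, ∑ j', B i j' = n + t := by rw [hB, addE_total, h.total]
  have hpos : 0 < (n : ℝ) + t := by linarith
  set c : ℝ := n / (n + t) with hc
  have hcpos : 0 < c := div_pos hn' hpos
  have h1 := h.max (c • B) (fun a b => mul_nonneg hcpos.le (hBnn a b)) (by
    simp only [Matrix.smul_apply, smul_eq_mul, ← Finset.mul_sum]
    rw [hBt, hc]; field_simp)
  rw [phi_smul, hB, addE_phi] at h1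
  -- c^n * (phi A + t d) ≤ phi A
  have h2 : phi A + t * dphi A k j ≤ phi A * ((n + t) / n) ^ n := by
    have h3 : ((n + t) / n : ℝ) ^ n * (c ^ n * (phi A + t * dphi A k j))
        ≤ ((n + t) / n : ℝ) ^ n * phi A :=
      mul_le_mul_of_nonneg_left h1 (by positivity)
    have h4 : ((n + t) / n : ℝ) ^ n * c ^ n = 1 := by
      rw [← mul_pow, hc]
      have : ((n + t) / n * (n / (n + t)) : ℝ) = 1 := by field_simp
      rw [this, one_pow]
    rw [← mul_assoc, h4, one_mul] at h3
    linarith
  have h5 : ((n + t) / n : ℝ) ^ n ≤ 1 + t + t ^ 2 := by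
    have e1 : ((n + t) / n : ℝ) ≤ Real.exp (t / n) := by
      have := Real.add_one_le_exp (t / n)
      have h6 : ((n + t) / n : ℝ) = t / n + 1 := by field_simp; ring
      rw [h6]; exact this
    have e2 : ((n + t) / n : ℝ) ^ n ≤ Real.exp (t / n) ^ n :=
      pow_le_pow_left₀ (by positivity) e1 n
    have e3 : Real.exp (t / n) ^ n = Real.exp t := by
      rw [← Real.exp_nat_mul]; congr 1; field_simp
    have e4 := Real.abs_exp_sub_one_sub_id_le ht1
    rw [e3] at e2
    have := (abs_le.mp e4).2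
    linarith
  have h7 : phi A * ((n + t) / n : ℝ) ^ n ≤ phi A * (1 + t + t ^ 2) :=
    mul_le_mul_of_nonneg_left h5 hphi
  nlinarith

lemma IsMaxi.dphi_le {A : Matrix (Fin n) (Fin n) ℝ} (h : IsMaxi A) (hn : 0 < n)
    (hphi : 0 ≤ phi A) (k j : Fin n) : dphi A k j ≤ phi A := by
  refine lim_aux _ _ 1 hphi one_pos fun t ht0 ht1 => ?_
  rcases h.perturb hn k j t (by linarith [h.nonneg k j]) (by rw [abs_of_pos ht0]; linarith)
    (by have : (0:ℝ) ≤ n := Nat.cast_nonneg n
        linarith) with h1 | h1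
  · have : t * (dphi A k j - phi A) ≤ t * (phi A * t) := by linarith [h1, sq t]
    exact le_of_mul_le_mul_left this ht0
  · linarith

lemma IsMaxi.dphi_eq {A : Matrix (Fin n) (Fin n) ℝ} (h : IsMaxi A) (hn : 0 < n)
    (hphi : 0 ≤ phi A) (k j : Fin n) (hkj : 0 < A k j) : dphi A k j = phi A := by
  refine le_antisymm (h.dphi_le hn hphi k j) ?_
  have hn' : (1 : ℝ) ≤ n := by exact_mod_cast hn
  by_contra hcon
  push Not at hcon
  -- use negative t
  have key : ∀ t : ℝ, 0 < t → t < min 1 (A k j) → phi A - dphi A k j ≤ phi A * t := by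
    intro t ht0 ht1
    have ht2 : t < 1 := lt_of_lt_of_le ht1 (min_le_left _ _)
    have ht3 : t < A k j := lt_of_lt_of_le ht1 (min_le_right _ _)
    rcases h.perturb hn k j (-t) (by linarith) (by rw [abs_neg, abs_of_pos ht0]; linarith)
      (by linarith) with h1 | h1
    · have : t * (phi A - dphi A k j) ≤ t * (phi A * t) := by nlinarith
      exact le_of_mul_le_mul_left this ht0
    · linarith
  have hmin : 0 < min 1 (A k j) := lt_min one_pos hkj
  set D := phi A - dphi A k j with hD
  have hDpos : 0 < D := by linarith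
  set t := min (min 1 (A k j) / 2) (D / (2 * (phi A + 1))) with ht
  have h1 : 0 < D / (2 * (phi A + 1)) := by
    apply div_pos <;> linarith
  have h2 : 0 < t := lt_min (by linarith) h1
  have h3 : t < min 1 (A k j) := lt_of_le_of_lt (min_le_left _ _) (by linarith)
  have h4 := key t h2 h3
  have h5 : phi A * t ≤ phi A * (D / (2 * (phi A + 1))) :=
    mul_le_mul_of_nonneg_left (min_le_right _ _) hphi
  have h6 : phi A * (D / (2 * (phi A + 1))) < D := by
    rw [mul_div_assoc', div_lt_iff₀ (by linarith)]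
    nlinarith
  linarith

end Phi

end Pool.Agent.Helper67
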