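import Mathlib
import Pool.Agent.Helper47.MA.Defs

set_option autoImplicit false

noncomputable section

namespace Pool.Agent.Helper67.MA

open Set Pool.Agent.Helper47.MA
open ContinuousLinearMap (fst snd)

/-- The covector with given components. -/
abbrev cov (a b : ℝ) : ℝ × ℝ →L[ℝ] ℝ := a • fst ℝ ℝ ℝ + b • snd ℝ ℝ ℝ

theorem slice2 {f : ℝ × ℝ → ℝ} {a b x t : ℝ} (h : HasFDerivAt f (cov a b) (x, t)) :
    HasDerivAt (fun s => f (x, s)) b t := by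
  have h1 : HasDerivAt (fun s : ℝ => ((x, s) : ℝ × ℝ)) (0, 1) t :=
    (hasDerivAt_const t x).prodMk (hasDerivAt_id t)
  have h2 := HasFDerivAt.comp_hasDerivAt t (f := fun s : ℝ => ((x, s) : ℝ × ℝ)) h h1
  have h3 : cov a b (0, 1) = b := by simp [cov]
  rw [h3] at h2
  exact h2

theorem slice1 {f : ℝ × ℝ → ℝ} {a b x t : ℝ} (h : HasFDerivAt f (cov a b) (x, t)) :
    HasDerivAt (fun s => f (s, t)) a x := by
  have h1 : HasDerivAt (fun s : ℝ => ((s, t) : ℝ × ℝ)) (1, 0) x :=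
    (hasDerivAt_id x).prodMk (hasDerivAt_const x t)
  have h2 := HasFDerivAt.comp_hasDerivAt x (f := fun s : ℝ => ((s, t) : ℝ × ℝ)) h h1
  have h3 : cov a b (1, 0) = a := by simp [cov]
  rw [h3] at h2
  exact h2

theorem mvt {g g' : ℝ → ℝ} {a b : ℝ} (hab : a ≤ b) (h : ∀ s ∈ Icc a b, HasDerivAt g (g' s) s) :
    ∃ c ∈ Icc a b, g b - g a = g' c * (b - a) := by
  rcases hab.eq_or_lt with rfl | hlt
  · exact ⟨a, ⟨le_rfl, le_rfl⟩, by ring⟩
  · obtain ⟨c, hc, hc'⟩ := exists_hasDerivAt_eq_slope g g' hlt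
      (fun s hs => (h s hs).continuousAt.continuousWithinAt)
      (fun s hs => h s (Ioo_subset_Icc_self hs))
    refine ⟨c, Ioo_subset_Icc_self hc, ?_⟩
    rw [hc']
    have : b - a ≠ 0 := (sub_pos.2 hlt).ne'
    field_simp

theorem mvt_abs {g g' : ℝ → ℝ} {a b K : ℝ} (h : ∀ s ∈ uIcc a b, HasDerivAt g (g' s) s)
    (hK : ∀ s ∈ uIcc a b, |g' s| ≤ K) : |g b - g a| ≤ K * |b - a| := by
  rcases le_total a b with hab | hab
  · rw [uIcc_of_le hab] at h hK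
    obtain ⟨c, hc, hc'⟩ := mvt hab h
    rw [hc', abs_mul]
    exact mul_le_mul_of_nonneg_right (hK c hc) (abs_nonneg _)
  · rw [uIcc_of_ge hab] at h hK
    obtain ⟨c, hc, hc'⟩ := mvt hab h
    rw [abs_sub_comm, hc', abs_mul, abs_sub_comm b a]
    exact mul_le_mul_of_nonneg_right (hK c hc) (abs_nonneg _)

/-- The domain. -/
def DD (V : ℝ) : Set (ℝ × ℝ) := Ioo (-3) 3 ×ˢ Ioo (-V) V

/-- The data after taking two derivatives. -/
structure Dat (V : ℝ) (k : ℝ → ℝ → ℝ) (v P T A B C : ℝ × ℝ → ℝ) : Prop where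
  hV : 100000 ≤ V
  hv : ∀ z ∈ DD V, HasFDerivAt v (cov (P z) (T z)) z
  hP : ∀ z ∈ DD V, HasFDerivAt P (cov (A z) (B z)) z
  hT : ∀ z ∈ DD V, HasFDerivAt T (cov (B z) (C z)) z
  cB : ContinuousOn B (DD V)
  cC : ContinuousOn C (DD V)
  hC : ∀ z ∈ DD V, |C z - 1| ≤ 1 / 1000
  hB : ∀ z ∈ DD V, |B z| ≤ V / 1000
  hMA : ∀ z ∈ DD V, A z * C z - (B z) ^ 2 = k z.1 z.2

section

variable {V : ℝ} {k : ℝ → ℝ → ℝ} {v P T A B C : ℝ × ℝ → ℝ}

theorem mem_DD {x t : ℝ} (hx : x ∈ Ioo (-3 : ℝ) 3) (ht : t ∈ Ioo (-V) V) : (x, t) ∈ DD V :=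
  ⟨hx, ht⟩

theorem Dat.T_mono (D : Dat V k v P T A B C) {x t t' : ℝ} (hx : x ∈ Ioo (-3 : ℝ) 3)
    (ht : t ∈ Ioo (-V) V) (ht' : t' ∈ Ioo (-V) V) (hle : t ≤ t') :
    999 / 1000 * (t' - t) ≤ T (x, t') - T (x, t) ∧
      T (x, t') - T (x, t) ≤ 1001 / 1000 * (t' - t) := by
  have hmem : ∀ s ∈ Icc t t', (x, s) ∈ DD V := fun s hs =>
    mem_DD hx ⟨lt_of_lt_of_le ht.1 hs.1, lt_of_le_of_lt hs.2 ht'.2⟩
  obtain ⟨c, hc, hc'⟩ := mvt (g := fun s => T (x, s)) (g' := fun s => C (x, s)) hle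
    (fun s hs => slice2 (D.hT _ (hmem s hs)))
  have h1 := abs_le.1 (D.hC _ (hmem c hc))
  rw [hc']
  have h2 : 0 ≤ t' - t := sub_nonneg.2 hle
  constructor <;> nlinarith [h1.1, h1.2]

theorem Dat.T_abs (D : Dat V k v P T A B C) {x t t' : ℝ} (hx : x ∈ Ioo (-3 : ℝ) 3)
    (ht : t ∈ Ioo (-V) V) (ht' : t' ∈ Ioo (-V) V) :
    999 / 1000 * |t' - t| ≤ |T (x, t') - T (x, t)| := by
  rcases le_total t t' with h | h
  · have := (D.T_mono hx ht ht' h).1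
    rw [abs_of_nonneg (sub_nonneg.2 h)]
    exact this.trans (le_abs_self _)
  · have := (D.T_mono hx ht' ht h).1
    rw [abs_sub_comm t', abs_sub_comm (T _), abs_of_nonneg (sub_nonneg.2 h)]
    exact this.trans (le_abs_self _)

theorem Dat.T_x (D : Dat V k v P T A B C) {x x' t : ℝ} (hx : x ∈ Ioo (-3 : ℝ) 3)
    (hx' : x' ∈ Ioo (-3 : ℝ) 3) (ht : t ∈ Ioo (-V) V) :
    |T (x', t) - T (x, t)| ≤ V / 1000 * |x' - x| := by
  have hmem : ∀ s ∈ uIcc x x', (s, t) ∈ DD V := fun s hs =>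
    mem_DD (OrdConnected.uIcc_subset ordConnected_Ioo hx hx' hs) ht
  exact mvt_abs (g := fun s => T (s, t)) (g' := fun s => B (s, t))
    (fun s hs => slice1 (D.hT _ (hmem s hs))) (fun s hs => D.hB _ (hmem s hs))

theorem Dat.T_inj (D : Dat V k v P T A B C) {x t t' : ℝ} (hx : x ∈ Ioo (-3 : ℝ) 3)
    (ht : t ∈ Ioo (-V) V) (ht' : t' ∈ Ioo (-V) V) (h : T (x, t') = T (x, t)) : t' = t := by
  have h1 := D.T_abs hx ht ht'
  rw [h, sub_self, abs_zero] at h1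
  have h2 : |t' - t| ≤ 0 := by linarith
  have h3 := abs_nonpos_iff.1 h2
  linarith

theorem Dat.T_cont (D : Dat V k v P T A B C) {x : ℝ} (hx : x ∈ Ioo (-3 : ℝ) 3) :
    ContinuousOn (fun t => T (x, t)) (Ioo (-V) V) := fun t ht =>
  (slice2 (D.hT _ (mem_DD hx ht))).continuousAt.continuousWithinAt

theorem sub3 {x : ℝ} (hx : x ∈ Ioo (-9 / 4 : ℝ) (9 / 4)) : x ∈ Ioo (-3 : ℝ) 3 :=
  ⟨by linarith [hx.1], by linarith [hx.2]⟩

theorem Dat.exists_near (D : Dat V k v P T A B C) {x t0 : ℝ}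
    (hx : x ∈ Ioo (-9 / 4 : ℝ) (9 / 4)) (ht : t0 ∈ Ioo (-(6 / 10 * V)) (6 / 10 * V)) :
    ∃ t ∈ Ioo (-V) V, T (x, t) = T (0, t0) ∧ |t - t0| ≤ 3 / 1000 * V := by
  have hV := D.hV
  have hx3 := sub3 hx
  have h0 : (0 : ℝ) ∈ Ioo (-3 : ℝ) 3 := ⟨by norm_num, by norm_num⟩
  have ht0 : t0 ∈ Ioo (-V) V := ⟨by linarith [ht.1], by linarith [ht.2]⟩
  have hm : t0 - 3 / 1000 * V ∈ Ioo (-V) V := ⟨by linarith [ht.1], by linarith [ht.2]⟩
  have hp : t0 + 3 / 1000 * V ∈ Ioo (-V) V := ⟨by linarith [ht.1], by linarith [ht.2]⟩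
  have h1 := abs_le.1 (D.T_x h0 hx3 ht0)
  have h1' : |x - 0| ≤ 9 / 4 := by rw [sub_zero, abs_le]; constructor <;> linarith [hx.1, hx.2]
  have h2 : V / 1000 * |x - 0| ≤ V / 1000 * (9 / 4) :=
    mul_le_mul_of_nonneg_left h1' (by positivity)
  have h3 := (D.T_mono hx3 hm ht0 (by linarith)).1
  have h4 := (D.T_mono hx3 ht0 hp (by linarith)).1
  have hsub : Icc (t0 - 3 / 1000 * V) (t0 + 3 / 1000 * V) ⊆ Ioo (-V) V := fun s hs =>
    ⟨lt_of_lt_of_le hm.1 hs.1, lt_of_le_of_lt hs.2 hp.2⟩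
  have hivt := intermediate_value_Icc (by linarith : t0 - 3 / 1000 * V ≤ t0 + 3 / 1000 * V)
    ((D.T_cont hx3).mono hsub)
  have hmem : T (0, t0) ∈ Icc (T (x, t0 - 3 / 1000 * V)) (T (x, t0 + 3 / 1000 * V)) := by
    constructor <;> linarith [h1.1, h1.2]
  obtain ⟨t, ht, hTt⟩ := hivt hmem
  refine ⟨t, hsub ht, hTt, ?_⟩
  rw [abs_le]
  constructor <;> linarith [ht.1, ht.2]

/-- The lower end of the interval of values. -/
def qm (V : ℝ) (T : ℝ × ℝ → ℝ) : ℝ := T (0, -(6 / 10 * V))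
/-- The upper end of the interval of values. -/
def qp (V : ℝ) (T : ℝ × ℝ → ℝ) : ℝ := T (0, 6 / 10 * V)

/-- The domain of the inverse. -/
def GG (V : ℝ) (T : ℝ × ℝ → ℝ) : Set (ℝ × ℝ) := Ioo (-9 / 4) (9 / 4) ×ˢ Ioo (qm V T) (qp V T)

theorem isOpen_GG : IsOpen (GG V T) := isOpen_Ioo.prod isOpen_Ioo

theorem Dat.exists_t0 (D : Dat V k v P T A B C) {q : ℝ} (hq : q ∈ Ioo (qm V T) (qp V T)) :
    ∃ t0 ∈ Ioo (-(6 / 10 * V)) (6 / 10 * V), T (0, t0) = q := by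
  have hV := D.hV
  have h0 : (0 : ℝ) ∈ Ioo (-3 : ℝ) 3 := ⟨by norm_num, by norm_num⟩
  have hsub : Icc (-(6 / 10 * V)) (6 / 10 * V) ⊆ Ioo (-V) V := fun s hs =>
    ⟨by linarith [hs.1], by linarith [hs.2]⟩
  obtain ⟨t, ht, hTt⟩ := intermediate_value_Ioo (by linarith : -(6 / 10 * V) ≤ 6 / 10 * V)
    ((D.T_cont h0).mono hsub) hq
  exact ⟨t, ht, hTt⟩

theorem Dat.exists_Y (D : Dat V k v P T A B C) : ∃ Y : ℝ × ℝ → ℝ, ∀ z ∈ GG V T,
    Y z ∈ Ioo (-V) V ∧ T (z.1, Y z) = z.2 := by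
  have h : ∀ z : ℝ × ℝ, ∃ y : ℝ, z ∈ GG V T → y ∈ Ioo (-V) V ∧ T (z.1, y) = z.2 := by
    intro z
    by_cases hz : z ∈ GG V T
    · obtain ⟨t0, ht0, hq⟩ := D.exists_t0 hz.2
      obtain ⟨t, ht, hT, -⟩ := D.exists_near hz.1 ht0
      exact ⟨t, fun _ => ⟨ht, by rw [hT, hq]⟩⟩
    · exact ⟨0, fun h => absurd h hz⟩
  choose Y hY using h
  exact ⟨Y, fun z hz => hY z hz⟩

variable {Y : ℝ × ℝ → ℝ}

/-- The property of the inverse. -/
def IsInv (V : ℝ) (T Y : ℝ × ℝ → ℝ) : Prop :=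
  ∀ z ∈ GG V T, Y z ∈ Ioo (-V) V ∧ T (z.1, Y z) = z.2

theorem IsInv.mem (hY : IsInv V T Y) {z : ℝ × ℝ} (hz : z ∈ GG V T) : (z.1, Y z) ∈ DD V :=
  mem_DD (sub3 hz.1) (hY z hz).1

theorem Dat.near (D : Dat V k v P T A B C) (hY : IsInv V T Y) {x t0 : ℝ}
    (hx : x ∈ Ioo (-9 / 4 : ℝ) (9 / 4)) (ht : t0 ∈ Ioo (-(6 / 10 * V)) (6 / 10 * V)) :
    |Y (x, T (0, t0)) - t0| ≤ 3 / 1000 * V := by
  have hV := D.hV
  have h0 : (0 : ℝ) ∈ Ioo (-3 : ℝ) 3 := ⟨by norm_num, by norm_num⟩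
  obtain ⟨t, ht', hT, hn⟩ := D.exists_near hx ht
  have ht0 : t0 ∈ Ioo (-V) V := ⟨by linarith [ht.1], by linarith [ht.2]⟩
  have hm : -(6 / 10 * V) ∈ Ioo (-V) V := ⟨by linarith, by linarith⟩
  have hp : 6 / 10 * V ∈ Ioo (-V) V := ⟨by linarith, by linarith⟩
  have h1 := (D.T_mono h0 hm ht0 ht.1.le).1
  have h2 := (D.T_mono h0 ht0 hp ht.2.le).1
  have hz : (x, T (0, t0)) ∈ GG V T := by
    refine ⟨hx, ?_, ?_⟩
    · simp only [qm]; linarith [ht.1]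
    · simp only [qp]; linarith [ht.2]
  have h3 := hY _ hz
  have h4 : Y (x, T (0, t0)) = t := D.T_inj (sub3 hx) ht' h3.1 (by rw [hT]; exact h3.2)
  rw [h4]
  exact hn

theorem Dat.lip (D : Dat V k v P T A B C) (hY : IsInv V T Y) {z w : ℝ × ℝ} (hz : z ∈ GG V T)
    (hw : w ∈ GG V T) : |Y z - Y w| ≤ 2 * (|z.2 - w.2| + V / 1000 * |z.1 - w.1|) := by
  have h1 := D.T_abs (sub3 hz.1) (hY w hw).1 (hY z hz).1
  have h2 := D.T_x (sub3 hw.1) (sub3 hz.1) (hY w hw).1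
  rw [(hY w hw).2] at h2
  rw [(hY z hz).2] at h1
  have h3 : |z.2 - T (z.1, Y w)| ≤ |z.2 - w.2| + |T (z.1, Y w) - w.2| := by
    have := abs_sub_le z.2 w.2 (T (z.1, Y w))
    rwa [abs_sub_comm w.2] at this
  have h4 := abs_nonneg (Y z - Y w)
  have h5 := abs_nonneg (z.2 - w.2)
  have h6 : 0 ≤ V / 1000 * |z.1 - w.1| := by
    have := D.hV
    positivity
  linarith

theorem Dat.continuousAt_Y (D : Dat V k v P T A B C) (hY : IsInv V T Y) {z : ℝ × ℝ}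
    (hz : z ∈ GG V T) : ContinuousAt Y z := by
  have hV := D.hV
  have hK : (0 : ℝ) ≤ 2 * (1 + V / 1000) := by positivity
  have hlip : LipschitzOnWith (Real.toNNReal (2 * (1 + V / 1000))) Y (GG V T) := by
    apply LipschitzOnWith.of_dist_le_mul
    intro a ha b hb
    rw [Real.coe_toNNReal _ hK, Real.dist_eq]
    have h1 := D.lip hY ha hb
    have h2 : |a.1 - b.1| ≤ dist a b := by
      rw [← Real.dist_eq]; exact le_max_left _ _
    have h3 : |a.2 - b.2| ≤ dist a b := by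
      rw [← Real.dist_eq]; exact le_max_right _ _
    have h4 : V / 1000 * |a.1 - b.1| ≤ V / 1000 * dist a b :=
      mul_le_mul_of_nonneg_left h2 (by positivity)
    nlinarith
  exact (hlip.continuousOn z hz).continuousAt (isOpen_GG.mem_nhds hz)

/-- A shear as a continuous linear equivalence. -/
def shear (b c : ℝ) (hc : c ≠ 0) : (ℝ × ℝ) ≃L[ℝ] (ℝ × ℝ) :=
  ContinuousLinearEquiv.equivOfInverse ((fst ℝ ℝ ℝ).prod (cov b c))
    ((fst ℝ ℝ ℝ).prod (cov (-(b / c)) (1 / c)))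
    (by
      rintro ⟨x, t⟩
      simp [cov]
      field_simp
      ring)
    (by
      rintro ⟨x, t⟩
      simp [cov]
      field_simp
      ring)

theorem Dat.C_pos (D : Dat V k v P T A B C) {z : ℝ × ℝ} (hz : z ∈ DD V) : 999 / 1000 ≤ C z := by
  have := abs_le.1 (D.hC z hz)
  linarith [this.1]

theorem Dat.hasFDerivAt_g (D : Dat V k v P T A B C) (hY : IsInv V T Y) {z : ℝ × ℝ}
    (hz : z ∈ GG V T) : HasFDerivAt (fun w : ℝ × ℝ => (w.1, Y w))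
      ((fst ℝ ℝ ℝ).prod (cov (-(B (z.1, Y z) / C (z.1, Y z))) (1 / C (z.1, Y z)))) z := by
  have hc : C (z.1, Y z) ≠ 0 := by
    have := D.C_pos (hY.mem hz)
    intro h
    rw [h] at this
    norm_num at this
  have h1 : HasFDerivAt (fun w : ℝ × ℝ => (w.1, T w))
      ((shear (B (z.1, Y z)) (C (z.1, Y z)) hc : (ℝ × ℝ) ≃L[ℝ] (ℝ × ℝ)) :
        (ℝ × ℝ) →L[ℝ] (ℝ × ℝ)) (z.1, Y z) :=
    (hasFDerivAt_fst (p := ((z.1, Y z) : ℝ × ℝ))).prodMk (D.hT _ (hY.mem hz))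
  have hcont : ContinuousAt (fun w : ℝ × ℝ => (w.1, Y w)) z :=
    continuousAt_fst.prodMk (D.continuousAt_Y hY hz)
  have h2 := HasFDerivAt.of_local_left_inverse (f := fun w : ℝ × ℝ => (w.1, T w))
    (g := fun w : ℝ × ℝ => (w.1, Y w)) (a := z) hcont h1 (by
      filter_upwards [isOpen_GG.mem_nhds hz] with w hw
      exact Prod.ext rfl (hY w hw).2)
  exact h2

/-- The derivative of `Y` in `x`. -/
def Yx (B C Y : ℝ × ℝ → ℝ) (z : ℝ × ℝ) : ℝ := -(B (z.1, Y z) / C (z.1, Y z))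
/-- The derivative of `Y` in `q`. -/
def Yq (C Y : ℝ × ℝ → ℝ) (z : ℝ × ℝ) : ℝ := 1 / C (z.1, Y z)

theorem Dat.hasFDerivAt_Y (D : Dat V k v P T A B C) (hY : IsInv V T Y) {z : ℝ × ℝ}
    (hz : z ∈ GG V T) : HasFDerivAt Y (cov (Yx B C Y z) (Yq C Y z)) z := by
  have h := (hasFDerivAt_snd (𝕜 := ℝ) (p := ((z.1, Y z) : ℝ × ℝ))).comp z (D.hasFDerivAt_g hY hz)
  exact h

theorem Dat.hasFDerivAt_p (D : Dat V k v P T A B C) (hY : IsInv V T Y) {z : ℝ × ℝ}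
    (hz : z ∈ GG V T) : HasFDerivAt (fun w => P (w.1, Y w))
      (cov (k z.1 (Y z) * Yq C Y z) (-(Yx B C Y z))) z := by
  have hc : C (z.1, Y z) ≠ 0 := by
    have := D.C_pos (hY.mem hz)
    intro h
    rw [h] at this
    norm_num at this
  have h := HasFDerivAt.comp z (f := fun w : ℝ × ℝ => (w.1, Y w)) (D.hP _ (hY.mem hz))
    (D.hasFDerivAt_g hY hz)
  refine h.congr_fderiv ?_
  have hMA := D.hMA _ (hY.mem hz)
  simp only at hMA
  ext
  · simp [cov, Yq, ← hMA]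
    field_simp
    ring
  · simp [cov, Yx]
    field_simp

theorem Dat.hasFDerivAt_ψ (D : Dat V k v P T A B C) (hY : IsInv V T Y) {z : ℝ × ℝ}
    (hz : z ∈ GG V T) : HasFDerivAt (fun w => w.2 * Y w - v (w.1, Y w))
      (cov (-(P (z.1, Y z))) (Y z)) z := by
  have hc : C (z.1, Y z) ≠ 0 := by
    have := D.C_pos (hY.mem hz)
    intro h
    rw [h] at this
    norm_num at this
  have h1 := HasFDerivAt.comp z (f := fun w : ℝ × ℝ => (w.1, Y w)) (D.hv _ (hY.mem hz))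
    (D.hasFDerivAt_g hY hz)
  have h2 := (hasFDerivAt_snd (𝕜 := ℝ) (p := z)).mul (D.hasFDerivAt_Y hY hz)
  refine (h2.sub h1).congr_fderiv ?_
  have hT := (hY z hz).2
  ext
  · simp [cov, Yx, Yq, hT]
  · simp [cov, Yx, Yq, hT]

theorem Dat.bq (D : Dat V k v P T A B C) (hY : IsInv V T Y) {z : ℝ × ℝ} (hz : z ∈ GG V T) :
    |Yq C Y z - 1| ≤ 11 / 10000 := by
  have h1 := abs_le.1 (D.hC _ (hY.mem hz))
  have h2 := D.C_pos (hY.mem hz)
  have hpos : 0 < C (z.1, Y z) := by linarith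
  have h3 : Yq C Y z - 1 = (1 - C (z.1, Y z)) / C (z.1, Y z) := by
    rw [Yq]; field_simp
  rw [h3, abs_div, abs_of_pos hpos, div_le_iff₀ hpos, abs_sub_comm]
  have h4 := D.hC _ (hY.mem hz)
  nlinarith

theorem Dat.bx (D : Dat V k v P T A B C) (hY : IsInv V T Y) {z : ℝ × ℝ} (hz : z ∈ GG V T) :
    |Yx B C Y z| ≤ 11 / 10000 * V := by
  have h2 := D.C_pos (hY.mem hz)
  have hpos : 0 < C (z.1, Y z) := by linarith
  have hV := D.hV
  rw [Yx, abs_neg, abs_div, abs_of_pos hpos, div_le_iff₀ hpos]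
  have h4 := D.hB _ (hY.mem hz)
  nlinarith

theorem Dat.cont_g (D : Dat V k v P T A B C) (hY : IsInv V T Y) :
    ContinuousOn (fun w : ℝ × ℝ => (w.1, Y w)) (GG V T) := fun _ hz =>
  (D.hasFDerivAt_g hY hz).continuousAt.continuousWithinAt

theorem Dat.cont_Yx (D : Dat V k v P T A B C) (hY : IsInv V T Y) :
    ContinuousOn (Yx B C Y) (GG V T) := by
  have hmaps : MapsTo (fun w : ℝ × ℝ => (w.1, Y w)) (GG V T) (DD V) := fun z hz => hY.mem hz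
  apply ContinuousOn.neg
  apply ContinuousOn.div (D.cB.comp (D.cont_g hY) hmaps) (D.cC.comp (D.cont_g hY) hmaps)
  intro z hz h
  have := D.C_pos (hY.mem hz)
  simp only [Function.comp] at h
  rw [h] at this
  norm_num at this

theorem Dat.cont_Yq (D : Dat V k v P T A B C) (hY : IsInv V T Y) :
    ContinuousOn (Yq C Y) (GG V T) := by
  have hmaps : MapsTo (fun w : ℝ × ℝ => (w.1, Y w)) (GG V T) (DD V) := fun z hz => hY.mem hz
  apply ContinuousOn.div continuousOn_const (D.cC.comp (D.cont_g hY) hmaps)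
  intro z hz h
  have := D.C_pos (hY.mem hz)
  simp only [Function.comp] at h
  rw [h] at this
  norm_num at this

theorem sub94 {x : ℝ} (hx : x ∈ Icc (-2 : ℝ) 2) : x ∈ Ioo (-9 / 4 : ℝ) (9 / 4) :=
  ⟨by linarith [hx.1], by linarith [hx.2]⟩

/-- The midpoint of the chord. -/
def C0 (Y : ℝ × ℝ → ℝ) (q : ℝ) : ℝ := (Y (2, q) + Y (-2, q)) / 2
/-- The slope of the chord. -/
def S0 (Y : ℝ × ℝ → ℝ) (q : ℝ) : ℝ := (Y (2, q) - Y (-2, q)) / 4

theorem Dat.error_bound (D : Dat V k v P T A B C) (hY : IsInv V T Y) {x q : ℝ}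
    (hx : x ∈ Ioo (-9 / 4 : ℝ) (9 / 4)) (hq : q ∈ Ioo (qm V T) (qp V T))
    (hq' : q + 100 ∈ Ioo (qm V T) (qp V T)) :
    |(((q + 100) * Y (x, q + 100) - v (x, Y (x, q + 100))) - (q * Y (x, q) - v (x, Y (x, q)))) -
      100 * Y (x, q) - 5000| ≤ 11 := by
  have hmem : ∀ s ∈ Icc (0 : ℝ) 100, (x, q + s) ∈ GG V T := fun s hs =>
    ⟨hx, by simp only; linarith [hq.1, hs.1], by simp only; linarith [hq'.2, hs.2]⟩
  have hYd : ∀ s ∈ Icc (0 : ℝ) 100, HasDerivAt (fun s => Y (x, q + s)) (Yq C Y (x, q + s)) s := by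
    intro s hs
    have h1 := slice2 (D.hasFDerivAt_Y hY (hmem s hs))
    have h2 : HasDerivAt (fun s : ℝ => q + s) 1 s := by
      simpa using (hasDerivAt_id s).const_add q
    have h3 := h1.comp s h2
    rw [mul_one] at h3
    exact h3
  have hψd : ∀ s ∈ Icc (0 : ℝ) 100, HasDerivAt (fun s => (q + s) * Y (x, q + s) -
      v (x, Y (x, q + s))) (Y (x, q + s)) s := by
    intro s hs
    have h1 := slice2 (D.hasFDerivAt_ψ hY (hmem s hs))
    have h2 : HasDerivAt (fun s : ℝ => q + s) 1 s := by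
      simpa using (hasDerivAt_id s).const_add q
    have h3 := h1.comp s h2
    rw [mul_one] at h3
    exact h3
  have hYb : ∀ s ∈ Icc (0 : ℝ) 100, |Y (x, q + s) - Y (x, q) - s| ≤ 11 / 100 := by
    intro s hs
    have hd : ∀ r ∈ uIcc (0 : ℝ) s, HasDerivAt (fun r => Y (x, q + r) - r)
        (Yq C Y (x, q + r) - 1) r := by
      intro r hr
      rw [uIcc_of_le hs.1] at hr
      exact (hYd r ⟨hr.1, hr.2.trans hs.2⟩).sub (hasDerivAt_id r)
    have h1 := mvt_abs hd (K := 11 / 10000) (fun r hr => by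
      rw [uIcc_of_le hs.1] at hr
      exact D.bq hY (hmem r ⟨hr.1, hr.2.trans hs.2⟩))
    simp only [add_zero, sub_zero] at h1
    rw [abs_of_nonneg hs.1] at h1
    have h2 : Y (x, q + s) - Y (x, q) - s = Y (x, q + s) - s - Y (x, q) := by ring
    rw [h2]
    have h3 := hs.2
    linarith
  have hd : ∀ s ∈ uIcc (0 : ℝ) 100, HasDerivAt (fun s => ((q + s) * Y (x, q + s) -
      v (x, Y (x, q + s))) - s * Y (x, q) - s ^ 2 / 2) (Y (x, q + s) - Y (x, q) - s) s := by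
    intro s hs
    rw [uIcc_of_le (by norm_num)] at hs
    have h1 : HasDerivAt (fun s : ℝ => s * Y (x, q)) (Y (x, q)) s := by
      simpa using (hasDerivAt_id s).mul_const (Y (x, q))
    have h2 : HasDerivAt (fun s : ℝ => s ^ 2 / 2) s s := by
      have := ((hasDerivAt_id s).pow 2).div_const 2
      simpa using this
    exact ((hψd s hs).sub h1).sub h2
  have h1 := mvt_abs hd (K := 11 / 100) (fun s hs => by
    rw [uIcc_of_le (by norm_num)] at hs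
    exact hYb s hs)
  have h2 : ((q + 100) * Y (x, q + 100) - v (x, Y (x, q + 100)) - 100 * Y (x, q) - 100 ^ 2 / 2) -
      ((q + 0) * Y (x, q + 0) - v (x, Y (x, q + 0)) - 0 * Y (x, q) - 0 ^ 2 / 2) =
      (((q + 100) * Y (x, q + 100) - v (x, Y (x, q + 100))) -
        (q * Y (x, q) - v (x, Y (x, q)))) - 100 * Y (x, q) - 5000 := by
    rw [add_zero]; ring
  rw [h2] at h1
  refine h1.trans ?_
  rw [sub_zero, abs_of_pos (by norm_num : (0 : ℝ) < 100)]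
  norm_num

theorem Dat.chord (D : Dat V k v P T A B C) (hk : ∀ x ∈ Ioo (-3 : ℝ) 3, ∀ t, |k x t| ≤ 2)
    (hY : IsInv V T Y) {x q : ℝ} (hx : x ∈ Icc (-2 : ℝ) 2) (hq : q ∈ Ioo (qm V T) (qp V T))
    (hq' : q + 100 ∈ Ioo (qm V T) (qp V T)) :
    |Y (x, q) - (C0 Y q + S0 Y q * x)| ≤ 1 := by
  let F : ℝ → ℝ := fun x => (((q + 100) * Y (x, q + 100) - v (x, Y (x, q + 100))) -
    (q * Y (x, q) - v (x, Y (x, q))))
  let F1 : ℝ → ℝ := fun x => -(P (x, Y (x, q + 100))) - -(P (x, Y (x, q)))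
  let F2 : ℝ → ℝ := fun x => -(k x (Y (x, q + 100)) * Yq C Y (x, q + 100)) -
    -(k x (Y (x, q)) * Yq C Y (x, q))
  have hg : ∀ y ∈ Icc (-2 : ℝ) 2, (y, q) ∈ GG V T := fun y hy => ⟨sub94 hy, hq⟩
  have hg' : ∀ y ∈ Icc (-2 : ℝ) 2, (y, q + 100) ∈ GG V T := fun y hy => ⟨sub94 hy, hq'⟩
  have hF : ∀ y ∈ Icc (-2 : ℝ) 2, HasDerivAt F (F1 y) y := fun y hy =>
    (slice1 (D.hasFDerivAt_ψ hY (hg' y hy))).sub (slice1 (D.hasFDerivAt_ψ hY (hg y hy)))
  have hF1 : ∀ y ∈ Icc (-2 : ℝ) 2, HasDerivAt F1 (F2 y) y := fun y hy =>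
    (slice1 (D.hasFDerivAt_p hY (hg' y hy))).neg.sub (slice1 (D.hasFDerivAt_p hY (hg y hy))).neg
  have hkY : ∀ z ∈ GG V T, |k z.1 (Y z) * Yq C Y z| ≤ 2005 / 1000 := by
    intro z hz
    rw [abs_mul]
    have h1 := hk z.1 (sub3 hz.1) (Y z)
    have h2 : |Yq C Y z| ≤ 10011 / 10000 := by
      have := abs_le.1 (D.bq hY hz)
      rw [abs_le]
      constructor <;> linarith [this.1, this.2]
    calc |k z.1 (Y z)| * |Yq C Y z| ≤ 2 * (10011 / 10000) :=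
          mul_le_mul h1 h2 (abs_nonneg _) (by norm_num)
      _ ≤ _ := by norm_num
  have hF2 : ∀ y ∈ Icc (-2 : ℝ) 2, |F2 y| ≤ 401 / 100 := by
    intro y hy
    have h1 := abs_le.1 (hkY _ (hg y hy))
    have h2 := abs_le.1 (hkY _ (hg' y hy))
    simp only at h1 h2
    simp only [F2]
    rw [abs_le]
    constructor <;> linarith [h1.1, h1.2, h2.1, h2.2]
  have h0 : (0 : ℝ) ∈ Icc (-2 : ℝ) 2 := ⟨by norm_num, by norm_num⟩
  have hu : ∀ y ∈ Icc (-2 : ℝ) 2, uIcc 0 y ⊆ Icc (-2 : ℝ) 2 := fun y hy =>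
    OrdConnected.uIcc_subset ordConnected_Icc h0 hy
  have habs : ∀ y ∈ Icc (-2 : ℝ) 2, |y - 0| ≤ 2 := fun y hy => by
    rw [sub_zero, abs_le]; exact hy
  have hF1b : ∀ y ∈ Icc (-2 : ℝ) 2, |F1 y - F1 0| ≤ 802 / 100 := by
    intro y hy
    have h1 := mvt_abs (fun s hs => hF1 s (hu y hy hs)) (fun s hs => hF2 s (hu y hy hs))
    have h2 := habs y hy
    linarith
  -- the affine approximation
  let r : ℝ → ℝ := fun y => F y - F1 0 * y - F 0
  have hr : ∀ y ∈ Icc (-2 : ℝ) 2, |r y| ≤ 1604 / 100 := by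
    intro y hy
    have hd : ∀ s ∈ uIcc 0 y, HasDerivAt (fun s => F s - F1 0 * s) (F1 s - F1 0) s := by
      intro s hs
      have h1 : HasDerivAt (fun s : ℝ => F1 0 * s) (F1 0) s := by
        simpa using (hasDerivAt_id s).const_mul (F1 0)
      exact (hF s (hu y hy hs)).sub h1
    have h1 := mvt_abs hd (fun s hs => hF1b s (hu y hy hs))
    have h2 := habs y hy
    simp only [mul_zero, sub_zero] at h1
    rw [sub_zero] at h2
    have h3 : r y = F y - F1 0 * y - F 0 := rfl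
    rw [h3]
    linarith
  have hE := fun y (hy : y ∈ Icc (-2 : ℝ) 2) => D.error_bound hY (sub94 hy) hq hq'
  have h2m : (2 : ℝ) ∈ Icc (-2 : ℝ) 2 := ⟨by norm_num, by norm_num⟩
  have h2m' : (-2 : ℝ) ∈ Icc (-2 : ℝ) 2 := ⟨by norm_num, by norm_num⟩
  have e1 := abs_le.1 (hE x hx)
  have e2 := abs_le.1 (hE 2 h2m)
  have e3 := abs_le.1 (hE (-2) h2m')
  have r1 := abs_le.1 (hr x hx)
  have r2 := abs_le.1 (hr 2 h2m)
  have r3 := abs_le.1 (hr (-2) h2m')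
  change -11 ≤ F x - 100 * Y (x, q) - 5000 ∧ F x - 100 * Y (x, q) - 5000 ≤ 11 at e1
  change -11 ≤ F 2 - 100 * Y (2, q) - 5000 ∧ F 2 - 100 * Y (2, q) - 5000 ≤ 11 at e2
  change -11 ≤ F (-2) - 100 * Y (-2, q) - 5000 ∧ F (-2) - 100 * Y (-2, q) - 5000 ≤ 11 at e3
  simp only [r] at r1 r2 r3
  -- combine
  have hx1 : 0 ≤ 1 / 2 + x / 4 := by linarith [hx.1]
  have hx2 : 0 ≤ 1 / 2 - x / 4 := by linarith [hx.2]
  have key : 100 * (Y (x, q) - (C0 Y q + S0 Y q * x)) =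
      (F x - F1 0 * x - F 0) - (F x - 100 * Y (x, q) - 5000) -
      (1 / 2 + x / 4) * ((F 2 - F1 0 * 2 - F 0) - (F 2 - 100 * Y (2, q) - 5000)) -
      (1 / 2 - x / 4) * ((F (-2) - F1 0 * (-2) - F 0) - (F (-2) - 100 * Y (-2, q) - 5000)) := by
    simp only [C0, S0]
    ring
  generalize F x - F1 0 * x - F 0 = a1 at *
  generalize F x - 100 * Y (x, q) - 5000 = b1 at *
  generalize F 2 - F1 0 * 2 - F 0 = a2 at *
  generalize F 2 - 100 * Y (2, q) - 5000 = b2 at *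
  generalize F (-2) - F1 0 * (-2) - F 0 = a3 at *
  generalize F (-2) - 100 * Y (-2, q) - 5000 = b3 at *
  have m1 : (1 / 2 + x / 4) * (a2 - b2) ≤ (1 / 2 + x / 4) * 28 :=
    mul_le_mul_of_nonneg_left (by linarith) hx1
  have m2 : (1 / 2 + x / 4) * (-28) ≤ (1 / 2 + x / 4) * (a2 - b2) :=
    mul_le_mul_of_nonneg_left (by linarith) hx1
  have m3 : (1 / 2 - x / 4) * (a3 - b3) ≤ (1 / 2 - x / 4) * 28 :=
    mul_le_mul_of_nonneg_left (by linarith) hx2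
  have m4 : (1 / 2 - x / 4) * (-28) ≤ (1 / 2 - x / 4) * (a3 - b3) :=
    mul_le_mul_of_nonneg_left (by linarith) hx2
  rw [abs_le]
  constructor <;> linarith

theorem mem2 {q : ℝ} (hq : q ∈ Ioo (qm V T) (qp V T)) : ((2 : ℝ), q) ∈ GG V T :=
  ⟨⟨by norm_num, by norm_num⟩, hq⟩

theorem mem2' {q : ℝ} (hq : q ∈ Ioo (qm V T) (qp V T)) : ((-2 : ℝ), q) ∈ GG V T :=
  ⟨⟨by norm_num, by norm_num⟩, hq⟩

theorem Dat.hasDerivAt_C0 (D : Dat V k v P T A B C) (hY : IsInv V T Y) {q : ℝ}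
    (hq : q ∈ Ioo (qm V T) (qp V T)) :
    HasDerivAt (C0 Y) ((Yq C Y (2, q) + Yq C Y (-2, q)) / 2) q :=
  ((slice2 (D.hasFDerivAt_Y hY (mem2 hq))).add (slice2 (D.hasFDerivAt_Y hY (mem2' hq)))).div_const 2

theorem Dat.hasDerivAt_S0 (D : Dat V k v P T A B C) (hY : IsInv V T Y) {q : ℝ}
    (hq : q ∈ Ioo (qm V T) (qp V T)) :
    HasDerivAt (S0 Y) ((Yq C Y (2, q) - Yq C Y (-2, q)) / 4) q :=
  ((slice2 (D.hasFDerivAt_Y hY (mem2 hq))).sub (slice2 (D.hasFDerivAt_Y hY (mem2' hq)))).div_const 4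

set_option maxHeartbeats 2000000 in
theorem Dat.matching (D : Dat V k v P T A B C) (hk : ∀ x ∈ Ioo (-3 : ℝ) 3, ∀ t, |k x t| ≤ 2)
    {h : ℝ} (hh : 1000 ≤ h) (hV : 100 * h ≤ V) (hY : IsInv V T Y) :
    ∃ (qc : ℝ) (i : ℤ), qc - 13 / 10 * h ∈ Ioo (qm V T) (qp V T) ∧
      qc + 13 / 10 * h ∈ Ioo (qm V T) (qp V T) ∧ |2 * h * i| ≤ V + h ∧
      ∀ x ∈ Icc (-2 : ℝ) 2, |Y (x, qc) - 2 * h * i * (1 + x / 200)| ≤ 2 / 100 * h := by
  have h0 : (0 : ℝ) ∈ Ioo (-3 : ℝ) 3 := ⟨by norm_num, by norm_num⟩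
  have hVpos : 100000 ≤ V := D.hV
  have m1 : -(6 / 10 * V) ∈ Ioo (-V) V := ⟨by linarith, by linarith⟩
  have m2 : 6 / 10 * V ∈ Ioo (-V) V := ⟨by linarith, by linarith⟩
  have m3 : -(V / 2) ∈ Ioo (-V) V := ⟨by linarith, by linarith⟩
  have m4 : V / 2 ∈ Ioo (-V) V := ⟨by linarith, by linarith⟩
  have g1 := (D.T_mono h0 m1 m3 (by linarith)).1
  have g2 := (D.T_mono h0 m3 m4 (by linarith)).1
  have g3 := (D.T_mono h0 m4 m2 (by linarith)).1
  have hq1 : T (0, -(V / 2)) ∈ Ioo (qm V T) (qp V T) := by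
    simp only [qm, qp]
    constructor <;> linarith
  have hq2 : T (0, V / 2) ∈ Ioo (qm V T) (qp V T) := by
    simp only [qm, qp]
    constructor <;> linarith
  have t1 : -(V / 2) ∈ Ioo (-(6 / 10 * V)) (6 / 10 * V) := ⟨by linarith, by linarith⟩
  have t2 : V / 2 ∈ Ioo (-(6 / 10 * V)) (6 / 10 * V) := ⟨by linarith, by linarith⟩
  have x2 : (2 : ℝ) ∈ Ioo (-9 / 4 : ℝ) (9 / 4) := ⟨by norm_num, by norm_num⟩
  have x2' : (-2 : ℝ) ∈ Ioo (-9 / 4 : ℝ) (9 / 4) := ⟨by norm_num, by norm_num⟩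
  have n1 := abs_le.1 (D.near hY x2 t1)
  have n2 := abs_le.1 (D.near hY x2' t1)
  have n3 := abs_le.1 (D.near hY x2 t2)
  have n4 := abs_le.1 (D.near hY x2' t2)
  have hsub : Icc (T (0, -(V / 2))) (T (0, V / 2)) ⊆ Ioo (qm V T) (qp V T) := fun s hs =>
    ⟨lt_of_lt_of_le hq1.1 hs.1, lt_of_le_of_lt hs.2 hq2.2⟩
  -- the zero of `C0 - 200 S0`
  have hcont : ContinuousOn (fun q => C0 Y q - 200 * S0 Y q)
      (Icc (T (0, -(V / 2))) (T (0, V / 2))) := by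
    intro q hq
    exact ((D.hasDerivAt_C0 hY (hsub hq)).continuousAt.sub
      (continuousAt_const.mul (D.hasDerivAt_S0 hY (hsub hq)).continuousAt)).continuousWithinAt
  obtain ⟨qs, hqs, hqs0⟩ := intermediate_value_Icc (by linarith :
    T (0, -(V / 2)) ≤ T (0, V / 2)) hcont (show (0 : ℝ) ∈ _ by
      simp only [C0, S0]
      constructor <;> linarith [n1.1, n1.2, n2.1, n2.2, n3.1, n3.2, n4.1, n4.2])
  simp only at hqs0
  have hqsI := hsub hqs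
  -- nearest lattice value
  obtain ⟨i, hi⟩ : ∃ i : ℤ, |2 * h * i - C0 Y qs| ≤ h := by
    refine ⟨round (C0 Y qs / (2 * h)), ?_⟩
    have h1 := abs_sub_round (C0 Y qs / (2 * h))
    have hpos : 0 < 2 * h := by linarith
    have h2 : 2 * h * (round (C0 Y qs / (2 * h)) : ℝ) - C0 Y qs =
        -(2 * h * (C0 Y qs / (2 * h) - round (C0 Y qs / (2 * h)))) := by
      rw [mul_sub, mul_div_cancel₀ _ hpos.ne']
      ring
    rw [h2, abs_neg, abs_mul, abs_of_pos hpos]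
    nlinarith
  have hi' := abs_le.1 hi
  -- room around `qs`
  have room1 : qm V T ≤ qs - 999 / 100 * h := by
    simp only [qm]
    linarith [hqs.1]
  have room2 : qs + 999 / 100 * h ≤ qp V T := by
    simp only [qp]
    linarith [hqs.2]
  have hI : ∀ q ∈ Icc (qs - 11 / 10 * h) (qs + 11 / 10 * h), q ∈ Ioo (qm V T) (qp V T) :=
    fun q hq => ⟨by linarith [hq.1], by linarith [hq.2]⟩
  have hC0' : ∀ q ∈ Ioo (qm V T) (qp V T),
      9989 / 10000 ≤ (Yq C Y (2, q) + Yq C Y (-2, q)) / 2 := by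
    intro q hq
    have a1 := abs_le.1 (D.bq hY (mem2 hq))
    have a2 := abs_le.1 (D.bq hY (mem2' hq))
    linarith [a1.1, a2.1]
  have hS0' : ∀ q ∈ Ioo (qm V T) (qp V T),
      |(Yq C Y (2, q) - Yq C Y (-2, q)) / 4| ≤ 55 / 100000 := by
    intro q hq
    have a1 := abs_le.1 (D.bq hY (mem2 hq))
    have a2 := abs_le.1 (D.bq hY (mem2' hq))
    rw [abs_le]
    constructor <;> linarith [a1.1, a2.1, a1.2, a2.2]
  have hup : 2 * h * i ≤ C0 Y (qs + 11 / 10 * h) := by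
    obtain ⟨c, hc, hc'⟩ := mvt (g := C0 Y) (by linarith : qs ≤ qs + 11 / 10 * h)
      (fun s hs => D.hasDerivAt_C0 hY (hI s ⟨by linarith [hs.1], hs.2⟩))
    have h1 := hC0' c (hI c ⟨by linarith [hc.1], hc.2⟩)
    nlinarith [hi'.2]
  have hlo : C0 Y (qs - 11 / 10 * h) ≤ 2 * h * i := by
    obtain ⟨c, hc, hc'⟩ := mvt (g := C0 Y) (by linarith : qs - 11 / 10 * h ≤ qs)
      (fun s hs => D.hasDerivAt_C0 hY (hI s ⟨hs.1, by linarith [hs.2]⟩))
    have h1 := hC0' c (hI c ⟨hc.1, by linarith [hc.2]⟩)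
    nlinarith [hi'.1]
  obtain ⟨qc, hqc, hqc0⟩ := intermediate_value_Icc (by linarith :
    qs - 11 / 10 * h ≤ qs + 11 / 10 * h) (f := C0 Y) (fun q hq =>
      (D.hasDerivAt_C0 hY (hI q hq)).continuousAt.continuousWithinAt) ⟨hlo, hup⟩
  have hqcI := hI qc hqc
  have hSdiff : |S0 Y qc - S0 Y qs| ≤ 7 / 10000 * h := by
    have hu : uIcc qs qc ⊆ Ioo (qm V T) (qp V T) :=
      OrdConnected.uIcc_subset ordConnected_Ioo hqsI hqcI
    have h1 := mvt_abs (g := S0 Y) (fun s hs => D.hasDerivAt_S0 hY (hu hs))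
      (fun s hs => hS0' s (hu hs))
    have h2 : |qc - qs| ≤ 11 / 10 * h := by
      rw [abs_le]; constructor <;> linarith [hqc.1, hqc.2]
    nlinarith
  refine ⟨qc, i, ?_, ?_, ?_, ?_⟩
  · constructor <;> linarith [hqc.1, hqc.2]
  · constructor <;> linarith [hqc.1, hqc.2]
  · have b1 := (hY _ (mem2 hqsI)).1
    have b2 := (hY _ (mem2' hqsI)).1
    have b3 : C0 Y qs < V := by simp only [C0]; linarith [b1.2, b2.2]
    have b4 : -V < C0 Y qs := by simp only [C0]; linarith [b1.1, b2.1]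
    rw [abs_le]
    constructor <;> linarith [hi'.1, hi'.2]
  · intro x hx
    have hq100 : qc + 100 ∈ Ioo (qm V T) (qp V T) := by
      constructor <;> linarith [hqc.1, hqc.2]
    have c1 := abs_le.1 (D.chord hk hY hx hqcI hq100)
    have c2 := abs_le.1 hSdiff
    have c3 : |S0 Y qc - 2 * h * i / 200| ≤ 57 / 10000 * h := by
      rw [abs_le]
      constructor <;> linarith [c2.1, c2.2, hi'.1, hi'.2]
    have c4 : |(S0 Y qc - 2 * h * i / 200) * x| ≤ 57 / 10000 * h * 2 := by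
      rw [abs_mul]
      exact mul_le_mul c3 (abs_le.2 hx) (abs_nonneg _) (by linarith)
    have c5 := abs_le.1 c4
    rw [hqc0] at c1
    rw [abs_le]
    constructor <;> linarith [c1.1, c1.2, c5.1, c5.2]

theorem Dat.final (D : Dat V k v P T A B C) (hk : ∀ x ∈ Ioo (-3 : ℝ) 3, ∀ t, |k x t| ≤ 2)
    {h : ℝ} (hh : 1000 ≤ h) (hV : 100 * h ≤ V)
    (hper : ∀ x ∈ Ioo (-3 : ℝ) 3, ∀ t, ∀ i : ℤ, k x (t + 2 * h * i * (1 + x / 200)) = k x t) :
    ∃ Y p ψ Yx Yq : ℝ × ℝ → ℝ, Sol k V h Y p ψ Yx Yq := by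
  obtain ⟨Y, hY⟩ := D.exists_Y
  have hY : IsInv V T Y := hY
  obtain ⟨qc, i, r1, r2, hyi, hb0⟩ := D.matching hk hh hV hY
  set y : ℝ := 2 * h * i with hy
  have hmem : ∀ z ∈ Om h, (z.1, z.2 + qc) ∈ GG V T := by
    intro z hz
    have h1 := hz.1
    have h2 := hz.2
    refine ⟨h1, ?_, ?_⟩
    · simp only
      linarith [h2.1, r1.1]
    · simp only
      linarith [h2.2, r2.2]
  have hsh : ∀ z : ℝ × ℝ, HasFDerivAt (fun w : ℝ × ℝ => (w.1, w.2 + qc))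
      (ContinuousLinearMap.id ℝ (ℝ × ℝ)) z := by
    intro z
    have h1 : HasFDerivAt (fun w : ℝ × ℝ => w + (0, qc)) (ContinuousLinearMap.id ℝ (ℝ × ℝ)) z :=
      (hasFDerivAt_id z).add_const _
    have h2 : (fun w : ℝ × ℝ => (w.1, w.2 + qc)) = fun w : ℝ × ℝ => w + (0, qc) := by
      funext w
      exact Prod.ext (by simp) (by simp)
    rw [h2]
    exact h1
  have hcov : ∀ (f : ℝ × ℝ → ℝ) (a b : ℝ) (z : ℝ × ℝ),
      HasFDerivAt f (cov a b) (z.1, z.2 + qc) →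
      HasFDerivAt (fun w : ℝ × ℝ => f (w.1, w.2 + qc)) (cov a b) z := by
    intro f a b z hf
    have h1 := HasFDerivAt.comp z (f := fun w : ℝ × ℝ => (w.1, w.2 + qc)) hf (hsh z)
    rw [ContinuousLinearMap.comp_id] at h1
    exact h1
  let p0 : ℝ := P (-3 / 2, Y (-3 / 2, qc))
  let ψ1 : ℝ × ℝ → ℝ := fun z => ((z.2 + qc) * Y (z.1, z.2 + qc) - v (z.1, Y (z.1, z.2 + qc))) -
    (y + y / 200 * z.1) * z.2 + p0 * z.1
  refine ⟨fun z => Y (z.1, z.2 + qc) - y - y / 200 * z.1,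
    fun z => P (z.1, Y (z.1, z.2 + qc)) + y / 200 * z.2 - p0,
    fun z => ψ1 z - ψ1 (-3 / 2, 0),
    fun z => Yx B C Y (z.1, z.2 + qc) - y / 200, fun z => Yq C Y (z.1, z.2 + qc), ?_⟩
  have hfst : ∀ z : ℝ × ℝ, HasFDerivAt (fun w : ℝ × ℝ => w.1) (fst ℝ ℝ ℝ) z :=
    fun z => hasFDerivAt_fst
  have hsnd : ∀ z : ℝ × ℝ, HasFDerivAt (fun w : ℝ × ℝ => w.2) (snd ℝ ℝ ℝ) z :=
    fun z => hasFDerivAt_snd
  refine ⟨?_, ?_, ?_, ?_, ?_, ?_, ?_, ?_, ?_, ?_⟩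
  · intro z hz
    have h1 := hcov Y _ _ z (D.hasFDerivAt_Y hY (hmem z hz))
    have h2 := (h1.sub_const y).sub ((hfst z).const_mul (y / 200))
    refine h2.congr_fderiv ?_
    ext
    · simp [cov]
    · simp [cov]
  · intro z hz
    have h1 := hcov (fun w => P (w.1, Y w)) _ _ z (D.hasFDerivAt_p hY (hmem z hz))
    have h2 := (h1.add ((hsnd z).const_mul (y / 200))).sub_const p0
    refine h2.congr_fderiv ?_
    have h3 : k z.1 (Y (z.1, z.2 + qc) - y - y / 200 * z.1) = k z.1 (Y (z.1, z.2 + qc)) := by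
      have h4 := hper z.1 (sub3 hz.1) (Y (z.1, z.2 + qc) - y - y / 200 * z.1) i
      rw [← h4]
      congr 1
      rw [hy]
      ring
    simp only [h3]
    ext
    · simp [cov]
    · simp [cov]
      ring
  · intro z hz
    have h1 := hcov (fun w => w.2 * Y w - v (w.1, Y w)) _ _ z (D.hasFDerivAt_ψ hY (hmem z hz))
    have h2 := ((h1.sub ((((hfst z).const_mul (y / 200)).const_add y).mul (hsnd z))).add
      ((hfst z).const_mul p0)).sub_const (ψ1 (-3 / 2, 0))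
    refine h2.congr_fderiv ?_
    ext
    · simp [cov]
      ring
    · simp [cov]
      ring
  · have hc : ContinuousOn (fun z : ℝ × ℝ => (z.1, z.2 + qc)) (Om h) := by fun_prop
    exact ((D.cont_Yx hY).comp hc (fun z hz => hmem z hz)).sub continuousOn_const
  · have hc : ContinuousOn (fun z : ℝ × ℝ => (z.1, z.2 + qc)) (Om h) := by fun_prop
    exact (D.cont_Yq hY).comp hc (fun z hz => hmem z hz)
  · intro z hz
    exact D.bq hY (hmem z hz)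
  · intro z hz
    have h1 := abs_le.1 (D.bx hY (hmem z hz))
    have h2 := abs_le.1 hyi
    rw [abs_le]
    constructor <;> linarith [h1.1, h1.2, h2.1, h2.2]
  · intro x hx
    have h1 := hb0 x hx
    have h2 : Y (x, 0 + qc) - y - y / 200 * x = Y (x, qc) - y * (1 + x / 200) := by
      rw [zero_add]; ring
    simp only [h2]
    exact h1
  · simp [p0]
  · simp

end

/-- A continuous linear form in coordinates. -/
theorem eq_cov (L : ℝ × ℝ →L[ℝ] ℝ) : L = cov (L e1) (L e2) := by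
  ext
  · simp [cov, e1]
  · simp [cov, e2]

theorem hodograph (V h : ℝ) (hh : 1000 ≤ h) (hV : 100 * h ≤ V) (k : ℝ → ℝ → ℝ)
    (hk : ∀ x ∈ Ioo (-3 : ℝ) 3, ∀ t, |k x t| ≤ 2)
    (hper : ∀ x ∈ Ioo (-3 : ℝ) 3, ∀ t, ∀ i : ℤ, k x (t + 2 * h * i * (1 + x / 200)) = k x t)
    (v : ℝ × ℝ → ℝ) (hv : ContDiffOn ℝ 2 v (Ioo (-3) 3 ×ˢ Ioo (-V) V))
    (h22 : ∀ z ∈ Ioo (-3 : ℝ) 3 ×ˢ Ioo (-V) V, |D2 v z e2 e2 - 1| ≤ 1 / 1000)
    (h12 : ∀ z ∈ Ioo (-3 : ℝ) 3 ×ˢ Ioo (-V) V, |D2 v z e1 e2| ≤ V / 1000)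
    (hMA : ∀ z ∈ Ioo (-3 : ℝ) 3 ×ˢ Ioo (-V) V, MAop v z = k z.1 z.2) :
    ∃ Y p ψ Yx Yq : ℝ × ℝ → ℝ, Sol k V h Y p ψ Yx Yq := by
  have hopen : IsOpen (Ioo (-3 : ℝ) 3 ×ˢ Ioo (-V) V) := isOpen_Ioo.prod isOpen_Ioo
  have hfd : ContDiffOn ℝ 1 (fderiv ℝ v) (Ioo (-3) 3 ×ˢ Ioo (-V) V) :=
    hv.fderiv_of_isOpen hopen (by norm_num)
  have hdir : ∀ a : ℝ × ℝ, ContDiffOn ℝ 1 (fun w => fderiv ℝ v w a)
      (Ioo (-3) 3 ×ˢ Ioo (-V) V) := fun a => hfd.clm_apply contDiffOn_const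
  have hD : ∀ a : ℝ × ℝ, ∀ z ∈ Ioo (-3 : ℝ) 3 ×ˢ Ioo (-V) V,
      HasFDerivAt (fun w => fderiv ℝ v w a) (cov (D2 v z a e1) (D2 v z a e2)) z := by
    intro a z hz
    have h1 : DifferentiableAt ℝ (fun w => fderiv ℝ v w a) z :=
      ((hdir a).differentiableOn (by norm_num) z hz).differentiableAt (hopen.mem_nhds hz)
    have h2 := h1.hasFDerivAt
    rw [eq_cov (fderiv ℝ (fun w => fderiv ℝ v w a) z)] at h2
    exact h2
  have hDc : ∀ a b : ℝ × ℝ, ContinuousOn (fun z => D2 v z a b) (Ioo (-3) 3 ×ˢ Ioo (-V) V) := by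
    intro a b
    have h1 := (hdir a).continuousOn_fderiv_of_isOpen hopen (by norm_num)
    exact h1.clm_apply continuousOn_const
  have hsymm : ∀ z ∈ Ioo (-3 : ℝ) 3 ×ˢ Ioo (-V) V, D2 v z e2 e1 = D2 v z e1 e2 := by
    intro z hz
    have h1 : ContDiffAt ℝ 2 v z := (hv z hz).contDiffAt (hopen.mem_nhds hz)
    have h2 : IsSymmSndFDerivAt ℝ v z := h1.isSymmSndFDerivAt (by simp)
    have h3 : DifferentiableAt ℝ (fderiv ℝ v) z :=
      (hfd.differentiableOn (by norm_num) z hz).differentiableAt (hopen.mem_nhds hz)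
    have h4 : ∀ a b : ℝ × ℝ, D2 v z a b = fderiv ℝ (fderiv ℝ v) z b a := by
      intro a b
      rw [D2, fderiv_clm_apply h3 (differentiableAt_const a)]
      simp
    rw [h4, h4]
    exact h2 e1 e2
  have D : Dat V k v (fun z => fderiv ℝ v z e1) (fun z => fderiv ℝ v z e2)
      (fun z => D2 v z e1 e1) (fun z => D2 v z e1 e2) (fun z => D2 v z e2 e2) := by
    refine ⟨by linarith, ?_, ?_, ?_, hDc _ _, hDc _ _, h22, h12, ?_⟩
    · intro z hz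
      have h1 : DifferentiableAt ℝ v z :=
        (hv.differentiableOn (by norm_num) z hz).differentiableAt (hopen.mem_nhds hz)
      have h2 := h1.hasFDerivAt
      rw [eq_cov (fderiv ℝ v z)] at h2
      exact h2
    · exact fun z hz => hD e1 z hz
    · intro z hz
      have := hD e2 z hz
      rw [hsymm z hz] at this
      exact this
    · exact hMA
  exact D.final hk hh hV hper

end Pool.Agent.Helper67.MA
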