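import Pool.Agent.Helper67.Star
import Pool.Agent.Helper67.Analytic

set_option autoImplicit false

/-!
Assembly: sorted maximisers are doubly stochastic.
-/

namespace Pool.Agent.Helper67

open Finset Matrix

variable {n : ℕ}

/-- the flat matrix -/
noncomputable def JJ (n : ℕ) : Matrix (Fin n) (Fin n) ℝ := Matrix.of (fun _ _ => (1 : ℝ) / n)

lemma permanent_JJ (n : ℕ) : (JJ n).permanent = gam n := by
  unfold JJ Matrix.permanent gam
  simp only [Matrix.of_apply, Finset.prod_const, Finset.sum_const, Finset.card_univ,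
    Fintype.card_perm, Fintype.card_fin, nsmul_eq_mul]
  rw [div_pow, one_pow]
  ring

lemma phi_JJ (hn : 0 < n) : phi (JJ n) = 2 - gam n := by
  have hn' : (n : ℝ) ≠ 0 := by positivity
  have h1 : ∀ i, ∑ j, JJ n i j = 1 := by
    intro i
    simp [JJ, hn']
  have h2 : ∀ j, ∑ i, JJ n i j = 1 := by
    intro i
    simp [JJ, hn']
  unfold phi
  rw [permanent_JJ]
  simp only [h1, h2, Finset.prod_const_one]
  ring

lemma JJ_nonneg (i j : Fin n) : 0 ≤ JJ n i j := by
  simp only [JJ, Matrix.of_apply]; positivity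

lemma JJ_total (hn : 0 < n) : (∑ i, ∑ j, JJ n i j) = (n : ℝ) := by
  have hn' : (n : ℝ) ≠ 0 := by positivity
  simp [JJ, hn']

lemma prod_le_one_of_sum (y : Fin n → ℝ) (hy : ∀ i, 0 ≤ y i) (hs : ∑ i, y i = n) :
    ∏ i, y i ≤ 1 := by
  rcases Nat.eq_zero_or_pos n with h0 | h0
  · subst h0; simp
  have := amgm y hy 0 (le_refl _) h0 (by
    rw [Finset.sum_sub_distrib, hs]; simp)
  simpa using this

lemma sum_rs (A : Matrix (Fin n) (Fin n) ℝ) (h : (∑ i, ∑ j, A i j) = (n : ℝ)) :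
    ∑ i, rs A i = n := h

lemma sum_cs (A : Matrix (Fin n) (Fin n) ℝ) (h : (∑ i, ∑ j, A i j) = (n : ℝ)) :
    ∑ j, cs A j = n := by
  rw [← h, Finset.sum_comm]
  rfl

/-- Basic facts on maximisers. -/
structure Fct (A : Matrix (Fin n) (Fin n) ℝ) : Prop where
  R1 : RR A ≤ 1
  C1 : CC A ≤ 1
  P0 : 0 ≤ A.permanent
  RCP : 2 - gam n ≤ RR A + CC A - A.permanent

lemma fct_of_maxi (hn : 0 < n) {A : Matrix (Fin n) (Fin n) ℝ} (h : IsMaxi A) : Fct A where
  R1 := prod_le_one_of_sum _ (fun i => Finset.sum_nonneg fun j _ => h.nonneg i j)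
    (sum_rs A h.total)
  C1 := prod_le_one_of_sum _ (fun j => Finset.sum_nonneg fun i _ => h.nonneg i j)
    (sum_cs A h.total)
  P0 := permanent_nonneg A h.nonneg
  RCP := by
    have := h.max (JJ n) JJ_nonneg (JJ_total hn)
    rw [phi_JJ hn] at this
    exact this

lemma gam_le_half (hn : 2 ≤ n) : gam n ≤ 1 / 2 := by
  have h1 := gam_sq_le n hn
  have h2 : (2 : ℝ) ≤ n := by exact_mod_cast hn
  have h3 := gam_pos n (by omega)
  have h4 : (4 : ℝ) ≤ (n : ℝ) ^ 2 := by nlinarith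
  have h5 := mul_le_mul_of_nonneg_left h4 h3.le
  linarith

namespace Fct

variable {A : Matrix (Fin n) (Fin n) ℝ}

lemma Rge (f : Fct A) : 1 - gam n ≤ RR A := by linarith [f.C1, f.RCP, f.P0]

lemma Cge (f : Fct A) : 1 - gam n ≤ CC A := by linarith [f.R1, f.RCP, f.P0]

lemma Ple (f : Fct A) : A.permanent ≤ gam n := by linarith [f.R1, f.C1, f.RCP]

lemma RCge (f : Fct A) : 1 - gam n ≤ RR A * CC A := by
  nlinarith [f.R1, f.C1, f.RCP, f.P0]

end Fct

lemma crit_of_maxi (hn : 2 ≤ n) {A : Matrix (Fin n) (Fin n) ℝ} (h : IsMaxi A) : Crit A := by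
  have f := fct_of_maxi (by omega) h
  have hg := gam_le_half hn
  have hR : 0 < RR A := by linarith [f.Rge]
  have hC : 0 < CC A := by linarith [f.Cge]
  have hr0 : ∀ i, 0 ≤ rs A i := fun i => Finset.sum_nonneg fun j _ => h.nonneg i j
  have hc0 : ∀ j, 0 ≤ cs A j := fun j => Finset.sum_nonneg fun i _ => h.nonneg i j
  have hr : ∀ i, 0 < rs A i := by
    intro i
    refine lt_of_le_of_ne (hr0 i) fun h0 => ?_
    have : RR A = 0 := Finset.prod_eq_zero (Finset.mem_univ i) h0.symm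
    linarith
  have hc : ∀ j, 0 < cs A j := by
    intro i
    refine lt_of_le_of_ne (hc0 i) fun h0 => ?_
    have : CC A = 0 := Finset.prod_eq_zero (Finset.mem_univ i) h0.symm
    linarith
  have hphi : 0 ≤ phi A := by linarith [h.one_le]
  have hphi2 : phi A = RR A + CC A - A.permanent := rfl
  have hd : ∀ k j, dphi A k j = RR A / rs A k + CC A / cs A j - mn A k j := by
    intro k j
    unfold dphi
    have e1 : ∏ i ∈ Finset.univ.erase k, ∑ j', A i j' = RR A / rs A k := by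
      rw [eq_div_iff (hr k).ne']
      unfold RR
      rw [← Finset.mul_prod_erase _ _ (Finset.mem_univ k), mul_comm]
      rfl
    have e2 : ∏ j' ∈ Finset.univ.erase j, ∑ i, A i j' = CC A / cs A j := by
      rw [eq_div_iff (hc j).ne']
      unfold CC
      rw [← Finset.mul_prod_erase _ _ (Finset.mem_univ j), mul_comm]
      rfl
    rw [e1, e2]
  refine ⟨h.nonneg, h.total, hr, hc, ?_, ?_⟩
  · intro k j
    have := h.dphi_le (by omega) hphi k j
    rw [hd, hphi2] at this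
    unfold FF GG
    linarith
  · intro k j hkj
    have := h.dphi_eq (by omega) hphi k j hkj
    rw [hd, hphi2] at this
    unfold FF GG
    linarith

lemma srt_of_maxi (hn : 2 ≤ n) {A : Matrix (Fin n) (Fin n) ℝ} (h : IsMaxi A)
    (hr : Antitone (rs A)) (hc : Monotone (cs A)) : Srt A where
  toCrit := crit_of_maxi hn h
  ranti := hr
  cmono := hc
  Rpos := by linarith [(fct_of_maxi (by omega) h).Rge, gam_le_half hn]
  Cpos := by linarith [(fct_of_maxi (by omega) h).Cge, gam_le_half hn]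

/-- row excess -/
noncomputable def XX (A : Matrix (Fin n) (Fin n) ℝ) : ℝ := ∑ i, max (rs A i - 1) 0

/-- column excess -/
noncomputable def HH (A : Matrix (Fin n) (Fin n) ℝ) : ℝ := ∑ j, max (cs A j - 1) 0

/-- total excess -/
noncomputable def ZZ (A : Matrix (Fin n) (Fin n) ℝ) : ℝ := XX A + HH A

lemma ZZ_nonneg (A : Matrix (Fin n) (Fin n) ℝ) : 0 ≤ ZZ A :=
  add_nonneg (Finset.sum_nonneg fun _ _ => le_max_right _ _)
    (Finset.sum_nonneg fun _ _ => le_max_right _ _)

lemma Srt.ZZ_sq {A : Matrix (Fin n) (Fin n) ℝ} (h : Srt A) :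
    (ZZ A) ^ 2 ≤ -((n : ℝ) * Real.log (RR A * CC A)) := by
  have h1 := pinsker (rs A) h.rpos (sum_rs A h.total)
  have h2 := pinsker (cs A) h.cpos (sum_cs A h.total)
  rw [Real.log_mul h.Rpos.ne' h.Cpos.ne']
  have h3 : RR A = ∏ i, rs A i := rfl
  have h4 : CC A = ∏ i, cs A i := rfl
  rw [← h3] at h1
  rw [← h4] at h2
  unfold ZZ XX HH
  nlinarith [sq_nonneg (∑ i, max (rs A i - 1) 0 - ∑ i, max (cs A i - 1) 0)]

lemma lamIJ_le (A : Matrix (Fin n) (Fin n) ℝ) (h : (∑ i, ∑ j, A i j) = (n : ℝ))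
    (I J : Finset (Fin n)) : lamIJ A I J ≤ ZZ A := by
  unfold lamIJ ZZ XX HH
  have h1 : ∑ k ∈ I, (rs A k - 1) ≤ ∑ i, max (rs A i - 1) 0 := by
    refine (Finset.sum_le_sum fun i _ => le_max_left _ _).trans
      (Finset.sum_le_sum_of_subset_of_nonneg (Finset.subset_univ I) fun i _ _ => le_max_right _ _)
  have h2 : ∑ j ∈ J, (1 - cs A j) ≤ ∑ j, max (cs A j - 1) 0 := by
    have e1 : ∑ j ∈ J, (1 - cs A j) = ∑ j ∈ Jᶜ, (cs A j - 1) := by
      have e2 : ∑ j ∈ J, (cs A j - 1) + ∑ j ∈ Jᶜ, (cs A j - 1) = 0 := by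
        rw [Finset.sum_add_sum_compl, Finset.sum_sub_distrib, sum_cs A h]
        simp
      have e3 : ∑ j ∈ J, (1 - cs A j) = -∑ j ∈ J, (cs A j - 1) := by
        rw [← Finset.sum_neg_distrib]
        exact Finset.sum_congr rfl fun j _ => by ring
      linarith
    rw [e1]
    refine (Finset.sum_le_sum fun i _ => le_max_left _ _).trans
      (Finset.sum_le_sum_of_subset_of_nonneg (Finset.subset_univ _) fun i _ _ => le_max_right _ _)
  linarith

/-- Mixed products. -/
lemma mix_le (A : Matrix (Fin n) (Fin n) ℝ) (hn : 0 < n) (p : Fin n → Prop) [DecidablePred p] :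
    ∏ i, (if p i then max 1 (rs A i) else max 1 (cs A i)) ≤ (1 + ZZ A / n) ^ n := by
  refine amgm _ ?_ _ (ZZ_nonneg A) hn ?_
  · intro i
    split_ifs
    · exact le_trans zero_le_one (le_max_left _ _)
    · exact le_trans zero_le_one (le_max_left _ _)
  · unfold ZZ XX HH
    rw [← Finset.sum_add_distrib]
    refine Finset.sum_le_sum fun i _ => ?_
    have e1 : ∀ a : ℝ, max 1 a - 1 = max (a - 1) 0 := by
      intro a
      rcases le_total 1 a with h | h
      · rw [max_eq_right h, max_eq_left (by linarith)]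
      · rw [max_eq_left h, max_eq_right (by linarith)]; ring
    have e2 : 0 ≤ max (rs A i - 1) 0 := le_max_right _ _
    have e3 : 0 ≤ max (cs A i - 1) 0 := le_max_right _ _
    split_ifs
    · rw [e1]; linarith
    · rw [e1]; linarith

lemma Srt.TT_row {A : Matrix (Fin n) (Fin n) ℝ} (h : Srt A) (t : ℕ) (ht : t + 1 < n) :
    Srt.TT A t ht * (rs A ⟨t, by omega⟩ * rs A ⟨t + 1, ht⟩) ≤ (1 + ZZ A / n) ^ n := by
  have hmix := mix_le A (by omega) (fun i => i.val < t + 2)
  refine le_trans ?_ hmix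
  set i0 : Fin n := ⟨t, by omega⟩ with hi0
  set i1 : Fin n := ⟨t + 1, ht⟩ with hi1
  have m0 : i0 ∈ lo n (t + 1) := by rw [mem_lo, hi0]; simp
  have m1 : i1 ∈ hi n (t + 1) := by rw [mem_hi, hi1]
  rw [← Finset.prod_mul_prod_compl (lo n (t + 1)), lo_compl, ← Finset.mul_prod_erase _ _ m0,
    ← Finset.mul_prod_erase _ _ m1]
  have e0 : (if i0.val < t + 2 then max 1 (rs A i0) else max 1 (cs A i0)) = max 1 (rs A i0) :=
    if_pos (by rw [hi0]; simp only; omega)
  have e1 : (if i1.val < t + 2 then max 1 (rs A i1) else max 1 (cs A i1)) = max 1 (rs A i1) :=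
    if_pos (by rw [hi1]; simp only; omega)
  have e2 : ∏ i ∈ (lo n (t + 1)).erase i0,
      (if i.val < t + 2 then max 1 (rs A i) else max 1 (cs A i))
      = ∏ i ∈ (lo n (t + 1)).erase i0, max 1 (rs A i) := by
    refine Finset.prod_congr rfl fun i hi => if_pos ?_
    have := mem_lo.mp (Finset.mem_of_mem_erase hi)
    omega
  have e3 : ∏ i ∈ (hi n (t + 1)).erase i1,
      (if i.val < t + 2 then max 1 (rs A i) else max 1 (cs A i))
      = ∏ i ∈ (hi n (t + 1)).erase i1, max 1 (cs A i) := by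
    refine Finset.prod_congr rfl fun i hi => if_neg ?_
    have h1 := mem_hi.mp (Finset.mem_of_mem_erase hi)
    have h2 : i.val ≠ t + 1 := fun h => Finset.ne_of_mem_erase hi (Fin.ext h)
    omega
  rw [e0, e1, e2, e3]
  have hTT : Srt.TT A t ht = (∏ i ∈ (lo n (t + 1)).erase i0, max 1 (rs A i))
    * (∏ l ∈ (hi n (t + 1)).erase i1, max 1 (cs A l)) := rfl
  rw [hTT]
  have hT := Srt.one_le_TT A t ht
  rw [hTT] at hT
  set U := ∏ i ∈ (lo n (t + 1)).erase i0, max 1 (rs A i)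
  set V := ∏ l ∈ (hi n (t + 1)).erase i1, max 1 (cs A l)
  have hh : rs A i0 * rs A i1 ≤ max 1 (rs A i0) * max 1 (rs A i1) :=
    mul_le_mul (le_max_right _ _) (le_max_right _ _) (h.rpos i1).le
      (le_trans zero_le_one (le_max_left _ _))
  calc U * V * (rs A i0 * rs A i1) ≤ U * V * (max 1 (rs A i0) * max 1 (rs A i1)) :=
        mul_le_mul_of_nonneg_left hh (by linarith)
    _ = _ := by ring

lemma Srt.TT_col {A : Matrix (Fin n) (Fin n) ℝ} (h : Srt A) (t : ℕ) (ht : t + 1 < n) :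
    Srt.TT A t ht * (cs A ⟨t, by omega⟩ * cs A ⟨t + 1, ht⟩) ≤ (1 + ZZ A / n) ^ n := by
  have hmix := mix_le A (by omega) (fun i => i.val < t)
  refine le_trans ?_ hmix
  set i0 : Fin n := ⟨t, by omega⟩ with hi0
  set i1 : Fin n := ⟨t + 1, ht⟩ with hi1
  have m0 : i0 ∈ lo n (t + 1) := by rw [mem_lo, hi0]; simp
  have m1 : i1 ∈ hi n (t + 1) := by rw [mem_hi, hi1]
  rw [← Finset.prod_mul_prod_compl (lo n (t + 1)), lo_compl, ← Finset.mul_prod_erase _ _ m0,
    ← Finset.mul_prod_erase _ _ m1]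
  have e0 : (if i0.val < t then max 1 (rs A i0) else max 1 (cs A i0)) = max 1 (cs A i0) :=
    if_neg (by rw [hi0]; simp only; omega)
  have e1 : (if i1.val < t then max 1 (rs A i1) else max 1 (cs A i1)) = max 1 (cs A i1) :=
    if_neg (by rw [hi1]; simp only; omega)
  have e2 : ∏ i ∈ (lo n (t + 1)).erase i0,
      (if i.val < t then max 1 (rs A i) else max 1 (cs A i))
      = ∏ i ∈ (lo n (t + 1)).erase i0, max 1 (rs A i) := by
    refine Finset.prod_congr rfl fun i hi => if_pos ?_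
    have h1 := mem_lo.mp (Finset.mem_of_mem_erase hi)
    have h2 : i.val ≠ t := fun h => Finset.ne_of_mem_erase hi (Fin.ext h)
    omega
  have e3 : ∏ i ∈ (hi n (t + 1)).erase i1,
      (if i.val < t then max 1 (rs A i) else max 1 (cs A i))
      = ∏ i ∈ (hi n (t + 1)).erase i1, max 1 (cs A i) := by
    refine Finset.prod_congr rfl fun i hi => if_neg ?_
    have h1 := mem_hi.mp (Finset.mem_of_mem_erase hi)
    omega
  rw [e0, e1, e2, e3]
  have hTT : Srt.TT A t ht = (∏ i ∈ (lo n (t + 1)).erase i0, max 1 (rs A i))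
    * (∏ l ∈ (hi n (t + 1)).erase i1, max 1 (cs A l)) := rfl
  rw [hTT]
  have hT := Srt.one_le_TT A t ht
  rw [hTT] at hT
  set U := ∏ i ∈ (lo n (t + 1)).erase i0, max 1 (rs A i)
  set V := ∏ l ∈ (hi n (t + 1)).erase i1, max 1 (cs A l)
  have hh : cs A i0 * cs A i1 ≤ max 1 (cs A i0) * max 1 (cs A i1) :=
    mul_le_mul (le_max_right _ _) (le_max_right _ _) (h.cpos i1).le
      (le_trans zero_le_one (le_max_left _ _))
  calc U * V * (cs A i0 * cs A i1) ≤ U * V * (max 1 (cs A i0) * max 1 (cs A i1)) :=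
        mul_le_mul_of_nonneg_left hh (by linarith)
    _ = _ := by ring

/-- Partial sums of a decreasing sequence of total zero. -/
lemma partial_nonneg (x : Fin n → ℝ) (hx : Antitone x) (hsum : ∑ i, x i = 0) (s : ℕ)
    (hs0 : 0 < s) (hsn : s < n) :
    0 ≤ ∑ i ∈ lo n s, x i ∧ (∑ i ∈ lo n s, x i = 0 → ∀ i, x i = 0) := by
  have hsplit : ∑ i ∈ lo n s, x i + ∑ i ∈ hi n s, x i = 0 := by
    rw [← lo_compl, Finset.sum_add_sum_compl, hsum]
  set i0 : Fin n := ⟨s - 1, by omega⟩ with hi0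
  set i1 : Fin n := ⟨s, hsn⟩ with hi1
  have hlo : ∀ k ∈ lo n s, x i0 ≤ x k := by
    intro k hk
    rw [mem_lo] at hk
    exact hx (by rw [Fin.le_def, hi0]; simp only; omega)
  have hhi : ∀ k ∈ hi n s, x k ≤ x i0 := by
    intro k hk
    rw [mem_hi] at hk
    exact hx (by rw [Fin.le_def, hi0]; simp only; omega)
  have m0 : i0 ∈ lo n s := by rw [mem_lo, hi0]; simp only; omega
  have m1 : i1 ∈ hi n s := by rw [mem_hi, hi1]
  rcases le_or_gt 0 (x i0) with h0 | h0
  · have hnn : ∀ k ∈ lo n s, 0 ≤ x k := fun k hk => h0.trans (hlo k hk)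
    refine ⟨Finset.sum_nonneg hnn, fun h => ?_⟩
    have hz := (Finset.sum_eq_zero_iff_of_nonneg hnn).mp h
    have hx0 : x i0 = 0 := hz i0 m0
    have hz2 : ∑ i ∈ hi n s, x i = 0 := by linarith
    have hnp : ∀ k ∈ hi n s, x k ≤ 0 := fun k hk => hx0 ▸ hhi k hk
    have hz3 := (Finset.sum_eq_zero_iff_of_nonpos hnp).mp hz2
    intro i
    by_cases hi : i.val < s
    · exact hz i (mem_lo.mpr hi)
    · exact hz3 i (mem_hi.mpr (by omega))
  · have hneg : ∑ i ∈ hi n s, x i < 0 :=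
      Finset.sum_neg (fun k hk => lt_of_le_of_lt (hhi k hk) h0) ⟨i1, m1⟩
    have hpos : 0 < ∑ i ∈ lo n s, x i := by linarith
    exact ⟨hpos.le, fun h => absurd h hpos.ne'⟩

lemma Srt.lam_pos {A : Matrix (Fin n) (Fin n) ℝ} (h : Srt A) (hnds : ¬ IsDS A) (s : ℕ)
    (hs0 : 0 < s) (hsn : s < n) : 0 < lam A s := by
  have h1 := partial_nonneg (fun i => rs A i - 1) (fun i j hij => by
    have := h.ranti hij; simp only; linarith) (by
    rw [Finset.sum_sub_distrib, sum_rs A h.total]; simp) s hs0 hsn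
  have h2 := partial_nonneg (fun i => 1 - cs A i) (fun i j hij => by
    have := h.cmono hij; simp only; linarith) (by
    rw [Finset.sum_sub_distrib, sum_cs A h.total]; simp) s hs0 hsn
  have hl : lam A s = ∑ i ∈ lo n s, (rs A i - 1) + ∑ i ∈ lo n s, (1 - cs A i) := rfl
  refine lt_of_le_of_ne (by rw [hl]; exact add_nonneg h1.1 h2.1) fun h0 => hnds ?_
  rw [hl] at h0
  have e1 : ∑ i ∈ lo n s, (rs A i - 1) = 0 := by linarith [h1.1, h2.1]
  have e2 : ∑ i ∈ lo n s, (1 - cs A i) = 0 := by linarith [h1.1, h2.1]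
  constructor
  · intro i
    have := h1.2 e1 i
    have h3 : rs A i = 1 := by linarith
    exact h3
  · intro i
    have := h2.2 e2 i
    have h3 : cs A i = 1 := by linarith
    exact h3

end Pool.Agent.Helper67
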