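import Mathlib

set_option autoImplicit false

/-!
Recursive permanents of lists of vectors, restricted to a finite set of positions.
-/

namespace Pool.Agent.Helper67

open Finset

section Basic

variable {β : Type*} [DecidableEq β]

/-- Weighted sum over injective assignments of the vectors of a list to positions in `T`;
the weight of the set of unused positions is `w`. -/
noncomputable def Wt (w : Finset β → ℝ) : List (β → ℝ) → Finset β → ℝ
  | [], T => w T
  | (r :: L), T => ∑ j ∈ T, r j * Wt w L (T.erase j)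

/-- The indicator weight of the empty set. -/
noncomputable def wEmpty (T : Finset β) : ℝ := if T = ∅ then 1 else 0

/-- The recursive permanent of a list of vectors on the set of positions `T`. -/
noncomputable def Pe (L : List (β → ℝ)) (T : Finset β) : ℝ := Wt wEmpty L T

@[simp] lemma Wt_nil (w : Finset β → ℝ) (T : Finset β) : Wt w [] T = w T := rfl

lemma Wt_cons (w : Finset β → ℝ) (r : β → ℝ) (L : List (β → ℝ)) (T : Finset β) :
    Wt w (r :: L) T = ∑ j ∈ T, r j * Wt w L (T.erase j) := rfl

lemma Pe_nil (T : Finset β) : Pe ([] : List (β → ℝ)) T = if T = ∅ then 1 else 0 := rfl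

@[simp] lemma Pe_nil_empty : Pe ([] : List (β → ℝ)) ∅ = 1 := by simp [Pe_nil]

lemma Pe_cons (r : β → ℝ) (L : List (β → ℝ)) (T : Finset β) :
    Pe (r :: L) T = ∑ j ∈ T, r j * Pe L (T.erase j) := rfl

lemma Wt_append (w : Finset β → ℝ) (L L' : List (β → ℝ)) (T : Finset β) :
    Wt w (L ++ L') T = Wt (Wt w L') L T := by
  induction L generalizing T with
  | nil => rfl
  | cons r L ih =>
    simp only [List.cons_append, Wt_cons, ih]

lemma Pe_append (L L' : List (β → ℝ)) (T : Finset β) :
    Pe (L ++ L') T = Wt (Pe L') L T := Wt_append _ _ _ _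

lemma Wt_nonneg (w : Finset β → ℝ) (hw : ∀ T, 0 ≤ w T) (L : List (β → ℝ)) (T : Finset β)
    (h : ∀ r ∈ L, ∀ j ∈ T, 0 ≤ r j) : 0 ≤ Wt w L T := by
  induction L generalizing T with
  | nil => exact hw T
  | cons r L ih =>
    rw [Wt_cons]
    refine Finset.sum_nonneg fun j hj => mul_nonneg (h r (by simp) j hj) (ih _ ?_)
    intro r' hr' j' hj'
    exact h r' (by simp [hr']) j' (Finset.mem_of_mem_erase hj')

lemma wEmpty_nonneg (T : Finset β) : 0 ≤ wEmpty T := by
  unfold wEmpty; split_ifs <;> norm_num

lemma Pe_nonneg (L : List (β → ℝ)) (T : Finset β)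
    (h : ∀ r ∈ L, ∀ j ∈ T, 0 ≤ r j) : 0 ≤ Pe L T :=
  Wt_nonneg _ wEmpty_nonneg L T h

/-- Monotonicity in the weight. -/
lemma Wt_mono (w w' : Finset β → ℝ) (L : List (β → ℝ)) (T : Finset β)
    (h : ∀ r ∈ L, ∀ j ∈ T, 0 ≤ r j) (hw : ∀ S, S ⊆ T → S.card + L.length = T.card → w S ≤ w' S) :
    Wt w L T ≤ Wt w' L T := by
  induction L generalizing T with
  | nil => exact hw T (Finset.Subset.refl _) (by simp)
  | cons r L ih =>
    rw [Wt_cons, Wt_cons]
    refine Finset.sum_le_sum fun j hj => mul_le_mul_of_nonneg_left (ih _ ?_ ?_) (h r (by simp) j hj)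
    · intro r' hr' j' hj'
      exact h r' (by simp [hr']) j' (Finset.mem_of_mem_erase hj')
    · intro S hS hc
      refine hw S (hS.trans (Finset.erase_subset _ _)) ?_
      rw [Finset.card_erase_of_mem hj] at hc
      have : 0 < T.card := Finset.card_pos.mpr ⟨j, hj⟩
      simp only [List.length_cons]
      omega

lemma Wt_add_weight (w w' : Finset β → ℝ) (L : List (β → ℝ)) (T : Finset β) :
    Wt (fun S => w S + w' S) L T = Wt w L T + Wt w' L T := by
  induction L generalizing T with
  | nil => rfl
  | cons r L ih =>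
    simp only [Wt_cons, ih, mul_add, Finset.sum_add_distrib]

lemma Wt_sum_weight {ι : Type*} (s : Finset ι) (w : ι → Finset β → ℝ) (L : List (β → ℝ))
    (T : Finset β) :
    Wt (fun S => ∑ i ∈ s, w i S) L T = ∑ i ∈ s, Wt (w i) L T := by
  induction L generalizing T with
  | nil => rfl
  | cons r L ih =>
    simp only [Wt_cons, ih, Finset.mul_sum]
    exact Finset.sum_comm

/-- Swapping two adjacent vectors. -/
lemma Pe_swap (a b : β → ℝ) (L : List (β → ℝ)) (T : Finset β) :
    Pe (a :: b :: L) T = Pe (b :: a :: L) T := by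
  simp only [Pe_cons, Finset.mul_sum]
  rw [Finset.sum_comm' (s' := fun y => T.erase y) (t' := T)]
  · refine Finset.sum_congr rfl fun j _ => Finset.sum_congr rfl fun j' _ => ?_
    rw [Finset.erase_right_comm]
    ring
  · intro x y
    simp only [Finset.mem_erase]
    tauto

lemma Pe_perm {L L' : List (β → ℝ)} (h : L.Perm L') (T : Finset β) : Pe L T = Pe L' T := by
  induction h generalizing T with
  | nil => rfl
  | cons x _ ih => simp only [Pe_cons, ih]
  | swap x y l => exact Pe_swap y x l T
  | trans _ _ ih1 ih2 => exact (ih1 T).trans (ih2 T)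

lemma Pe_congr_head (a b : β → ℝ) (L : List (β → ℝ)) (T : Finset β)
    (h : ∀ j ∈ T, a j = b j) : Pe (a :: L) T = Pe (b :: L) T := by
  simp only [Pe_cons]
  exact Finset.sum_congr rfl fun j hj => by rw [h j hj]

lemma Pe_add_head (a b : β → ℝ) (L : List (β → ℝ)) (T : Finset β) :
    Pe ((a + b) :: L) T = Pe (a :: L) T + Pe (b :: L) T := by
  simp only [Pe_cons, Pi.add_apply, add_mul, Finset.sum_add_distrib]

lemma Pe_smul_head (c : ℝ) (a : β → ℝ) (L : List (β → ℝ)) (T : Finset β) :
    Pe ((c • a) :: L) T = c * Pe (a :: L) T := by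
  simp only [Pe_cons, Pi.smul_apply, smul_eq_mul, mul_assoc, Finset.mul_sum]

lemma Pe_sub_head (a b : β → ℝ) (L : List (β → ℝ)) (T : Finset β) :
    Pe ((a - b) :: L) T = Pe (a :: L) T - Pe (b :: L) T := by
  simp only [Pe_cons, Pi.sub_apply, sub_mul, Finset.sum_sub_distrib]

lemma Pe_add_snd (x a b : β → ℝ) (L : List (β → ℝ)) (T : Finset β) :
    Pe (x :: (a + b) :: L) T = Pe (x :: a :: L) T + Pe (x :: b :: L) T := by
  rw [Pe_swap, Pe_add_head, Pe_swap a, Pe_swap b]

lemma Pe_smul_snd (c : ℝ) (x a : β → ℝ) (L : List (β → ℝ)) (T : Finset β) :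
    Pe (x :: (c • a) :: L) T = c * Pe (x :: a :: L) T := by
  rw [Pe_swap, Pe_smul_head, Pe_swap a]

lemma Pe_sub_snd (x a b : β → ℝ) (L : List (β → ℝ)) (T : Finset β) :
    Pe (x :: (a - b) :: L) T = Pe (x :: a :: L) T - Pe (x :: b :: L) T := by
  rw [Pe_swap, Pe_sub_head, Pe_swap a, Pe_swap b]

lemma Pe_single_head (j : β) (L : List (β → ℝ)) (T : Finset β) :
    Pe ((Pi.single j 1) :: L) T = if j ∈ T then Pe L (T.erase j) else 0 := by
  rw [Pe_cons]
  split_ifs with h
  · rw [Finset.sum_eq_single_of_mem j h]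
    · simp
    · intro b _ hb
      simp [Pi.single_eq_of_ne hb]
  · refine Finset.sum_eq_zero fun b hb => ?_
    have : b ≠ j := fun e => h (e ▸ hb)
    simp [Pi.single_eq_of_ne this]

/-- Expansion along the head vector. -/
lemma Pe_head_expand (a : β → ℝ) (L : List (β → ℝ)) (T : Finset β) :
    Pe (a :: L) T = ∑ j ∈ T, a j * Pe ((Pi.single j 1) :: L) T := by
  rw [Pe_cons]
  refine Finset.sum_congr rfl fun j hj => ?_
  rw [Pe_single_head, if_pos hj]

lemma Pe_pos (L : List (β → ℝ)) (T : Finset β) (hc : L.length = T.card)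
    (h : ∀ r ∈ L, ∀ j ∈ T, 0 < r j) : 0 < Pe L T := by
  induction L generalizing T with
  | nil =>
    have : T = ∅ := by
      rw [← Finset.card_eq_zero, ← hc]; rfl
    subst this; simp
  | cons r L ih =>
    rw [Pe_cons]
    have hT : 0 < T.card := by rw [← hc]; simp
    refine Finset.sum_pos (fun j hj => mul_pos (h r (by simp) j hj) (ih _ ?_ ?_))
      (Finset.card_pos.mp hT)
    · rw [Finset.card_erase_of_mem hj, ← hc]; simp
    · intro r' hr' j' hj'
      exact h r' (by simp [hr']) j' (Finset.mem_of_mem_erase hj')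

end Basic

section PermanentLink

variable {β : Type*} [DecidableEq β] [Fintype β]

lemma sum_inj_eq_Pe (m : ℕ) (M : Fin m → β → ℝ) (T : Finset β) (hT : T.card = m) :
    (∑ f : Fin m → β, if (Function.Injective f ∧ ∀ i, f i ∈ T) then ∏ i, M i (f i) else 0)
      = Pe (List.ofFn M) T := by
  induction m generalizing T with
  | zero =>
    have : T = ∅ := Finset.card_eq_zero.mp hT
    subst this
    simp [Function.injective_of_subsingleton]
  | succ m ih =>
    rw [List.ofFn_succ, Pe_cons, ← (Fin.consEquiv (fun _ => β)).sum_comp, Fintype.sum_prod_type]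
    rw [← Finset.sum_subset (Finset.subset_univ T)]
    · refine Finset.sum_congr rfl fun j hj => ?_
      rw [← ih (fun i => M i.succ) (T.erase j) (by rw [Finset.card_erase_of_mem hj, hT]; rfl),
        Finset.mul_sum]
      refine Finset.sum_congr rfl fun f _ => ?_
      have hcons : (Fin.consEquiv (fun _ => β)) (j, f) = (Fin.cons j f : Fin (m + 1) → β) := rfl
      have hinj : (Function.Injective (Fin.cons j f : Fin (m + 1) → β) ∧
          ∀ i, (Fin.cons j f : Fin (m + 1) → β) i ∈ T) ↔
          (Function.Injective f ∧ ∀ i, f i ∈ T.erase j) := by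
        rw [Fin.cons_injective_iff, Fin.forall_fin_succ]
        simp only [Fin.cons_zero, Fin.cons_succ, Finset.mem_erase, Set.mem_range, not_exists]
        constructor
        · rintro ⟨⟨h2, h3⟩, _, h4⟩
          exact ⟨h3, fun i => ⟨h2 i, h4 i⟩⟩
        · rintro ⟨h1, h2⟩
          exact ⟨⟨fun x => (h2 x).1, h1⟩, hj, fun i => (h2 i).2⟩
      rw [hcons]
      simp only [hinj, Fin.prod_univ_succ, Fin.cons_zero, Fin.cons_succ, mul_ite, mul_zero]
    · intro j _ hj
      refine Finset.sum_eq_zero fun f _ => ?_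
      rw [if_neg]
      rintro ⟨_, h⟩
      have := h 0
      simp only [Fin.consEquiv_apply, Fin.cons_zero] at this
      exact hj this

lemma permanent_eq_Pe (n : ℕ) (A : Matrix (Fin n) (Fin n) ℝ) :
    A.permanent = Pe (List.ofFn (fun i => A i)) Finset.univ := by
  rw [← sum_inj_eq_Pe n (fun i => A i) Finset.univ (by simp), ← Matrix.permanent_transpose,
    Matrix.permanent]
  simp only [Matrix.transpose_apply, Finset.mem_univ, implies_true, and_true]
  rw [← Finset.sum_filter]
  refine Finset.sum_bij (fun σ _ => (σ : Fin n → Fin n)) ?_ ?_ ?_ ?_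
  · intro σ _
    simp [σ.injective]
  · intro σ _ τ _ h
    exact Equiv.ext (fun x => congrFun h x)
  · intro f hf
    have hf' : Function.Injective f := by simpa using hf
    exact ⟨Equiv.ofBijective f (Finite.injective_iff_bijective.mp hf'), Finset.mem_univ _, rfl⟩
  · intro σ _
    rfl

/-- The columns version. -/
lemma permanent_eq_Pe_col (n : ℕ) (A : Matrix (Fin n) (Fin n) ℝ) :
    A.permanent = Pe (List.ofFn (fun j => fun i => A i j)) Finset.univ := by
  rw [← Matrix.permanent_transpose, permanent_eq_Pe]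
  rfl

end PermanentLink

end Pool.Agent.Helper67
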