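import Pool.Agent.Helper67.Energy

set_option autoImplicit false

/-!
The main cut inequality.
-/

namespace Pool.Agent.Helper67

open Finset Matrix

variable {n : ℕ}

lemma prod_erase_le (y : Fin n → ℝ) (hy : ∀ i, 1 ≤ y i) (S : Finset (Fin n)) (l i : Fin n)
    (hl : l ∈ S) (hi : i ∈ S) (hle : y i ≤ y l) :
    ∏ l' ∈ S.erase l, y l' ≤ ∏ l' ∈ S.erase i, y l' := by
  have h1 := Finset.mul_prod_erase S y hl
  have h2 := Finset.mul_prod_erase S y hi
  have h3 : 0 ≤ ∏ l' ∈ S.erase i, y l' := Finset.prod_nonneg fun j _ => by linarith [hy j]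
  have h4 : 0 < y l := by linarith [hy l]
  refine le_of_mul_le_mul_left ?_ h4
  rw [h1, ← h2]
  exact mul_le_mul_of_nonneg_right hle h3

namespace Srt

variable {A : Matrix (Fin n) (Fin n) ℝ}

/-- The middle estimate. -/
lemma mid (h : Srt A) (t : ℕ) (ht : t + 1 < n) (hP : 0 ≤ A.permanent)
    (hZ : lamIJ A (lo n t) (lo n (t + 2)) ≤ 1) :
    GG A ⟨t + 1, ht⟩ - FF A ⟨t, by omega⟩ ≤ A.permanent := by
  set i0 : Fin n := ⟨t, by omega⟩ with hi0
  set i1 : Fin n := ⟨t + 1, ht⟩ with hi1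
  have hen := h.toCrit.energy_le (lo n t) (lo n (t + 2)) (FF A i0 - GG A i1) (GG A i1 - FF A i0)
    (by
      intro k hk j hj
      rw [lo_compl, mem_hi] at hj
      rw [mem_lo] at hk
      have h1 : FF A i0 ≤ FF A k := h.Fanti (by rw [Fin.le_def, hi0]; exact hk.le)
      have h2 : GG A j ≤ GG A i1 := h.Ganti (by rw [Fin.le_def, hi1]; simp only; omega)
      linarith)
    (by
      intro k hk j hj
      rw [lo_compl, mem_hi] at hk
      rw [mem_lo] at hj
      have h1 : FF A k ≤ FF A i0 := h.Fanti (by rw [Fin.le_def, hi0]; exact hk)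
      have h2 : GG A i1 ≤ GG A j := h.Ganti (by rw [Fin.le_def, hi1]; simp only; omega)
      linarith)
  have hma := mass A (lo n t) (lo n (t + 2))
  rw [card_lo' (by omega : t ≤ n), card_lo' (by omega : t + 2 ≤ n)] at hma
  push_cast at hma
  set lmb := lamIJ A (lo n t) (lo n (t + 2)) with hlmb
  set m1 := ∑ k ∈ lo n t, ∑ j ∈ (lo n (t + 2))ᶜ, A k j
  set m2 := ∑ k ∈ (lo n t)ᶜ, ∑ j ∈ lo n (t + 2), A k j
  by_contra hcon
  push Not at hcon
  set b := GG A i1 - FF A i0 with hb
  have e1 : FF A i0 - GG A i1 = -b := by rw [hb]; ring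
  rw [e1] at hen
  have e2 : b * (2 - lmb) ≤ A.permanent * lmb := by
    have : m2 - m1 = 2 - lmb := by linarith
    rw [← this]; linarith
  have hbpos : 0 ≤ b := by linarith
  nlinarith

/-- The weight in the cut inequality. -/
noncomputable def TT (A : Matrix (Fin n) (Fin n) ℝ) (t : ℕ) (ht : t + 1 < n) : ℝ :=
  (∏ i ∈ (lo n (t + 1)).erase ⟨t, by omega⟩, max 1 (rs A i))
    * (∏ l ∈ (hi n (t + 1)).erase ⟨t + 1, ht⟩, max 1 (cs A l))

lemma one_le_TT (A : Matrix (Fin n) (Fin n) ℝ) (t : ℕ) (ht : t + 1 < n) : 1 ≤ TT A t ht := by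
  unfold TT
  have h1 := prod_ge_one (fun i => max 1 (rs A i)) (fun i => le_max_left _ _)
    ((lo n (t + 1)).erase ⟨t, by omega⟩)
  have h2 := prod_ge_one (fun i => max 1 (cs A i)) (fun i => le_max_left _ _)
    ((hi n (t + 1)).erase ⟨t + 1, ht⟩)
  nlinarith

lemma mL_nonneg (h : Srt A) (s : ℕ) : 0 ≤ mL A s :=
  Finset.sum_nonneg fun k _ => Finset.sum_nonneg fun j _ => h.nonneg k j

/-- The block estimate in terms of the cut. -/
lemma block (h : Srt A) (t : ℕ) (ht : t + 1 < n) (hm : mL A (t + 1) ≤ 1) :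
    ((t : ℝ) + 1) * (n - (t + 1)) *
      (A.permanent - FF A ⟨t + 1, ht⟩ + GG A ⟨t, by omega⟩) ≤ TT A t ht * mU A (t + 1) := by
  set i0 : Fin n := ⟨t, by omega⟩ with hi0
  set i1 : Fin n := ⟨t + 1, ht⟩ with hi1
  have m0 : i0 ∈ lo n (t + 1) := by rw [mem_lo, hi0]; simp
  have m1 : i1 ∈ hi n (t + 1) := by rw [mem_hi, hi1]
  have hb := block_bound A h.nonneg h.rpos (t + 1) ht.le hm
    (∏ l ∈ (hi n (t + 1)).erase i1, max 1 (cs A l)) (by
      intro l hl
      have hl' := mem_hi.mp hl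
      refine prod_erase_le (fun l => max 1 (cs A l)) (fun i => le_max_left _ _) _ l i1 hl m1 ?_
      exact max_le_max (le_refl _) (h.cmono (by rw [Fin.le_def, hi1]; exact hl')))
    (∏ i ∈ (lo n (t + 1)).erase i0, max 1 (rs A i)) (by
      intro i hi
      have hi' := mem_lo.mp hi
      refine le_trans ?_ (prod_erase_le (fun l => max 1 (rs A l)) (fun i => le_max_left _ _) _
        i i0 hi m0 ?_)
      · exact Finset.prod_le_prod (fun j _ => (h.rpos j).le) fun j _ => le_max_right _ _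
      · exact max_le_max (le_refl _) (h.ranti (by rw [Fin.le_def, hi0]; simp only; omega)))
  have hc : ∑ k ∈ hi n (t + 1), ∑ j ∈ lo n (t + 1), (A.permanent - FF A i1 + GG A i0)
      ≤ ∑ k ∈ hi n (t + 1), ∑ j ∈ lo n (t + 1), mn A k j := by
    refine Finset.sum_le_sum fun k hk => Finset.sum_le_sum fun j hj => ?_
    have hk' := mem_hi.mp hk
    have hj' := mem_lo.mp hj
    have h1 : FF A k ≤ FF A i1 := h.Fanti (by rw [Fin.le_def, hi1]; exact hk')
    have h2 : GG A i0 ≤ GG A j := h.Ganti (by rw [Fin.le_def, hi0]; simp only; omega)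
    linarith [h.ge k j]
  have hcard1 : ((lo n (t + 1)).card : ℝ) = t + 1 := by
    rw [card_lo' ht.le]; push_cast; ring
  have hcard2 : ((hi n (t + 1)).card : ℝ) = n - (t + 1) := by
    have := Finset.card_compl_add_card (lo n (t + 1))
    rw [lo_compl, Fintype.card_fin] at this
    have h3 : ((hi n (t + 1)).card : ℝ) + (lo n (t + 1)).card = n := by exact_mod_cast this
    rw [hcard1] at h3
    linarith
  simp only [Finset.sum_const, nsmul_eq_mul, hcard1, hcard2] at hc
  have hfin := hc.trans hb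
  unfold TT mU
  calc ((t : ℝ) + 1) * (n - (t + 1)) * (A.permanent - FF A i1 + GG A i0)
      = (n - ((t : ℝ) + 1)) * ((t + 1) * (A.permanent - FF A i1 + GG A i0)) := by ring
    _ ≤ _ := hfin

/-- The cut inequality. -/
lemma star (h : Srt A) (t : ℕ) (ht : t + 1 < n) (hP : 0 ≤ A.permanent)
    (hPn : A.permanent * (n : ℝ) ^ 2 ≤ 2)
    (hZ : lamIJ A (lo n t) (lo n (t + 2)) ≤ 1) (hlam : 0 < lam A (t + 1)) :
    ((t : ℝ) + 1) * (n - (t + 1)) *
      (FF A ⟨t, by omega⟩ - FF A ⟨t + 1, ht⟩ + (GG A ⟨t, by omega⟩ - GG A ⟨t + 1, ht⟩))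
      ≤ TT A t ht * lam A (t + 1) := by
  have hmid := h.mid t ht hP hZ
  have hblock := h.block t ht
  set i0 : Fin n := ⟨t, by omega⟩ with hi0
  set i1 : Fin n := ⟨t + 1, ht⟩ with hi1
  have hT := one_le_TT A t ht
  set T := TT A t ht
  set W : ℝ := ((t : ℝ) + 1) * (n - (t + 1)) with hW
  set L := lam A (t + 1) with hL
  set P := A.permanent with hPdef
  have hn : (t : ℝ) + 2 ≤ n := by exact_mod_cast ht
  have ht0 : (0 : ℝ) ≤ t := Nat.cast_nonneg t
  have hWpos : 0 < W := by rw [hW]; apply mul_pos <;> linarith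
  have hW4 : W * 4 ≤ (n : ℝ) ^ 2 := by
    rw [hW]; nlinarith [sq_nonneg ((n : ℝ) - 2 * (t + 1))]
  have hmass : mU A (t + 1) - mL A (t + 1) = L := mU_sub_mL A (t + 1)
  have hmL : 0 ≤ mL A (t + 1) := h.mL_nonneg (t + 1)
  have hen : (FF A i0 - GG A i1) * mU A (t + 1) + (GG A i0 - FF A i1) * mL A (t + 1) ≤ P * L := by
    have := h.toCrit.energy_le (lo n (t + 1)) (lo n (t + 1)) (FF A i0 - GG A i1)
      (GG A i0 - FF A i1)
      (by
        intro k hk j hj
        rw [lo_compl, mem_hi] at hj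
        rw [mem_lo] at hk
        have h1 : FF A i0 ≤ FF A k := h.Fanti (by rw [Fin.le_def, hi0]; simp only; omega)
        have h2 : GG A j ≤ GG A i1 := h.Ganti (by rw [Fin.le_def, hi1]; exact hj)
        linarith)
      (by
        intro k hk j hj
        rw [lo_compl, mem_hi] at hk
        rw [mem_lo] at hj
        have h1 : FF A k ≤ FF A i1 := h.Fanti (by rw [Fin.le_def, hi1]; exact hk)
        have h2 : GG A i0 ≤ GG A j := h.Ganti (by rw [Fin.le_def, hi0]; simp only; omega)
        linarith)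
    rw [lo_compl] at this
    exact this
  have hF : FF A i1 ≤ FF A i0 := h.Fanti (by rw [Fin.le_def, hi0, hi1]; simp)
  have hG : GG A i1 ≤ GG A i0 := h.Ganti (by rw [Fin.le_def, hi0, hi1]; simp)
  -- a ≤ P
  have haP : FF A i0 - GG A i1 ≤ P := by
    have hmU : 0 < mU A (t + 1) := by linarith
    have : ∃ k ∈ lo n (t + 1), ∃ j ∈ hi n (t + 1), 0 < A k j := by
      by_contra hcon
      push Not at hcon
      have : mU A (t + 1) ≤ 0 :=
        Finset.sum_nonpos fun k hk => Finset.sum_nonpos fun j hj => hcon k hk j hj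
      linarith
    obtain ⟨k, hk, j, hj, hkj⟩ := this
    have hk' := mem_lo.mp hk
    have hj' := mem_hi.mp hj
    have h1 : FF A i0 ≤ FF A k := h.Fanti (by rw [Fin.le_def, hi0]; simp only; omega)
    have h2 : GG A j ≤ GG A i1 := h.Ganti (by rw [Fin.le_def, hi1]; exact hj')
    have h3 := h.eq k j hkj
    have h4 := mn_nonneg A h.nonneg k j
    linarith
  set a := FF A i0 - GG A i1 with ha
  set b := GG A i0 - FF A i1 with hb
  have hSab : FF A i0 - FF A i1 + (GG A i0 - GG A i1) = a + b := by rw [ha, hb]; ring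
  rw [hSab]
  have hS0 : 0 ≤ a + b := by rw [← hSab]; linarith
  by_cases hcase : W * (a + b) ≤ L
  · nlinarith
  push Not at hcase
  have hSpos : 0 < a + b := by
    by_contra hcon
    push Not at hcon
    have : a + b = 0 := le_antisymm hcon hS0
    rw [this] at hcase
    linarith
  have hm1 : mL A (t + 1) * (a + b) ≤ 2 * P * L := by
    have e1 : mU A (t + 1) = mL A (t + 1) + L := by linarith
    rw [e1] at hen
    have e2 : mL A (t + 1) * (a + b) ≤ (P - a) * L := by nlinarith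
    have e3 : P - a ≤ 2 * P := by linarith
    exact e2.trans (mul_le_mul_of_nonneg_right e3 hlam.le)
  have hm2 : mL A (t + 1) ≤ 1 := by
    have e1 : 2 * P * L ≤ 2 * P * (W * (a + b)) :=
      mul_le_mul_of_nonneg_left hcase.le (by linarith)
    have e2 : mL A (t + 1) * (a + b) ≤ (2 * P * W) * (a + b) := by linarith
    have e3 : mL A (t + 1) ≤ 2 * P * W := le_of_mul_le_mul_right e2 hSpos
    have e4 : P * (W * 4) ≤ P * (n : ℝ) ^ 2 := mul_le_mul_of_nonneg_left hW4 hP
    linarith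
  have hY := hblock hm2
  have hYeq : P - FF A i1 + GG A i0 = P + b := by rw [hb]; ring
  rw [hYeq] at hY
  have hYpos : 0 < P + b := by linarith
  have hmU : mU A (t + 1) * (a + b) ≤ L * (P + b) := by
    have e1 : mL A (t + 1) = mU A (t + 1) - L := by linarith
    rw [e1] at hen
    nlinarith
  have e1 : (W * (a + b)) * (P + b) ≤ (T * L) * (P + b) := by
    calc (W * (a + b)) * (P + b) = (W * (P + b)) * (a + b) := by ring
      _ ≤ (T * mU A (t + 1)) * (a + b) := mul_le_mul_of_nonneg_right hY hS0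
      _ = T * (mU A (t + 1) * (a + b)) := by ring
      _ ≤ T * (L * (P + b)) := mul_le_mul_of_nonneg_left hmU (by linarith)
      _ = (T * L) * (P + b) := by ring
  exact le_of_mul_le_mul_right e1 hYpos

end Srt

end Pool.Agent.Helper67
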